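import Pool.Agent.H30.VMR.B12

/-!
# MODULE B: the three prime ideals
-/

noncomputable section

namespace Pool.VMR

open MvPolynomial QuadraticAlgebra

section two

variable {R : Type*} [CommRing R]

/-- the square of `z4 / z1` -/
def sy (q : R) : R := 1 + q ^ 5

/-- the square of `w` -/
def sw (p q v : R) : QA R (sy q) := ⟨p ^ 2 * (q ^ 6 + q ^ 2) - v * p * q ^ 3, v * p⟩

/-- the tower -/
abbrev Tv (p q v : R) : Type _ := QA (QA R (sy q)) (sw p q v)

/-- constants -/
def cs2 (p q v : R) : R →+* Tv p q v := (em (sw p q v)).comp (em _)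

theorem cs2_eq (p q v x : R) : cs2 p q v x = em (sw p q v) (em (sy q) x) := rfl

/-- the coordinates -/
def cr2 (p q v : R) : Fin 7 → Tv p q v :=
  ![cs2 p q v (p * q ^ 4 - v * q), cs2 p q v v, cs2 p q v p, cs2 p q v (p * q),
    cs2 p q v (p * q ^ 2), cs2 p q v p * em (sw p q v) (om _), om _]

theorem sw_eq (p q v : R) : sw p q v = em (sy q) (p ^ 2 * (q ^ 6 + q ^ 2) - v * p * q ^ 3) +
    em (sy q) (v * p) * om (sy q) := mk_eq _ _ _

theorem cr2_f (p q v : R) : f1 (cr2 p q v) = 0 ∧ f2 (cr2 p q v) = 0 ∧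
    f3 (cr2 p q v) = 0 := by
  have h4 : em (sw p q v) (om (sy q)) * em (sw p q v) (om (sy q)) =
      1 + cs2 p q v q ^ 5 := by
    rw [← map_mul, om_sq, ← cs2_eq]
    show cs2 p q v (1 + q ^ 5) = _
    rw [map_add, map_one, map_pow]
  have h6 : om (sw p q v) * om (sw p q v) =
      cs2 p q v (p ^ 2 * (q ^ 6 + q ^ 2) - v * p * q ^ 3) +
        cs2 p q v (v * p) * em (sw p q v) (om (sy q)) := by
    rw [om_sq]
    refine (congrArg (fun x => em (sw p q v) x) (sw_eq p q v)).trans ?_
    rw [map_add, map_mul, ← cs2_eq, ← cs2_eq]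
  apply gen_f
  · simp only [map_sub, map_mul, map_pow]
    ring
  · simp only [map_sub, map_mul, map_pow]
    linear_combination (cs2 p q v p) ^ 2 * h4
  · simp only [map_sub, map_mul, map_pow, map_add] at h6 ⊢
    linear_combination h6

/-- the map to the tower -/
def ph2 (e : ℂ →+* R) (p q v : R) : Po 6 →+* Tv p q v :=
  eval₂Hom ((cs2 p q v).comp e) (cr2 p q v)

theorem ph2_F (e : ℂ →+* R) (p q v : R) : ph2 e p q v F1 = 0 ∧ ph2 e p q v F2 = 0 ∧
    ph2 e p q v F3 = 0 ∧ ph2 e p q v DD = 0 := by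
  obtain ⟨h1, h2, h3⟩ := cr2_f p q v
  refine ⟨?_, ?_, ?_, ?_⟩
  · rw [← h1]
    simp [ph2, F1, f1]
  · rw [← h2]
    simp [ph2, F2, f2]
  · rw [← h3]
    simp [ph2, F3, f3]
  · have h : cr2 p q v 2 * cr2 p q v 4 - cr2 p q v 3 ^ 2 = 0 := by
      show cs2 p q v p * cs2 p q v (p * q ^ 2) - cs2 p q v (p * q) ^ 2 = 0
      rw [← map_mul, ← map_pow, ← map_sub]
      have : p * (p * q ^ 2) - (p * q) ^ 2 = 0 := by ring
      rw [this, map_zero]
    rw [← h]
    simp [ph2, DD]

/-- the kernel is not too big -/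
theorem ph2_ker {A : Type*} [CommRing A] (e : ℂ →+* R) (p q v : R) (g : Po 6 →+* A)
    (h1 : g F1 = 0) (h2 : g F2 = 0) (h3 : g F3 = 0) (h4 : g DD = 0) (t : A)
    (ht : g (X 2) * t = 1) (r : R →+* A)
    (he : ∀ x, r (e x) = g (C x)) (hp : r p = g (X 2)) (hq : r q = g (X 3) * t)
    (hv : r v = g (X 1)) (P : Po 6) (hP : ph2 e p q v P = 0) : g P = 0 := by
  simp only [F1, f1, map_add, map_sub, map_mul, map_pow] at h1
  simp only [F2, f2, map_add, map_sub, map_mul, map_pow] at h2
  simp only [F3, f3, map_add, map_sub, map_mul, map_pow] at h3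
  simp only [DD, map_sub, map_mul, map_pow] at h4
  -- `z3 = z2^2 / z1`, `u = (z3^2 - v z2) / z1`
  have e4 : g (X 4) = g (X 3) ^ 2 * t := by
    linear_combination t * h4 - g (X 4) * ht
  have e0 : g (X 0) = (g (X 4) ^ 2 - g (X 1) * g (X 3)) * t := by
    linear_combination t * h1 - g (X 0) * ht
  rw [e4] at e0
  have k1 : (g (X 5) * t) * (g (X 5) * t) = r (sy q) := by
    have e2 : g (X 2) ^ 2 * t ^ 2 = 1 := by
      rw [← mul_pow, ht, one_pow]
    rw [sy, map_add, map_one, map_pow, hq]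
    rw [e0, e4] at h2
    linear_combination (-t ^ 2) * h2 + e2
  obtain ⟨r1, hr1, hr1'⟩ : ∃ r1 : QA R (sy q) →+* A, (∀ x, r1 (em _ x) = r x) ∧
      r1 (om _) = g (X 5) * t := ⟨lft r _ _ k1, lft_em r _ _ k1, lft_om r _ _ k1⟩
  have k2 : g (X 6) * g (X 6) = r1 (sw p q v) := by
    rw [sw_eq, map_add, map_mul, hr1, hr1, hr1']
    simp only [map_add, map_sub, map_mul, map_pow, hp, hq, hv]
    rw [e0, e4] at h3
    linear_combination (-1 : A) * h3 - ((g (X 3) ^ 6 * t ^ 4 + g (X 3) ^ 2) * (1 + g (X 2) * t) -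
      g (X 1) * g (X 3) ^ 3 * t ^ 2 + g (X 1) * g (X 5)) * ht
  obtain ⟨r2, hr2, hr2'⟩ : ∃ r2 : Tv p q v →+* A, (∀ x, r2 (em _ x) = r1 x) ∧
      r2 (om _) = g (X 6) := ⟨lft r1 _ _ k2, lft_em r1 _ _ k2, lft_om r1 _ _ k2⟩
  have hc : ∀ x, r2 (cs2 p q v x) = r x := by
    intro x
    rw [cs2_eq, hr2, hr1]
  have key : r2.comp (ph2 e p q v) = g := by
    apply MvPolynomial.ringHom_ext
    · intro x
      rw [RingHom.comp_apply, ph2, coe_eval₂Hom, eval₂_C, RingHom.comp_apply, hc, he]
    · intro i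
      rw [RingHom.comp_apply, ph2, coe_eval₂Hom, eval₂_X]
      fin_cases i
      · refine (hc _).trans ?_
        simp only [map_sub, map_mul, map_pow, hp, hq, hv]
        show _ = g (X 0)
        rw [e0]
        linear_combination g (X 3) ^ 4 * t ^ 3 * ht
      · exact (hc v).trans hv
      · exact (hc p).trans hp
      · refine (hc _).trans ?_
        simp only [map_mul, hp, hq]
        show _ = g (X 3)
        linear_combination g (X 3) * ht
      · refine (hc _).trans ?_
        simp only [map_mul, map_pow, hp, hq]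
        show _ = g (X 4)
        rw [e4]
        linear_combination g (X 3) ^ 2 * t * ht
      · show r2 (cs2 p q v p * em (sw p q v) (om _)) = g (X 5)
        rw [map_mul, hc, hr2, hr1', hp]
        linear_combination g (X 5) * ht
      · exact hr2'
  rw [← key, RingHom.comp_apply, hP, map_zero]

/-- the tower is a domain -/
theorem tv_domain [IsDomain R] (p q v : R) (h4 : NSq (sy q))
    (h6 : NSq ((p ^ 2 * (q ^ 6 + q ^ 2) - v * p * q ^ 3) ^ 2 - sy q * (v * p) ^ 2)) :
    IsDomain (Tv p q v) := by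
  have d4 := qa_domain h4
  exact qa_domain (nsq_of_nm h4 _ h6)

end two

theorem span4 (a b c d : Po 6) :
    Ideal.span {a, b, c, d} = Ideal.span {a, b, c} ⊔ Ideal.span {d} := by
  rw [← Ideal.span_union]
  congr 1
  ext P
  simp
  tauto

theorem b3_nzd {Q : Po 6} (h : X 2 * Q ∈ Ideal.span {F1, F2, F3, DD}) :
    Q ∈ Ideal.span {F1, F2, F3, DD} := by
  have s1 : Ideal.span {F1, F2, F3, DD} = I0 ⊔ Ideal.span {DD} := by
    exact span4 _ _ _ _
  have s2 : Ideal.span {F1, F2, F3, X 2} = I0 ⊔ Ideal.span {(X 2 : Po 6)} := by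
    exact span4 _ _ _ _
  have hD : DD ∉ Ideal.span {F1, F2, F3, (X 2 : Po 6)} := by
    intro hm
    have hle : Ideal.span {F1, F2, F3, (X 2 : Po 6)} ≤
        RingHom.ker (eval (![0, 0, 0, 1, 0, 0, 1] : V 6)) := by
      rw [Ideal.span_le]
      intro P hP
      simp only [Set.mem_insert_iff, Set.mem_singleton_iff] at hP
      rcases hP with rfl | rfl | rfl | rfl
      · show eval _ F1 = 0
        rw [eval_F1]
        simp [f1]
      · show eval _ F2 = 0
        rw [eval_F2]
        simp [f2]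
      · show eval _ F3 = 0
        rw [eval_F3]
        simp [f3]
      · show eval _ (X 2) = 0
        simp
    have := hle hm
    rw [RingHom.mem_ker] at this
    simp [DD] at this
  rw [s1, Submodule.mem_sup] at h
  obtain ⟨i, hi, d, hd, hid⟩ := h
  obtain ⟨c, rfl⟩ := Ideal.mem_span_singleton'.mp hd
  have hc : c ∈ Ideal.span {F1, F2, F3, (X 2 : Po 6)} := by
    refine (b2_prime.mem_or_mem (y := DD) ?_).resolve_right hD
    rw [s2]
    have : c * DD = -i + Q * X 2 := by linear_combination hid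
    rw [this]
    exact Submodule.add_mem_sup (I0.neg_mem hi) (Ideal.mem_span_singleton'.mpr ⟨Q, rfl⟩)
  rw [s2, Submodule.mem_sup] at hc
  obtain ⟨j, hj, d', hd', hjd⟩ := hc
  obtain ⟨c', rfl⟩ := Ideal.mem_span_singleton'.mp hd'
  have h3 : X 2 * (Q - c' * DD) ∈ I0 := by
    have : X 2 * (Q - c' * DD) = i + j * DD := by
      linear_combination -hid - DD * hjd
    rw [this]
    exact I0.add_mem hi (I0.mul_mem_right _ hj)
  have h4 := (b1_prime.mem_or_mem h3).resolve_left X2_notMem
  rw [s1]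
  have : Q = (Q - c' * DD) + c' * DD := by ring
  rw [this]
  exact Submodule.add_mem_sup h4 (Ideal.mem_span_singleton'.mpr ⟨c', rfl⟩)

/-- MODULE B3 -/
theorem b3_prime : (Ideal.span {F1, F2, F3, DD}).IsPrime := by
  set R := MvPolynomial (Fin 3) ℂ with hR
  set J : Ideal (Po 6) := Ideal.span {F1, F2, F3, DD} with hJ
  have m1 : F1 ∈ J := Ideal.subset_span (by simp)
  have m2 : F2 ∈ J := Ideal.subset_span (by simp)
  have m3 : F3 ∈ J := Ideal.subset_span (by simp)
  have m4 : DD ∈ J := Ideal.subset_span (by simp)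
  have hd : IsDomain (Tv (X 0 : R) (X 1) (X 2)) := by
    apply tv_domain
    · apply nsq_of_point _ ![1, -1, -2] 1
      · simp [sy]
        norm_num
      · simp [sy, pderiv_X]
    · apply nsq_of_point _ ![1, -1, -2] 1
      · simp [sy]
        norm_num
      · simp [sy, pderiv_X]
        norm_num
  have hk : RingHom.ker (ph2 (C : ℂ →+* R) (X 0) (X 1) (X 2)) = J := by
    obtain ⟨h1, h2, h3, h4⟩ := ph2_F (C : ℂ →+* R) (X 0) (X 1) (X 2)
    apply le_antisymm
    · intro P hP
      set A := Localization.Away (Ideal.Quotient.mk J (X 2)) with hA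
      set g : Po 6 →+* A := (algebraMap (Po 6 ⧸ J) A).comp (Ideal.Quotient.mk J) with hg
      have hz : ∀ Q ∈ J, g Q = 0 := by
        intro Q hQ
        rw [hg, RingHom.comp_apply, Ideal.Quotient.eq_zero_iff_mem.mpr hQ, map_zero]
      set t : A := IsLocalization.Away.invSelf (Ideal.Quotient.mk J (X 2)) with ht
      have htt : g (X 2) * t = 1 := IsLocalization.Away.mul_invSelf (Ideal.Quotient.mk J (X 2))
      have h0 : g P = 0 := by
        apply ph2_ker (C : ℂ →+* R) (X 0) (X 1) (X 2) g (hz _ m1) (hz _ m2) (hz _ m3) (hz _ m4)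
          t htt (eval₂Hom (g.comp C) ![g (X 2), g (X 3) * t, g (X 1)])
        · intro x
          simp
        · simp
        · simp
        · simp
        · exact hP
      rw [hg, RingHom.comp_apply, IsLocalization.map_eq_zero_iff
        (Submonoid.powers (Ideal.Quotient.mk J (X 2)))] at h0
      obtain ⟨⟨m, k, rfl⟩, hm⟩ := h0
      have h5 : X 2 ^ k * P ∈ J := by
        rw [← Ideal.Quotient.eq_zero_iff_mem, map_mul, map_pow]
        exact hm
      clear hm
      induction k with
      | zero => simpa using h5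
      | succ k ih =>
        apply ih
        apply b3_nzd
        rw [← mul_assoc, ← pow_succ']
        exact h5
    · rw [hJ, Ideal.span_le]
      intro Q hQ
      simp only [Set.mem_insert_iff, Set.mem_singleton_iff] at hQ
      rcases hQ with rfl | rfl | rfl | rfl
      · exact h1
      · exact h2
      · exact h3
      · exact h4
  rw [← hk]
  exact RingHom.ker_isPrime _

/-- MODULE B -/
theorem primesS : PrimesS := ⟨b1_prime, b2_prime, b3_prime⟩

end Pool.VMR
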