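import Pool.Agent.H30.VMR.C1Inf

/-!
# Module C1: the vertical primes stay prime

`NSqF q c` (C1Inf) says that `c` is not a square in the fraction field of `ℂ[a,b] / (q)`.
-/

noncomputable section

namespace Pool.VMR

open MvPolynomial

/-- the place at infinity, on the divisors of the discriminant -/
def C1InfS : Prop :=
  ∀ q : Rab, Irreducible q →
    q ∣ cc1 (X 0) (X 1) ^ 2 - cc0 (X 0) (X 1) * cc2 (X 0) (X 1) →
    NSqF q (cc2 (X 0) (X 1)) ∨ NSqF q (cc0 (X 0) (X 1))

namespace C1

/-- a square of a polynomial over a field that is quadratic -/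
theorem sq_form {k : Type*} [Field k] [CharZero k] (c0 c1 c2 : k) (s : Polynomial k)
    (h : s ^ 2 = qz c0 c1 c2) : ∃ p r : k, p ^ 2 = c0 ∧ p * r = c1 ∧ r ^ 2 = c2 := by
  have hd : (qz c0 c1 c2).natDegree ≤ 2 := by
    unfold qz
    compute_degree
  have hs : s.natDegree ≤ 1 := by
    have h2 : (s ^ 2).natDegree = 2 * s.natDegree := Polynomial.natDegree_pow s 2
    rw [h] at h2
    omega
  have hs' := Polynomial.eq_X_add_C_of_natDegree_le_one hs
  set r := s.coeff 1
  set p := s.coeff 0
  have key : (Polynomial.C r * Polynomial.X + Polynomial.C p) ^ 2 =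
      Polynomial.C (p ^ 2) + Polynomial.C (2 * (p * r)) * Polynomial.X +
        Polynomial.C (r ^ 2) * Polynomial.X ^ 2 := by
    simp only [Polynomial.C_mul, Polynomial.C_pow]
    have h2 : (Polynomial.C (2 : k)) = 2 := rfl
    rw [h2]
    ring
  rw [hs', key, qz] at h
  have hco : ∀ (x y z : k) (j : ℕ), (Polynomial.C x + Polynomial.C y * Polynomial.X +
      Polynomial.C z * Polynomial.X ^ 2).coeff j =
      (if j = 0 then x else 0) + (if j = 1 then y else 0) + (if j = 2 then z else 0) := by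
    intro x y z j
    simp only [Polynomial.coeff_add, Polynomial.coeff_C, Polynomial.coeff_C_mul,
      Polynomial.coeff_X, Polynomial.coeff_X_pow]
    simp [eq_comm]
  have e0 := congrArg (fun f => Polynomial.coeff f 0) h
  have e1 := congrArg (fun f => Polynomial.coeff f 1) h
  have e2 := congrArg (fun f => Polynomial.coeff f 2) h
  simp only [hco] at e0 e1 e2
  simp at e0 e1 e2
  exact ⟨p, r, e0, e1, e2⟩

/-- the pull-back of a square in the fraction field -/
theorem sq_pull {q c : Rab} (hq : (Ideal.span {q}).IsPrime)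
    (h : ∃ r : FractionRing (Rab ⧸ Ideal.span {q}),
      r ^ 2 = algebraMap (Rab ⧸ Ideal.span {q}) _ (Ideal.Quotient.mk _ c)) : ¬ NSqF q c := by
  have := hq
  obtain ⟨r, hr⟩ := h
  intro hn
  apply hn
  obtain ⟨⟨x', y'⟩, hxy⟩ := IsLocalization.surj (nonZeroDivisors (Rab ⧸ Ideal.span {q})) r
  obtain ⟨x, rfl⟩ := Ideal.Quotient.mk_surjective x'
  obtain ⟨y, hy⟩ := Ideal.Quotient.mk_surjective (y' : Rab ⧸ Ideal.span {q})
  refine ⟨x, y, ?_, ?_⟩
  · intro hd
    have h0 : (y' : Rab ⧸ Ideal.span {q}) = 0 := by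
      rw [← hy]
      exact Ideal.Quotient.eq_zero_iff_mem.2 (Ideal.mem_span_singleton.2 hd)
    exact nonZeroDivisors.ne_zero y'.2 h0
  · rw [← Ideal.mem_span_singleton, ← Ideal.Quotient.eq_zero_iff_mem]
    have hinj : Function.Injective (algebraMap (Rab ⧸ Ideal.span {q})
        (FractionRing (Rab ⧸ Ideal.span {q}))) := IsFractionRing.injective _ _
    apply hinj
    rw [map_zero]
    have hxy' : r * algebraMap (Rab ⧸ Ideal.span {q}) (FractionRing (Rab ⧸ Ideal.span {q}))
        (Ideal.Quotient.mk (Ideal.span {q}) y) =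
        algebraMap (Rab ⧸ Ideal.span {q}) (FractionRing (Rab ⧸ Ideal.span {q}))
          (Ideal.Quotient.mk (Ideal.span {q}) x) := by
      rw [hy]
      exact hxy
    rw [map_sub, map_mul, map_pow, map_pow, map_sub, map_mul, map_pow, map_pow, ← hxy', ← hr]
    ring

/-- the polynomial `w² - g` is irreducible when `g` is not a square -/
theorem irr_qw {k : Type*} [Field k] [CharZero k] (c0 c1 c2 : k)
    (h : ¬ ∃ s : Polynomial k, s ^ 2 = qz c0 c1 c2) : Irreducible (qw c0 c1 c2) := by
  have hm : (qw c0 c1 c2).Monic := Polynomial.monic_X_pow_sub_C _ (by norm_num)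
  have hdeg : (qw c0 c1 c2).natDegree = 2 := Polynomial.natDegree_X_pow_sub_C
  rw [Polynomial.Monic.irreducible_iff_roots_eq_zero_of_degree_le_three hm (by omega) (by omega)]
  rw [Multiset.eq_zero_iff_forall_notMem]
  intro s hs
  rw [Polynomial.mem_roots hm.ne_zero] at hs
  apply h
  refine ⟨s, ?_⟩
  have : Polynomial.eval s (qw c0 c1 c2) = 0 := hs
  simp only [qw, Polynomial.eval_sub, Polynomial.eval_pow, Polynomial.eval_X,
    Polynomial.eval_C] at this
  exact sub_eq_zero.1 this

/-- a polynomial with coefficients divisible by `q` -/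
theorem mem_of_coeff {R : Type*} [CommRing R] {q : R} (J : Ideal (Polynomial (Polynomial R)))
    (hJ : Polynomial.C (Polynomial.C q) ∈ J) (P : Polynomial (Polynomial R))
    (h : ∀ i j, q ∣ (P.coeff i).coeff j) : P ∈ J := by
  have key : ∀ i j, Polynomial.C (Polynomial.C ((P.coeff i).coeff j)) ∈ J := by
    intro i j
    obtain ⟨t, ht⟩ := h i j
    rw [ht, map_mul, map_mul]
    exact Ideal.mul_mem_right _ _ hJ
  have key2 : ∀ i, Polynomial.C (P.coeff i) ∈ J := by
    intro i
    rw [Polynomial.as_sum_range_C_mul_X_pow (P.coeff i), map_sum]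
    refine Ideal.sum_mem _ fun j _ => ?_
    rw [map_mul]
    exact Ideal.mul_mem_right _ _ (key i j)
  rw [Polynomial.as_sum_range_C_mul_X_pow P]
  exact Ideal.sum_mem _ fun i _ => Ideal.mul_mem_right _ _ (key2 i)

/-- the ideal is the preimage of the one over the field -/
theorem comap_eq {k : Type*} [Field k] (f : Rab →+* k) (q : Rab) (c0 c1 c2 : Rab)
    (hker : ∀ x : Rab, f x = 0 → q ∣ x) (hfq : f q = 0) :
    Ideal.comap (Polynomial.mapRingHom (Polynomial.mapRingHom f))
        (Ideal.span {qw (f c0) (f c1) (f c2)}) =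
      Ideal.span {qw c0 c1 c2, Polynomial.C (Polynomial.C q)} := by
  have hqm : (qw c0 c1 c2).Monic := Polynomial.monic_X_pow_sub_C _ (by norm_num)
  have hqd : (qw c0 c1 c2).natDegree = 2 := Polynomial.natDegree_X_pow_sub_C
  have hm : (qw (f c0) (f c1) (f c2)).Monic := Polynomial.monic_X_pow_sub_C _ (by norm_num)
  have hmd : (qw (f c0) (f c1) (f c2)).natDegree = 2 := Polynomial.natDegree_X_pow_sub_C
  generalize hF : Polynomial.mapRingHom (Polynomial.mapRingHom f) = F
  have hFq : F (qw c0 c1 c2) = qw (f c0) (f c1) (f c2) := by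
    rw [← hF]
    have h2 : f 2 = 2 := map_ofNat f 2
    simp [qw, qz, h2]
  apply le_antisymm
  · intro P hP
    rw [Ideal.mem_comap, Ideal.mem_span_singleton] at hP
    have hdiv := Polynomial.modByMonic_add_div P (qw c0 c1 c2)
    have h1 : (qw c0 c1 c2) * (P /ₘ (qw c0 c1 c2)) ∈
        Ideal.span {qw c0 c1 c2, Polynomial.C (Polynomial.C q)} :=
      Ideal.mul_mem_right _ _ (Ideal.subset_span (by simp))
    rw [← hdiv]
    refine Ideal.add_mem _ ?_ h1
    apply mem_of_coeff (q := q) _ (Ideal.subset_span (by simp))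
    -- the remainder is zero over k
    have hR : F (P %ₘ (qw c0 c1 c2)) = 0 := by
      have hmem : qw (f c0) (f c1) (f c2) ∣ F (P %ₘ (qw c0 c1 c2)) := by
        have e : F (P %ₘ (qw c0 c1 c2)) =
            F P - F (qw c0 c1 c2) * F (P /ₘ (qw c0 c1 c2)) := by
          rw [← map_mul, ← map_sub]
          congr 1
          exact eq_sub_of_add_eq hdiv
        rw [e, hFq]
        exact dvd_sub hP (dvd_mul_right _ _)
      by_contra hne
      have hdg := Polynomial.degree_le_of_dvd hmem hne
      have h3 : (F (P %ₘ (qw c0 c1 c2))).degree < 2 := by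
        rw [← hF]
        refine lt_of_le_of_lt (Polynomial.degree_map_le) ?_
        have := Polynomial.degree_modByMonic_lt P hqm
        rw [Polynomial.degree_eq_natDegree hqm.ne_zero, hqd] at this
        exact this
      have h4 : (qw (f c0) (f c1) (f c2)).degree = 2 := by
        rw [Polynomial.degree_eq_natDegree hm.ne_zero, hmd]
        rfl
      rw [h4] at hdg
      exact absurd hdg (not_le.2 h3)
    intro i j
    apply hker
    have := congrArg (fun G => (Polynomial.coeff (Polynomial.coeff G i) j)) hR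
    rw [← hF] at this
    simpa using this
  · rw [Ideal.span_le]
    intro P hP
    rw [SetLike.mem_coe, Ideal.mem_comap, Ideal.mem_span_singleton]
    rcases hP with rfl | hP
    · rw [hFq]
    · have hP' : P = Polynomial.C (Polynomial.C q) := hP
      rw [hP', ← hF]
      simp [hfq]

end C1

open C1 in
theorem vertS_of (h : C1InfS) : VertS := by
  intro q hq
  have hqp : (Ideal.span {q} : Ideal Rab).IsPrime :=
    (Ideal.span_singleton_prime hq.ne_zero).2 hq.prime
  have : CharZero (Rab ⧸ Ideal.span {q}) :=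
    charZero_of_injective_algebraMap (R := ℂ) (algebraMap ℂ (Rab ⧸ Ideal.span {q})).injective
  have : CharZero (FractionRing (Rab ⧸ Ideal.span {q})) :=
    charZero_of_injective_algebraMap
      (IsFractionRing.injective (Rab ⧸ Ideal.span {q}) (FractionRing (Rab ⧸ Ideal.span {q})))
  obtain ⟨f, hf⟩ : ∃ f : Rab →+* FractionRing (Rab ⧸ Ideal.span {q}),
      f = (algebraMap (Rab ⧸ Ideal.span {q}) (FractionRing (Rab ⧸ Ideal.span {q}))).comp
        (Ideal.Quotient.mk _) := ⟨_, rfl⟩
  have hfx : ∀ x, f x = algebraMap (Rab ⧸ Ideal.span {q}) (FractionRing (Rab ⧸ Ideal.span {q}))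
      (Ideal.Quotient.mk _ x) := by
    intro x
    rw [hf]
    rfl
  have hker : ∀ x : Rab, f x = 0 → q ∣ x := by
    intro x hx
    have h1 : Ideal.Quotient.mk (Ideal.span {q}) x = 0 := by
      apply IsFractionRing.injective (Rab ⧸ Ideal.span {q})
        (FractionRing (Rab ⧸ Ideal.span {q}))
      rw [map_zero, ← hfx]
      exact hx
    exact Ideal.mem_span_singleton.1 (Ideal.Quotient.eq_zero_iff_mem.1 h1)
  have hfq : f q = 0 := by
    have h1 : Ideal.Quotient.mk (Ideal.span {q}) q = 0 :=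
      Ideal.Quotient.eq_zero_iff_mem.2 (Ideal.mem_span_singleton_self q)
    rw [hfx, h1, map_zero]
  have hns : ¬ ∃ s : Polynomial (FractionRing (Rab ⧸ Ideal.span {q})),
      s ^ 2 = qz (f (cc0 (X 0) (X 1))) (f (cc1 (X 0) (X 1))) (f (cc2 (X 0) (X 1))) := by
    rintro ⟨s, hs⟩
    obtain ⟨p, r, e0, e1, e2⟩ := sq_form _ _ _ s hs
    by_cases hd : q ∣ cc1 (X 0) (X 1) ^ 2 - cc0 (X 0) (X 1) * cc2 (X 0) (X 1)
    · rcases h q hq hd with h2 | h0
      · exact sq_pull hqp ⟨r, by rw [e2, hfx]⟩ h2
      · exact sq_pull hqp ⟨p, by rw [e0, hfx]⟩ h0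
    · apply hd
      apply hker
      rw [map_sub, map_mul, map_pow, ← e0, ← e1, ← e2]
      ring
  have hirr := irr_qw _ _ _ hns
  have hpr : (Ideal.span {qw (f (cc0 (X 0) (X 1))) (f (cc1 (X 0) (X 1)))
      (f (cc2 (X 0) (X 1)))}).IsPrime :=
    (Ideal.span_singleton_prime hirr.ne_zero).2 hirr.prime
  have hco := comap_eq f q (cc0 (X 0) (X 1)) (cc1 (X 0) (X 1)) (cc2 (X 0) (X 1)) hker hfq
  show (Ideal.span {qw (cc0 (X 0) (X 1)) (cc1 (X 0) (X 1)) (cc2 (X 0) (X 1)),
    Polynomial.C (Polynomial.C q)}).IsPrime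
  rw [← hco]
  exact Ideal.comap_isPrime _ _

/-- MODULE C1 -/
theorem vertS : VertS := vertS_of c1_inf

end Pool.VMR
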