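import Pool.Agent.H30.VMR.Stm

/-!
# Module C2: primes of the coordinate ring of a conic over a field

Every nonzero prime of `K[z,w]/(w² - g(z))` is the radical of a principal ideal.  In the split
case `p = (p₀, w - s)` the element `x + y w` is found by counting dimensions: `deg x ≤ d`,
`deg y < d`, `p₀² ∣ x + y s'` with `p₀² ∣ g - s'²`; its norm is a constant times `p₀²`.
-/

noncomputable section

namespace Pool.VMR.C2

open Polynomial Pool.VMR

variable {K : Type} [Field K]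

/-- Reduction modulo `w² - g`. -/
theorem red (g : K[X]) (P : K[X][X]) :
    ∃ a b : K[X], ∃ R : K[X][X], P = R * (X ^ 2 - C g) + (C a + C b * X) := by
  have hm : (X ^ 2 - C g : K[X][X]).Monic := monic_X_pow_sub_C g (by norm_num)
  have h1 := modByMonic_add_div P (X ^ 2 - C g : K[X][X])
  have h2 : (P %ₘ (X ^ 2 - C g)).natDegree < 2 := by
    have h3 := natDegree_modByMonic_lt P hm (by
      intro h
      have h4 := congrArg natDegree h
      rw [natDegree_X_pow_sub_C, natDegree_one] at h4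
      omega)
    rwa [natDegree_X_pow_sub_C] at h3
  have h4 : (P %ₘ (X ^ 2 - C g)).natDegree ≤ 1 := by omega
  refine ⟨(P %ₘ (X ^ 2 - C g)).coeff 0, (P %ₘ (X ^ 2 - C g)).coeff 1, P /ₘ (X ^ 2 - C g), ?_⟩
  have h7 := Polynomial.eq_X_add_C_of_natDegree_le_one h4
  linear_combination (1 : K[X][X]) * (-h1) + h7

theorem qz_deg (c0 c1 c2 : K) : (qz c0 c1 c2).natDegree ≤ 2 := by
  unfold qz
  compute_degree

/-- A quadratic polynomial with nonzero discriminant is not a square. -/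
theorem nsq {c0 c1 c2 : K} [CharZero K] (hd : c1 ^ 2 ≠ c0 * c2) (h : K[X]) :
    h ^ 2 ≠ qz c0 c1 c2 := by
  intro hh
  have h1 : h.natDegree ≤ 1 := by
    have h2 := natDegree_pow h 2
    rw [hh] at h2
    have := qz_deg c0 c1 c2
    omega
  have h3 := eq_X_add_C_of_natDegree_le_one h1
  set r := h.coeff 1 with hr
  set s := h.coeff 0 with hs
  have e : ∀ x : K, (r * x + s) ^ 2 = c0 + 2 * c1 * x + c2 * x ^ 2 := by
    intro x
    have h4 := congrArg (eval x) hh
    rw [h3] at h4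
    simpa [qz] using h4
  have e0 := e 0
  have e1 := e 1
  have e2 := e (-1)
  have h5 : (4 : K) * c1 = 4 * (r * s) := by linear_combination e2 - e1
  have h6 : c1 = r * s := mul_left_cancel₀ (by norm_num) h5
  have h7 : s ^ 2 = c0 := by linear_combination e0
  have h8 : (2 : K) * c2 = 2 * r ^ 2 := by linear_combination 2 * e0 - e1 - e2
  have h9 : c2 = r ^ 2 := mul_left_cancel₀ (by norm_num) h8
  apply hd
  rw [h6, ← h7, h9]
  ring

theorem norm_ne {c0 c1 c2 : K} [CharZero K] (hd : c1 ^ 2 ≠ c0 * c2) {a b : K[X]}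
    (h : a ^ 2 = qz c0 c1 c2 * b ^ 2) : a = 0 ∧ b = 0 := by
  by_cases hb : b = 0
  · subst hb
    refine ⟨?_, rfl⟩
    simpa using h
  · exfalso
    have h1 : b ^ 2 ∣ a ^ 2 := ⟨qz c0 c1 c2, by rw [h]; ring⟩
    have h2 : b ∣ a := (IsIntegrallyClosed.pow_dvd_pow_iff two_ne_zero).1 h1
    obtain ⟨h', rfl⟩ := h2
    have h3 : h' ^ 2 = qz c0 c1 c2 := by
      have h4 : b ^ 2 * h' ^ 2 = b ^ 2 * qz c0 c1 c2 := by linear_combination h
      exact mul_left_cancel₀ (pow_ne_zero 2 hb) h4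
    exact nsq hd h' h3

/-- The element of small degree. -/
theorem small {p0 : K[X]} (h0 : p0 ≠ 0) (s2 : K[X]) :
    ∃ x y : K[X], ¬ (x = 0 ∧ y = 0) ∧ x.degree < (p0.natDegree + 1 : ℕ) ∧
      y.degree < (p0.natDegree : ℕ) ∧ p0 ^ 2 ∣ x + y * s2 := by
  have h02 : p0 ^ 2 ≠ 0 := pow_ne_zero 2 h0
  let pb := AdjoinRoot.powerBasis h02
  have : Module.Finite K (AdjoinRoot (p0 ^ 2)) := pb.finite
  have : ∀ n, Module.Finite K (degreeLT K n) := fun n =>
    Module.Finite.equiv (degreeLTEquiv K n).symm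
  have hfin : Module.finrank K (AdjoinRoot (p0 ^ 2)) = 2 * p0.natDegree := by
    rw [pb.finrank, AdjoinRoot.powerBasis_dim, natDegree_pow]
  have hlt : ∀ n, Module.finrank K (degreeLT K n) = n := fun n => by
    rw [(degreeLTEquiv K n).finrank_eq, Module.finrank_fin_fun]
  let F : (degreeLT K (p0.natDegree + 1) × degreeLT K p0.natDegree) →ₗ[K] AdjoinRoot (p0 ^ 2) :=
    (AdjoinRoot.mkₐ (p0 ^ 2)).toLinearMap ∘ₗ
      ((degreeLT K (p0.natDegree + 1)).subtype.coprod
        ((LinearMap.mulRight K s2) ∘ₗ (degreeLT K p0.natDegree).subtype))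
  have hk : LinearMap.ker F ≠ ⊥ := by
    apply LinearMap.ker_ne_bot_of_finrank_lt
    rw [hfin, Module.finrank_prod, hlt, hlt]
    omega
  obtain ⟨v, hv, hv0⟩ := Submodule.exists_mem_ne_zero_of_ne_bot hk
  refine ⟨v.1, v.2, ?_, mem_degreeLT.1 v.1.2, mem_degreeLT.1 v.2.2, ?_⟩
  · rintro ⟨h1, h2⟩
    apply hv0
    exact Prod.ext (Subtype.ext h1) (Subtype.ext h2)
  · have h1 : AdjoinRoot.mk (p0 ^ 2) ((v.1 : K[X]) + (v.2 : K[X]) * s2) = 0 := by
      simpa [F] using hv
    exact AdjoinRoot.mk_eq_zero.1 h1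

variable {p : Ideal K[X][X]} {p0 g : K[X]}

theorem mem_red (hQ : (X ^ 2 - C g : K[X][X]) ∈ p) {P : K[X][X]} (hP : P ∈ p) :
    ∃ a b : K[X], ∃ R : K[X][X], P = R * (X ^ 2 - C g) + (C a + C b * X) ∧
      (C a + C b * X : K[X][X]) ∈ p := by
  obtain ⟨a, b, R, hR⟩ := red g P
  refine ⟨a, b, R, hR, ?_⟩
  have h1 : (C a + C b * X : K[X][X]) = P - R * (X ^ 2 - C g) := by rw [hR]; ring
  rw [h1]
  exact p.sub_mem hP (p.mul_mem_left _ hQ)

theorem span_le' (hQ : (X ^ 2 - C g : K[X][X]) ∈ p) {P : K[X][X]} (hP : P ∈ p) :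
    Ideal.span {(X ^ 2 - C g : K[X][X]), P} ≤ p := by
  rw [Ideal.span_le]
  rintro x hx
  rcases hx with rfl | hx
  · exact hQ
  · rw [Set.mem_singleton_iff] at hx
    rw [hx]
    exact hP

theorem sp1 (P : K[X][X]) : (X ^ 2 - C g : K[X][X]) ∈ Ideal.span {(X ^ 2 - C g : K[X][X]), P} :=
  Ideal.subset_span (Or.inl rfl)

theorem sp2 (P : K[X][X]) : P ∈ Ideal.span {(X ^ 2 - C g : K[X][X]), P} :=
  Ideal.subset_span (Or.inr rfl)

theorem caseI (hp : p.IsPrime) (hQ : (X ^ 2 - C g : K[X][X]) ∈ p) (hp0 : Prime p0)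
    (hmem : ∀ a, C a ∈ p ↔ p0 ∣ a) (h : ∀ s, ¬ p0 ∣ g - s ^ 2) :
    p = (Ideal.span {(X ^ 2 - C g : K[X][X]), C p0}).radical := by
  apply le_antisymm
  · refine le_trans ?_ Ideal.le_radical
    intro P hP
    obtain ⟨a, b, R, hR, hab⟩ := mem_red hQ hP
    have hb : p0 ∣ b := by
      by_contra hb
      obtain ⟨u, v, huv⟩ := (hp0.irreducible.coprime_iff_not_dvd).2 hb
      have h1 : (X - C (-(v * a)) : K[X][X]) ∈ p := by
        have h2 : (X - C (-(v * a)) : K[X][X]) = C v * (C a + C b * X) + C u * X * C p0 := by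
          have h3 : (C u * C p0 + C v * C b : K[X][X]) = 1 := by
            rw [← C_mul, ← C_mul, ← C_add, huv, C_1]
          simp only [C_neg, C_mul]
          linear_combination (-X : K[X][X]) * h3
        rw [h2]
        exact p.add_mem (p.mul_mem_left _ hab) (p.mul_mem_left _ ((hmem p0).2 dvd_rfl))
      apply h (-(v * a))
      rw [← hmem]
      have h4 : (C (g - (-(v * a)) ^ 2) : K[X][X]) =
          (X + C (-(v * a))) * (X - C (-(v * a))) - (X ^ 2 - C g) := by
        simp only [C_sub, C_pow]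
        ring
      rw [h4]
      exact p.sub_mem (p.mul_mem_left _ h1) hQ
    obtain ⟨b', rfl⟩ := hb
    have ha : p0 ∣ a := by
      rw [← hmem]
      have h2 : (C a : K[X][X]) = (C a + C (p0 * b') * X) - C b' * X * C p0 := by
        simp only [C_mul]
        ring
      rw [h2]
      exact p.sub_mem hab (p.mul_mem_left _ ((hmem p0).2 dvd_rfl))
    obtain ⟨a', rfl⟩ := ha
    rw [hR]
    refine Ideal.add_mem _ (Ideal.mul_mem_left _ _ (sp1 _)) ?_
    have h5 : (C (p0 * a') + C (p0 * b') * X : K[X][X]) = (C a' + C b' * X) * C p0 := by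
      simp only [C_mul]
      ring
    rw [h5]
    exact Ideal.mul_mem_left _ _ (sp2 _)
  · rw [hp.radical_le_iff]
    exact span_le' hQ ((hmem p0).2 dvd_rfl)

theorem caseII (hp : p.IsPrime) (hQ : (X ^ 2 - C g : K[X][X]) ∈ p)
    (hmem : ∀ a, C a ∈ p ↔ p0 ∣ a) (hX : (X : K[X][X]) ∈ p) (hg : p0 ∣ g) :
    p = (Ideal.span {(X ^ 2 - C g : K[X][X]), C p0}).radical := by
  apply le_antisymm
  · intro P hP
    obtain ⟨a, b, R, hR, hab⟩ := mem_red hQ hP
    have ha : p0 ∣ a := by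
      rw [← hmem]
      have h2 : (C a : K[X][X]) = (C a + C b * X) - C b * X := by ring
      rw [h2]
      exact p.sub_mem hab (p.mul_mem_left _ hX)
    obtain ⟨a', rfl⟩ := ha
    obtain ⟨g', hg'⟩ := hg
    rw [hR]
    refine Ideal.add_mem _ (Ideal.le_radical (Ideal.mul_mem_left _ _ (sp1 _)))
      (Ideal.add_mem _ (Ideal.le_radical ?_) ?_)
    · rw [C_mul, mul_comm]
      exact Ideal.mul_mem_left _ _ (sp2 _)
    · refine ⟨2, ?_⟩
      have h3 : ((C b * X) ^ 2 : K[X][X]) = C b ^ 2 * (X ^ 2 - C g) + C b ^ 2 * C g' * C p0 := by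
        rw [hg']
        simp only [C_mul]
        ring
      rw [h3]
      exact Ideal.add_mem _ (Ideal.mul_mem_left _ _ (sp1 _)) (Ideal.mul_mem_left _ _ (sp2 _))
  · rw [hp.radical_le_iff]
    exact span_le' hQ ((hmem p0).2 dvd_rfl)

theorem mem_of_lin {q : Ideal K[X][X]} {s : K[X]} (hQ : (X ^ 2 - C g : K[X][X]) ∈ p)
    (hQq : (X ^ 2 - C g : K[X][X]) ∈ q)
    (hmem : ∀ a, C a ∈ p ↔ p0 ∣ a) (hs : (X - C s : K[X][X]) ∈ p) (hsq : (X - C s : K[X][X]) ∈ q)
    (hq : C p0 ∈ q) : p ≤ q := by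
  intro P hP
  obtain ⟨a, b, R, hR, hab⟩ := mem_red hQ hP
  have ha : p0 ∣ a + b * s := by
    rw [← hmem]
    have h2 : (C (a + b * s) : K[X][X]) = (C a + C b * X) - C b * (X - C s) := by
      simp only [C_add, C_mul]
      ring
    rw [h2]
    exact p.sub_mem hab (p.mul_mem_left _ hs)
  obtain ⟨k, hk⟩ := ha
  have h3 : P = R * (X ^ 2 - C g) + (C b * (X - C s) + C k * C p0) := by
    rw [hR]
    have h4 : (C a + C b * C s : K[X][X]) = C p0 * C k := by
      rw [← C_mul, ← C_mul, ← C_add, hk]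
    linear_combination h4
  rw [h3]
  exact q.add_mem (q.mul_mem_left _ hQq) (q.add_mem (q.mul_mem_left _ hsq) (q.mul_mem_left _ hq))

theorem caseIII [CharZero K] {s : K[X]} (hp : p.IsPrime) (hQ : (X ^ 2 - C g : K[X][X]) ∈ p)
    (hp0 : Prime p0) (hmem : ∀ a, C a ∈ p ↔ p0 ∣ a) (hs : (X - C s : K[X][X]) ∈ p)
    (hgs : p0 ∣ g - s ^ 2) (hs0 : ¬ p0 ∣ s) (hg2 : g.natDegree ≤ 2)
    (hnn : ∀ a b : K[X], a ^ 2 = g * b ^ 2 → a = 0 ∧ b = 0) :
    ∃ P : K[X][X], p = (Ideal.span {(X ^ 2 - C g : K[X][X]), P}).radical := by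
  have h2s : ¬ p0 ∣ 2 * s := by
    intro h
    rcases hp0.dvd_or_dvd h with h | h
    · refine hp0.not_isUnit (isUnit_of_dvd_unit h ?_)
      have h2 : (2 : K[X]) = C 2 := (map_ofNat C 2).symm
      rw [h2]
      exact isUnit_C.2 (isUnit_iff_ne_zero.2 (by norm_num))
    · exact hs0 h
  have h0 : p0 ≠ 0 := hp0.ne_zero
  -- the lift
  obtain ⟨u, hu⟩ := hgs
  obtain ⟨α, β, hαβ⟩ := (hp0.irreducible.coprime_iff_not_dvd).2 h2s
  obtain ⟨s2, hs2, hs3⟩ : ∃ s2, p0 ∣ s2 - s ∧ p0 ^ 2 ∣ g - s2 ^ 2 := by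
    refine ⟨s + p0 * (β * u), ⟨β * u, by ring⟩, ⟨α * u - (β * u) ^ 2, ?_⟩⟩
    linear_combination hu - p0 * u * hαβ
  obtain ⟨x, y, hxy, hx, hy, hd⟩ := small h0 s2
  have hxs : p0 ∣ x + y * s := by
    have h1 : x + y * s = (x + y * s2) - y * (s2 - s) := by ring
    rw [h1]
    exact dvd_sub ((dvd_pow_self p0 two_ne_zero).trans hd) (dvd_mul_of_dvd_right hs2 _)
  -- the norm
  obtain ⟨c, hc, hc0⟩ : ∃ c : K, x ^ 2 - g * y ^ 2 = C c * p0 ^ 2 ∧ c ≠ 0 := by
    have h1 : p0 ^ 2 ∣ x ^ 2 - g * y ^ 2 := by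
      have h2 : x ^ 2 - g * y ^ 2 = (x - y * s2) * (x + y * s2) - y ^ 2 * (g - s2 ^ 2) := by ring
      rw [h2]
      exact dvd_sub (dvd_mul_of_dvd_right hd _) (dvd_mul_of_dvd_right hs3 _)
    obtain ⟨e, he⟩ := h1
    have hn0 : x ^ 2 - g * y ^ 2 ≠ 0 := fun h => hxy (hnn x y (sub_eq_zero.1 h))
    have hxd : x.natDegree ≤ p0.natDegree := by
      have h3 : x.natDegree < p0.natDegree + 1 := by
        by_cases hx0 : x = 0
        · rw [hx0, natDegree_zero]; omega
        · exact (natDegree_lt_iff_degree_lt hx0).2 hx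
      omega
    have hyd : (g * y ^ 2).natDegree ≤ 2 * p0.natDegree := by
      by_cases hy0 : y = 0
      · rw [hy0]; simp
      · have h3 : y.natDegree < p0.natDegree := (natDegree_lt_iff_degree_lt hy0).2 hy
        have h4 := natDegree_mul_le (p := g) (q := y ^ 2)
        have h5 := natDegree_pow y 2
        omega
    have hxd2 : (x ^ 2).natDegree ≤ 2 * p0.natDegree := by
      rw [natDegree_pow]; omega
    have hnd : (x ^ 2 - g * y ^ 2).natDegree ≤ 2 * p0.natDegree :=
      (natDegree_sub_le_of_le hxd2 hyd).trans (by simp)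
    have he0 : e ≠ 0 := by
      rintro rfl
      exact hn0 (by rw [he, mul_zero])
    have hed : e.natDegree = 0 := by
      rw [he, natDegree_mul (pow_ne_zero 2 h0) he0, natDegree_pow] at hnd
      omega
    obtain ⟨c, rfl⟩ := natDegree_eq_zero.1 hed
    refine ⟨c, by rw [he, mul_comm], ?_⟩
    rintro rfl
    exact he0 C_0
  refine ⟨C x + C y * X, le_antisymm ?_ ?_⟩
  · rw [Ideal.radical_eq_sInf]
    refine le_sInf ?_
    rintro q ⟨hq, hqp⟩
    have hQq : (X ^ 2 - C g : K[X][X]) ∈ q := hq (sp1 _)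
    have hPq : (C x + C y * X : K[X][X]) ∈ q := hq (sp2 _)
    have hnq : (C (C c * p0 ^ 2) : K[X][X]) ∈ q := by
      rw [← hc]
      have h1 : (C (x ^ 2 - g * y ^ 2) : K[X][X]) =
          (C x - C y * X) * (C x + C y * X) + C y ^ 2 * (X ^ 2 - C g) := by
        simp only [C_sub, C_mul, C_pow]
        ring
      rw [h1]
      exact q.add_mem (q.mul_mem_left _ hPq) (q.mul_mem_left _ hQq)
    have hp0q : (C p0 : K[X][X]) ∈ q := by
      have h1 : (C (p0 ^ 2) : K[X][X]) ∈ q := by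
        have h2 : (C (p0 ^ 2) : K[X][X]) = C (C c⁻¹) * C (C c * p0 ^ 2) := by
          rw [← C_mul, ← mul_assoc, ← C_mul, inv_mul_cancel₀ hc0, C_1, one_mul]
        rw [h2]
        exact q.mul_mem_left _ hnq
      rw [C_pow] at h1
      exact hqp.mem_of_pow_mem 2 h1
    have hmemq : ∀ a, C a ∈ q → p0 ∣ a := by
      intro a ha
      by_contra hpa
      obtain ⟨u', v', huv⟩ := (hp0.irreducible.coprime_iff_not_dvd).2 hpa
      apply hqp.ne_top
      rw [Ideal.eq_top_iff_one]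
      have h1 : (1 : K[X][X]) = C u' * C p0 + C v' * C a := by
        rw [← C_mul, ← C_mul, ← C_add, huv, C_1]
      rw [h1]
      exact q.add_mem (q.mul_mem_left _ hp0q) (q.mul_mem_left _ ha)
    have hprod : ((X - C s) * (X + C s) : K[X][X]) ∈ q := by
      have h1 : ((X - C s) * (X + C s) : K[X][X]) = (X ^ 2 - C g) + C u * C p0 := by
        have h2 : (C g - C s ^ 2 : K[X][X]) = C p0 * C u := by
          rw [← C_pow, ← C_sub, ← C_mul, hu]
        linear_combination h2
      rw [h1]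
      exact q.add_mem hQq (q.mul_mem_left _ hp0q)
    rcases hqp.mem_or_mem hprod with h | h
    · exact mem_of_lin hQ hQq hmem hs h hp0q
    · exfalso
      have h1 : p0 ∣ x - y * s := by
        apply hmemq
        have h2 : (C (x - y * s) : K[X][X]) = (C x + C y * X) - C y * (X + C s) := by
          simp only [C_sub, C_mul]
          ring
        rw [h2]
        exact q.sub_mem hPq (q.mul_mem_left _ h)
      have h2 : p0 ∣ 2 * s * y := by
        have h3 : 2 * s * y = (x + y * s) - (x - y * s) := by ring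
        rw [h3]
        exact dvd_sub hxs h1
      have h3 : p0 ∣ y := (hp0.dvd_or_dvd h2).resolve_left h2s
      have hy0 : y = 0 := by
        by_contra hy0
        have h4 := degree_le_of_dvd h3 hy0
        rw [degree_eq_natDegree h0] at h4
        exact absurd hy (not_lt.2 h4)
      subst hy0
      rw [zero_mul, add_zero] at hd
      have hx0 : x = 0 := by
        by_contra hx0
        have h4 := natDegree_le_of_dvd hd hx0
        rw [natDegree_pow] at h4
        have h5 : x.natDegree < p0.natDegree + 1 := (natDegree_lt_iff_degree_lt hx0).2 hx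
        have h6 : 0 < p0.natDegree := hp0.irreducible.natDegree_pos
        omega
      exact hxy ⟨hx0, rfl⟩
  · rw [hp.radical_le_iff]
    refine span_le' hQ ?_
    have h1 : (C x + C y * X : K[X][X]) = C (x + y * s) + C y * (X - C s) := by
      simp only [C_add, C_mul]
      ring
    rw [h1]
    exact p.add_mem ((hmem _).2 hxs) (p.mul_mem_left _ hs)

end Pool.VMR.C2

namespace Pool.VMR

open Polynomial C2

/-- **Module C2.** -/
theorem fLS : FLS := by
  intro K _ _ c0 c1 c2 hd p hp hQ hne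
  set g := qz c0 c1 c2 with hg
  have hQ' : (X ^ 2 - C g : K[X][X]) ∈ p := hQ
  have hqw : qw c0 c1 c2 = X ^ 2 - C g := rfl
  rw [hqw]
  rw [hqw] at hne
  obtain ⟨n, hn0, hn⟩ : ∃ n : K[X], n ≠ 0 ∧ (C n : K[X][X]) ∈ p := by
    by_contra hcon
    push Not at hcon
    apply hne
    apply le_antisymm
    · intro P hP
      obtain ⟨a, b, R, hR, h1⟩ := mem_red hQ' hP
      have h2 : (C (a ^ 2 - g * b ^ 2) : K[X][X]) ∈ p := by
        have h3 : (C (a ^ 2 - g * b ^ 2) : K[X][X]) =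
            (C a - C b * X) * (C a + C b * X) + C b ^ 2 * (X ^ 2 - C g) := by
          simp only [C_sub, C_mul, C_pow]
          ring
        rw [h3]
        exact p.add_mem (p.mul_mem_left _ h1) (p.mul_mem_left _ hQ')
      have h3 : a ^ 2 - g * b ^ 2 = 0 := by
        by_contra h
        exact hcon _ h h2
      obtain ⟨ha, hb⟩ := norm_ne hd (sub_eq_zero.1 h3)
      rw [hR, ha, hb, C_0, zero_mul, add_zero, add_zero]
      exact Ideal.mul_mem_left _ _ (Ideal.subset_span rfl)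
    · rw [Ideal.span_le]
      rintro x hx
      rw [Set.mem_singleton_iff] at hx
      rw [hx]
      exact hQ'
  let q : Ideal K[X] := p.comap (C : K[X] →+* K[X][X])
  have : q.IsPrime := Ideal.comap_isPrime _ _
  have hqb : q ≠ ⊥ := by
    intro h
    have h1 : n ∈ q := hn
    rw [h] at h1
    exact hn0 (by simpa using h1)
  have hp0 := Submodule.IsPrincipal.prime_generator_of_isPrime q hqb
  have hmem : ∀ a : K[X], (C a : K[X][X]) ∈ p ↔ Submodule.IsPrincipal.generator q ∣ a :=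
    fun a => Submodule.IsPrincipal.mem_iff_generator_dvd q (x := a)
  set p0 := Submodule.IsPrincipal.generator q with hp0d
  by_cases hs : ∃ s, p0 ∣ g - s ^ 2
  · obtain ⟨s, hs1, hs2⟩ : ∃ s, p0 ∣ g - s ^ 2 ∧ (X - C s : K[X][X]) ∈ p := by
      obtain ⟨s, hs⟩ := hs
      have h1 : ((X - C s) * (X + C s) : K[X][X]) ∈ p := by
        have h2 : ((X - C s) * (X + C s) : K[X][X]) = (X ^ 2 - C g) + C (g - s ^ 2) := by
          simp only [C_sub, C_pow]
          ring
        rw [h2]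
        exact p.add_mem hQ' ((hmem _).2 hs)
      rcases hp.mem_or_mem h1 with h | h
      · exact ⟨s, hs, h⟩
      · refine ⟨-s, by simpa using hs, ?_⟩
        rw [C_neg, sub_neg_eq_add]
        exact h
    by_cases hs0 : p0 ∣ s
    · have hX : (X : K[X][X]) ∈ p := by
        have h1 : (X : K[X][X]) = (X - C s) + C s := by ring
        rw [h1]
        exact p.add_mem hs2 ((hmem _).2 hs0)
      have hg0 : p0 ∣ g := by
        have h1 : g = (g - s ^ 2) + s ^ 2 := by ring
        rw [h1]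
        exact dvd_add hs1 (hs0.trans (dvd_pow_self s two_ne_zero))
      exact ⟨C p0, caseII hp hQ' hmem hX hg0⟩
    · exact caseIII hp hQ' hp0 hmem hs2 hs1 hs0 (qz_deg c0 c1 c2) fun a b h => norm_ne hd h
  · push Not at hs
    exact ⟨C p0, caseI hp hQ' hp0 hmem hs⟩

end Pool.VMR
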