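import Pool.Agent.H30.VMR.Stm

/-!
# Module C3, first part: prime ideals on a conic bundle over a factorial domain
-/

set_option linter.unusedSectionVars false

noncomputable section

namespace Pool.VMR

namespace C3

open Polynomial

variable {R : Type} [CommRing R] [IsDomain R]

/-- a constant of `R` as an element of `R[z][w]` -/
def cc (c : R) : R[X][X] := C (C c)

theorem cc_mul (c d : R) : cc (c * d) = cc c * cc d := by simp [cc]

theorem cc_inj {c : R} : cc c = 0 ↔ c = 0 := by simp [cc]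

theorem coeff_cc_mul (c : R) (x : R[X][X]) (i j : ℕ) :
    ((cc c * x).coeff i).coeff j = c * (x.coeff i).coeff j := by
  rw [cc, coeff_C_mul, coeff_C_mul]

variable {c0 c1 c2 : R}

theorem qw_monic : (qw c0 c1 c2).Monic := monic_X_pow_sub_C _ (by norm_num)

theorem qw_natDegree : (qw c0 c1 c2).natDegree = 2 := natDegree_X_pow_sub_C

theorem qw_degree : (qw c0 c1 c2).degree = 2 := by
  rw [degree_eq_natDegree qw_monic.ne_zero, qw_natDegree]
  rfl

/-- a multiple of `qw` of degree less than two is zero -/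
theorem small {F : R[X][X]} (h : F ∈ Ideal.span {qw c0 c1 c2}) (hd : F.degree < 2) : F = 0 := by
  rw [Ideal.mem_span_singleton] at h
  by_contra h0
  have h1 := degree_le_of_dvd h h0
  rw [qw_degree] at h1
  exact absurd (lt_of_le_of_lt h1 hd) (lt_irrefl _)

theorem cc_deg (c : R) : (cc c).degree < 2 :=
  lt_of_le_of_lt degree_C_le (by decide)

theorem cc_notMem {c : R} (hc : c ≠ 0) : cc c ∉ Ideal.span {qw c0 c1 c2} := fun h =>
  hc (cc_inj.1 (small h (cc_deg c)))

/-! ## Passing to the fraction field -/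

section Frac

variable {K : Type} [Field K] [Algebra R K] [IsFractionRing R K]

variable (K) in
/-- the map to `K[z][w]` -/
def ph : R[X][X] →+* K[X][X] := mapRingHom (mapRingHom (algebraMap R K))

variable (K) in
/-- a constant in `K[z][w]` -/
def ck (c : R) : K[X][X] := C (C (algebraMap R K c))

omit [IsDomain R] [IsFractionRing R K] in
theorem ph_cc (c : R) : ph K (cc c) = ck K c := by simp [ph, cc, ck]

omit [IsDomain R] in
theorem ph_inj : Function.Injective (ph (R := R) K) :=
  map_injective _ (map_injective _ (IsFractionRing.injective R K))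

theorem ck_ne {c : R} (hc : c ≠ 0) : ck K c ≠ 0 := by
  rw [← ph_cc]
  intro h
  rw [← map_zero (ph (R := R) K)] at h
  exact hc (cc_inj.1 (ph_inj h))

omit [IsDomain R] [IsFractionRing R K] in
theorem ck_mul (c d : R) : ck K (c * d) = ck K c * ck K d := by simp [ck]

theorem clear1 (f : K[X]) : ∃ c : R, c ≠ 0 ∧ ∃ f' : R[X],
    f'.map (algebraMap R K) = C (algebraMap R K c) * f := by
  induction f using Polynomial.induction_on' with
  | add f g hf hg =>
    obtain ⟨c, hc, f', hf'⟩ := hf
    obtain ⟨d, hd, g', hg'⟩ := hg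
    refine ⟨c * d, mul_ne_zero hc hd, C d * f' + C c * g', ?_⟩
    rw [Polynomial.map_add, Polynomial.map_mul, Polynomial.map_mul, hf', hg', map_C, map_C,
      map_mul, C_mul]
    ring
  | monomial n a =>
    obtain ⟨x, ⟨y, hy⟩, hxy⟩ := IsLocalization.exists_mk'_eq (nonZeroDivisors R) a
    refine ⟨y, nonZeroDivisors.ne_zero hy, monomial n x, ?_⟩
    rw [map_monomial, C_mul_monomial, ← hxy, IsLocalization.mk'_spec'_mk]

theorem clear2 (F : K[X][X]) : ∃ c : R, c ≠ 0 ∧ ∃ F' : R[X][X], ph K F' = ck K c * F := by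
  induction F using Polynomial.induction_on' with
  | add f g hf hg =>
    obtain ⟨c, hc, f', hf'⟩ := hf
    obtain ⟨d, hd, g', hg'⟩ := hg
    refine ⟨c * d, mul_ne_zero hc hd, cc d * f' + cc c * g', ?_⟩
    rw [map_add, map_mul, map_mul, hf', hg', ph_cc, ph_cc, ck_mul]
    ring
  | monomial n a =>
    obtain ⟨c, hc, f', hf'⟩ := clear1 (R := R) a
    refine ⟨c, hc, monomial n f', ?_⟩
    rw [ph, coe_mapRingHom, map_monomial, coe_mapRingHom, hf', ck, C_mul_monomial]

omit [IsDomain R] [IsFractionRing R K] in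
theorem ph_qw : ph K (qw c0 c1 c2) =
    qw (algebraMap R K c0) (algebraMap R K c1) (algebraMap R K c2) := by
  have h2 : algebraMap R K 2 = 2 := map_ofNat _ 2
  simp [ph, qw, qz, h2]

/-- the extended ideal -/
def ext (K : Type) [Field K] [Algebra R K] [IsFractionRing R K] (p : Ideal R[X][X]) :
    Ideal K[X][X] where
  carrier := {F | ∃ c : R, c ≠ 0 ∧ ∃ F' ∈ p, ph K F' = ck K c * F}
  add_mem' := by
    rintro a b ⟨c, hc, a', ha', ha⟩ ⟨d, hd, b', hb', hb⟩
    refine ⟨c * d, mul_ne_zero hc hd, cc d * a' + cc c * b',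
      add_mem (Ideal.mul_mem_left _ _ ha') (Ideal.mul_mem_left _ _ hb'), ?_⟩
    rw [map_add, map_mul, map_mul, ha, hb, ph_cc, ph_cc, ck_mul]
    ring
  zero_mem' := ⟨1, one_ne_zero, 0, zero_mem _, by simp⟩
  smul_mem' := by
    rintro a b ⟨d, hd, b', hb', hb⟩
    obtain ⟨c, hc, a', ha⟩ := clear2 (R := R) a
    refine ⟨c * d, mul_ne_zero hc hd, a' * b', Ideal.mul_mem_left _ _ hb', ?_⟩
    rw [map_mul, ha, hb, ck_mul, smul_eq_mul]
    ring

theorem mem_ext {p : Ideal R[X][X]} {F : K[X][X]} :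
    F ∈ ext K p ↔ ∃ c : R, c ≠ 0 ∧ ∃ F' ∈ p, ph K F' = ck K c * F := Iff.rfl

theorem ph_mem_ext {p : Ideal R[X][X]} (hp : p.IsPrime) (h0 : ∀ c : R, c ≠ 0 → cc c ∉ p)
    {F : R[X][X]} : ph K F ∈ ext K p ↔ F ∈ p := by
  rw [mem_ext]
  constructor
  · rintro ⟨c, hc, F', hF', h⟩
    rw [← ph_cc, ← map_mul] at h
    rw [ph_inj h] at hF'
    exact (hp.mem_or_mem hF').resolve_left (h0 c hc)
  · intro h
    exact ⟨1, one_ne_zero, F, h, by simp [ck]⟩

theorem ext_prime {p : Ideal R[X][X]} (hp : p.IsPrime) (h0 : ∀ c : R, c ≠ 0 → cc c ∉ p) :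
    (ext K p).IsPrime := by
  refine ⟨?_, ?_⟩
  · intro h
    have h1 : (1 : K[X][X]) ∈ ext K p := by rw [h]; trivial
    rw [← map_one (ph (R := R) K), ph_mem_ext hp h0] at h1
    exact hp.ne_top ((Ideal.eq_top_iff_one _).2 h1)
  · rintro F G ⟨c, hc, H, hH, h⟩
    obtain ⟨d, hd, F', hF⟩ := clear2 (R := R) F
    obtain ⟨e, he, G', hG⟩ := clear2 (R := R) G
    have h1 : cc c * (F' * G') = cc (d * e) * H := by
      apply ph_inj (K := K)
      rw [map_mul, map_mul, map_mul, hF, hG, h, ph_cc, ph_cc, ck_mul]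
      ring
    have h2 : cc c * (F' * G') ∈ p := by
      rw [h1]
      exact Ideal.mul_mem_left _ _ hH
    rcases hp.mem_or_mem ((hp.mem_or_mem h2).resolve_left (h0 c hc)) with h3 | h3
    · left
      exact ⟨d, hd, F', h3, hF⟩
    · right
      exact ⟨e, he, G', h3, hG⟩

end Frac

/-! ## Constants that divide -/

variable [UniqueFactorizationMonoid R]

/-- remove the content -/
theorem exists_prim {x1 : R[X][X]} (h1 : x1 ≠ 0) : ∃ (c : R) (x : R[X][X]), c ≠ 0 ∧
    x1 = cc c * x ∧ ∀ q : R, Irreducible q → ¬ cc q ∣ x := by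
  obtain ⟨i, hi⟩ : ∃ i, x1.coeff i ≠ 0 := by
    by_contra hcon
    push Not at hcon
    exact h1 (Polynomial.ext fun i => by rw [hcon i, coeff_zero])
  obtain ⟨j, hj⟩ : ∃ j, (x1.coeff i).coeff j ≠ 0 := by
    by_contra hcon
    push Not at hcon
    exact hi (Polynomial.ext fun i => by rw [hcon i, coeff_zero])
  set r0 := (x1.coeff i).coeff j with hr0
  let s : Set R := {e | ∃ (c : R) (x : R[X][X]), r0 = c * e ∧ x1 = cc c * x}
  have hs : s.Nonempty := ⟨r0, 1, x1, by simp, by simp [cc]⟩
  obtain ⟨e, ⟨c, x, he, hx⟩, hmin⟩ := wellFounded_dvdNotUnit.has_min s hs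
  have hc : c ≠ 0 := by
    rintro rfl
    rw [zero_mul] at he
    exact hj he
  refine ⟨c, x, hc, hx, ?_⟩
  rintro q hq ⟨x', hx'⟩
  have hr : r0 = c * (q * (x'.coeff i).coeff j) := by
    rw [hr0, hx, hx', coeff_cc_mul, coeff_cc_mul]
  have he' : e = q * (x'.coeff i).coeff j := mul_left_cancel₀ hc (by rw [← he, hr])
  refine hmin ((x'.coeff i).coeff j) ⟨c * q, x', by rw [hr]; ring, ?_⟩ ⟨?_, q, hq.not_isUnit, ?_⟩
  · rw [hx, hx', cc_mul, mul_assoc]
  · intro h0
    rw [he', h0, mul_zero, mul_zero] at he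
    exact hj he
  · rw [he', mul_comm]

/-- cancel a constant prime -/
theorem cancel1 (hqp : (Ideal.span {qw c0 c1 c2}).IsPrime)
    (h1 : ∀ q : R, Irreducible q → (Ideal.span {qw c0 c1 c2, C (C q)}).IsPrime)
    {q : R} (hq : Irreducible q) {x F : R[X][X]} (hxd : x.degree < 2)
    (hx : ¬ cc q ∣ x) (h : cc q * F ∈ Ideal.span {qw c0 c1 c2, x}) :
    F ∈ Ideal.span {qw c0 c1 c2, x} := by
  have hP : (Ideal.span {qw c0 c1 c2, cc q}).IsPrime := h1 q hq
  obtain ⟨a, b, hab⟩ := Ideal.mem_span_pair.1 h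
  have h2 : b * x ∈ Ideal.span {qw c0 c1 c2, cc q} := by
    refine Ideal.mem_span_pair.2 ⟨-a, F, ?_⟩
    linear_combination -hab
  rcases hP.mem_or_mem h2 with h3 | h3
  · obtain ⟨u, v, huv⟩ := Ideal.mem_span_pair.1 h3
    refine Ideal.mem_span_pair.2 ?_
    have h4 : cc q * (F - v * x) ∈ Ideal.span {qw c0 c1 c2} := by
      refine Ideal.mem_span_singleton'.2 ⟨a + u * x, ?_⟩
      linear_combination hab + x * huv
    have h5 := (hqp.mem_or_mem h4).resolve_left (cc_notMem hq.ne_zero)
    obtain ⟨t, ht⟩ := Ideal.mem_span_singleton'.1 h5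
    exact ⟨t, v, by linear_combination ht⟩
  · exfalso
    obtain ⟨u, v, huv⟩ := Ideal.mem_span_pair.1 h3
    apply hx
    refine ⟨v %ₘ qw c0 c1 c2, ?_⟩
    have hs : x - cc q * (v %ₘ qw c0 c1 c2) ∈ Ideal.span {qw c0 c1 c2} := by
      refine Ideal.mem_span_singleton'.2 ⟨u + cc q * (v /ₘ qw c0 c1 c2), ?_⟩
      have := modByMonic_add_div v (qw c0 c1 c2)
      linear_combination huv + (cc q) * this
    have hd : (x - cc q * (v %ₘ qw c0 c1 c2)).degree < 2 := by
      refine lt_of_le_of_lt (degree_sub_le _ _) (max_lt hxd ?_)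
      have h6 : (v %ₘ qw c0 c1 c2).degree < 2 := by
        rw [← qw_degree (c0 := c0) (c1 := c1) (c2 := c2)]
        exact degree_modByMonic_lt v qw_monic
      refine lt_of_le_of_lt ?_ h6
      rw [cc, ← smul_eq_C_mul]
      exact degree_smul_le _ _
    exact sub_eq_zero.1 (small hs hd)

theorem cancel_all (hqp : (Ideal.span {qw c0 c1 c2}).IsPrime)
    (h1 : ∀ q : R, Irreducible q → (Ideal.span {qw c0 c1 c2, C (C q)}).IsPrime)
    {x : R[X][X]} (hxd : x.degree < 2)
    (hx : ∀ q : R, Irreducible q → ¬ cc q ∣ x) (c : R) :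
    c ≠ 0 → ∀ F : R[X][X], cc c * F ∈ Ideal.span {qw c0 c1 c2, x} →
      F ∈ Ideal.span {qw c0 c1 c2, x} := by
  induction c using WfDvdMonoid.induction_on_irreducible with
  | zero => exact fun hc => absurd rfl hc
  | unit u hu =>
    intro _ F h
    obtain ⟨v, hv⟩ := hu.exists_left_inv
    have : F = cc v * (cc u * F) := by
      rw [← mul_assoc, ← cc_mul, hv]
      simp [cc]
    rw [this]
    exact Ideal.mul_mem_left _ _ h
  | mul a q ha hq ih =>
    intro _ F h
    apply ih ha
    apply cancel1 hqp h1 hq hxd (hx q hq)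
    rwa [cc_mul, mul_assoc] at h

/-- the star property over a factorial domain -/
theorem star (hqp : (Ideal.span {qw c0 c1 c2}).IsPrime)
    (h1 : ∀ q : R, Irreducible q → (Ideal.span {qw c0 c1 c2, C (C q)}).IsPrime)
    (hdisc : c1 ^ 2 ≠ c0 * c2) [CharZero R] (h2 : FLS) (p : Ideal R[X][X]) (hp : p.IsPrime)
    (hg : qw c0 c1 c2 ∈ p) (hne : p ≠ Ideal.span {qw c0 c1 c2}) :
    ∃ P ∈ p, P ∉ Ideal.span {qw c0 c1 c2} ∧ (Ideal.span {qw c0 c1 c2, P}).radical.IsPrime := by
  by_cases h0 : ∀ c : R, c ≠ 0 → cc c ∉ p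
  swap
  · -- a constant in `p`
    push Not at h0
    obtain ⟨c, hc, hcp⟩ := h0
    have hq : ∃ q : R, Irreducible q ∧ cc q ∈ p := by
      induction c using WfDvdMonoid.induction_on_irreducible with
      | zero => exact absurd rfl hc
      | unit u hu =>
        exfalso
        obtain ⟨v, hv⟩ := hu.exists_left_inv
        apply hp.ne_top
        rw [Ideal.eq_top_iff_one]
        have : (1 : R[X][X]) = cc v * cc u := by
          rw [← cc_mul, hv]
          simp [cc]
        rw [this]
        exact Ideal.mul_mem_left _ _ hcp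
      | mul a q ha hq ih =>
        rw [cc_mul] at hcp
        rcases hp.mem_or_mem hcp with h3 | h3
        · exact ⟨q, hq, h3⟩
        · exact ih ha h3
    obtain ⟨q, hq, hqp'⟩ := hq
    refine ⟨cc q, hqp', cc_notMem hq.ne_zero, ?_⟩
    have hP : (Ideal.span {qw c0 c1 c2, cc q}).IsPrime := h1 q hq
    rw [hP.radical]
    exact hP
  · let K := FractionRing R
    have hKp : (ext K p).IsPrime := ext_prime hp h0
    have hKg : qw (algebraMap R K c0) (algebraMap R K c1) (algebraMap R K c2) ∈ ext K p := by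
      rw [← ph_qw, ph_mem_ext hp h0]
      exact hg
    have hinj : Function.Injective (algebraMap R K) := IsFractionRing.injective R K
    have hKd : (algebraMap R K c1) ^ 2 ≠ algebraMap R K c0 * algebraMap R K c2 := by
      rw [← map_pow, ← map_mul]
      exact fun h => hdisc (hinj h)
    -- membership in the span over `K`
    have hback : ∀ F : R[X][X], ph K F ∈ Ideal.span
        {qw (algebraMap R K c0) (algebraMap R K c1) (algebraMap R K c2)} →
        F ∈ Ideal.span {qw c0 c1 c2} := by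
      intro F hF
      obtain ⟨a, ha⟩ := Ideal.mem_span_singleton'.1 hF
      obtain ⟨c, hc, a', ha'⟩ := clear2 (R := R) a
      have h3 : cc c * F = a' * qw c0 c1 c2 := by
        apply ph_inj (K := K)
        rw [map_mul, map_mul, ha', ph_cc, ph_qw, ← ha]
        ring
      have h4 : cc c * F ∈ Ideal.span {qw c0 c1 c2} :=
        Ideal.mem_span_singleton'.2 ⟨a', h3.symm⟩
      exact (hqp.mem_or_mem h4).resolve_left (cc_notMem hc)
    have hKne : ext K p ≠ Ideal.span
        {qw (algebraMap R K c0) (algebraMap R K c1) (algebraMap R K c2)} := by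
      intro heq
      apply hne
      apply le_antisymm
      · intro F hF
        apply hback
        rw [← heq, ph_mem_ext hp h0]
        exact hF
      · rw [Ideal.span_singleton_le_iff_mem]
        exact hg
    have : CharZero K := charZero_of_injective_algebraMap hinj
    obtain ⟨P, hP⟩ := h2 K _ _ _ hKd (ext K p) hKp hKg hKne
    have hPm : P ∈ ext K p := by
      rw [hP]
      exact Ideal.le_radical (Ideal.subset_span (by simp))
    obtain ⟨e, he, x0, hx0, hx0P⟩ := mem_ext.1 hPm
    set x1 := x0 %ₘ qw c0 c1 c2 with hx1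
    have hdiv : x1 + qw c0 c1 c2 * (x0 /ₘ qw c0 c1 c2) = x0 := modByMonic_add_div x0 _
    have hx1p : x1 ∈ p := by
      have : x1 = x0 - (x0 /ₘ qw c0 c1 c2) * qw c0 c1 c2 := by linear_combination hdiv
      rw [this]
      exact sub_mem hx0 (Ideal.mul_mem_left _ _ hg)
    have hx1d : x1.degree < 2 := by
      rw [← qw_degree (c0 := c0) (c1 := c1) (c2 := c2)]
      exact degree_modByMonic_lt x0 qw_monic
    -- every element of `p` has a multiple of a power in the span of `qw, x1`
    have hpow : ∀ F ∈ p, ∃ (k : ℕ) (c : R), c ≠ 0 ∧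
        cc c * F ^ k ∈ Ideal.span {qw c0 c1 c2, x1} := by
      intro F hF
      have h3 : ph K F ∈ ext K p := (ph_mem_ext hp h0).2 hF
      rw [hP] at h3
      obtain ⟨k, hk⟩ := h3
      obtain ⟨a, b, hab⟩ := Ideal.mem_span_pair.1 hk
      obtain ⟨ca, hca, a', ha'⟩ := clear2 (R := R) a
      obtain ⟨cb, hcb, b', hb'⟩ := clear2 (R := R) b
      refine ⟨k, ca * cb * e, mul_ne_zero (mul_ne_zero hca hcb) he, ?_⟩
      have h4 : cc (ca * cb * e) * F ^ k = cc (cb * e) * a' * qw c0 c1 c2 +
          cc ca * b' * x0 := by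
        apply ph_inj (K := K)
        simp only [map_add, map_mul, map_pow, ph_cc, ha', hb', hx0P, ph_qw, ck_mul]
        rw [← hab]
        ring
      rw [h4]
      refine Ideal.mem_span_pair.2 ⟨cc (cb * e) * a' + cc ca * b' * (x0 /ₘ qw c0 c1 c2),
        cc ca * b', ?_⟩
      linear_combination (cc ca * b') * hdiv
    have hx10 : x1 ≠ 0 := by
      intro hz
      apply hne
      apply le_antisymm
      · intro F hF
        obtain ⟨k, c, hc, hk⟩ := hpow F hF
        rw [hz] at hk
        have h3 : cc c * F ^ k ∈ Ideal.span {qw c0 c1 c2} := by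
          obtain ⟨a, b, hab⟩ := Ideal.mem_span_pair.1 hk
          exact Ideal.mem_span_singleton'.2 ⟨a, by rw [← hab]; ring⟩
        exact hqp.mem_of_pow_mem k ((hqp.mem_or_mem h3).resolve_left (cc_notMem hc))
      · rw [Ideal.span_singleton_le_iff_mem]
        exact hg
    obtain ⟨c, x, hc, hcx, hprim⟩ := exists_prim hx10
    have hxp : x ∈ p := by
      rw [hcx] at hx1p
      exact (hp.mem_or_mem hx1p).resolve_left (h0 c hc)
    have hxd : x.degree < 2 := by
      have hdeg : x1.degree = x.degree := by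
        rw [hcx, degree_mul, cc, degree_C (by simpa using hc), zero_add]
      rwa [← hdeg]
    have hrad : (Ideal.span {qw c0 c1 c2, x}).radical = p := by
      apply le_antisymm
      · rw [hp.radical_le_iff, Ideal.span_le]
        intro y hy
        rcases hy with rfl | rfl
        · exact hg
        · exact hxp
      · intro F hF
        obtain ⟨k, d, hd, hk⟩ := hpow F hF
        refine ⟨k, cancel_all hqp h1 hxd hprim d hd _ ?_⟩
        obtain ⟨a, b, hab⟩ := Ideal.mem_span_pair.1 hk
        exact Ideal.mem_span_pair.2 ⟨a, b * cc c, by rw [← hab, hcx]; ring⟩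
    refine ⟨x, hxp, ?_, ?_⟩
    · intro h3
      have := small h3 hxd
      rw [this, mul_zero] at hcx
      exact hx10 hcx
    · rw [hrad]
      exact hp

end C3

end Pool.VMR
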