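import Pool.Agent.H30.VMR.C4a
import Pool.Agent.H30.VMR.C3a

/-!
# Module C3: prime ideals on the conic bundle
-/

noncomputable section

namespace Pool.VMR

namespace C3

open Polynomial

/-- the permutation of the variables -/
def sg : Fin 4 ≃ Fin 4 := (Equiv.swap 0 2).trans ((Equiv.swap 0 3).trans (Equiv.swap 1 3))

/-- the equivalence of `ℂ[a,b,z,w]` and `ℂ[a,b][z][w]` -/
def E : MvPolynomial (Fin 4) ℂ ≃ₐ[ℂ] Polynomial (Polynomial Rab) :=
  ((MvPolynomial.renameEquiv ℂ sg).trans (MvPolynomial.finSuccEquiv ℂ 3)).trans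
    (Polynomial.mapAlgEquiv (MvPolynomial.finSuccEquiv ℂ 2))

theorem E_0 : E (MvPolynomial.X 0) = C (C (MvPolynomial.X 0)) := by
  have s : sg 0 = 2 := by decide
  simp only [E, AlgEquiv.trans_apply, MvPolynomial.renameEquiv_apply, MvPolynomial.rename_X, s]
  rw [show (2 : Fin 4) = Fin.succ 1 from rfl, MvPolynomial.finSuccEquiv_X_succ]
  simp only [coe_mapAlgEquiv, map_C]
  rw [show (1 : Fin 3) = Fin.succ 0 from rfl]
  show C (MvPolynomial.finSuccEquiv ℂ 2 (MvPolynomial.X (Fin.succ 0))) = _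
  rw [MvPolynomial.finSuccEquiv_X_succ]

theorem E_1 : E (MvPolynomial.X 1) = C (C (MvPolynomial.X 1)) := by
  have s : sg 1 = 3 := by decide
  simp only [E, AlgEquiv.trans_apply, MvPolynomial.renameEquiv_apply, MvPolynomial.rename_X, s]
  rw [show (3 : Fin 4) = Fin.succ 2 from rfl, MvPolynomial.finSuccEquiv_X_succ]
  simp only [coe_mapAlgEquiv, map_C]
  rw [show (2 : Fin 3) = Fin.succ 1 from rfl]
  show C (MvPolynomial.finSuccEquiv ℂ 2 (MvPolynomial.X (Fin.succ 1))) = _
  rw [MvPolynomial.finSuccEquiv_X_succ]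

theorem E_2 : E (MvPolynomial.X 2) = C X := by
  have s : sg 2 = 1 := by decide
  simp only [E, AlgEquiv.trans_apply, MvPolynomial.renameEquiv_apply, MvPolynomial.rename_X, s]
  rw [show (1 : Fin 4) = Fin.succ 0 from rfl, MvPolynomial.finSuccEquiv_X_succ]
  simp only [coe_mapAlgEquiv, map_C]
  show C (MvPolynomial.finSuccEquiv ℂ 2 (MvPolynomial.X 0)) = _
  rw [MvPolynomial.finSuccEquiv_X_zero]

theorem E_3 : E (MvPolynomial.X 3) = X := by
  have s : sg 3 = 0 := by decide
  simp only [E, AlgEquiv.trans_apply, MvPolynomial.renameEquiv_apply, MvPolynomial.rename_X, s]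
  rw [MvPolynomial.finSuccEquiv_X_zero]
  simp

theorem E_gw : E gw = qab := by
  simp only [gw, qab, qw, qz, cc0, cc1, cc2, map_sub, map_add, map_mul, map_pow, E_0, E_1, E_2,
    E_3, map_one, map_ofNat]

theorem disc_ne : cc1 (MvPolynomial.X 0 : Rab) (MvPolynomial.X 1) ^ 2 ≠
    cc0 (MvPolynomial.X 0 : Rab) (MvPolynomial.X 1) *
      cc2 (MvPolynomial.X 0 : Rab) (MvPolynomial.X 1) := by
  intro h
  have := congrArg (MvPolynomial.eval (![1, 0] : Fin 2 → ℂ)) h
  simp [cc0, cc1, cc2] at this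
  norm_num at this

/-- transfer of the star property along a ring equivalence -/
theorem transfer {A B : Type} [CommRing A] [CommRing B] (e : A ≃+* B) {g : A} {g' : B}
    (hg : e g = g')
    (h : ∀ p : Ideal B, p.IsPrime → g' ∈ p → p ≠ Ideal.span {g'} →
      ∃ P ∈ p, P ∉ Ideal.span {g'} ∧ (Ideal.span {g', P}).radical.IsPrime) :
    ∀ p : Ideal A, p.IsPrime → g ∈ p → p ≠ Ideal.span {g} →
      ∃ P ∈ p, P ∉ Ideal.span {g} ∧ (Ideal.span {g, P}).radical.IsPrime := by
  intro p hp hgp hne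
  have hm1 : ∀ x : B, x ∈ p.comap (e.symm : B →+* A) ↔ e.symm x ∈ p := fun x => Iff.rfl
  have hs1 : ∀ x : B, x ∈ Ideal.span {g'} ↔ e.symm x ∈ Ideal.span {g} := by
    intro x
    rw [Ideal.mem_span_singleton', Ideal.mem_span_singleton']
    constructor
    · rintro ⟨a, ha⟩
      exact ⟨e.symm a, by rw [← ha, map_mul, ← hg, RingEquiv.symm_apply_apply]⟩
    · rintro ⟨a, ha⟩
      exact ⟨e a, by rw [← hg, ← map_mul, ha, RingEquiv.apply_symm_apply]⟩
  have hp' : (p.comap (e.symm : B →+* A)).IsPrime := Ideal.IsPrime.comap _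
  obtain ⟨P, hPp, hPg, hPr⟩ := h (p.comap (e.symm : B →+* A)) hp' (by
    rw [hm1, ← hg, RingEquiv.symm_apply_apply]
    exact hgp) (by
    intro heq
    apply hne
    ext x
    have h1 : e x ∈ p.comap (e.symm : B →+* A) ↔ e x ∈ Ideal.span {g'} := by rw [heq]
    rwa [hm1, hs1, RingEquiv.symm_apply_apply] at h1)
  refine ⟨e.symm P, hPp, fun hcon => hPg ((hs1 P).2 hcon), ?_⟩
  have heq : (Ideal.span {g, e.symm P}).radical =
      ((Ideal.span {g', P}).radical).comap (e : A →+* B) := by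
    ext x
    rw [Ideal.mem_comap]
    constructor
    · rintro ⟨n, hn⟩
      obtain ⟨a, b, hab⟩ := Ideal.mem_span_pair.1 hn
      refine ⟨n, Ideal.mem_span_pair.2 ⟨e a, e b, ?_⟩⟩
      have := congrArg e hab
      rw [map_add, map_mul, map_mul, map_pow, hg, RingEquiv.apply_symm_apply] at this
      exact this
    · rintro ⟨n, hn⟩
      obtain ⟨a, b, hab⟩ := Ideal.mem_span_pair.1 hn
      refine ⟨n, Ideal.mem_span_pair.2 ⟨e.symm a, e.symm b, ?_⟩⟩
      have := congrArg e.symm hab
      rw [map_add, map_mul, map_mul, ← hg, RingEquiv.symm_apply_apply] at this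
      rw [this]
      change e.symm ((e x) ^ n) = x ^ n
      rw [map_pow, RingEquiv.symm_apply_apply]
  rw [heq]
  exact Ideal.IsPrime.comap _

/-- primality of `qw` from that of `gw` -/
theorem prime_transfer {A B : Type} [CommRing A] [CommRing B] (e : A ≃+* B) {g : A} {g' : B}
    (hg : e g = g') (h : (Ideal.span {g}).IsPrime) : (Ideal.span {g'}).IsPrime := by
  have heq : Ideal.span {g'} = (Ideal.span {g}).comap (e.symm : B →+* A) := by
    ext x
    rw [Ideal.mem_comap, Ideal.mem_span_singleton', Ideal.mem_span_singleton']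
    constructor
    · rintro ⟨a, ha⟩
      refine ⟨e.symm a, ?_⟩
      rw [← ha]
      change e.symm a * g = e.symm (a * g')
      rw [map_mul, ← hg, RingEquiv.symm_apply_apply]
    · rintro ⟨a, ha⟩
      refine ⟨e a, ?_⟩
      have := congrArg e ha
      rw [map_mul, hg] at this
      rw [this]
      exact RingEquiv.apply_symm_apply e x
  rw [heq]
  exact Ideal.IsPrime.comap _

end C3

open C3 in
/-- MODULE C3 (from C1 and C2) -/
theorem starS (h1 : VertS) (h2 : FLS) : StarS := by
  have hq : (Ideal.span {qab}).IsPrime :=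
    prime_transfer (A := MvPolynomial (Fin 4) ℂ) (B := Polynomial (Polynomial Rab))
      (g := gw) (g' := qab) E.toRingEquiv E_gw C4.gw_prime
  exact transfer (A := MvPolynomial (Fin 4) ℂ) (B := Polynomial (Polynomial Rab))
    (g := gw) (g' := qab) E.toRingEquiv E_gw (fun p hp hg hne =>
    star (R := Rab) (c0 := cc0 (MvPolynomial.X 0) (MvPolynomial.X 1))
      (c1 := cc1 (MvPolynomial.X 0) (MvPolynomial.X 1))
      (c2 := cc2 (MvPolynomial.X 0) (MvPolynomial.X 1)) hq h1 disc_ne h2 p hp hg hne)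

end Pool.VMR
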