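import Pool.Agent.H30.VMR.C4b

/-!
# Module C4: the Picard number is one
-/

noncomputable section

namespace Pool.VMR

namespace C4

open MvPolynomial

/-- the main case: a prime divisor that is contained neither in `z1 = 0` nor in `DD = 0` -/
theorem main_case (h : StarS) (hs : SmoothS) (hp : PrimesS) {Z : Set (V 6)}
    (hZ : PrimeDiv (X3 hs hp) Z) (hZ1 : ¬ ∀ x ∈ Z, eval x (X 2 : Po 6) = 0)
    (hZ2 : ¬ ∀ x ∈ Z, eval x DD = 0) :
    ∃ (k : ℕ) (P : Po 6), P.IsHomogeneous k ∧ Z = {x ∈ (X3 hs hp).cone | eval x P = 0} := by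
  obtain ⟨⟨S, hS, hZS⟩, hirr, hne, hmax⟩ := hZ
  rw [cone_X3] at hZS hne hmax ⊢
  have hZc : ∀ x ∈ Z, x ∈ Cone := by
    intro x hx
    rw [hZS] at hx
    exact hx.1
  -- homogeneous polynomials that vanish on the open part of `Z` vanish on `Z`
  have hXD : (X 2 * DD : Po 6).IsHomogeneous (1 + 2) := (isHomogeneous_X ℂ _).mul hom_DD
  have hnot : ¬ ∀ x ∈ Z, eval x (X 2 * DD : Po 6) = 0 := by
    intro h0
    rcases hirr.2 1 2 (X 2) DD (isHomogeneous_X ℂ _) hom_DD (by
      intro x hx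
      rw [← map_mul]
      exact h0 x hx) with h1 | h1
    · exact hZ1 h1
    · exact hZ2 h1
  have hdense : ∀ (k : ℕ) (P : Po 6), P.IsHomogeneous k →
      (∀ x ∈ Z, x 2 ≠ 0 → dx x ≠ 0 → eval x P = 0) → ∀ x ∈ Z, eval x P = 0 := by
    intro k P hP h0
    rcases hirr.2 k (1 + 2) P (X 2 * DD) hP hXD (by
      intro x hx
      rw [map_mul, eval_X, eval_DD]
      by_cases h2 : x 2 = 0
      · rw [h2]; ring
      · by_cases hd : dx x = 0
        · rw [hd]; ring
        · rw [h0 x hx h2 hd]; ring) with h1 | h1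
    · exact h1
    · exact absurd h1 hnot
  -- a point of the open part
  obtain ⟨x0, hx0, h02, h0d⟩ : ∃ x ∈ Z, x 2 ≠ 0 ∧ dx x ≠ 0 := by
    by_contra hcon
    apply hnot
    intro x hx
    rw [map_mul, eval_X, eval_DD]
    by_contra h0
    exact hcon ⟨x, hx, left_ne_zero_of_mul h0, right_ne_zero_of_mul h0⟩
  -- the ideal of the open part
  let p : Ideal A4 :=
    { carrier := {Q | ∀ x ∈ Z, x 2 ≠ 0 → dx x ≠ 0 → eval (al x) Q = 0}
      add_mem' := by
        intro a b ha hb x hx h2 hd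
        rw [map_add, ha x hx h2 hd, hb x hx h2 hd, add_zero]
      zero_mem' := by
        intro x _ _ _
        rw [map_zero]
      smul_mem' := by
        intro c a ha x hx h2 hd
        rw [smul_eq_mul, map_mul, ha x hx h2 hd, mul_zero] }
  have hmemp : ∀ Q : A4, Q ∈ p ↔ ∀ x ∈ Z, x 2 ≠ 0 → dx x ≠ 0 → eval (al x) Q = 0 :=
    fun Q => Iff.rfl
  have hpprime : p.IsPrime := by
    refine ⟨?_, ?_⟩
    · intro htop
      have h1 : (1 : A4) ∈ p := by rw [htop]; trivial
      have := (hmemp 1).1 h1 x0 hx0 h02 h0d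
      simp at this
    · intro Q1 Q2 hQ
      rw [hmemp] at hQ
      set N1 := Q1.totalDegree
      set N2 := Q2.totalDegree
      have hprod : ∀ x ∈ Z, eval x (H N1 Q1) * eval x (H N2 Q2) = 0 := by
        intro x hx
        rw [← map_mul]
        refine hdense _ _ ((hom_H le_rfl).mul (hom_H le_rfl)) ?_ x hx
        intro y hy h2 hd
        have e := hQ y hy h2 hd
        rw [map_mul] at e
        rw [map_mul, eval_H le_rfl h2 hd, eval_H le_rfl h2 hd]
        linear_combination (y 2 * dx y) ^ N1 * (y 2 * dx y) ^ N2 * e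
      rcases hirr.2 _ _ _ _ (hom_H le_rfl) (hom_H le_rfl) hprod with h1 | h1
      · left
        rw [hmemp]
        intro x hx h2 hd
        have e := h1 x hx
        rw [eval_H le_rfl h2 hd] at e
        exact (mul_eq_zero.1 e).resolve_left (pow_ne_zero _ (mul_ne_zero h2 hd))
      · right
        rw [hmemp]
        intro x hx h2 hd
        have e := h1 x hx
        rw [eval_H le_rfl h2 hd] at e
        exact (mul_eq_zero.1 e).resolve_left (pow_ne_zero _ (mul_ne_zero h2 hd))
  have hgp : gw ∈ p := by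
    rw [hmemp]
    intro x hx h2 hd
    exact gw_al (hZc x hx) h2 hd
  -- evaluation through the chart
  have hchart : ∀ (k : ℕ) (P : Po 6), P.IsHomogeneous k → ∀ x ∈ Cone, x 2 ≠ 0 → dx x ≠ 0 →
      eval (al x) (cB P) = (dx x / x 2 ^ 3) ^ k * eval x P := by
    intro k P hP x hx h2 hd
    rw [eval_cB, B_al hx h2 hd, eval_smul_hom hP]
  have hchart0 : ∀ (k : ℕ) (P : Po 6), P.IsHomogeneous k → ∀ x ∈ Cone, x 2 ≠ 0 → dx x ≠ 0 →
      (eval (al x) (cB P) = 0 ↔ eval x P = 0) := by
    intro k P hP x hx h2 hd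
    rw [hchart k P hP x hx h2 hd, mul_eq_zero]
    constructor
    · rintro (h1 | h1)
      · exact absurd h1 (pow_ne_zero _ (div_ne_zero hd (pow_ne_zero 3 h2)))
      · exact h1
    · exact Or.inr
  have hpne : p ≠ Ideal.span {gw} := by
    intro heq
    apply hne
    rw [hZS]
    ext y
    simp only [Set.mem_ofPred_eq, and_iff_left_iff_imp]
    intro hy P hPS
    obtain ⟨k, hk⟩ := hS P hPS
    have h1 : cB P ∈ p := by
      rw [hmemp]
      intro x hx h2 hd
      rw [hchart0 k P hk x (hZc x hx) h2 hd]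
      rw [hZS] at hx
      exact hx.2 P hPS
    rw [heq] at h1
    obtain ⟨R, hR⟩ := Ideal.mem_span_singleton'.1 h1
    have h2 : X 2 * DD * P ∈ I0 := by
      apply mem_of_vanish hp
      intro x hx
      rw [map_mul, map_mul, eval_X, eval_DD]
      by_cases h2 : x 2 = 0
      · rw [h2]; ring
      · by_cases hd : dx x = 0
        · rw [hd]; ring
        · have : eval x P = 0 := by
            rw [← hchart0 k P hk x hx h2 hd, ← hR, map_mul, gw_al hx h2 hd, mul_zero]
          rw [this, mul_zero]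
    have h3 : P ∈ I0 := by
      rcases hp.1.mem_or_mem h2 with h4 | h4
      · rcases hp.1.mem_or_mem h4 with h5 | h5
        · exact absurd h5 X2_notMem
        · exact absurd h5 DD_notMem
      · exact h4
    exact eval_eq_zero_of_mem h3 hy.2.1 hy.2.2.1 hy.2.2.2
  obtain ⟨P0, hP0p, hP0g, hq⟩ := h p hpprime hgp hpne
  -- the points of the affine divisor
  have hvq : ∀ R : A4, (∀ q : Fin 4 → ℂ, eval q gw = 0 → eval q P0 = 0 → eval q R = 0) →
      R ∈ (Ideal.span {gw, P0}).radical := by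
    intro R hR
    apply nst
    intro q hq
    exact hR q (hq _ (Ideal.subset_span (by simp))) (hq _ (Ideal.subset_span (by simp)))
  have hvq' : ∀ R ∈ (Ideal.span {gw, P0}).radical, ∀ q : Fin 4 → ℂ, eval q gw = 0 →
      eval q P0 = 0 → eval q R = 0 := by
    intro R hR q hg hP
    obtain ⟨m, hm⟩ := hR
    obtain ⟨a, b, hab⟩ := Ideal.mem_span_pair.1 hm
    have := congrArg (eval q) hab
    rw [map_add, map_mul, map_mul, hg, hP, map_pow] at this
    have h0 : eval q R ^ m = 0 := by rw [← this]; ring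
    by_contra hc
    exact pow_ne_zero m hc h0
  have hZP : ∀ x ∈ Z, x 2 ≠ 0 → dx x ≠ 0 → eval (al x) P0 = 0 := (hmemp P0).1 hP0p
  have hdval : ∀ x : V 6, x 2 ≠ 0 → dx x ≠ 0 → dv (al x) ≠ 0 := by
    intro x h2 hd
    rw [dv_al h2 hd]
    exact div_ne_zero hd (pow_ne_zero 2 h2)
  have hDq : Dp ∉ (Ideal.span {gw, P0}).radical := by
    intro hD
    have := hvq' Dp hD (al x0) (gw_al (hZc x0 hx0) h02 h0d) (hZP x0 hx0 h02 h0d)
    rw [eval_Dp] at this
    exact hdval x0 h02 h0d this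
  -- the closure
  let T : Set (Po 6) := {Q | (∃ k, Q.IsHomogeneous k) ∧
    ∀ q : Fin 4 → ℂ, eval q gw = 0 → eval q P0 = 0 → dv q ≠ 0 → eval (B q) Q = 0}
  let Zq : Set (V 6) := {x ∈ Cone | ∀ P ∈ T, eval x P = 0}
  have hBZq : ∀ q : Fin 4 → ℂ, eval q gw = 0 → eval q P0 = 0 → dv q ≠ 0 → B q ∈ Zq :=
    fun q h1 h2 h3 => ⟨B_mem h1 h3, fun Q hQ => hQ.2 q h1 h2 h3⟩
  have hclo : IsClo (X3 hs hp) Zq := ⟨T, fun P hP => hP.1, by rw [cone_X3]⟩
  have hirrq : IsIrr Zq := by
    refine ⟨⟨B (al x0), hBZq _ (gw_al (hZc x0 hx0) h02 h0d) (hZP x0 hx0 h02 h0d)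
      (hdval x0 h02 h0d)⟩, ?_⟩
    intro k l P Q hP hQ hPQ
    have hm : cB P * cB Q * Dp ∈ (Ideal.span {gw, P0}).radical := by
      apply hvq
      intro q h1 h2
      rw [map_mul, map_mul, eval_cB, eval_cB, eval_Dp]
      by_cases hd : dv q = 0
      · rw [hd, mul_zero]
      · rw [hPQ _ (hBZq q h1 h2 hd), zero_mul]
    rcases hq.mem_or_mem hm with h1 | h1
    · rcases hq.mem_or_mem h1 with h2 | h2
      · left
        intro x hx
        apply hx.2
        refine ⟨⟨k, hP⟩, fun q a1 a2 _ => ?_⟩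
        rw [← eval_cB]
        exact hvq' _ h2 q a1 a2
      · right
        intro x hx
        apply hx.2
        refine ⟨⟨l, hQ⟩, fun q a1 a2 _ => ?_⟩
        rw [← eval_cB]
        exact hvq' _ h2 q a1 a2
    · exact absurd h1 hDq
  have hsubq : Z ⊆ Zq := by
    intro x hx
    refine ⟨hZc x hx, ?_⟩
    rintro Q ⟨⟨k, hk⟩, hQ⟩
    refine hdense k Q hk ?_ x hx
    intro y hy h2 hd
    rw [← hchart0 k Q hk y (hZc y hy) h2 hd, eval_cB]
    exact hQ _ (gw_al (hZc y hy) h2 hd) (hZP y hy h2 hd) (hdval y h2 hd)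
  -- the homogenised `P0`
  set N := P0.totalDegree with hN
  have hHB : ∀ q : Fin 4 → ℂ, dv q ≠ 0 →
      eval (B q) (H N P0) = (dv q ^ 4) ^ N * eval q P0 := by
    intro q hd
    have e1 : B q 2 ≠ 0 := by rw [B_2]; exact hd
    have e2 : dx (B q) ≠ 0 := by rw [dx_B]; exact pow_ne_zero 3 hd
    rw [eval_H le_rfl e1 e2, al_B hd, B_2, dx_B]
    ring
  have hHT : H N P0 ∈ T := by
    refine ⟨⟨_, hom_H le_rfl⟩, ?_⟩
    intro q h1 h2 hd
    rw [hHB q hd, h2, mul_zero]
  have hneq : Zq ≠ Cone := by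
    intro heq
    have hm : P0 * Dp ∈ (Ideal.span {gw}).radical := by
      apply nst
      intro q hq'
      have hg : eval q gw = 0 := hq' _ (Ideal.mem_span_singleton_self _)
      rw [map_mul, eval_Dp]
      by_cases hd : dv q = 0
      · rw [hd, mul_zero]
      · have h1 : B q ∈ Zq := by rw [heq]; exact B_mem hg hd
        have h2 := h1.2 _ hHT
        rw [hHB q hd] at h2
        rw [(mul_eq_zero.1 h2).resolve_left (pow_ne_zero _ (pow_ne_zero _ hd)), zero_mul]
    rw [gw_prime.radical] at hm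
    rcases gw_prime.mem_or_mem hm with h1 | h1
    · exact hP0g h1
    · obtain ⟨R, hR⟩ := Ideal.mem_span_singleton'.1 h1
      have := congrArg (eval (al x0)) hR
      rw [map_mul, gw_al (hZc x0 hx0) h02 h0d, mul_zero, eval_Dp] at this
      exact hdval x0 h02 h0d this.symm
  have hZeq : Zq = Z := hmax Zq hclo hirrq hneq hsubq
  -- remove the factors `z1` and `DD`
  have hHI : H N P0 ∉ I0 := by
    intro hI
    apply hneq
    ext x
    constructor
    · exact fun hx => hx.1
    · intro hx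
      exfalso
      have hm : P0 * Dp ∈ (Ideal.span {gw}).radical := by
        apply nst
        intro q hq'
        have hg : eval q gw = 0 := hq' _ (Ideal.mem_span_singleton_self _)
        rw [map_mul, eval_Dp]
        by_cases hd : dv q = 0
        · rw [hd, mul_zero]
        · have h1 := B_mem hg hd
          have h2 := eval_eq_zero_of_mem hI h1.2.1 h1.2.2.1 h1.2.2.2
          rw [hHB q hd] at h2
          rw [(mul_eq_zero.1 h2).resolve_left (pow_ne_zero _ (pow_ne_zero _ hd)), zero_mul]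
      rw [gw_prime.radical] at hm
      rcases gw_prime.mem_or_mem hm with h1 | h1
      · exact hP0g h1
      · obtain ⟨R, hR⟩ := Ideal.mem_span_singleton'.1 h1
        have := congrArg (eval (al x0)) hR
        rw [map_mul, gw_al (hZc x0 hx0) h02 h0d, mul_zero, eval_Dp] at this
        exact hdval x0 h02 h0d this.symm
  obtain ⟨i, j, k1, P1, hP1, hP1X, hP1D, hfac⟩ := descend hp _ _ (hom_H le_rfl) hHI
  refine ⟨k1, P1, hP1, ?_⟩
  apply Set.Subset.antisymm
  · intro x hx
    refine ⟨hZc x hx, ?_⟩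
    refine hdense k1 P1 hP1 ?_ x hx
    intro y hy h2 hd
    have e := hfac y (hZc y hy)
    rw [eval_H le_rfl h2 hd, hZP y hy h2 hd, mul_zero] at e
    exact (mul_eq_zero.1 e.symm).resolve_left
      (mul_ne_zero (pow_ne_zero _ h2) (pow_ne_zero _ hd))
  · rintro x ⟨hx, hx1⟩
    rw [← hZeq]
    refine ⟨hx, ?_⟩
    rintro Q ⟨⟨k, hk⟩, hQ⟩
    have hm : cB Q * Dp ∈ (Ideal.span {gw, P0}).radical := by
      apply hvq
      intro q h1 h2
      rw [map_mul, eval_cB, eval_Dp]
      by_cases hd : dv q = 0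
      · rw [hd, mul_zero]
      · rw [hQ q h1 h2 hd, zero_mul]
    obtain ⟨m, hm⟩ := hm
    obtain ⟨A, C', hAC⟩ := Ideal.mem_span_pair.1 hm
    set M := C'.totalDegree with hM
    -- the identity on the open part of the cone
    have hid : ∀ y ∈ Cone, y 2 ≠ 0 → dx y ≠ 0 →
        y 2 ^ (N + M) * (dx y ^ (k * m + m + N + M) * eval y Q ^ m) =
          eval y P1 * (y 2 ^ (3 * (k * m) + 2 * m + i) * dx y ^ j * eval y (H M C')) := by
      intro y hy h2 hd
      have e1 := congrArg (eval (al y)) hAC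
      rw [map_add, map_mul, map_mul, gw_al hy h2 hd, mul_zero, zero_add, map_pow, map_mul,
        hchart k Q hk y hy h2 hd, eval_Dp, dv_al h2 hd] at e1
      have e2 := hfac y hy
      rw [eval_H le_rfl h2 hd] at e2
      rw [eval_H (Q := C') le_rfl h2 hd]
      have e3 : ((dx y / y 2 ^ 3) ^ k * eval y Q * (dx y / y 2 ^ 2)) ^ m *
          y 2 ^ (3 * (k * m) + 2 * m) = dx y ^ (k * m + m) * eval y Q ^ m := by
        rw [pow_add, pow_mul (y 2) 3, pow_mul (y 2) 2, mul_pow, mul_pow, ← pow_mul, div_pow,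
          div_pow, ← pow_mul (y 2) 3, ← pow_mul (y 2) 2]
        field_simp
        ring
      have e4 : eval (al y) C' * eval (al y) P0 * y 2 ^ (3 * (k * m) + 2 * m) =
          dx y ^ (k * m + m) * eval y Q ^ m := by
        rw [e1, e3]
      calc y 2 ^ (N + M) * (dx y ^ (k * m + m + N + M) * eval y Q ^ m)
          = (y 2 * dx y) ^ N * (y 2 * dx y) ^ M * (dx y ^ (k * m + m) * eval y Q ^ m) := by
            rw [mul_pow, mul_pow]
            ring
        _ = (y 2 * dx y) ^ N * (y 2 * dx y) ^ M * (eval (al y) C' * eval (al y) P0 *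
              y 2 ^ (3 * (k * m) + 2 * m)) := by rw [e4]
        _ = ((y 2 * dx y) ^ N * eval (al y) P0) * (y 2 ^ (3 * (k * m) + 2 * m) *
              ((y 2 * dx y) ^ M * eval (al y) C')) := by ring
        _ = (y 2 ^ i * dx y ^ j * eval y P1) * (y 2 ^ (3 * (k * m) + 2 * m) *
              ((y 2 * dx y) ^ M * eval (al y) C')) := by rw [e2]
        _ = _ := by ring
    have hid2 : ∀ y ∈ Cone, eval y (X 2 : Po 6) ^ (N + M + 1) *
        eval y (DD ^ (k * m + m + N + M + 1) * Q ^ m : Po 6) =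
          eval y P1 * eval y (X 2 ^ (3 * (k * m) + 2 * m + i) * DD ^ j * H M C' * (X 2 * DD)) := by
      intro y hy
      simp only [map_mul, map_pow, eval_X, eval_DD]
      by_cases h2 : y 2 = 0
      · rw [h2]; ring
      · by_cases hd : dx y = 0
        · rw [hd]; ring
        · have := hid y hy h2 hd
          linear_combination (y 2 * dx y) * this
    obtain ⟨R1, hR1⟩ := cancel_pow hp hp.2.1 X2_notMem hP1X _ _ hid2
    obtain ⟨R2, hR2⟩ := cancel_pow hp (T := Q ^ m) hp.2.2 DD_notMem hP1D (k * m + m + N + M + 1)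
      R1 (by
        intro y hy
        rw [← hR1 y hy, map_mul, map_pow, map_pow])
    have h0 : eval x Q ^ m = 0 := by
      rw [← map_pow, hR2 x hx, hx1, zero_mul]
    by_contra hc
    exact pow_ne_zero m hc h0

end C4

open C4 in
/-- MODULE C4 (from C3) -/
theorem picS (h : StarS) : PicS := by
  intro hs hp Z hZ
  by_cases hZ1 : ∀ x ∈ Z, MvPolynomial.eval x (MvPolynomial.X 2 : Po 6) = 0
  · exact ⟨1, MvPolynomial.X 2, MvPolynomial.isHomogeneous_X ℂ _,
      sec_case hs hp (MvPolynomial.isHomogeneous_X ℂ (2 : Fin 7)) hp.2.1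
        ⟨x11, x11_mem, by simp [x11]⟩ (by simp [pt0]) hZ hZ1⟩
  · by_cases hZ2 : ∀ x ∈ Z, MvPolynomial.eval x DD = 0
    · exact ⟨2, DD, hom_DD, sec_case hs hp hom_DD hp.2.2 ⟨x11, x11_mem, by simp [x11, DD]⟩
        (by simp [pt0, DD]) hZ hZ2⟩
    · exact main_case h hs hp hZ hZ1 hZ2

end Pool.VMR
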