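import Pool.Agent.H30.VMR.Stm

/-!
# The normal form of the conics
-/

noncomputable section

namespace Pool.VMR

namespace D1

open MvPolynomial

/-! ### Binary quadratic forms -/

/-- the value of a binary quadratic form -/
def qf (x : Fin 3 → ℂ) (s t : ℂ) : ℂ := x 0 * s ^ 2 + x 1 * (s * t) + x 2 * t ^ 2

theorem fac (a b c : ℂ) : ∃ α β γ δ : ℂ, ∀ s t : ℂ,
    a * s ^ 2 + b * (s * t) + c * t ^ 2 = (α * s + β * t) * (γ * s + δ * t) := by
  by_cases ha : a = 0
  · exact ⟨0, 1, b, c, fun s t => by rw [ha]; ring⟩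
  · obtain ⟨d, hd⟩ := IsAlgClosed.exists_pow_nat_eq (b ^ 2 - 4 * a * c) (n := 2) (by norm_num)
    refine ⟨a, (b - d) / 2, 1, (b + d) / (2 * a), fun s t => ?_⟩
    have hc : c = (b ^ 2 - d ^ 2) / (4 * a) := by
      rw [hd]
      field_simp
      ring
    rw [hc]
    field_simp
    ring

theorem nz (x : Fin 3 → ℂ) : ∃ s t : ℂ, (s, t) ≠ (0, 0) ∧ qf x s t = 0 := by
  obtain ⟨α, β, γ, δ, h⟩ := fac (x 0) (x 1) (x 2)
  by_cases h0 : (β, -α) = ((0, 0) : ℂ × ℂ)
  · refine ⟨1, 0, by simp, ?_⟩
    have h1 : α = 0 := by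
      have := (Prod.ext_iff.1 h0).2
      simpa using this
    unfold qf
    rw [h, h1]
    ring
  · refine ⟨β, -α, h0, ?_⟩
    unfold qf
    rw [h]
    ring

/-- a perfect square -/
theorem sq_of_disc (x : Fin 3 → ℂ) (h : x 1 ^ 2 = 4 * x 0 * x 2) :
    ∃ α β : ℂ, ∀ s t, qf x s t = (α * s + β * t) ^ 2 := by
  by_cases h0 : x 0 = 0
  · have h1 : x 1 = 0 := by
      rw [h0] at h
      simpa using h
    obtain ⟨β, hβ⟩ := IsAlgClosed.exists_pow_nat_eq (x 2) (n := 2) (by norm_num)
    refine ⟨0, β, fun s t => ?_⟩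
    unfold qf
    rw [h0, h1, ← hβ]
    ring
  · obtain ⟨α, hα⟩ := IsAlgClosed.exists_pow_nat_eq (x 0) (n := 2) (by norm_num)
    have ha : α ≠ 0 := by
      rintro rfl
      exact h0 (by rw [← hα]; ring)
    refine ⟨α, x 1 / (2 * α), fun s t => ?_⟩
    have h2 : x 2 = x 1 ^ 2 / (4 * α ^ 2) := by
      rw [h, hα]
      field_simp
    unfold qf
    rw [h2, ← hα]
    field_simp
    ring

/-- the coefficients of a product -/
theorem prod_coef {x y z : Fin 3 → ℂ} {u : Fin 3 → ℂ}
    (h : ∀ s t, qf x s t * qf y s t = qf z s t * qf u s t) :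
    x 0 * y 0 = z 0 * u 0 ∧ x 0 * y 1 + x 1 * y 0 = z 0 * u 1 + z 1 * u 0 ∧
      x 0 * y 2 + x 1 * y 1 + x 2 * y 0 = z 0 * u 2 + z 1 * u 1 + z 2 * u 0 ∧
      x 1 * y 2 + x 2 * y 1 = z 1 * u 2 + z 2 * u 1 ∧ x 2 * y 2 = z 2 * u 2 := by
  have e0 := h 1 0
  have e1 := h 0 1
  have e2 := h 1 1
  have e3 := h 1 (-1)
  have e4 := h 2 1
  unfold qf at e0 e1 e2 e3 e4
  norm_num at e0 e1 e2 e3 e4
  refine ⟨e0, ?_, ?_, ?_, e1⟩
  · linear_combination (-1 / 2) * e2 - (1 / 6) * e3 + (1 / 6) * e4 - 2 * e0 + (1 / 2) * e1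
  · linear_combination (1 / 2) * e2 + (1 / 2) * e3 - e0 - e1
  · linear_combination e2 - (1 / 3) * e3 - (1 / 6) * e4 + 2 * e0 - (1 / 2) * e1

theorem qf_zero_of {x : Fin 3 → ℂ} (h0 : x 0 = 0) (h1 : x 1 = 0) (h2 : x 2 = 0) (s t : ℂ) :
    qf x s t = 0 := by
  unfold qf
  rw [h0, h1, h2]
  ring

/-- a product of two forms which vanishes -/
theorem mul_zero' {x y : Fin 3 → ℂ} (h : ∀ s t, qf x s t * qf y s t = 0) :
    (∀ s t, qf x s t = 0) ∨ (∀ s t, qf y s t = 0) := by
  have h' : ∀ s t, qf x s t * qf y s t = qf (fun _ => 0) s t * qf (fun _ => 0) s t := by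
    intro s t
    rw [h, qf_zero_of rfl rfl rfl, mul_zero]
  obtain ⟨e0, e1, e2, e3, e4⟩ := prod_coef h'
  simp only [mul_zero, add_zero] at e0 e1 e2 e3 e4
  by_cases hx : x 0 = 0 ∧ x 1 = 0 ∧ x 2 = 0
  · exact Or.inl fun s t => qf_zero_of hx.1 hx.2.1 hx.2.2 s t
  · right
    have hy : y 0 = 0 ∧ y 1 = 0 ∧ y 2 = 0 := by
      by_cases a0 : x 0 = 0
      · rw [a0] at e1 e2
        simp only [zero_mul, zero_add] at e1 e2
        by_cases a1 : x 1 = 0
        · rw [a1] at e2 e3
          simp only [zero_mul, zero_add] at e2 e3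
          have a2 : x 2 ≠ 0 := fun a2 => hx ⟨a0, a1, a2⟩
          exact ⟨(mul_eq_zero.1 e2).resolve_left a2, (mul_eq_zero.1 e3).resolve_left a2,
            (mul_eq_zero.1 e4).resolve_left a2⟩
        · have b0 : y 0 = 0 := (mul_eq_zero.1 e1).resolve_left a1
          rw [b0] at e2
          simp only [mul_zero, add_zero] at e2
          have b1 : y 1 = 0 := (mul_eq_zero.1 e2).resolve_left a1
          rw [b1] at e3
          simp only [mul_zero, add_zero] at e3
          exact ⟨b0, b1, (mul_eq_zero.1 e3).resolve_left a1⟩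
      · have b0 : y 0 = 0 := (mul_eq_zero.1 e0).resolve_left a0
        rw [b0] at e1 e2
        simp only [mul_zero, add_zero] at e1 e2
        have b1 : y 1 = 0 := (mul_eq_zero.1 e1).resolve_left a0
        rw [b1] at e2
        simp only [mul_zero, add_zero] at e2
        exact ⟨b0, b1, (mul_eq_zero.1 e2).resolve_left a0⟩
    exact fun s t => qf_zero_of hy.1 hy.2.1 hy.2.2 s t

/-- two coprime forms whose product is a square -/
theorem disc_zero {x y w : Fin 3 → ℂ} (h : ∀ s t, qf x s t * qf y s t = qf w s t ^ 2)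
    (hn : ∀ s t, (s, t) ≠ (0, 0) → qf x s t = 0 → qf y s t ≠ 0) : x 1 ^ 2 = 4 * x 0 * x 2 := by
  by_contra hd
  obtain ⟨α, β, γ, δ, hf⟩ := fac (x 0) (x 1) (x 2)
  have hx : ∀ s t, qf x s t = (α * s + β * t) * (γ * s + δ * t) := hf
  -- the coefficients
  have c0 : x 0 = α * γ := by
    have := hx 1 0
    unfold qf at this
    linear_combination this
  have c2 : x 2 = β * δ := by
    have := hx 0 1
    unfold qf at this
    linear_combination this
  have c1 : x 1 = α * δ + β * γ := by
    have := hx 1 1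
    unfold qf at this
    linear_combination this - c0 - c2
  have hΔ : α * δ - β * γ ≠ 0 := by
    intro h0
    apply hd
    rw [c0, c1, c2]
    linear_combination (α * δ - β * γ) * h0
  -- `w` vanishes at the two zeros
  have z1 : qf w β (-α) = 0 := by
    have h1 := h β (-α)
    rw [hx] at h1
    have h2 : qf w β (-α) ^ 2 = 0 := by rw [← h1]; ring
    exact pow_eq_zero_iff (two_ne_zero) |>.1 h2
  have z2 : qf w δ (-γ) = 0 := by
    have h1 := h δ (-γ)
    rw [hx] at h1
    have h2 : qf w δ (-γ) ^ 2 = 0 := by rw [← h1]; ring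
    exact pow_eq_zero_iff (two_ne_zero) |>.1 h2
  unfold qf at z1 z2
  -- `w = c x`
  obtain ⟨c, hc⟩ : ∃ c : ℂ, ∀ s t, qf w s t = c * qf x s t := by
    -- `w₀ β² - w₁ α β + w₂ α² = 0`, `w₀ δ² - w₁ γ δ + w₂ γ² = 0`
    by_cases hg : α = 0
    · have hγ : γ ≠ 0 := by
        rintro rfl
        exact hΔ (by rw [hg]; ring)
      have hβ : β ≠ 0 := by
        rintro rfl
        exact hΔ (by rw [hg]; ring)
      have w0 : w 0 = 0 := by
        rw [hg] at z1
        have : w 0 * β ^ 2 = 0 := by linear_combination z1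
        exact (mul_eq_zero.1 this).resolve_right (pow_ne_zero _ hβ)
      have w2 : w 2 = w 1 * δ / γ := by
        rw [w0] at z2
        field_simp
        have : γ * (w 2 * γ - w 1 * δ) = 0 := by linear_combination z2
        linear_combination (mul_eq_zero.1 this).resolve_left hγ
      refine ⟨w 1 / (β * γ), fun s t => ?_⟩
      rw [hx]
      unfold qf
      rw [w0, w2, hg]
      field_simp
      ring
    · by_cases hg2 : γ = 0
      · have hδ : δ ≠ 0 := by
          rintro rfl
          exact hΔ (by rw [hg2]; ring)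
        have w0 : w 0 = 0 := by
          rw [hg2] at z2
          have : w 0 * δ ^ 2 = 0 := by linear_combination z2
          exact (mul_eq_zero.1 this).resolve_right (pow_ne_zero _ hδ)
        have w2 : w 2 = w 1 * β / α := by
          rw [w0] at z1
          field_simp
          have : α * (w 2 * α - w 1 * β) = 0 := by linear_combination z1
          linear_combination (mul_eq_zero.1 this).resolve_left hg
        refine ⟨w 1 / (α * δ), fun s t => ?_⟩
        rw [hx]
        unfold qf
        rw [w0, w2, hg2]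
        field_simp
        ring
      · -- both nonzero
        have e1 : w 1 * (α * γ) = w 0 * (α * δ + β * γ) := by
          have : (α * δ - β * γ) * (w 1 * (α * γ) - w 0 * (α * δ + β * γ)) = 0 := by
            linear_combination γ ^ 2 * z1 - α ^ 2 * z2
          linear_combination (mul_eq_zero.1 this).resolve_left hΔ
        have e2 : w 2 * (α * γ) = w 0 * (β * δ) := by
          have : α * (w 2 * (α * γ) - w 0 * (β * δ)) = 0 := by
            linear_combination γ * z1 + β * e1
          linear_combination (mul_eq_zero.1 this).resolve_left hg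
        refine ⟨w 0 / (α * γ), fun s t => ?_⟩
        rw [hx]
        have hαγ : α * γ ≠ 0 := mul_ne_zero hg hg2
        rw [div_mul_eq_mul_div, eq_div_iff hαγ]
        unfold qf
        linear_combination (s * t) * e1 + t ^ 2 * e2
  -- `x (y - c² x) = 0`
  have hprod : ∀ s t, qf x s t * qf (fun k => y k - c ^ 2 * x k) s t = 0 := by
    intro s t
    have e : qf (fun k => y k - c ^ 2 * x k) s t = qf y s t - c ^ 2 * qf x s t := by
      unfold qf
      ring
    rw [e, mul_sub, h, hc]
    ring
  rcases mul_zero' hprod with h1 | h1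
  · obtain ⟨s, t, hst, hy⟩ := nz y
    exact hn s t hst (h1 s t) hy
  · obtain ⟨s, t, hst, hx0⟩ := nz x
    refine hn s t hst hx0 ?_
    have := h1 s t
    have e : qf (fun k => y k - c ^ 2 * x k) s t = qf y s t - c ^ 2 * qf x s t := by
      unfold qf
      ring
    rw [e, hx0] at this
    linear_combination this

/-- two coprime forms whose product is a square are squares of linear forms -/
theorem split {x y w : Fin 3 → ℂ} (h : ∀ s t, qf x s t * qf y s t = qf w s t ^ 2)
    (hn : ∀ s t, (s, t) ≠ (0, 0) → qf x s t = 0 → qf y s t ≠ 0) :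
    ∃ a b c d : ℂ, a * d - b * c ≠ 0 ∧ ∀ s t, qf x s t = (a * s + b * t) ^ 2 ∧
      qf y s t = (c * s + d * t) ^ 2 ∧ qf w s t = (a * s + b * t) * (c * s + d * t) := by
  obtain ⟨a, b, hx⟩ := sq_of_disc x (disc_zero h hn)
  obtain ⟨c, d, hy⟩ := sq_of_disc y (disc_zero (x := y) (y := x) (w := w)
    (fun s t => by rw [mul_comm, h]) (fun s t hst h1 h2 => hn s t hst h2 h1))
  have hdet : a * d - b * c ≠ 0 := by
    intro h0
    by_cases hab : (b, -a) = ((0, 0) : ℂ × ℂ)
    · obtain ⟨s, t, hst, hy0⟩ := nz y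
      refine hn s t hst ?_ hy0
      have h1 : b = 0 := (Prod.ext_iff.1 hab).1
      have h2 : a = 0 := by
        have := (Prod.ext_iff.1 hab).2
        simpa using this
      rw [hx, h1, h2]
      ring
    · refine hn b (-a) hab (by rw [hx]; ring) ?_
      rw [hy]
      have : c * b + d * -a = 0 := by linear_combination -h0
      rw [this]
      ring
  have hw : ∀ s t, qf (fun k => w k - ![a * c, a * d + b * c, b * d] k) s t *
      qf (fun k => w k + ![a * c, a * d + b * c, b * d] k) s t = 0 := by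
    intro s t
    have e1 : qf (fun k => w k - ![a * c, a * d + b * c, b * d] k) s t =
        qf w s t - (a * s + b * t) * (c * s + d * t) := by
      unfold qf
      simp
      ring
    have e2 : qf (fun k => w k + ![a * c, a * d + b * c, b * d] k) s t =
        qf w s t + (a * s + b * t) * (c * s + d * t) := by
      unfold qf
      simp
      ring
    rw [e1, e2]
    have h1 := h s t
    rw [hx, hy] at h1
    linear_combination -h1
  rcases mul_zero' hw with h1 | h1
  · refine ⟨a, b, c, d, hdet, fun s t => ⟨hx s t, hy s t, ?_⟩⟩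
    have := h1 s t
    have e1 : qf (fun k => w k - ![a * c, a * d + b * c, b * d] k) s t =
        qf w s t - (a * s + b * t) * (c * s + d * t) := by
      unfold qf
      simp
      ring
    rw [e1] at this
    linear_combination this
  · refine ⟨a, b, -c, -d, ?_, fun s t => ⟨hx s t, ?_, ?_⟩⟩
    · intro h0
      exact hdet (by linear_combination -h0)
    · rw [hy]
      ring
    · have := h1 s t
      have e2 : qf (fun k => w k + ![a * c, a * d + b * c, b * d] k) s t =
          qf w s t + (a * s + b * t) * (c * s + d * t) := by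
        unfold qf
        simp
        ring
      rw [e2] at this
      linear_combination this

/-! ### Curves in a plane -/

theorem ev2 (f : Par 6 2) (s t : ℂ) : ev f s t = s ^ 2 • f 0 + (s * t) • f 1 + t ^ 2 • f 2 := by
  unfold ev
  rw [Fin.sum_univ_three]
  simp

/-- the values of a curve in the span of two vectors -/
theorem ev_span {f : Par 6 2} {m m' : V 6} {x y : Fin 3 → ℂ}
    (h : ∀ k, f k = x k • m + y k • m') (s t : ℂ) :
    ev f s t = qf x s t • m + qf y s t • m' := by
  rw [ev2, h 0, h 1, h 2]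
  unfold qf
  module

/-- **No member of the family is in a line.** -/
theorem no_line {X : Mfd 6 3} {f : Par 6 2} (hf : f ∈ ratCurves X 2) {m m' : V 6}
    {x y : Fin 3 → ℂ} (h : ∀ k, f k = x k • m + y k • m') : False := by
  obtain ⟨h1, h2⟩ := hf
  have hne : ∀ s t : ℂ, (s, t) ≠ (0, 0) → ¬ (qf x s t = 0 ∧ qf y s t = 0) := by
    rintro s t hst ⟨e1, e2⟩
    have := (h1 s t hst).1
    rw [ev_span h, e1, e2] at this
    exact this (by simp)
  -- the Jacobian
  obtain ⟨J, hJ⟩ : ∃ J : Polynomial ℂ, J = Polynomial.C (x 1 * y 0 - x 0 * y 1) * Polynomial.X ^ 2 +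
      Polynomial.C (2 * (x 2 * y 0 - x 0 * y 2)) * Polynomial.X +
      Polynomial.C (x 2 * y 1 - x 1 * y 2) := ⟨_, rfl⟩
  have hJe : ∀ s, J.eval s = (x 1 * y 0 - x 0 * y 1) * s ^ 2 +
      2 * (x 2 * y 0 - x 0 * y 2) * s + (x 2 * y 1 - x 1 * y 2) := fun s => by
    rw [hJ]
    simp
  have hsub : {s : ℂ | J.eval s ≠ 0} ⊆ {s : ℂ | ∃ s' t' : ℂ, (s', t') ≠ (0, 0) ∧
      ¬ Par1 s 1 s' t' ∧ Same (ev f s 1) (ev f s' t')} := by
    intro s hs
    obtain ⟨g0, hg0⟩ : ∃ g0, g0 = qf x s 1 * y 0 - qf y s 1 * x 0 := ⟨_, rfl⟩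
    obtain ⟨g1, hg1⟩ : ∃ g1, g1 = qf x s 1 * y 1 - qf y s 1 * x 1 := ⟨_, rfl⟩
    have hJ2 : J.eval s = 2 * g0 * s + g1 := by
      rw [hJe, hg0, hg1]
      unfold qf
      ring
    have hs' : 2 * g0 * s + g1 ≠ 0 := by
      rw [← hJ2]
      exact hs
    have hne' : (g0 * s + g1, -g0) ≠ ((0, 0) : ℂ × ℂ) := by
      intro h0
      have a1 := (Prod.ext_iff.1 h0).1
      have a2 := (Prod.ext_iff.1 h0).2
      simp only at a1 a2
      apply hs'
      linear_combination a1 - s * a2
    refine ⟨g0 * s + g1, -g0, hne', ?_, ?_⟩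
    · intro hp
      unfold Par1 at hp
      apply hs'
      linear_combination -hp
    · -- proportional
      have hdet : qf x s 1 * qf y (g0 * s + g1) (-g0) =
          qf y s 1 * qf x (g0 * s + g1) (-g0) := by
        have e1 : qf x s 1 * qf y (g0 * s + g1) (-g0) - qf y s 1 * qf x (g0 * s + g1) (-g0) =
            (g0 * s + g1 + s * g0) * (g0 * (g0 * s + g1 - s * g0) - g1 * g0) := by
          unfold qf at hg0 hg1 ⊢
          rw [hg0, hg1]
          ring
        have e2 : (g0 * s + g1 + s * g0) * (g0 * (g0 * s + g1 - s * g0) - g1 * g0) = 0 := by ring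
        rw [e2] at e1
        linear_combination e1
      have n1 := hne s 1 (by simp)
      have n2 := hne _ _ hne'
      rw [ev_span h, ev_span h]
      obtain ⟨a, ha⟩ : ∃ a, a = qf x s 1 := ⟨_, rfl⟩
      obtain ⟨b, hb⟩ : ∃ b, b = qf y s 1 := ⟨_, rfl⟩
      obtain ⟨a', ha'⟩ : ∃ a', a' = qf x (g0 * s + g1) (-g0) := ⟨_, rfl⟩
      obtain ⟨b', hb'⟩ : ∃ b', b' = qf y (g0 * s + g1) (-g0) := ⟨_, rfl⟩
      rw [← ha, ← hb, ← ha', ← hb'] at hdet
      rw [← ha, ← hb] at n1
      rw [← ha', ← hb'] at n2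
      rw [← ha, ← hb, ← ha', ← hb']
      by_cases a0 : a = 0
      · have b0 : b ≠ 0 := fun b0 => n1 ⟨a0, b0⟩
        rw [a0, zero_mul] at hdet
        have a0' : a' = 0 := (mul_eq_zero.1 hdet.symm).resolve_left b0
        have b0' : b' ≠ 0 := fun b0' => n2 ⟨a0', b0'⟩
        refine ⟨b' / b, div_ne_zero b0' b0, ?_⟩
        rw [a0, a0', zero_smul, zero_add, zero_add, smul_smul, div_mul_cancel₀ _ b0]
      · have a0' : a' ≠ 0 := by
          intro a0'
          rw [a0', mul_zero] at hdet
          exact n2 ⟨a0', (mul_eq_zero.1 hdet).resolve_left a0⟩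
        refine ⟨a' / a, div_ne_zero a0' a0, ?_⟩
        have hb2 : b' = a' / a * b := by
          rw [div_mul_eq_mul_div, eq_div_iff a0]
          linear_combination hdet
        rw [hb2, smul_add, smul_smul, smul_smul, div_mul_cancel₀ _ a0]
  have hfin : {s : ℂ | J.eval s ≠ 0}.Finite := h2.subset hsub
  have hJ0 : J = 0 := by
    by_contra hJ0
    have h3 : {s : ℂ | J.eval s = 0}.Finite := by
      refine (J.roots.toFinset.finite_toSet).subset fun s hs => ?_
      rw [Finset.mem_coe, Multiset.mem_toFinset, Polynomial.mem_roots hJ0]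
      exact hs
    have h4 : (Set.univ : Set ℂ).Finite := by
      refine (hfin.union h3).subset fun s _ => ?_
      by_cases h5 : J.eval s = 0
      · exact Or.inr h5
      · exact Or.inl h5
    exact Set.infinite_univ h4
  -- the forms are proportional
  have j0 := hJe 0
  have j1 := hJe 1
  have j2 := hJe (-1)
  rw [hJ0] at j0 j1 j2
  simp only [Polynomial.eval_zero] at j0 j1 j2
  have k0 : x 2 * y 1 - x 1 * y 2 = 0 := by linear_combination -j0
  have k1 : x 1 * y 0 - x 0 * y 1 = 0 := by linear_combination (-1 / 2) * j1 - (1 / 2) * j2 - k0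
  have k2 : x 2 * y 0 - x 0 * y 2 = 0 := by linear_combination (-1 / 4) * j1 + (1 / 4) * j2
  obtain ⟨s, t, hst, hx⟩ := nz x
  by_cases hx0 : x 0 = 0 ∧ x 1 = 0 ∧ x 2 = 0
  · obtain ⟨s', t', hst', hy⟩ := nz y
    exact hne s' t' hst' ⟨qf_zero_of hx0.1 hx0.2.1 hx0.2.2 _ _, hy⟩
  · refine hne s t hst ⟨hx, ?_⟩
    unfold qf at hx ⊢
    by_cases a0 : x 0 = 0
    · by_cases a1 : x 1 = 0
      · have a2 : x 2 ≠ 0 := fun a2 => hx0 ⟨a0, a1, a2⟩
        have : x 2 * (y 0 * s ^ 2 + y 1 * (s * t) + y 2 * t ^ 2) = 0 := by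
          linear_combination y 2 * hx + (s * t) * k0 + s ^ 2 * k2
        exact (mul_eq_zero.1 this).resolve_left a2
      · have : x 1 * (y 0 * s ^ 2 + y 1 * (s * t) + y 2 * t ^ 2) = 0 := by
          linear_combination y 1 * hx + s ^ 2 * k1 - t ^ 2 * k0
        exact (mul_eq_zero.1 this).resolve_left a1
    · have : x 0 * (y 0 * s ^ 2 + y 1 * (s * t) + y 2 * t ^ 2) = 0 := by
        linear_combination y 0 * hx - (s * t) * k1 - t ^ 2 * k2
      exact (mul_eq_zero.1 this).resolve_left a0

/-- the first six coordinates of the coefficients are in a plane -/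
theorem plane {f : Par 6 2} (hf : MinZ f) : ∃ (m m' : V 6) (x y : Fin 3 → ℂ), m 6 = 0 ∧ m' 6 = 0 ∧
    ∀ k, f k = x k • m + y k • m' + f k 6 • E6 := by
  -- a relation
  obtain ⟨c, hc, hrel⟩ : ∃ c : Fin 3 → ℂ, c ≠ 0 ∧ ∀ k : Fin 7, k ≠ 6 →
      c 0 * f 0 k + c 1 * f 1 k + c 2 * f 2 k = 0 := by
    by_cases h0 : ∀ i : Fin 7, i ≠ 6 → f 0 i = 0
    · refine ⟨![1, 0, 0], ?_, fun k hk => ?_⟩
      · intro h
        have := congrFun h 0
        simp at this
      · simp [h0 k hk]
    · push Not at h0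
      obtain ⟨i, hi, hi0⟩ := h0
      by_cases h1 : ∀ j : Fin 7, j ≠ 6 → f 0 i * f 1 j - f 0 j * f 1 i = 0
      · refine ⟨![f 1 i, -f 0 i, 0], ?_, fun k hk => ?_⟩
        · intro h
          have := congrFun h 1
          simp at this
          exact hi0 this
        · have := h1 k hk
          simp
          linear_combination -this
      · push Not at h1
        obtain ⟨j, hj, hj0⟩ := h1
        refine ⟨![f 1 i * f 2 j - f 1 j * f 2 i, -(f 0 i * f 2 j - f 0 j * f 2 i),
          f 0 i * f 1 j - f 0 j * f 1 i], ?_, fun k hk => ?_⟩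
        · intro h
          have := congrFun h 2
          simp at this
          exact hj0 this
        · have := hf i j k hi hj hk
          unfold mnr at this
          simp
          linear_combination this
  have h6 : ∀ (v : V 6) (a : ℂ), (∀ k : Fin 7, k ≠ 6 → v k = 0) → v 6 = a → v = a • E6 := by
    intro v a h1 h2
    funext k
    by_cases hk : k = 6
    · subst hk
      simp [E6, h2]
    · simp [E6, h1 k hk, Pi.single_apply, hk]
  have hE : E6 6 = 1 := by simp [E6]
  have hE' : ∀ k : Fin 7, k ≠ 6 → E6 k = 0 := fun k hk => by simp [E6, Pi.single_apply, hk]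
  have gen : ∀ (v m m' : V 6) (a b : ℂ), m 6 = 0 → m' 6 = 0 →
      (∀ k : Fin 7, k ≠ 6 → v k = a * m k + b * m' k) → v = a • m + b • m' + v 6 • E6 := by
    intro v m m' a b h1 h2 h3
    funext k
    by_cases hk : k = 6
    · subst hk
      simp [h1, h2, hE]
    · simp [h3 k hk, hE' k hk]
  have pk : ∀ (v : V 6) (k : Fin 7), k ≠ 6 → Function.update v 6 0 k = v k := fun v k hk => by
    rw [Function.update_of_ne hk]
  have p6 : ∀ v : V 6, Function.update v 6 0 (6 : Fin 7) = 0 := fun v => by
    rw [Function.update_self]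
  by_cases h2 : c 2 = 0
  · by_cases h1 : c 1 = 0
    · have h0 : c 0 ≠ 0 := by
        intro h0
        apply hc
        funext k
        fin_cases k
        · exact h0
        · exact h1
        · exact h2
      refine ⟨Function.update (f 1) 6 0, Function.update (f 2) 6 0, ![0, 1, 0], ![0, 0, 1], p6 _,
        p6 _, fun k => gen _ _ _ _ _ (p6 _) (p6 _) fun i hi => ?_⟩
      rw [pk _ _ hi, pk _ _ hi]
      fin_cases k
      · have := hrel i hi
        rw [h1, h2] at this
        have h3 : f 0 i = 0 := by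
          have : c 0 * f 0 i = 0 := by linear_combination this
          exact (mul_eq_zero.1 this).resolve_left h0
        simp [h3]
      · simp
      · simp
    · refine ⟨Function.update (f 0) 6 0, Function.update (f 2) 6 0, ![1, -(c 0 / c 1), 0],
        ![0, -(c 2 / c 1), 1], p6 _, p6 _, fun k => gen _ _ _ _ _ (p6 _) (p6 _) fun i hi => ?_⟩
      rw [pk _ _ hi, pk _ _ hi]
      fin_cases k
      · simp
      · have := hrel i hi
        simp
        field_simp
        linear_combination this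
      · simp
  · refine ⟨Function.update (f 0) 6 0, Function.update (f 1) 6 0, ![1, 0, -(c 0 / c 2)],
      ![0, 1, -(c 1 / c 2)], p6 _, p6 _, fun k => gen _ _ _ _ _ (p6 _) (p6 _) fun i hi => ?_⟩
    rw [pk _ _ hi, pk _ _ hi]
    fin_cases k
    · simp
    · simp
    · have := hrel i hi
      simp
      field_simp
      linear_combination this

theorem f1_comb (a b c : ℂ) (m m' : V 6) :
    f1 (a • m + b • m' + c • E6) = a ^ 2 * f1 m + a * b * b1 m m' + b ^ 2 * f1 m' := by
  simp only [f1, b1, E6, Pi.add_apply, Pi.smul_apply, smul_eq_mul, Pi.single_apply]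
  simp
  ring

theorem f2_comb (a b c : ℂ) (m m' : V 6) :
    f2 (a • m + b • m' + c • E6) = a ^ 2 * f2 m + a * b * b2 m m' + b ^ 2 * f2 m' := by
  simp only [f2, b2, E6, Pi.add_apply, Pi.smul_apply, smul_eq_mul, Pi.single_apply]
  simp
  ring

theorem f3_comb (a b c : ℂ) {m m' : V 6} (h : m 6 = 0) (h' : m' 6 = 0) :
    f3 (a • m + b • m' + c • E6) =
      a ^ 2 * f3 m + a * b * b3 m m' + b ^ 2 * f3 m' - c ^ 2 := by
  simp only [f3, b3, E6, Pi.add_apply, Pi.smul_apply, smul_eq_mul, Pi.single_apply, h, h']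
  simp
  ring

theorem coef_of {x : Fin 3 → ℂ} (h : ∀ s t, qf x s t = 0) (k : Fin 3) : x k = 0 := by
  have e0 := h 1 0
  have e1 := h 0 1
  have e2 := h 1 1
  unfold qf at e0 e1 e2
  have k0 : x 0 = 0 := by linear_combination e0
  have k1 : x 1 = 0 := by linear_combination e2 - e0 - e1
  have k2 : x 2 = 0 := by linear_combination e1
  fin_cases k
  · exact k0
  · exact k1
  · exact k2

end D1

open D1 in
/-- MODULE D1 -/
theorem nFS : NFS := by
  intro hs hp f hf hm
  obtain ⟨m, m', x, y, h6, h6', hpl⟩ := plane hm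
  have hcone : ∀ s t : ℂ, (s, t) ≠ (0, 0) → ev f s t ∈ Cone := by
    intro s t hst
    rw [← cone_X3 hs hp]
    exact hf.1 s t hst
  obtain ⟨w, hw⟩ : ∃ w : Fin 3 → ℂ, w = fun k => f k 6 := ⟨_, rfl⟩
  have hpl' : ∀ k, f k = x k • m + y k • m' + w k • E6 := fun k => by
    rw [hw]
    exact hpl k
  have hev : ∀ s t, ev f s t = qf x s t • m + qf y s t • m' + qf w s t • E6 := by
    intro s t
    rw [ev2, hpl' 0, hpl' 1, hpl' 2]
    unfold qf
    module
  have e3 : ∀ s t, qf x s t ^ 2 * f3 m + qf x s t * qf y s t * b3 m m' +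
      qf y s t ^ 2 * f3 m' = qf w s t ^ 2 := by
    intro s t
    by_cases hst : (s, t) = ((0, 0) : ℂ × ℂ)
    · have h1 : s = 0 := (Prod.ext_iff.1 hst).1
      have h2 : t = 0 := (Prod.ext_iff.1 hst).2
      unfold qf
      rw [h1, h2]
      ring
    · have h1 := (hcone s t hst).2.2.2
      rw [hev, f3_comb _ _ _ h6 h6'] at h1
      linear_combination h1
  have hne : ∀ s t : ℂ, (s, t) ≠ (0, 0) → ¬ (qf x s t = 0 ∧ qf y s t = 0) := by
    rintro s t hst ⟨a1, a2⟩
    have h1 := e3 s t
    rw [a1, a2] at h1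
    have h2 : qf w s t = 0 := by
      have : qf w s t ^ 2 = 0 := by linear_combination -h1
      exact pow_eq_zero_iff (two_ne_zero) |>.1 this
    apply (hcone s t hst).1
    rw [hev, a1, a2, h2]
    simp
  have hsur : ∀ p q : ℂ, (p, q) ≠ (0, 0) → ∃ s t c : ℂ, (s, t) ≠ (0, 0) ∧ c ≠ 0 ∧
      qf x s t = c * p ∧ qf y s t = c * q := by
    intro p q hpq
    obtain ⟨s, t, hst, hz⟩ := nz fun k => q * x k - p * y k
    have hz' : q * qf x s t = p * qf y s t := by
      have : qf (fun k => q * x k - p * y k) s t = q * qf x s t - p * qf y s t := by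
        unfold qf
        ring
      rw [this] at hz
      linear_combination hz
    by_cases hp0 : p = 0
    · have hq0 : q ≠ 0 := by
        rintro rfl
        exact hpq (by rw [hp0])
      have hx0 : qf x s t = 0 := by
        rw [hp0, zero_mul] at hz'
        exact (mul_eq_zero.1 hz').resolve_left hq0
      refine ⟨s, t, qf y s t / q, hst, ?_, ?_, ?_⟩
      · exact div_ne_zero (fun h => hne s t hst ⟨hx0, h⟩) hq0
      · rw [hx0, hp0, mul_zero]
      · rw [div_mul_cancel₀ _ hq0]
    · refine ⟨s, t, qf x s t / p, hst, ?_, ?_, ?_⟩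
      · refine div_ne_zero (fun h => hne s t hst ⟨h, ?_⟩) hp0
        rw [h, mul_zero] at hz'
        exact (mul_eq_zero.1 hz'.symm).resolve_left hp0
      · rw [div_mul_cancel₀ _ hp0]
      · rw [div_mul_eq_mul_div, eq_div_iff hp0]
        linear_combination -hz'
  -- the first two equations vanish on the plane
  have v1 : ∀ p q : ℂ, p ^ 2 * f1 m + p * q * b1 m m' + q ^ 2 * f1 m' = 0 := by
    intro p q
    by_cases hpq : (p, q) = ((0, 0) : ℂ × ℂ)
    · have h1 : p = 0 := (Prod.ext_iff.1 hpq).1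
      have h2 : q = 0 := (Prod.ext_iff.1 hpq).2
      rw [h1, h2]
      ring
    · obtain ⟨s, t, c, hst, hc, hx, hy⟩ := hsur p q hpq
      have h1 := (hcone s t hst).2.1
      rw [hev, f1_comb, hx, hy] at h1
      have : c ^ 2 * (p ^ 2 * f1 m + p * q * b1 m m' + q ^ 2 * f1 m') = 0 := by
        linear_combination h1
      exact (mul_eq_zero.1 this).resolve_left (pow_ne_zero _ hc)
  have v2 : ∀ p q : ℂ, p ^ 2 * f2 m + p * q * b2 m m' + q ^ 2 * f2 m' = 0 := by
    intro p q
    by_cases hpq : (p, q) = ((0, 0) : ℂ × ℂ)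
    · have h1 : p = 0 := (Prod.ext_iff.1 hpq).1
      have h2 : q = 0 := (Prod.ext_iff.1 hpq).2
      rw [h1, h2]
      ring
    · obtain ⟨s, t, c, hst, hc, hx, hy⟩ := hsur p q hpq
      have h1 := (hcone s t hst).2.2.1
      rw [hev, f2_comb, hx, hy] at h1
      have : c ^ 2 * (p ^ 2 * f2 m + p * q * b2 m m' + q ^ 2 * f2 m') = 0 := by
        linear_combination h1
      exact (mul_eq_zero.1 this).resolve_left (pow_ne_zero _ hc)
  -- the third form on the plane
  obtain ⟨α, β, γ, δ, hfac⟩ := fac (f3 m) (b3 m m') (f3 m')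
  have cA : f3 m = α * γ := by
    have := hfac 1 0
    linear_combination this
  have cC : f3 m' = β * δ := by
    have := hfac 0 1
    linear_combination this
  have cB : b3 m m' = α * δ + β * γ := by
    have := hfac 1 1
    linear_combination this - cA - cC
  obtain ⟨Δ, hΔ⟩ : ∃ Δ, Δ = α * δ - β * γ := ⟨_, rfl⟩
  have hΔ0 : Δ ≠ 0 := by
    intro h0
    -- the form is a square
    obtain ⟨α', β', hsq⟩ := sq_of_disc ![f3 m, b3 m m', f3 m'] (by
      simp only [Matrix.cons_val_zero, Matrix.cons_val_one, Matrix.cons_val]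
      rw [cA, cB, cC]
      rw [hΔ] at h0
      linear_combination (α * δ - β * γ) * h0)
    have hsq' : ∀ p q : ℂ, f3 m * p ^ 2 + b3 m m' * (p * q) + f3 m' * q ^ 2 =
        (α' * p + β' * q) ^ 2 := fun p q => by
      have := hsq p q
      unfold qf at this
      simpa using this
    have hprod : ∀ s t, qf (fun k => w k - (α' * x k + β' * y k)) s t *
        qf (fun k => w k + (α' * x k + β' * y k)) s t = 0 := by
      intro s t
      have a1 : qf (fun k => w k - (α' * x k + β' * y k)) s t =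
          qf w s t - (α' * qf x s t + β' * qf y s t) := by
        unfold qf
        ring
      have a2 : qf (fun k => w k + (α' * x k + β' * y k)) s t =
          qf w s t + (α' * qf x s t + β' * qf y s t) := by
        unfold qf
        ring
      rw [a1, a2]
      have h1 := e3 s t
      have h2 := hsq' (qf x s t) (qf y s t)
      linear_combination h2 - h1
    rcases mul_zero' hprod with h1 | h1
    · refine no_line hf (m := m + α' • E6) (m' := m' + β' • E6) (x := x) (y := y) fun k => ?_
      have h2 := coef_of h1 k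
      have h3 : w k = α' * x k + β' * y k := by linear_combination h2
      rw [hpl' k, h3]
      module
    · refine no_line hf (m := m - α' • E6) (m' := m' - β' • E6) (x := x) (y := y) fun k => ?_
      have h2 := coef_of h1 k
      have h3 : w k = -(α' * x k + β' * y k) := by linear_combination h2
      rw [hpl' k, h3]
      module
  -- the squares
  obtain ⟨r, hr⟩ : ∃ r : Fin 3 → ℂ, r = fun k => α * x k + β * y k := ⟨_, rfl⟩
  obtain ⟨r', hr'⟩ : ∃ r' : Fin 3 → ℂ, r' = fun k => γ * x k + δ * y k := ⟨_, rfl⟩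
  have qr : ∀ s t, qf r s t = α * qf x s t + β * qf y s t := fun s t => by
    rw [hr]
    unfold qf
    ring
  have qr' : ∀ s t, qf r' s t = γ * qf x s t + δ * qf y s t := fun s t => by
    rw [hr']
    unfold qf
    ring
  obtain ⟨a, b, c, d, hdet, hsp⟩ := split (x := r) (y := r') (w := w) (fun s t => by
    rw [qr, qr', ← e3, ← hfac]
    ring) (fun s t hst h1 h2 => by
    rw [qr] at h1
    rw [qr'] at h2
    refine hne s t hst ⟨?_, ?_⟩
    · have : Δ * qf x s t = 0 := by
        rw [hΔ]
        linear_combination δ * h1 - β * h2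
      exact (mul_eq_zero.1 this).resolve_left hΔ0
    · have : Δ * qf y s t = 0 := by
        rw [hΔ]
        linear_combination α * h2 - γ * h1
      exact (mul_eq_zero.1 this).resolve_left hΔ0)
  obtain ⟨i, hi⟩ : ∃ i : ℂ, i = 1 / Δ := ⟨_, rfl⟩
  have hiΔ : i * Δ = 1 := by
    rw [hi]
    field_simp
  have comb1 : ∀ p q : ℂ, f1 (p • m + q • m') = 0 := fun p q => by
    have h1 := f1_comb p q 0 m m'
    rw [zero_smul, add_zero] at h1
    rw [h1]
    exact v1 p q
  have comb2 : ∀ p q : ℂ, f2 (p • m + q • m') = 0 := fun p q => by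
    have h1 := f2_comb p q 0 m m'
    rw [zero_smul, add_zero] at h1
    rw [h1]
    exact v2 p q
  have comb3 : ∀ p q : ℂ, f3 (p • m + q • m') = (α * p + β * q) * (γ * p + δ * q) := fun p q => by
    have h1 := f3_comb p q 0 h6 h6'
    rw [zero_smul, add_zero] at h1
    rw [h1, ← hfac]
    ring
  have pol1 : ∀ v v' : V 6, b1 v v' = f1 (v + v') - f1 v - f1 v' := fun v v' => by
    simp only [f1, b1, Pi.add_apply]
    ring
  have pol2 : ∀ v v' : V 6, b2 v v' = f2 (v + v') - f2 v - f2 v' := fun v v' => by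
    simp only [f2, b2, Pi.add_apply]
    ring
  have pol3 : ∀ v v' : V 6, b3 v v' = f3 (v + v') - f3 v - f3 v' := fun v v' => by
    simp only [f3, b3, Pi.add_apply]
    ring
  have hadd : (i * δ) • m + (-(i * γ)) • m' + ((-(i * β)) • m + (i * α) • m') =
      (i * δ - i * β) • m + (i * α - i * γ) • m' := by module
  refine ⟨(i * δ) • m + (-(i * γ)) • m', (-(i * β)) • m + (i * α) • m', ⟨?_, ?_, comb1 _ _,
    comb1 _ _, ?_, comb2 _ _, comb2 _ _, ?_, ?_, ?_, ?_⟩, a, b, c, d, hdet, fun s t => ?_⟩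
  · simp [h6, h6']
  · simp [h6, h6']
  · rw [pol1, hadd, comb1, comb1, comb1]
    ring
  · rw [pol2, hadd, comb2, comb2, comb2]
    ring
  · rw [comb3]
    ring
  · rw [comb3]
    ring
  · rw [pol3, hadd, comb3, comb3, comb3]
    rw [hΔ] at hiΔ
    linear_combination (i * (α * δ - β * γ) + 1) * hiΔ
  · obtain ⟨k1, k2, k3⟩ := hsp s t
    rw [hev, ev2]
    show _ = (a * s + b * t) ^ 2 • ((i * δ) • m + (-(i * γ)) • m') +
      ((a * s + b * t) * (c * s + d * t)) • E6 +
      (c * s + d * t) ^ 2 • ((-(i * β)) • m + (i * α) • m')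
    rw [← k1, ← k2, ← k3, qr, qr']
    rw [hΔ] at hiΔ
    have g1 : (α * qf x s t + β * qf y s t) * (i * δ) + (γ * qf x s t + δ * qf y s t) *
        (-(i * β)) = qf x s t := by linear_combination (qf x s t) * hiΔ
    have g2 : (α * qf x s t + β * qf y s t) * (-(i * γ)) + (γ * qf x s t + δ * qf y s t) *
        (i * α) = qf y s t := by linear_combination (qf y s t) * hiΔ
    have g3 : (α * qf x s t + β * qf y s t) • ((i * δ) • m + (-(i * γ)) • m') +
        qf w s t • E6 + (γ * qf x s t + δ * qf y s t) • ((-(i * β)) • m + (i * α) • m') =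
        ((α * qf x s t + β * qf y s t) * (i * δ) + (γ * qf x s t + δ * qf y s t) *
        (-(i * β))) • m + ((α * qf x s t + β * qf y s t) * (-(i * γ)) +
        (γ * qf x s t + δ * qf y s t) * (i * α)) • m' + qf w s t • E6 := by module
    rw [g3, g1, g2]

end Pool.VMR
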