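import Pool.Agent.H30.VMR.Stm

/-!
# The conic of an isotropic pair, in every parametrisation, is a rational curve of the family
-/

noncomputable section

namespace Pool.VMR.D2

open Pool.VMR

theorem ev_two (f : Par 6 2) (s t : ℂ) (i : Fin 7) :
    ev f s t i = s ^ 2 * f 0 i + s * t * f 1 i + t ^ 2 * f 2 i := by
  simp [ev, Fin.sum_univ_three]

theorem E6_six : E6 6 = 1 := by simp [E6]

theorem E6_ne {i : Fin 7} (h : i ≠ 6) : E6 i = 0 := by simp [E6, h]

/-- the point of the conic -/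
def cn (η θ : V 6) (l m : ℂ) : V 6 := fun i => l ^ 2 * η i + l * m * E6 i + m ^ 2 * θ i

theorem ev_cn (η θ : V 6) (l m : ℂ) : ev (par0 η θ) l m = cn η θ l m := by
  funext i
  rw [ev_two]
  rfl

variable {η θ : V 6}

theorem cn_six (h : NPair η θ) (l m : ℂ) : cn η θ l m 6 = l * m := by
  unfold cn
  rw [h.1, h.2.1, E6_six]
  ring

theorem cn_ne {i : Fin 7} (hi : i ≠ 6) (l m : ℂ) :
    cn η θ l m i = l ^ 2 * η i + m ^ 2 * θ i := by
  unfold cn
  rw [E6_ne hi]
  ring

theorem f1_cn (h : NPair η θ) (l m : ℂ) : f1 (cn η θ l m) = 0 := by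
  obtain ⟨-, -, h1, h2, h3, -⟩ := h
  unfold f1
  rw [cn_ne (by decide), cn_ne (by decide), cn_ne (by decide), cn_ne (by decide),
    cn_ne (by decide)]
  unfold f1 at h1 h2
  unfold b1 at h3
  linear_combination l ^ 4 * h1 + m ^ 4 * h2 + l ^ 2 * m ^ 2 * h3

theorem f2_cn (h : NPair η θ) (l m : ℂ) : f2 (cn η θ l m) = 0 := by
  obtain ⟨-, -, -, -, -, h1, h2, h3, -⟩ := h
  unfold f2
  rw [cn_ne (by decide), cn_ne (by decide), cn_ne (by decide), cn_ne (by decide),
    cn_ne (by decide), cn_ne (by decide)]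
  unfold f2 at h1 h2
  unfold b2 at h3
  linear_combination l ^ 4 * h1 + m ^ 4 * h2 + l ^ 2 * m ^ 2 * h3

theorem f3_cn (h : NPair η θ) (l m : ℂ) : f3 (cn η θ l m) = 0 := by
  have h6 := cn_six h l m
  obtain ⟨e1, e2, -, -, -, -, -, -, h1, h2, h3⟩ := h
  unfold f3
  rw [h6, cn_ne (by decide), cn_ne (by decide), cn_ne (by decide), cn_ne (by decide),
    cn_ne (by decide)]
  unfold f3 at h1 h2
  unfold b3 at h3
  rw [e1] at h1 h3
  rw [e2] at h2 h3
  linear_combination l ^ 4 * h1 + m ^ 4 * h2 + l ^ 2 * m ^ 2 * h3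

/-- the two vectors of a pair are independent -/
theorem indep (h : NPair η θ) {α β : ℂ} (hz : ∀ i : Fin 7, i ≠ 6 → α * η i + β * θ i = 0) :
    α = 0 ∧ β = 0 := by
  obtain ⟨e1, e2, -, -, -, -, -, -, h1, h2, h3⟩ := h
  have z0 := hz 0 (by decide)
  have z1 := hz 1 (by decide)
  have z3 := hz 3 (by decide)
  have z4 := hz 4 (by decide)
  have z5 := hz 5 (by decide)
  unfold f3 at h1 h2
  unfold b3 at h3
  rw [e1] at h1 h3
  rw [e2] at h2 h3
  constructor
  · linear_combination (-α) * h3 - 2 * β * h2 + θ 4 * z0 + θ 0 * z4 + θ 5 * z1 + θ 1 * z5 +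
      2 * θ 3 * z3
  · linear_combination (-β) * h3 - 2 * α * h1 + η 4 * z0 + η 0 * z4 + η 5 * z1 + η 1 * z5 +
      2 * η 3 * z3

theorem cn_zero (h : NPair η θ) {l m : ℂ} (hz : cn η θ l m = 0) : l = 0 ∧ m = 0 := by
  have h1 := indep h (α := l ^ 2) (β := m ^ 2) (fun i hi => by
    rw [← cn_ne hi, hz]
    rfl)
  exact ⟨pow_eq_zero_iff (two_ne_zero) |>.1 h1.1, pow_eq_zero_iff (two_ne_zero) |>.1 h1.2⟩

/-- the conic is injective -/
theorem cn_inj (h : NPair η θ) {l m l' m' : ℂ} (hs : Same (cn η θ l m) (cn η θ l' m')) :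
    l * m' = m * l' := by
  obtain ⟨c, -, hc⟩ := hs
  have h6 := congrFun hc 6
  rw [Pi.smul_apply, cn_six h, cn_six h, smul_eq_mul] at h6
  have h1 := indep h (α := l' ^ 2 - c * l ^ 2) (β := m' ^ 2 - c * m ^ 2) (fun i hi => by
    have := congrFun hc i
    rw [Pi.smul_apply, cn_ne hi, cn_ne hi, smul_eq_mul] at this
    linear_combination this)
  have h2 : (l * m' - m * l') ^ 2 = 0 := by
    linear_combination l ^ 2 * h1.2 + m ^ 2 * h1.1 - 2 * l * m * h6
  have h3 : l * m' - m * l' = 0 := pow_eq_zero_iff (two_ne_zero) |>.1 h2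
  exact sub_eq_zero.1 h3

end Pool.VMR.D2

namespace Pool.VMR

open Pool.VMR.D2

/-- **Module D2.** -/
theorem nFcS : NFcS := by
  intro hs hp η θ f h hr
  obtain ⟨a, b, c, d, hdet, hev⟩ := hr
  have hev' : ∀ s t : ℂ, ev f s t = cn η θ (a * s + b * t) (c * s + d * t) := fun s t => by
    rw [hev, ev_cn]
  -- the coefficients
  have k0 : ∀ i, f 0 i = a ^ 2 * η i + a * c * E6 i + c ^ 2 * θ i := fun i => by
    have e := congrFun (hev' 1 0) i
    rw [ev_two] at e
    unfold cn at e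
    linear_combination e
  have k2 : ∀ i, f 2 i = b ^ 2 * η i + b * d * E6 i + d ^ 2 * θ i := fun i => by
    have e := congrFun (hev' 0 1) i
    rw [ev_two] at e
    unfold cn at e
    linear_combination e
  have k1 : ∀ i, f 1 i = 2 * a * b * η i + (a * d + b * c) * E6 i + 2 * c * d * θ i := fun i => by
    have e := congrFun (hev' 1 1) i
    rw [ev_two] at e
    unfold cn at e
    linear_combination e - k0 i - k2 i
  refine ⟨⟨fun s t hst => ?_, ?_⟩, ?_⟩
  · rw [cone_X3, hev' s t]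
    refine ⟨fun hz => hst ?_, f1_cn h _ _, f2_cn h _ _, f3_cn h _ _⟩
    obtain ⟨z1, z2⟩ := cn_zero h hz
    have s0 : (a * d - b * c) * s = 0 := by linear_combination d * z1 - b * z2
    have t0 : (a * d - b * c) * t = 0 := by linear_combination a * z2 - c * z1
    rw [(mul_eq_zero.1 s0).resolve_left hdet, (mul_eq_zero.1 t0).resolve_left hdet]
  · have hem : {s : ℂ | ∃ s' t' : ℂ, (s', t') ≠ (0, 0) ∧ ¬ Par1 s 1 s' t' ∧
        Same (ev f s 1) (ev f s' t')} = ∅ := by
      rw [Set.eq_empty_iff_forall_notMem]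
      rintro s ⟨s', t', -, hn, hS⟩
      rw [hev', hev'] at hS
      have e := cn_inj h hS
      have e2 : (a * d - b * c) * (s * t' - 1 * s') = 0 := by linear_combination e
      exact hn (sub_eq_zero.1 ((mul_eq_zero.1 e2).resolve_left hdet))
    rw [hem]
    exact Set.finite_empty
  · intro i j k hi hj hk
    unfold mnr
    rw [k0, k0, k0, k1, k1, k1, k2, k2, k2, E6_ne hi, E6_ne hj, E6_ne hk]
    ring

end Pool.VMR
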