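import Pool.Agent.H30.VMR.Stm

/-!
# The parameter space is irreducible

Sets given by a tower of square roots in a fixed affine space.
-/

set_option autoImplicit false

noncomputable section

namespace Pool.VMR

open MvPolynomial

namespace D3

variable {n : ℕ}

/-- irreducible in the Zariski topology -/
def Ir (S : Set (Fin n → ℂ)) : Prop :=
  ∀ P Q : MvPolynomial (Fin n) ℂ, (∀ w ∈ S, eval w P * eval w Q = 0) →
    (∀ w ∈ S, eval w P = 0) ∨ (∀ w ∈ S, eval w Q = 0)

/-- `P` does not involve the coordinate `k` -/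
def Fr (k : Fin n) (P : MvPolynomial (Fin n) ℂ) : Prop :=
  ∀ (w : Fin n → ℂ) (t : ℂ), eval (Function.update w k t) P = eval w P

/-- the set is a cylinder in the direction `k` -/
def Cy (k : Fin n) (S : Set (Fin n → ℂ)) : Prop :=
  ∀ w ∈ S, ∀ t : ℂ, Function.update w k t ∈ S

/-- `c` is not a square on `S` -/
def Nsq (S : Set (Fin n → ℂ)) (c : MvPolynomial (Fin n) ℂ) : Prop :=
  ∀ x y : MvPolynomial (Fin n) ℂ, (∀ w ∈ S, eval w x ^ 2 = eval w c * eval w y ^ 2) →
    ∀ w ∈ S, eval w y = 0

theorem ir_univ : Ir (Set.univ : Set (Fin n → ℂ)) := by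
  intro P Q h
  have h0 : P * Q = 0 := by
    apply MvPolynomial.funext
    intro w
    rw [map_mul, map_zero]
    exact h w (Set.mem_univ _)
  rcases mul_eq_zero.mp h0 with h1 | h1
  · left
    intro w _
    rw [h1, map_zero]
  · right
    intro w _
    rw [h1, map_zero]

/-- reduction modulo `X k ^ 2 - c` -/
theorem red (k : Fin n) (c : MvPolynomial (Fin n) ℂ) (hc : Fr k c) (P : MvPolynomial (Fin n) ℂ) :
    ∃ P0 P1 : MvPolynomial (Fin n) ℂ, Fr k P0 ∧ Fr k P1 ∧
      ∀ w : Fin n → ℂ, w k ^ 2 = eval w c → eval w P = eval w P0 + w k * eval w P1 := by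
  induction P using MvPolynomial.induction_on with
  | C a =>
    refine ⟨C a, 0, ?_, ?_, ?_⟩
    · intro w t
      simp
    · intro w t
      simp
    · intro w _
      simp
  | add p q hp hq =>
    obtain ⟨p0, p1, a1, a2, a3⟩ := hp
    obtain ⟨q0, q1, b1, b2, b3⟩ := hq
    refine ⟨p0 + q0, p1 + q1, ?_, ?_, ?_⟩
    · intro w t
      rw [map_add, map_add, a1, b1]
    · intro w t
      rw [map_add, map_add, a2, b2]
    · intro w hw
      rw [map_add, map_add, map_add, a3 w hw, b3 w hw]
      ring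
  | mul_X p i hp =>
    obtain ⟨p0, p1, a1, a2, a3⟩ := hp
    by_cases hi : i = k
    · subst hi
      refine ⟨c * p1, p0, ?_, a1, ?_⟩
      · intro w t
        rw [map_mul, map_mul, hc, a2]
      · intro w hw
        rw [map_mul, map_mul, eval_X, a3 w hw]
        linear_combination (eval w p1) * hw
    · refine ⟨p0 * X i, p1 * X i, ?_, ?_, ?_⟩
      · intro w t
        rw [map_mul, map_mul, a1, eval_X, eval_X, Function.update_of_ne hi]
      · intro w t
        rw [map_mul, map_mul, a2, eval_X, eval_X, Function.update_of_ne hi]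
      · intro w hw
        rw [map_mul, map_mul, map_mul, eval_X, a3 w hw]
        ring

/-- one more square root -/
theorem ir_step (k : Fin n) (S : Set (Fin n → ℂ)) (hS : Ir S) (hk : Cy k S)
    (c : MvPolynomial (Fin n) ℂ) (hc : Fr k c) (hn : Nsq S c) :
    Ir {w | w ∈ S ∧ w k ^ 2 = eval w c} := by
  intro P Q h
  obtain ⟨P0, P1, a1, a2, a3⟩ := red k c hc P
  obtain ⟨Q0, Q1, b1, b2, b3⟩ := red k c hc Q
  have key : ∀ w ∈ S, eval w (P0 ^ 2 - c * P1 ^ 2) * eval w (Q0 ^ 2 - c * Q1 ^ 2) = 0 := by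
    intro w hw
    obtain ⟨r, hr⟩ : ∃ r : ℂ, r ^ 2 = eval w c := by
      obtain ⟨r, hr⟩ := IsAlgClosed.exists_pow_nat_eq (eval w c) (n := 2) (by norm_num)
      exact ⟨r, hr⟩
    have hp : ∀ s : ℂ, s ^ 2 = eval w c →
        (eval w P0 + s * eval w P1) * (eval w Q0 + s * eval w Q1) = 0 := by
      intro s hs
      have h1 : (Function.update w k s) k ^ 2 = eval (Function.update w k s) c := by
        rw [Function.update_self, hc, hs]
      have h2 := h (Function.update w k s) ⟨hk w hw s, h1⟩
      rw [a3 _ h1, b3 _ h1, Function.update_self, a1, a2, b1, b2] at h2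
      exact h2
    have e1 := hp r hr
    have e2 := hp (-r) (by rw [neg_sq, hr])
    have e3 : eval w (P0 ^ 2 - c * P1 ^ 2) =
        (eval w P0 + r * eval w P1) * (eval w P0 + -r * eval w P1) := by
      simp only [map_sub, map_mul, map_pow]
      linear_combination (eval w P1) ^ 2 * hr
    have e4 : eval w (Q0 ^ 2 - c * Q1 ^ 2) =
        (eval w Q0 + r * eval w Q1) * (eval w Q0 + -r * eval w Q1) := by
      simp only [map_sub, map_mul, map_pow]
      linear_combination (eval w Q1) ^ 2 * hr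
    rw [e3, e4]
    linear_combination ((eval w P0 + -r * eval w P1) * (eval w Q0 + -r * eval w Q1)) * e1
  have fin : ∀ (p p0 p1 : MvPolynomial (Fin n) ℂ),
      (∀ w : Fin n → ℂ, w k ^ 2 = eval w c → eval w p = eval w p0 + w k * eval w p1) →
      (∀ w ∈ S, eval w (p0 ^ 2 - c * p1 ^ 2) = 0) →
      ∀ w ∈ {w | w ∈ S ∧ w k ^ 2 = eval w c}, eval w p = 0 := by
    intro p p0 p1 h1 h2 w hw
    have h3 : ∀ w ∈ S, eval w p0 ^ 2 = eval w c * eval w p1 ^ 2 := by
      intro w hw
      have := h2 w hw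
      simp only [map_sub, map_mul, map_pow] at this
      linear_combination this
    have h4 := hn p0 p1 h3 w hw.1
    have h5 := h3 w hw.1
    rw [h4] at h5
    have h6 : eval w p0 = 0 := by
      have : eval w p0 ^ 2 = 0 := by rw [h5]; ring
      exact pow_eq_zero_iff (by norm_num) |>.mp this
    rw [h1 w hw.2, h4, h6]
    ring
  rcases hS _ _ key with h1 | h1
  · left
    exact fin P P0 P1 a3 h1
  · right
    exact fin Q Q0 Q1 b3 h1

/-- restriction to a line parallel to a coordinate axis -/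
def un (s : Fin n → ℂ) (i : Fin n) (P : MvPolynomial (Fin n) ℂ) : Polynomial ℂ :=
  aeval (Function.update (fun j => Polynomial.C (s j)) i Polynomial.X) P

theorem un_eval (s : Fin n → ℂ) (i : Fin n) (P : MvPolynomial (Fin n) ℂ) (t : ℂ) :
    (un s i P).eval t = eval (Function.update s i t) P := by
  unfold un
  induction P using MvPolynomial.induction_on with
  | C a => simp
  | add p q hp hq => rw [map_add, Polynomial.eval_add, hp, hq, map_add]
  | mul_X p j hp =>
    rw [map_mul, Polynomial.eval_mul, hp, map_mul, aeval_X, eval_X]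
    congr 1
    by_cases hj : j = i
    · subst hj
      simp
    · simp [Function.update_of_ne hj]

theorem un_rel (S : Set (Fin n → ℂ)) (i : Fin n) (hi : Cy i S) (x y c : MvPolynomial (Fin n) ℂ)
    (h : ∀ w ∈ S, eval w x ^ 2 = eval w c * eval w y ^ 2) (s : Fin n → ℂ) (hs : s ∈ S)
    (g : Polynomial ℂ) (hg : ∀ t, g.eval t = eval (Function.update s i t) c) :
    un s i x ^ 2 = g * un s i y ^ 2 := by
  apply Polynomial.funext
  intro t
  rw [Polynomial.eval_pow, Polynomial.eval_mul, Polynomial.eval_pow, un_eval, un_eval, hg]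
  exact h _ (hi s hs t)

theorem un_ne (s : Fin n → ℂ) (i : Fin n) (y : MvPolynomial (Fin n) ℂ) (hy : eval s y ≠ 0) :
    un s i y ≠ 0 := by
  intro h
  apply hy
  have := un_eval s i y (s i)
  rw [h, Function.update_eq_self, Polynomial.eval_zero] at this
  exact this.symm

/-- the odd case -/
theorem nsq_odd (S : Set (Fin n → ℂ)) (i : Fin n) (hi : Cy i S) : Nsq S (1 + X i ^ 5) := by
  intro x y h s hs
  by_contra hy
  have hne := un_ne s i y hy
  have h1 := un_rel S i hi x y _ h s hs (1 + Polynomial.X ^ 5) (by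
    intro t
    simp)
  have hg : (1 + Polynomial.X ^ 5 : Polynomial ℂ).natDegree = 5 := by
    have : (1 + Polynomial.X ^ 5 : Polynomial ℂ) = Polynomial.X ^ 5 + Polynomial.C 1 := by
      rw [Polynomial.C_1]; ring
    rw [this]
    exact Polynomial.natDegree_X_pow_add_C
  have hg0 : (1 + Polynomial.X ^ 5 : Polynomial ℂ) ≠ 0 := by
    intro h0
    rw [h0] at hg
    simp at hg
  have h2 := congrArg Polynomial.natDegree h1
  rw [Polynomial.natDegree_pow, Polynomial.natDegree_mul hg0 (pow_ne_zero _ hne),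
    Polynomial.natDegree_pow, hg] at h2
  omega

theorem rm_sq (p : Polynomial ℂ) (hp : p ≠ 0) (u : ℂ) :
    (p ^ 2).rootMultiplicity u = 2 * p.rootMultiplicity u := by
  rw [sq, Polynomial.rootMultiplicity_mul (mul_ne_zero hp hp)]
  ring

/-- the case of a quadratic polynomial with two roots -/
theorem nsq_quad (S : Set (Fin n → ℂ)) (hS : Ir S) (i : Fin n) (hi : Cy i S)
    (c A B D : MvPolynomial (Fin n) ℂ) (hA : Fr i A) (hB : Fr i B) (hD : Fr i D)
    (hc : ∀ w, eval w c = eval w A * w i ^ 2 + eval w B * w i + eval w D)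
    (hne : ∃ w ∈ S, eval w (A * (B ^ 2 - 4 * A * D)) ≠ 0) : Nsq S c := by
  intro x y h
  have key : ∀ s ∈ S, eval s y * eval s (A * (B ^ 2 - 4 * A * D)) = 0 := by
    intro s hs
    by_contra hcon
    have hy := left_ne_zero_of_mul hcon
    have hz := right_ne_zero_of_mul hcon
    rw [map_mul] at hz
    have ha := left_ne_zero_of_mul hz
    have hd := right_ne_zero_of_mul hz
    simp only [map_sub, map_mul, map_pow] at hd
    have h4 : eval s (4 : MvPolynomial (Fin n) ℂ) = 4 := map_ofNat (eval s) 4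
    rw [h4] at hd
    set a := eval s A with hae
    set b := eval s B with hbe
    set d := eval s D with hde
    obtain ⟨r, hr⟩ : ∃ r : ℂ, r ^ 2 = b ^ 2 - 4 * a * d :=
      IsAlgClosed.exists_pow_nat_eq (b ^ 2 - 4 * a * d) (n := 2) (by norm_num)
    have hr0 : r ≠ 0 := by
      rintro rfl
      apply hd
      rw [← hr]
      ring
    set u := (-b + r) / (2 * a) with hu
    set v := (-b - r) / (2 * a) with hv
    have huv : u ≠ v := by
      intro huv
      apply hr0
      rw [hu, hv] at huv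
      field_simp at huv
      linear_combination (1 / 2) * huv
    have hne := un_ne s i y hy
    have h1 := un_rel S i hi x y c h s hs
      (Polynomial.C a * ((Polynomial.X - Polynomial.C u) * (Polynomial.X - Polynomial.C v))) (by
      intro t
      rw [hc, hA, hB, hD, Function.update_self, ← hae, ← hbe, ← hde]
      simp only [Polynomial.eval_mul, Polynomial.eval_C, Polynomial.eval_sub, Polynomial.eval_X]
      rw [hu, hv]
      field_simp
      linear_combination (-1) * hr)
    have hy2 : un s i y ^ 2 ≠ 0 := pow_ne_zero _ hne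
    have hca : (Polynomial.C a : Polynomial ℂ) ≠ 0 := by simpa using ha
    have hxu : (Polynomial.X - Polynomial.C u : Polynomial ℂ) ≠ 0 := Polynomial.X_sub_C_ne_zero u
    have hxv : (Polynomial.X - Polynomial.C v : Polynomial ℂ) ≠ 0 := Polynomial.X_sub_C_ne_zero v
    have hx1 : un s i x ≠ 0 := by
      intro h0
      rw [h0, zero_pow (by norm_num)] at h1
      exact mul_ne_zero (mul_ne_zero hca (mul_ne_zero hxu hxv)) hy2 h1.symm
    have h2 := congrArg (Polynomial.rootMultiplicity u) h1
    rw [Polynomial.rootMultiplicity_mul (mul_ne_zero (mul_ne_zero hca (mul_ne_zero hxu hxv)) hy2),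
      Polynomial.rootMultiplicity_mul (mul_ne_zero hca (mul_ne_zero hxu hxv)),
      Polynomial.rootMultiplicity_mul (mul_ne_zero hxu hxv),
      Polynomial.rootMultiplicity_C, Polynomial.rootMultiplicity_X_sub_C_self,
      Polynomial.rootMultiplicity_X_sub_C, if_neg huv, rm_sq _ hx1, rm_sq _ hne] at h2
    omega
  rcases hS _ _ key with h1 | h1
  · exact h1
  · obtain ⟨w, hw, h2⟩ := hne
    exact absurd (h1 w hw) h2

/-- the coefficients of the quadratic form of the last square root -/
def qA : MvPolynomial (Fin 11) ℂ := f3 (fr1 X)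
/-- the coefficients of the quadratic form of the last square root -/
def qB : MvPolynomial (Fin 11) ℂ := b3 (fr1 X) (fr2 X) * X 5
/-- the coefficients of the quadratic form of the last square root -/
def qD : MvPolynomial (Fin 11) ℂ := f3 (fr2 X) * X 5 ^ 2
/-- the quadratic form -/
def qC : MvPolynomial (Fin 11) ℂ := f3 (fun i => X 4 * fr1 X i + X 5 * fr2 X i)

theorem ev_fr1 (w : Fin 11 → ℂ) (i : Fin 7) : eval w (fr1 X i) = fr1 w i := by
  fin_cases i <;> simp [fr1]

theorem ev_fr2 (w : Fin 11 → ℂ) (i : Fin 7) : eval w (fr2 X i) = fr2 w i := by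
  fin_cases i <;> simp [fr2]

theorem ev_qA (w : Fin 11 → ℂ) : eval w qA = f3 (fr1 w) := by
  simp only [qA, f3, map_sub, map_add, map_mul, map_pow, ev_fr1]

theorem ev_two (w : Fin 11 → ℂ) : eval w (2 : MvPolynomial (Fin 11) ℂ) = 2 := map_ofNat (eval w) 2

theorem ev_qB (w : Fin 11 → ℂ) : eval w qB = b3 (fr1 w) (fr2 w) * w 5 := by
  simp only [qB, b3, map_sub, map_add, map_mul, ev_fr1, ev_fr2, ev_two, eval_X]

theorem ev_qD (w : Fin 11 → ℂ) : eval w qD = f3 (fr2 w) * w 5 ^ 2 := by
  simp only [qD, f3, map_sub, map_add, map_mul, map_pow, ev_fr2, eval_X]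

theorem ev_qC (w : Fin 11 → ℂ) :
    eval w qC = f3 (fun i => w 4 * fr1 w i + w 5 * fr2 w i) := by
  simp only [qC, f3, map_sub, map_add, map_mul, map_pow, ev_fr1, ev_fr2, eval_X]

theorem fr1_upd (w : Fin 11 → ℂ) (k : Fin 11) (h0 : k ≠ 0) (h1 : k ≠ 1) (h2 : k ≠ 2)
    (h3 : k ≠ 3) (t : ℂ) : fr1 (Function.update w k t) = fr1 w := by
  simp only [fr1, Function.update_of_ne h0.symm, Function.update_of_ne h1.symm,
    Function.update_of_ne h2.symm, Function.update_of_ne h3.symm]

theorem fr2_upd (w : Fin 11 → ℂ) (k : Fin 11) (h0 : k ≠ 0) (h1 : k ≠ 1) (h2 : k ≠ 2)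
    (h3 : k ≠ 3) (t : ℂ) : fr2 (Function.update w k t) = fr2 w := by
  simp only [fr2, Function.update_of_ne h0.symm, Function.update_of_ne h1.symm,
    Function.update_of_ne h2.symm, Function.update_of_ne h3.symm]

/-- the first two stages of the tower -/
def S1 : Set (Fin 11 → ℂ) :=
  {w | w ∈ (Set.univ : Set (Fin 11 → ℂ)) ∧ w 2 ^ 2 = eval w (1 + X 0 ^ 5)}
/-- the first two stages of the tower -/
def S2 : Set (Fin 11 → ℂ) := {w | w ∈ S1 ∧ w 3 ^ 2 = eval w (1 + X 1 ^ 5)}

theorem cy1 (k : Fin 11) (h0 : k ≠ 0) (h2 : k ≠ 2) : Cy k S1 := by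
  rintro w ⟨_, hw⟩ t
  refine ⟨Set.mem_univ _, ?_⟩
  simp only [map_add, map_one, map_pow, eval_X] at hw ⊢
  rw [Function.update_of_ne h0.symm, Function.update_of_ne h2.symm, hw]

theorem cy2 (k : Fin 11) (h0 : k ≠ 0) (h1 : k ≠ 1) (h2 : k ≠ 2) (h3 : k ≠ 3) : Cy k S2 := by
  rintro w ⟨hw1, hw⟩ t
  refine ⟨cy1 k h0 h2 w hw1 t, ?_⟩
  simp only [map_add, map_one, map_pow, eval_X] at hw ⊢
  rw [Function.update_of_ne h1.symm, Function.update_of_ne h3.symm, hw]

theorem ir1 : Ir S1 := by
  apply ir_step 2 Set.univ ir_univ (fun _ _ _ => Set.mem_univ _)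
  · intro w t
    simp only [map_add, map_one, map_pow, eval_X]
    rw [Function.update_of_ne (by decide)]
  · exact nsq_odd _ 0 (fun _ _ _ => Set.mem_univ _)

theorem ir2 : Ir S2 := by
  apply ir_step 3 S1 ir1 (cy1 3 (by decide) (by decide))
  · intro w t
    simp only [map_add, map_one, map_pow, eval_X]
    rw [Function.update_of_ne (by decide)]
  · exact nsq_odd _ 1 (cy1 1 (by decide) (by decide))

/-- the test point -/
def wt : Fin 11 → ℂ := ![0, -1, 1, 0, 0, 1, 0, 0, 0, 0, 0]

theorem nsq2 : Nsq S2 qC := by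
  apply nsq_quad S2 ir2 4 (cy2 4 (by decide) (by decide) (by decide) (by decide)) qC qA qB qD
  · intro w t
    rw [ev_qA, ev_qA, fr1_upd _ 4 (by decide) (by decide) (by decide) (by decide)]
  · intro w t
    rw [ev_qB, ev_qB, fr1_upd _ 4 (by decide) (by decide) (by decide) (by decide),
      fr2_upd _ 4 (by decide) (by decide) (by decide) (by decide),
      Function.update_of_ne (by decide)]
  · intro w t
    rw [ev_qD, ev_qD, fr2_upd _ 4 (by decide) (by decide) (by decide) (by decide),
      Function.update_of_ne (by decide)]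
  · intro w
    rw [ev_qC, ev_qA, ev_qB, ev_qD]
    simp only [f3, b3]
    ring
  · refine ⟨wt, ⟨⟨Set.mem_univ _, ?_⟩, ?_⟩, ?_⟩
    · simp [wt]
    · simp only [map_add, map_one, map_pow, eval_X]
      simp [wt]
      norm_num
    · have h4 : eval wt (4 : MvPolynomial (Fin 11) ℂ) = 4 := map_ofNat (eval wt) 4
      simp only [map_sub, map_mul, map_pow, h4, ev_qA, ev_qB, ev_qD]
      simp [wt, f3, b3, fr1, fr2]
      norm_num

end D3

/-- MODULE D3 -/
theorem wIrrS : WIrrS := by
  have h := D3.ir_step 6 D3.S2 D3.ir2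
    (D3.cy2 6 (by decide) (by decide) (by decide) (by decide)) D3.qC
    (by
      intro w t
      rw [D3.ev_qC, D3.ev_qC, D3.fr1_upd _ 6 (by decide) (by decide) (by decide) (by decide),
        D3.fr2_upd _ 6 (by decide) (by decide) (by decide) (by decide),
        Function.update_of_ne (by decide), Function.update_of_ne (by decide)])
    D3.nsq2
  have hW : WS = {w | w ∈ D3.S2 ∧ w 6 ^ 2 = eval w D3.qC} := by
    ext w
    constructor
    · rintro ⟨h1, h2, h3⟩
      refine ⟨⟨⟨Set.mem_univ _, ?_⟩, ?_⟩, ?_⟩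
      · simpa using h1
      · simpa using h2
      · rw [D3.ev_qC]
        exact h3
    · rintro ⟨⟨⟨_, h1⟩, h2⟩, h3⟩
      refine ⟨?_, ?_, ?_⟩
      · simpa using h1
      · simpa using h2
      · rw [D3.ev_qC] at h3
        exact h3
  intro P Q hPQ
  rw [hW] at hPQ ⊢
  exact h P Q hPQ

end Pool.VMR
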