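import Pool.Agent.H30.VMR.Util

/-!
# Module D4: the good part of the family of conics is irreducible
-/

noncomputable section

namespace Pool.VMR

open MvPolynomial

variable {R : Type*} [CommRing R]

/-! ## Forms of linear combinations -/

theorem f1_comb (x y : R) (u v : Fin 7 → R) :
    f1 (fun i => x * u i + y * v i) = x ^ 2 * f1 u + x * y * b1 u v + y ^ 2 * f1 v := by
  simp only [f1, b1]; ring

theorem f2_comb (x y : R) (u v : Fin 7 → R) :
    f2 (fun i => x * u i + y * v i) = x ^ 2 * f2 u + x * y * b2 u v + y ^ 2 * f2 v := by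
  simp only [f2, b2]; ring

theorem f3_comb (x y : R) (u v : Fin 7 → R) :
    f3 (fun i => x * u i + y * v i) = x ^ 2 * f3 u + x * y * b3 u v + y ^ 2 * f3 v := by
  simp only [f3, b3]; ring

theorem b1_comb (x y x' y' : R) (u v : Fin 7 → R) :
    b1 (fun i => x * u i + y * v i) (fun i => x' * u i + y' * v i) =
      2 * (x * x') * f1 u + (x * y' + x' * y) * b1 u v + 2 * (y * y') * f1 v := by
  simp only [f1, b1]; ring

theorem b2_comb (x y x' y' : R) (u v : Fin 7 → R) :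
    b2 (fun i => x * u i + y * v i) (fun i => x' * u i + y' * v i) =
      2 * (x * x') * f2 u + (x * y' + x' * y) * b2 u v + 2 * (y * y') * f2 v := by
  simp only [f2, b2]; ring

theorem b3_comb (x y x' y' : R) (u v : Fin 7 → R) :
    b3 (fun i => x * u i + y * v i) (fun i => x' * u i + y' * v i) =
      2 * (x * x') * f3 u + (x * y' + x' * y) * b3 u v + 2 * (y * y') * f3 v := by
  simp only [f3, b3]; ring

/-! ## The frame -/

theorem f1_fr1 (w : Fin 11 → R) : f1 (fr1 w) = 0 := by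
  simp only [f1, fr1, Matrix.cons_val]; ring

theorem f1_fr2 (w : Fin 11 → R) : f1 (fr2 w) = 0 := by
  simp only [f1, fr2, Matrix.cons_val]; ring

theorem b1_fr (w : Fin 11 → R) : b1 (fr1 w) (fr2 w) = 0 := by
  simp only [b1, fr1, fr2, Matrix.cons_val]; ring

theorem f2_fr1 (w : Fin 11 → R) (h1 : w 2 ^ 2 = 1 + w 0 ^ 5) (h2 : w 3 ^ 2 = 1 + w 1 ^ 5) :
    f2 (fr1 w) = 0 := by
  simp only [f2, fr1, Matrix.cons_val]
  linear_combination ((w 0 - w 1) ^ 3 * w 1) * h1 - ((w 0 - w 1) ^ 3 * w 0) * h2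

theorem f2_fr2 (w : Fin 11 → R) : f2 (fr2 w) = 0 := by
  simp only [f2, fr2, Matrix.cons_val]; ring

theorem b2_fr (w : Fin 11 → R) (h1 : w 2 ^ 2 = 1 + w 0 ^ 5) (h2 : w 3 ^ 2 = 1 + w 1 ^ 5) :
    b2 (fr1 w) (fr2 w) = 0 := by
  simp only [b2, fr1, fr2, Matrix.cons_val]
  linear_combination (-(w 0 - w 1) ^ 3) * h1 + ((w 0 - w 1) ^ 3) * h2

theorem fr1_6 (w : Fin 11 → R) : fr1 w 6 = 0 := by simp only [fr1, Matrix.cons_val]
theorem fr2_6 (w : Fin 11 → R) : fr2 w 6 = 0 := by simp only [fr2, Matrix.cons_val]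

/-! ## Binary quadratic forms -/

/-- the binary form with coefficients `a, b, c` -/
def qd (a b c x y : R) : R := a * x ^ 2 + b * (x * y) + c * y ^ 2

/-- its polar form -/
def bd (a b c x y x' y' : R) : R := 2 * a * (x * x') + b * (x * y' + x' * y) + 2 * c * (y * y')

theorem bd_disc (a b c x y x' y' : R) :
    bd a b c x y x' y' ^ 2 - 4 * qd a b c x y * qd a b c x' y' =
      (b ^ 2 - 4 * a * c) * (x * y' - y * x') ^ 2 := by
  simp only [bd, qd]; ring

/-- a hyperbolic pair -/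
theorem hyp_pair (a b c : ℂ) (h : b ^ 2 - 4 * a * c ≠ 0) :
    ∃ x y x' y' : ℂ, qd a b c x y = 0 ∧ qd a b c x' y' = 0 ∧ bd a b c x y x' y' = 1 := by
  by_cases ha : a = 0
  · subst ha
    have hb : b ≠ 0 := by
      rintro rfl
      apply h; ring
    refine ⟨1 / b, 0, -c / b, 1, ?_, ?_, ?_⟩
    · simp only [qd]; ring
    · simp only [qd]; field_simp; ring
    · simp only [bd]; field_simp; ring
  · obtain ⟨δ, hδ⟩ := IsAlgClosed.exists_pow_nat_eq (b ^ 2 - 4 * a * c) (n := 2) (by norm_num)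
    have hδ0 : δ ≠ 0 := by
      rintro rfl
      apply h
      rw [← hδ]; ring
    refine ⟨(-b + δ) / (2 * a) * (-a / δ ^ 2), -a / δ ^ 2, (-b - δ) / (2 * a), 1, ?_, ?_, ?_⟩
    · simp only [qd]
      field_simp
      linear_combination a * hδ
    · simp only [qd]
      field_simp
      linear_combination hδ
    · simp only [bd]
      field_simp
      linear_combination (-1 : ℂ) * hδ

/-! ## The parametrisation -/

/-- the coefficients of the form on the frame -/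
def qa (w : Fin 11 → R) : R := f3 (fr1 w)
/-- the coefficients of the form on the frame -/
def qb (w : Fin 11 → R) : R := b3 (fr1 w) (fr2 w)
/-- the coefficients of the form on the frame -/
def qc (w : Fin 11 → R) : R := f3 (fr2 w)

/-- the values of the form -/
def pq (w : Fin 11 → R) : Fin 3 → R :=
  ![qd (qa w) (qb w) (qc w) (w 7) (w 9), bd (qa w) (qb w) (qc w) (w 7) (w 9) (w 8) (w 10),
    qd (qa w) (qb w) (qc w) (w 8) (w 10)]

/-- the polar form of the base point and the first column -/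
def pb1 (w : Fin 11 → R) : R := bd (qa w) (qb w) (qc w) (w 4) (w 5) (w 7) (w 9)
/-- the polar form of the base point and the second column -/
def pb2 (w : Fin 11 → R) : R := bd (qa w) (qb w) (qc w) (w 4) (w 5) (w 8) (w 10)

/-- first frame coordinate -/
def px (w : Fin 11 → R) : Fin 3 → R :=
  ![pq w 0 * w 4 - pb1 w * w 7, pq w 1 * w 4 - pb1 w * w 8 - pb2 w * w 7,
    pq w 2 * w 4 - pb2 w * w 8]

/-- second frame coordinate -/
def py (w : Fin 11 → R) : Fin 3 → R :=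
  ![pq w 0 * w 5 - pb1 w * w 9, pq w 1 * w 5 - pb1 w * w 10 - pb2 w * w 9,
    pq w 2 * w 5 - pb2 w * w 10]

/-- the conic with parameters `w` -/
def phi (w : Fin 11 → R) (i : Fin 3) (j : Fin 7) : R :=
  px w i * fr1 w j + py w i * fr2 w j + w 6 * pq w i * (if j = 6 then 1 else 0)

/-- the product of the factors that must not vanish -/
def hh (w : Fin 11 → R) : R :=
  (w 0 - w 1) * (qb w ^ 2 - 4 * qa w * qc w) * w 6 * (w 7 * w 10 - w 8 * w 9) *
    hd (phi w 0) (phi w 2)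

section nat
variable {S : Type*} [CommRing S] (g : R →+* S) (w : Fin 11 → R)

theorem fr1_map (j : Fin 7) : g (fr1 w j) = fr1 (fun i => g (w i)) j := by
  fin_cases j <;> simp [fr1, map_ofNat]

theorem fr2_map (j : Fin 7) : g (fr2 w j) = fr2 (fun i => g (w i)) j := by
  fin_cases j <;> simp [fr2]

theorem qa_map : g (qa w) = qa (fun i => g (w i)) := by
  simp only [qa, f3, map_add, map_sub, map_mul, map_pow, fr1_map]

theorem qc_map : g (qc w) = qc (fun i => g (w i)) := by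
  simp only [qc, f3, map_add, map_sub, map_mul, map_pow, fr2_map]

theorem qb_map : g (qb w) = qb (fun i => g (w i)) := by
  simp only [qb, b3, map_add, map_sub, map_mul, fr1_map, fr2_map, map_ofNat]

theorem pq_map (i : Fin 3) : g (pq w i) = pq (fun i => g (w i)) i := by
  fin_cases i <;>
    simp [pq, qd, bd, qa_map, qb_map, qc_map, map_ofNat]

theorem pb1_map : g (pb1 w) = pb1 (fun i => g (w i)) := by
  simp [pb1, bd, qa_map, qb_map, qc_map, map_ofNat]

theorem pb2_map : g (pb2 w) = pb2 (fun i => g (w i)) := by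
  simp [pb2, bd, qa_map, qb_map, qc_map, map_ofNat]

theorem px_map (i : Fin 3) : g (px w i) = px (fun i => g (w i)) i := by
  fin_cases i <;> simp [px, pq_map, pb1_map, pb2_map]

theorem py_map (i : Fin 3) : g (py w i) = py (fun i => g (w i)) i := by
  fin_cases i <;> simp [py, pq_map, pb1_map, pb2_map]

theorem phi_map (i : Fin 3) (j : Fin 7) : g (phi w i j) = phi (fun i => g (w i)) i j := by
  simp only [phi, map_add, map_mul, px_map, py_map, pq_map, fr1_map, fr2_map]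
  split_ifs <;> simp

theorem hh_map : g (hh w) = hh (fun i => g (w i)) := by
  simp only [hh, hd, pl, map_add, map_sub, map_mul, map_pow, qa_map, qb_map, qc_map, phi_map,
    map_ofNat]

end nat

/-! ## The parametrisation in hyperbolic coordinates -/

/-- the quadratic form on a combination of a hyperbolic pair -/
theorem qd_hyp (a b c x y x' y' l l' : R) (h1 : qd a b c x y = 0) (h2 : qd a b c x' y' = 0)
    (h3 : bd a b c x y x' y' = 1) :
    qd a b c (l * x + l' * x') (l * y + l' * y') = l * l' := by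
  simp only [qd, bd] at *
  linear_combination l ^ 2 * h1 + l' ^ 2 * h2 + l * l' * h3

/-- the polar form on combinations of a hyperbolic pair -/
theorem bd_hyp (a b c x y x' y' l l' m m' : R) (h1 : qd a b c x y = 0)
    (h2 : qd a b c x' y' = 0) (h3 : bd a b c x y x' y' = 1) :
    bd a b c (l * x + l' * x') (l * y + l' * y') (m * x + m' * x') (m * y + m' * y') =
      l * m' + l' * m := by
  simp only [qd, bd] at *
  linear_combination 2 * l * m * h1 + 2 * l' * m' * h2 + (l * m' + l' * m) * h3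

/-- the coefficients of the conic in hyperbolic coordinates -/
theorem phi_hyp (w : Fin 11 → R) (x y x' y' α β a b c d : R)
    (h1 : qd (qa w) (qb w) (qc w) x y = 0) (h2 : qd (qa w) (qb w) (qc w) x' y' = 0)
    (h3 : bd (qa w) (qb w) (qc w) x y x' y' = 1)
    (e4 : w 4 = α * x + β * x') (e5 : w 5 = α * y + β * y')
    (e7 : w 7 = a * x + c * x') (e9 : w 9 = a * y + c * y')
    (e8 : w 8 = b * x + d * x') (e10 : w 10 = b * y + d * y') (j : Fin 7) :
    phi w 0 j = -β * a ^ 2 * (x * fr1 w j + y * fr2 w j) -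
        α * c ^ 2 * (x' * fr1 w j + y' * fr2 w j) + w 6 * (a * c) * (if j = 6 then 1 else 0) ∧
      phi w 1 j = -β * (2 * a * b) * (x * fr1 w j + y * fr2 w j) -
        α * (2 * c * d) * (x' * fr1 w j + y' * fr2 w j) +
          w 6 * (a * d + b * c) * (if j = 6 then 1 else 0) ∧
      phi w 2 j = -β * b ^ 2 * (x * fr1 w j + y * fr2 w j) -
        α * d ^ 2 * (x' * fr1 w j + y' * fr2 w j) + w 6 * (b * d) * (if j = 6 then 1 else 0) := by
  have q0 : pq w 0 = a * c := by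
    show qd (qa w) (qb w) (qc w) (w 7) (w 9) = _
    rw [e7, e9, qd_hyp _ _ _ _ _ _ _ _ _ h1 h2 h3]
  have q2 : pq w 2 = b * d := by
    show qd (qa w) (qb w) (qc w) (w 8) (w 10) = _
    rw [e8, e10, qd_hyp _ _ _ _ _ _ _ _ _ h1 h2 h3]
  have q1 : pq w 1 = a * d + c * b := by
    show bd (qa w) (qb w) (qc w) (w 7) (w 9) (w 8) (w 10) = _
    rw [e7, e9, e8, e10, bd_hyp _ _ _ _ _ _ _ _ _ _ _ h1 h2 h3]
  have r1 : pb1 w = α * c + β * a := by
    unfold pb1
    rw [e4, e5, e7, e9, bd_hyp _ _ _ _ _ _ _ _ _ _ _ h1 h2 h3]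
  have r2 : pb2 w = α * d + β * b := by
    unfold pb2
    rw [e4, e5, e8, e10, bd_hyp _ _ _ _ _ _ _ _ _ _ _ h1 h2 h3]
  have x0 : px w 0 = pq w 0 * w 4 - pb1 w * w 7 := rfl
  have x1 : px w 1 = pq w 1 * w 4 - pb1 w * w 8 - pb2 w * w 7 := rfl
  have x2 : px w 2 = pq w 2 * w 4 - pb2 w * w 8 := rfl
  have y0 : py w 0 = pq w 0 * w 5 - pb1 w * w 9 := rfl
  have y1 : py w 1 = pq w 1 * w 5 - pb1 w * w 10 - pb2 w * w 9 := rfl
  have y2 : py w 2 = pq w 2 * w 5 - pb2 w * w 10 := rfl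
  refine ⟨?_, ?_, ?_⟩
  · unfold phi
    rw [x0, y0, q0, r1, e4, e5, e7, e9]; ring
  · unfold phi
    rw [x1, y1, q1, r1, r2, e4, e5, e7, e8, e9, e10]; ring
  · unfold phi
    rw [x2, y2, q2, r2, e4, e5, e8, e10]; ring

theorem ev_two (f : Par 6 2) (s t : ℂ) (j : Fin 7) :
    ev f s t j = s ^ 2 * f 0 j + s * t * f 1 j + t ^ 2 * f 2 j := by
  simp [ev, Fin.sum_univ_three]

theorem E6_apply (j : Fin 7) : E6 j = if j = 6 then 1 else 0 := by
  simp only [E6, Pi.single_apply]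

theorem par0_apply (η θ : V 6) (s t : ℂ) (j : Fin 7) :
    ev (par0 η θ) s t j = s ^ 2 * η j + s * t * (if j = 6 then 1 else 0) + t ^ 2 * θ j := by
  rw [ev_two, ← E6_apply]
  simp [par0]

/-- the combination of the frame vectors satisfies the first two equations -/
theorem npair_frame (w : Fin 11 → ℂ) (h1 : w 2 ^ 2 = 1 + w 0 ^ 5) (h2 : w 3 ^ 2 = 1 + w 1 ^ 5)
    (x y x' y' : ℂ) (e1 : qd (qa w) (qb w) (qc w) x y = 0)
    (e2 : qd (qa w) (qb w) (qc w) x' y' = 0) (e3 : bd (qa w) (qb w) (qc w) x y x' y' = 1) :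
    NPair (fun j => x * fr1 w j + y * fr2 w j) (fun j => x' * fr1 w j + y' * fr2 w j) := by
  have g1 := f2_fr1 w h1 h2
  have g2 := b2_fr w h1 h2
  refine ⟨?_, ?_, ?_, ?_, ?_, ?_, ?_, ?_, ?_, ?_, ?_⟩
  · simp only [fr1_6, fr2_6]; ring
  · simp only [fr1_6, fr2_6]; ring
  · rw [f1_comb, f1_fr1, f1_fr2, b1_fr]; ring
  · rw [f1_comb, f1_fr1, f1_fr2, b1_fr]; ring
  · rw [b1_comb, f1_fr1, f1_fr2, b1_fr]; ring
  · rw [f2_comb, g1, g2, f2_fr2]; ring
  · rw [f2_comb, g1, g2, f2_fr2]; ring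
  · rw [b2_comb, g1, g2, f2_fr2]; ring
  · rw [f3_comb]; simp only [qd, qa, qb, qc] at e1; linear_combination e1
  · rw [f3_comb]; simp only [qd, qa, qb, qc] at e2; linear_combination e2
  · rw [b3_comb]; simp only [bd, qa, qb, qc] at e3; linear_combination e3

/-- the parametrisation lands in the family -/
theorem phi_mem (hc : NFcS) (hs : SmoothS) (hp : PrimesS) (w : Fin 11 → ℂ) (hw : w ∈ WS)
    (hh0 : hh w ≠ 0) : phi w ∈ K0 (X3 hs hp) := by
  obtain ⟨h1, h2, h3⟩ := hw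
  unfold hh at hh0
  have n5 : hd (phi w 0) (phi w 2) ≠ 0 := right_ne_zero_of_mul hh0
  have m5 := left_ne_zero_of_mul hh0
  have n4 : w 7 * w 10 - w 8 * w 9 ≠ 0 := right_ne_zero_of_mul m5
  have m4 := left_ne_zero_of_mul m5
  have n3 : w 6 ≠ 0 := right_ne_zero_of_mul m4
  have m3 := left_ne_zero_of_mul m4
  have n2 : qb w ^ 2 - 4 * qa w * qc w ≠ 0 := right_ne_zero_of_mul m3
  obtain ⟨x, y, x', y', e1, e2, e3⟩ := hyp_pair _ _ _ n2
  have hdet := bd_disc (qa w) (qb w) (qc w) x y x' y'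
  rw [e1, e2, e3] at hdet
  have hD : x * y' - y * x' ≠ 0 := by
    intro h0
    rw [h0] at hdet
    norm_num at hdet
  set D := x * y' - y * x' with hDdef
  -- coordinates
  have co : ∀ u v : ℂ, ∃ l m : ℂ, u = l * x + m * x' ∧ v = l * y + m * y' := by
    intro u v
    refine ⟨(u * y' - v * x') / D, (v * x - u * y) / D, ?_, ?_⟩
    · field_simp
      rw [hDdef]; ring
    · field_simp
      rw [hDdef]; ring
  obtain ⟨α, β, e4, e5⟩ := co (w 4) (w 5)
  obtain ⟨a, c, e7, e9⟩ := co (w 7) (w 9)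
  obtain ⟨b, d, e8, e10⟩ := co (w 8) (w 10)
  -- the square of w 6
  have hw6 : w 6 ^ 2 = α * β := by
    have hf : f3 (fun i => w 4 * fr1 w i + w 5 * fr2 w i) = qd (qa w) (qb w) (qc w) (w 4) (w 5) := by
      rw [f3_comb]; simp only [qd, qa, qb, qc]; ring
    rw [h3, hf, e4, e5, qd_hyp _ _ _ _ _ _ _ _ _ e1 e2 e3]
  have hα : α ≠ 0 := by
    rintro rfl
    apply n3
    have : w 6 ^ 2 = 0 := by rw [hw6]; ring
    exact pow_eq_zero_iff (two_ne_zero) |>.1 this
  obtain ⟨r1, hr1⟩ := IsAlgClosed.exists_pow_nat_eq (-β) (n := 2) (by norm_num)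
  have hβ : β ≠ 0 := by
    rintro rfl
    apply n3
    have : w 6 ^ 2 = 0 := by rw [hw6]; ring
    exact pow_eq_zero_iff (two_ne_zero) |>.1 this
  have hr10 : r1 ≠ 0 := by
    rintro rfl
    apply hβ
    have : -β = 0 := by rw [← hr1]; ring
    exact neg_eq_zero.1 this
  set r2 := w 6 / r1 with hr2
  have hr12 : r1 * r2 = w 6 := by rw [hr2]; field_simp
  have hr22 : r2 ^ 2 = -α := by
    have hβ' : β = -(r1 ^ 2) := by rw [hr1]; ring
    rw [hr2, div_pow, hw6, hβ']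
    field_simp
  have hrep : Rep (par0 (fun j => x * fr1 w j + y * fr2 w j)
      (fun j => x' * fr1 w j + y' * fr2 w j)) (phi w) := by
    refine ⟨r1 * a, r1 * b, r2 * c, r2 * d, ?_, ?_⟩
    · have : r1 * a * (r2 * d) - r1 * b * (r2 * c) = w 6 * (a * d - b * c) := by
        rw [← hr12]; ring
      rw [this]
      refine mul_ne_zero n3 ?_
      intro h0
      apply n4
      have : w 7 * w 10 - w 8 * w 9 = (a * d - b * c) * D := by
        rw [e7, e8, e9, e10, hDdef]; ring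
      rw [this, h0, zero_mul]
    · intro s t
      funext j
      obtain ⟨k0, k1, k2⟩ := phi_hyp w x y x' y' α β a b c d e1 e2 e3 e4 e5 e7 e9 e8 e10 j
      rw [ev_two, par0_apply, k0, k1, k2, ← hr12]
      linear_combination (-(x * fr1 w j + y * fr2 w j) * (a * s + b * t) ^ 2) * hr1 -
        ((x' * fr1 w j + y' * fr2 w j) * (c * s + d * t) ^ 2) * hr22
  obtain ⟨g1, g2⟩ := hc hs hp _ _ _ (npair_frame w h1 h2 x y x' y' e1 e2 e3) hrep
  exact ⟨g1, g2, n5⟩

/-- a frame with parameters, from the equations of the line -/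
theorem frame_eq (e1 e2 : V 6) (δ : ℂ) (a1 : e1 2 = 1) (a2 : e1 3 = 0) (a3 : e2 2 = 0)
    (a4 : e2 3 = 1) (a5 : e1 6 = 0) (a6 : e2 6 = 0)
    (c1 : f1 e1 = 0) (c2 : f1 e2 = 0) (c3 : b1 e1 e2 = 0) (c4 : f2 e1 = 0) (c5 : f2 e2 = 0)
    (c6 : b2 e1 e2 = 0) (hδ : δ ^ 2 = e2 4 ^ 2 + 4 * e1 4) (w : Fin 11 → ℂ)
    (w0 : w 0 = (e2 4 + δ) / 2) (w1 : w 1 = (e2 4 - δ) / 2)
    (w2 : w 2 = e1 5 + e2 5 * w 0) (w3 : w 3 = e1 5 + e2 5 * w 1) :
    w 2 ^ 2 = 1 + w 0 ^ 5 ∧ w 3 ^ 2 = 1 + w 1 ^ 5 ∧ (∀ j, fr1 w j = δ ^ 2 * e1 j) ∧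
      ∀ j, fr2 w j = δ ^ 2 * e2 j := by
  have d01 : w 0 - w 1 = δ := by rw [w0, w1]; ring
  have s01 : w 0 + w 1 = e2 4 := by rw [w0, w1]; ring
  have p01 : w 0 * w 1 = -(e1 4) := by
    rw [w0, w1]
    linear_combination (-1 / 4 : ℂ) * hδ
  have y01 : w 2 - w 3 = e2 5 * δ := by rw [w2, w3, ← d01]; ring
  have z01 : w 0 * w 3 - w 1 * w 2 = e1 5 * δ := by rw [w2, w3, ← d01]; ring
  -- the relations
  have u1 : e1 0 = e1 4 ^ 2 := by
    simp only [f1, a1, a2] at c1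
    linear_combination c1
  have v2 : e2 1 = e2 4 ^ 2 := by
    simp only [f1, a3, a4] at c2
    linear_combination c2
  have uv : e2 0 + e1 1 = 2 * (e1 4 * e2 4) := by
    simp only [b1, a1, a2, a3, a4] at c3
    linear_combination c3
  have A2 : e1 5 ^ 2 = 1 + e1 1 * e1 4 := by
    simp only [f2, a1, a2] at c4
    linear_combination -c4
  have B2 : e2 5 ^ 2 = e2 0 + e2 1 * e2 4 := by
    simp only [f2, a3, a4] at c5
    linear_combination -c5
  have AB : 2 * (e1 5 * e2 5) = e1 0 + e1 1 * e2 4 + e2 1 * e1 4 := by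
    simp only [b2, a1, a2, a3, a4] at c6
    linear_combination -c6
  have q0 : w 0 ^ 2 = e2 4 * w 0 + e1 4 := by
    linear_combination w 0 * s01 - p01
  have q1 : w 1 ^ 2 = e2 4 * w 1 + e1 4 := by
    linear_combination w 1 * s01 - p01
  have curve : ∀ t : ℂ, t ^ 2 = e2 4 * t + e1 4 → (e1 5 + e2 5 * t) ^ 2 = 1 + t ^ 5 := by
    intro t ht
    have t3 : t ^ 3 = (e2 4 ^ 2 + e1 4) * t + e2 4 * e1 4 := by
      linear_combination (t + e2 4) * ht
    have t5 : t ^ 5 = (e2 4 ^ 4 + 3 * e2 4 ^ 2 * e1 4 + e1 4 ^ 2) * t +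
        (e2 4 ^ 3 * e1 4 + 2 * e2 4 * e1 4 ^ 2) := by
      linear_combination t ^ 2 * t3 + ((e2 4 ^ 2 + e1 4) * t + e2 4 * e1 4 +
        (e2 4 ^ 3 + e1 4 * e2 4)) * ht
    rw [t5]
    linear_combination A2 + t * AB + e2 5 ^ 2 * ht + (e2 4 * t + e1 4) * B2 + t * u1 +
      (e1 4 + e2 4 * t) * uv + (t * e1 4 + (e2 4 * t + e1 4) * e2 4) * v2
  refine ⟨?_, ?_, ?_, ?_⟩
  · rw [w2]; exact curve _ q0
  · rw [w3]; exact curve _ q1
  · intro j
    have key : ∀ j, fr1 w j = δ ^ 2 * e1 j := by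
      intro j
      fin_cases j
      · show (w 0 - w 1) ^ 2 * (w 0 * w 1) ^ 2 = δ ^ 2 * e1 0
        rw [d01, p01, u1]; ring
      · show (w 0 - w 1) ^ 2 * (-2 * (w 0 * w 1) * (w 0 + w 1) + (w 0 + w 1) ^ 3) -
          (w 2 - w 3) ^ 2 = δ ^ 2 * e1 1
        rw [d01, p01, s01, y01]
        linear_combination (-δ ^ 2) * B2 - δ ^ 2 * uv - δ ^ 2 * e2 4 * v2
      · show (w 0 - w 1) ^ 2 = δ ^ 2 * e1 2
        rw [d01, a1]; ring
      · show (0 : ℂ) = δ ^ 2 * e1 3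
        rw [a2]; ring
      · show -((w 0 - w 1) ^ 2 * (w 0 * w 1)) = δ ^ 2 * e1 4
        rw [d01, p01]; ring
      · show (w 0 - w 1) * (w 0 * w 3 - w 1 * w 2) = δ ^ 2 * e1 5
        rw [d01, z01]; ring
      · show (0 : ℂ) = δ ^ 2 * e1 6
        rw [a5]; ring
    exact key j
  · intro j
    have key : ∀ j, fr2 w j = δ ^ 2 * e2 j := by
      intro j
      fin_cases j
      · show (w 2 - w 3) ^ 2 - (w 0 - w 1) ^ 2 * (w 0 + w 1) ^ 3 = δ ^ 2 * e2 0
        rw [d01, s01, y01]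
        linear_combination (δ ^ 2) * B2 + δ ^ 2 * e2 4 * v2
      · show (w 0 - w 1) ^ 2 * (w 0 + w 1) ^ 2 = δ ^ 2 * e2 1
        rw [d01, s01, v2]
      · show (0 : ℂ) = δ ^ 2 * e2 2
        rw [a3]; ring
      · show (w 0 - w 1) ^ 2 = δ ^ 2 * e2 3
        rw [d01, a4]; ring
      · show (w 0 - w 1) ^ 2 * (w 0 + w 1) = δ ^ 2 * e2 4
        rw [d01, s01]
      · show (w 0 - w 1) * (w 2 - w 3) = δ ^ 2 * e2 5
        rw [d01, y01]; ring
      · show (0 : ℂ) = δ ^ 2 * e2 6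
        rw [a6]; ring
    exact key j

theorem hd_comb (η θ : Fin 7 → R) (x y x' y' : R) :
    hd (fun j => x * η j + y * θ j) (fun j => x' * η j + y' * θ j) =
      (x * y' - y * x') ^ 3 * hd η θ := by
  simp only [hd, pl]; ring

/-- every member of the family comes from the parameter space -/
theorem phi_surj (hn : NFS) (hs : SmoothS) (hp : PrimesS) (f : Par 6 2)
    (hf : f ∈ K0 (X3 hs hp)) : ∃ w ∈ WS, hh w ≠ 0 ∧ phi w = f := by
  obtain ⟨hr, hm, hh0⟩ := hf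
  obtain ⟨η, θ, ⟨n1, n2, n3, n4, n5, n6, n7, n8, n9, n10, n11⟩, a, b, c, d, hdet, hrep⟩ :=
    hn hs hp f hr hm
  -- coefficients of f
  have ev1 : ∀ (s t : ℂ) (j : Fin 7), s ^ 2 * f 0 j + s * t * f 1 j + t ^ 2 * f 2 j =
      (a * s + b * t) ^ 2 * η j + (a * s + b * t) * (c * s + d * t) * (if j = 6 then 1 else 0) +
        (c * s + d * t) ^ 2 * θ j := by
    intro s t j
    have := congrFun (hrep s t) j
    rw [ev_two, par0_apply] at this
    exact this
  have F0 : ∀ j, f 0 j = a ^ 2 * η j + a * c * (if j = 6 then 1 else 0) + c ^ 2 * θ j := by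
    intro j
    have := ev1 1 0 j
    linear_combination this
  have F2 : ∀ j, f 2 j = b ^ 2 * η j + b * d * (if j = 6 then 1 else 0) + d ^ 2 * θ j := by
    intro j
    have := ev1 0 1 j
    linear_combination this
  have F1' : ∀ j, f 1 j = 2 * a * b * η j + (a * d + b * c) * (if j = 6 then 1 else 0) +
      2 * c * d * θ j := by
    intro j
    have := ev1 1 1 j
    linear_combination this - F0 j - F2 j
  -- the good chart
  have hhd : hd (f 0) (f 2) = (a ^ 2 * d ^ 2 - c ^ 2 * b ^ 2) ^ 3 * hd η θ := by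
    have r : ∀ i j : Fin 7, i ≠ 6 → j ≠ 6 → pl i j (f 0) (f 2) =
        (a ^ 2 * d ^ 2 - c ^ 2 * b ^ 2) * pl i j η θ := by
      intro i j hi hj
      simp only [pl, F0, F2, hi, hj, if_false]
      ring
    unfold hd
    rw [r 2 3 (by decide) (by decide), r 2 4 (by decide) (by decide),
      r 4 3 (by decide) (by decide)]
    ring
  have hη : hd η θ ≠ 0 := by
    intro h0
    rw [hhd, h0, mul_zero] at hh0
    exact hh0 rfl
  have hP : pl 2 3 η θ ≠ 0 := by
    intro h0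
    apply hη
    unfold hd
    rw [h0]; ring
  set P := pl 2 3 η θ with hPdef
  have hPe : P = η 2 * θ 3 - η 3 * θ 2 := rfl
  set e1 : V 6 := fun j => θ 3 / P * η j + -(η 3) / P * θ j with he1
  set e2 : V 6 := fun j => -(θ 2) / P * η j + η 2 / P * θ j with he2
  have a1 : e1 2 = 1 := by
    show θ 3 / P * η 2 + -(η 3) / P * θ 2 = 1
    field_simp
    rw [hPe]; ring
  have a2 : e1 3 = 0 := by
    show θ 3 / P * η 3 + -(η 3) / P * θ 3 = 0
    field_simp
    ring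
  have a3 : e2 2 = 0 := by
    show -(θ 2) / P * η 2 + η 2 / P * θ 2 = 0
    field_simp
    ring
  have a4 : e2 3 = 1 := by
    show -(θ 2) / P * η 3 + η 2 / P * θ 3 = 1
    field_simp
    rw [hPe]; ring
  have a5 : e1 6 = 0 := by
    show θ 3 / P * η 6 + -(η 3) / P * θ 6 = 0
    rw [n1, n2]; ring
  have a6 : e2 6 = 0 := by
    show -(θ 2) / P * η 6 + η 2 / P * θ 6 = 0
    rw [n1, n2]; ring
  have c1 : f1 e1 = 0 := by rw [he1, f1_comb, n3, n4, n5]; ring
  have c2 : f1 e2 = 0 := by rw [he2, f1_comb, n3, n4, n5]; ring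
  have c3 : b1 e1 e2 = 0 := by rw [he1, he2, b1_comb, n3, n4, n5]; ring
  have c4 : f2 e1 = 0 := by rw [he1, f2_comb, n6, n7, n8]; ring
  have c5 : f2 e2 = 0 := by rw [he2, f2_comb, n6, n7, n8]; ring
  have c6 : b2 e1 e2 = 0 := by rw [he1, he2, b2_comb, n6, n7, n8]; ring
  have back1 : ∀ j, η j = η 2 * e1 j + η 3 * e2 j := by
    intro j
    show η j = η 2 * (θ 3 / P * η j + -(η 3) / P * θ j) + η 3 * (-(θ 2) / P * η j + η 2 / P * θ j)
    field_simp
    rw [hPe]; ring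
  have back2 : ∀ j, θ j = θ 2 * e1 j + θ 3 * e2 j := by
    intro j
    show θ j = θ 2 * (θ 3 / P * η j + -(η 3) / P * θ j) + θ 3 * (-(θ 2) / P * η j + η 2 / P * θ j)
    field_simp
    rw [hPe]; ring
  -- the discriminant of the two parameters
  have hdisc : hd e1 e2 = e2 4 ^ 2 + 4 * e1 4 := by
    simp only [hd, pl, a1, a2, a3, a4]; ring
  have hdne : e2 4 ^ 2 + 4 * e1 4 ≠ 0 := by
    rw [← hdisc]
    intro h0
    apply hη
    have : hd η θ = (η 2 * θ 3 - η 3 * θ 2) ^ 3 * hd e1 e2 := by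
      rw [← hd_comb]
      congr 1
      · funext j; exact back1 j
      · funext j; exact back2 j
    rw [this, h0, mul_zero]
  obtain ⟨δ, hδ⟩ := IsAlgClosed.exists_pow_nat_eq (e2 4 ^ 2 + 4 * e1 4) (n := 2) (by norm_num)
  have hδ0 : δ ≠ 0 := by
    rintro rfl
    apply hdne
    rw [← hδ]; ring
  set t1 := (e2 4 + δ) / 2 with ht1
  set t2 := (e2 4 - δ) / 2 with ht2
  set w : Fin 11 → ℂ := ![t1, t2, e1 5 + e2 5 * t1, e1 5 + e2 5 * t2,
    -(η 2 / δ ^ 2) - θ 2 / δ ^ 2, -(η 3 / δ ^ 2) - θ 3 / δ ^ 2, 1,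
    a * (η 2 / δ ^ 2) + c * (θ 2 / δ ^ 2), b * (η 2 / δ ^ 2) + d * (θ 2 / δ ^ 2),
    a * (η 3 / δ ^ 2) + c * (θ 3 / δ ^ 2), b * (η 3 / δ ^ 2) + d * (θ 3 / δ ^ 2)] with hw
  have w0 : w 0 = t1 := rfl
  have w1 : w 1 = t2 := rfl
  have w2 : w 2 = e1 5 + e2 5 * w 0 := rfl
  have w3 : w 3 = e1 5 + e2 5 * w 1 := rfl
  have w4 : w 4 = -(η 2 / δ ^ 2) - θ 2 / δ ^ 2 := rfl
  have w5 : w 5 = -(η 3 / δ ^ 2) - θ 3 / δ ^ 2 := rfl
  have w6 : w 6 = 1 := rfl
  have w7 : w 7 = a * (η 2 / δ ^ 2) + c * (θ 2 / δ ^ 2) := rfl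
  have w8 : w 8 = b * (η 2 / δ ^ 2) + d * (θ 2 / δ ^ 2) := rfl
  have w9 : w 9 = a * (η 3 / δ ^ 2) + c * (θ 3 / δ ^ 2) := rfl
  have w10 : w 10 = b * (η 3 / δ ^ 2) + d * (θ 3 / δ ^ 2) := rfl
  obtain ⟨k1, k2, k3, k4⟩ := frame_eq e1 e2 δ a1 a2 a3 a4 a5 a6 c1 c2 c3 c4 c5 c6 hδ w
    (by rw [w0, ht1]) (by rw [w1, ht2]) w2 w3
  have hη' : (fun j => η 2 / δ ^ 2 * fr1 w j + η 3 / δ ^ 2 * fr2 w j) = η := by
    funext j
    rw [k3, k4, back1 j]
    field_simp
  have hθ' : (fun j => θ 2 / δ ^ 2 * fr1 w j + θ 3 / δ ^ 2 * fr2 w j) = θ := by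
    funext j
    rw [k3, k4, back2 j]
    field_simp
  have g1 : qd (qa w) (qb w) (qc w) (η 2 / δ ^ 2) (η 3 / δ ^ 2) = 0 := by
    have := n9
    rw [← hη', f3_comb] at this
    simp only [qd, qa, qb, qc]
    linear_combination this
  have g2 : qd (qa w) (qb w) (qc w) (θ 2 / δ ^ 2) (θ 3 / δ ^ 2) = 0 := by
    have := n10
    rw [← hθ', f3_comb] at this
    simp only [qd, qa, qb, qc]
    linear_combination this
  have g3 : bd (qa w) (qb w) (qc w) (η 2 / δ ^ 2) (η 3 / δ ^ 2) (θ 2 / δ ^ 2) (θ 3 / δ ^ 2) =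
      1 := by
    have := n11
    rw [← hη', ← hθ', b3_comb] at this
    simp only [bd, qa, qb, qc]
    linear_combination this
  have hphi : phi w = f := by
    funext i j
    obtain ⟨m0, m1, m2⟩ := phi_hyp w (η 2 / δ ^ 2) (η 3 / δ ^ 2) (θ 2 / δ ^ 2) (θ 3 / δ ^ 2)
      (-1) (-1) a b c d g1 g2 g3 (by rw [w4]; ring) (by rw [w5]; ring) w7 w9 w8 w10 j
    have e1' : η 2 / δ ^ 2 * fr1 w j + η 3 / δ ^ 2 * fr2 w j = η j := congrFun hη' j
    have e2' : θ 2 / δ ^ 2 * fr1 w j + θ 3 / δ ^ 2 * fr2 w j = θ j := congrFun hθ' j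
    rw [e1', e2', w6] at m0 m1 m2
    fin_cases i
    · show phi w 0 j = f 0 j
      rw [m0, F0]; ring
    · show phi w 1 j = f 1 j
      rw [m1, F1']; ring
    · show phi w 2 j = f 2 j
      rw [m2, F2]; ring
  refine ⟨w, ⟨k1, k2, ?_⟩, ?_, hphi⟩
  · rw [f3_comb, w6]
    have := qd_hyp (qa w) (qb w) (qc w) _ _ _ _ (-1) (-1) g1 g2 g3
    have e4 : w 4 = -1 * (η 2 / δ ^ 2) + -1 * (θ 2 / δ ^ 2) := by rw [w4]; ring
    have e5 : w 5 = -1 * (η 3 / δ ^ 2) + -1 * (θ 3 / δ ^ 2) := by rw [w5]; ring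
    rw [← e4, ← e5] at this
    simp only [qd, qa, qb, qc] at this
    linear_combination -this
  · have hD := bd_disc (qa w) (qb w) (qc w) (η 2 / δ ^ 2) (η 3 / δ ^ 2) (θ 2 / δ ^ 2)
      (θ 3 / δ ^ 2)
    rw [g1, g2, g3] at hD
    have hD1 : qb w ^ 2 - 4 * qa w * qc w ≠ 0 := by
      intro h0
      rw [h0] at hD
      norm_num at hD
    have hD2 : η 2 / δ ^ 2 * (θ 3 / δ ^ 2) - η 3 / δ ^ 2 * (θ 2 / δ ^ 2) ≠ 0 := by
      intro h0
      rw [h0] at hD
      norm_num at hD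
    unfold hh
    refine mul_ne_zero (mul_ne_zero (mul_ne_zero (mul_ne_zero ?_ hD1) ?_) ?_) ?_
    · have : w 0 - w 1 = δ := by rw [w0, w1, ht1, ht2]; ring
      rw [this]; exact hδ0
    · rw [w6]; exact one_ne_zero
    · have : w 7 * w 10 - w 8 * w 9 = (a * d - b * c) *
          (η 2 / δ ^ 2 * (θ 3 / δ ^ 2) - η 3 / δ ^ 2 * (θ 2 / δ ^ 2)) := by
        rw [w7, w8, w9, w10]; ring
      rw [this]
      exact mul_ne_zero hdet hD2
    · rw [hphi]; exact hh0

/-- the base conic is in the good part -/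
theorem f00_mem (hc : NFcS) (hs : SmoothS) (hp : PrimesS) : f00 ∈ K0 (X3 hs hp) := by
  have hN : NPair ![-4, -4, 1, -2, 2, -1, 0] ![-2, -1, 0, -1, 1, -1, 0] := by
    refine ⟨?_, ?_, ?_, ?_, ?_, ?_, ?_, ?_, ?_, ?_, ?_⟩ <;>
      simp only [f1, f2, f3, b1, b2, b3, Matrix.cons_val] <;> norm_num
  obtain ⟨g1, g2⟩ := hc hs hp _ _ f00 hN ⟨1, 0, 0, 1, by norm_num, fun s t => by
    simp [f00]⟩
  refine ⟨g1, g2, ?_⟩
  have e0 : f00 0 = ![-4, -4, 1, -2, 2, -1, 0] := rfl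
  have e2 : f00 2 = ![-2, -1, 0, -1, 1, -1, 0] := rfl
  rw [e0, e2]
  simp only [hd, pl, Matrix.cons_val]
  norm_num

/-- the pull back of a polynomial in the coefficients to the parameter space -/
def pull (P : MvPolynomial (Fin 3 × Fin 7) ℂ) : MvPolynomial (Fin 11) ℂ :=
  aeval (fun a : Fin 3 × Fin 7 => phi (X : Fin 11 → MvPolynomial (Fin 11) ℂ) a.1 a.2) P

theorem eval_pull (P : MvPolynomial (Fin 3 × Fin 7) ℂ) (w : Fin 11 → ℂ) :
    eval w (pull P) = cev (e := 2) (phi w) P := by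
  unfold pull cev
  induction P using MvPolynomial.induction_on with
  | C a => simp
  | add p q hp hq => simp only [map_add, hp, hq]
  | mul_X p a hp =>
    simp only [map_mul, hp, aeval_X, eval_X]
    congr 1
    have := phi_map (eval w) (X : Fin 11 → MvPolynomial (Fin 11) ℂ) a.1 a.2
    rw [this]
    congr 1
    funext i; simp

/-- MODULE D4 -/
theorem kIrrS (h1 : NFS) (h2 : NFcS) (h3 : WIrrS) : KIrrS := by
  intro hs hp
  refine ⟨⟨f00, f00_mem h2 hs hp⟩, ?_⟩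
  intro P Q hPQ
  obtain ⟨w0, hw0, hh0, -⟩ := phi_surj h1 hs hp f00 (f00_mem h2 hs hp)
  have ehh : ∀ w : Fin 11 → ℂ, eval w (hh (X : Fin 11 → MvPolynomial (Fin 11) ℂ)) = hh w := by
    intro w
    have := hh_map (eval w) (X : Fin 11 → MvPolynomial (Fin 11) ℂ)
    rw [this]
    congr 1
    funext i; simp
  have k1 : ∀ w ∈ WS, eval w (pull P * pull Q) * eval w (hh X) = 0 := by
    intro w hw
    rw [ehh]
    by_cases h0 : hh w = 0
    · rw [h0, mul_zero]
    · have := hPQ _ (phi_mem h2 hs hp w hw h0)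
      rw [map_mul, eval_pull, eval_pull, this, zero_mul]
  have k2 : ∀ w ∈ WS, eval w (pull P) * eval w (pull Q) = 0 := by
    rcases h3 _ _ k1 with h | h
    · intro w hw
      have := h w hw
      rwa [map_mul] at this
    · exact absurd (by rw [← ehh]; exact h w0 hw0) hh0
  rcases h3 _ _ k2 with h | h
  · left
    intro f hf
    obtain ⟨w, hw, -, rfl⟩ := phi_surj h1 hs hp f hf
    rw [← eval_pull]
    exact h w hw
  · right
    intro f hf
    obtain ⟨w, hw, -, rfl⟩ := phi_surj h1 hs hp f hf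
    rw [← eval_pull]
    exact h w hw

end Pool.VMR
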