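import Pool.Agent.H30.VMR.Stm

/-!
# Module D5: deformations of the base conic

Near the base conic the middle coefficient of a conic on the threefold is, up to its last
coordinate, in the span of the outer coefficients: Nakayama's lemma.
-/

noncomputable section

namespace Pool.VMR

open MvPolynomial

namespace D5

/-- polynomials in the coefficients of a parametrised conic -/
abbrev A : Type := MvPolynomial (Fin (2 + 1) × Fin (6 + 1)) ℂ

/-- the equations of the coefficients for a quadratic form -/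
theorem ev_two (f : Par 6 2) (s t : ℂ) (j : Fin 7) :
    ev f s t j = s ^ 2 * f 0 j + s * t * f 1 j + t ^ 2 * f 2 j := by
  simp [ev, Fin.sum_univ_three]

theorem coef_eqs {hs : SmoothS} {hp : PrimesS} {f : Par 6 2}
    (hf : f ∈ ratCurves (X3 hs hp) 2) :
    (f1 (f 0) = 0 ∧ b1 (f 0) (f 1) = 0 ∧ f1 (f 1) + b1 (f 0) (f 2) = 0 ∧ b1 (f 1) (f 2) = 0 ∧
      f1 (f 2) = 0) ∧
    (f2 (f 0) = 0 ∧ b2 (f 0) (f 1) = 0 ∧ f2 (f 1) + b2 (f 0) (f 2) = 0 ∧ b2 (f 1) (f 2) = 0 ∧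
      f2 (f 2) = 0) := by
  have h : ∀ s t : ℂ, (s, t) ≠ (0, 0) → f1 (ev f s t) = 0 ∧ f2 (ev f s t) = 0 := by
    intro s t hst
    have h1 := hf.1 s t hst
    rw [cone_X3] at h1
    exact ⟨h1.2.1, h1.2.2.1⟩
  have h10 := h 1 0 (by simp)
  have h01 := h 0 1 (by simp)
  have h11 := h 1 1 (by simp)
  have h1m := h 1 (-1) (by simp)
  have h21 := h 2 1 (by simp)
  simp only [f1, f2, ev_two] at h10 h01 h11 h1m h21
  obtain ⟨a1, a2⟩ := h10
  obtain ⟨c1, c2⟩ := h01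
  obtain ⟨d1, d2⟩ := h11
  obtain ⟨e1, e2⟩ := h1m
  obtain ⟨g1, g2⟩ := h21
  simp only [f1, f2, b1, b2]
  refine ⟨⟨?_, ?_, ?_, ?_, ?_⟩, ?_, ?_, ?_, ?_, ?_⟩
  · linear_combination a1
  · linear_combination (1 / 6) * g1 - (1 / 2) * d1 - (1 / 6) * e1 - 2 * a1 + (1 / 2) * c1
  · linear_combination (1 / 2) * d1 + (1 / 2) * e1 - a1 - c1
  · linear_combination d1 - (1 / 2) * d1 - (1 / 2) * e1 - ((1 / 6) * g1 - (1 / 2) * d1 -
      (1 / 6) * e1 - 2 * a1 + (1 / 2) * c1)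
  · linear_combination c1
  · linear_combination a2
  · linear_combination (1 / 6) * g2 - (1 / 2) * d2 - (1 / 6) * e2 - 2 * a2 + (1 / 2) * c2
  · linear_combination (1 / 2) * d2 + (1 / 2) * e2 - a2 - c2
  · linear_combination d2 - (1 / 2) * d2 - (1 / 2) * e2 - ((1 / 6) * g2 - (1 / 2) * d2 -
      (1 / 6) * e2 - 2 * a2 + (1 / 2) * c2)
  · linear_combination c2

/-- a coefficient -/
def p (i : Fin (2 + 1)) (j : Fin (6 + 1)) : A := X (i, j)

/-- a minor of the outer coefficients -/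
def dd : A := p 0 2 * p 2 3 - p 0 3 * p 2 2
/-- a minor -/
def xx : A := p 1 2 * p 2 3 - p 1 3 * p 2 2
/-- a minor -/
def yy : A := p 0 2 * p 1 3 - p 0 3 * p 1 2

/-- the remainder of the middle coefficient, times `dd` -/
def mm (k : Fin (6 + 1)) : A := dd * p 1 k - xx * p 0 k - yy * p 2 k

/-- the polar form of `f1` with the remainder -/
def la (i : Fin (2 + 1)) : A := p i 2 * mm 0 + p i 3 * mm 1 - 2 * (p i 4 * mm 4)
/-- the polar form of `f2` with the remainder -/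
def lb (i : Fin (2 + 1)) : A := p i 3 * mm 0 + p i 4 * mm 1 + p i 1 * mm 4 - 2 * (p i 5 * mm 5)

/-- the polar form of `f1` at the outer coefficients -/
def c1 : A := b1 (p 0) (p 2)
/-- the polar form of `f2` at the outer coefficients -/
def c2 : A := b2 (p 0) (p 2)

theorem cev_p (f : Par 6 2) (i : Fin (2 + 1)) (j : Fin (6 + 1)) : cev f (p i j) = f i j := by
  simp [cev, p]

theorem mm_two : mm 2 = 0 := by
  unfold mm dd xx yy
  ring

theorem mm_three : mm 3 = 0 := by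
  unfold mm dd xx yy
  ring

/-- the polynomials vanishing on a set of conics -/
def J (T : Set (Par 6 2)) : Ideal A where
  carrier := {P | ∀ f ∈ T, cev f P = 0}
  add_mem' := by
    intro a b ha hb f hf
    have h1 := ha f hf
    have h2 := hb f hf
    simp only [cev, map_add] at h1 h2 ⊢
    rw [h1, h2, add_zero]
  zero_mem' := by
    intro f _
    simp [cev]
  smul_mem' := by
    intro c a ha f hf
    have h1 := ha f hf
    simp only [cev, smul_eq_mul, map_mul] at h1 ⊢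
    rw [h1, mul_zero]

/-- the maximal ideal of the base conic -/
def M : Ideal A := RingHom.ker (eval (fun a : Fin (2 + 1) × Fin (6 + 1) => f00 a.1 a.2))

/-- the ideal of the remainder -/
def N : Ideal A := Ideal.span {mm 0, mm 1, mm 4, mm 5}

theorem mem_M {P : A} (h : cev f00 P = 0) : P ∈ M := h

theorem mm_mem_N : mm 0 ∈ N ∧ mm 1 ∈ N ∧ mm 4 ∈ N ∧ mm 5 ∈ N :=
  ⟨Ideal.subset_span (by simp), Ideal.subset_span (by simp), Ideal.subset_span (by simp),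
    Ideal.subset_span (by simp)⟩

theorem la_mem_N (i : Fin (2 + 1)) : la i ∈ N := by
  obtain ⟨h0, h1, h4, h5⟩ := mm_mem_N
  exact N.sub_mem (N.add_mem (N.mul_mem_left _ h0) (N.mul_mem_left _ h1))
    (N.mul_mem_left _ (N.mul_mem_left _ h4))

theorem lb_mem_N (i : Fin (2 + 1)) : lb i ∈ N := by
  obtain ⟨h0, h1, h4, h5⟩ := mm_mem_N
  exact N.sub_mem (N.add_mem (N.add_mem (N.mul_mem_left _ h0) (N.mul_mem_left _ h1))
    (N.mul_mem_left _ h4)) (N.mul_mem_left _ (N.mul_mem_left _ h5))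

/-- the values of the coefficients of the base conic -/
theorem f00_val : (∀ j, f00 1 j = if j = 6 then 1 else 0) ∧
    f00 0 0 = -4 ∧ f00 0 1 = -4 ∧ f00 0 2 = 1 ∧ f00 0 3 = -2 ∧ f00 0 4 = 2 ∧ f00 0 5 = -1 ∧
    f00 2 0 = -2 ∧ f00 2 1 = -1 ∧ f00 2 2 = 0 ∧ f00 2 3 = -1 ∧ f00 2 4 = 1 ∧ f00 2 5 = -1 := by
  refine ⟨?_, ?_, ?_, ?_, ?_, ?_, ?_, ?_, ?_, ?_, ?_, ?_, ?_⟩
  · intro j
    fin_cases j <;> simp [f00, par0, E6]
  all_goals simp [f00, par0]

theorem base : cev f00 dd = -1 ∧ cev f00 xx = 0 ∧ cev f00 yy = 0 ∧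
    cev f00 (mm 0) = 0 ∧ cev f00 (mm 1) = 0 ∧ cev f00 (mm 4) = 0 ∧ cev f00 (mm 5) = 0 := by
  obtain ⟨h, a0, a1, a2, a3, a4, a5, e0, e1, e2, e3, e4, e5⟩ := f00_val
  have hc : ∀ i j, cev f00 (p i j) = f00 i j := cev_p f00
  simp only [cev] at hc ⊢
  refine ⟨?_, ?_, ?_, ?_, ?_, ?_, ?_⟩ <;>
    simp only [dd, xx, yy, mm, map_sub, map_mul, hc, h, a0, a1, a2, a3, a4, a5, e0, e1, e2, e3, e4,
      e5] <;> simp

/-- the relations on the family -/
theorem rel {hs : SmoothS} {hp : PrimesS} {T : Set (Par 6 2)}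
    (hT : T ⊆ ratCurves (X3 hs hp) 2) :
    la 0 + yy * c1 ∈ J T ∧ la 2 + xx * c1 ∈ J T ∧
    (dd ^ 2 + xx * yy) * c1 + (xx * la 0 + yy * la 2 - mm 4 * mm 4) ∈ J T ∧
    lb 0 + yy * c2 ∈ J T ∧ lb 2 + xx * c2 ∈ J T ∧
    (dd ^ 2 + xx * yy) * c2 + (xx * lb 0 + yy * lb 2 + mm 1 * mm 4 - mm 5 * mm 5) ∈ J T := by
  have hb1 : ∀ f : Par 6 2, cev f c1 = b1 (f 0) (f 2) := by
    intro f
    have hc : ∀ i j, cev f (p i j) = f i j := cev_p f
    simp only [cev] at hc ⊢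
    simp only [c1, b1, map_add, map_sub, map_mul, hc]
    simp
  have hb2 : ∀ f : Par 6 2, cev f c2 = b2 (f 0) (f 2) := by
    intro f
    have hc : ∀ i j, cev f (p i j) = f i j := cev_p f
    simp only [cev] at hc ⊢
    simp only [c2, b2, map_add, map_sub, map_mul, hc]
    simp
  have key : ∀ f ∈ T, (f1 (f 0) = 0 ∧ b1 (f 0) (f 1) = 0 ∧ f1 (f 1) + b1 (f 0) (f 2) = 0 ∧
      b1 (f 1) (f 2) = 0 ∧ f1 (f 2) = 0) ∧
    (f2 (f 0) = 0 ∧ b2 (f 0) (f 1) = 0 ∧ f2 (f 1) + b2 (f 0) (f 2) = 0 ∧ b2 (f 1) (f 2) = 0 ∧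
      f2 (f 2) = 0) := fun f hf => coef_eqs (hT hf)
  refine ⟨?_, ?_, ?_, ?_, ?_, ?_⟩
  all_goals
    intro f hf
    obtain ⟨⟨k1, k2, k3, k4, k5⟩, l1, l2, l3, l4, l5⟩ := key f hf
    have hc : ∀ i j, cev f (p i j) = f i j := cev_p f
    have hb1' := hb1 f
    have hb2' := hb2 f
    simp only [cev] at hc hb1' hb2' ⊢
    simp only [la, lb, mm, dd, xx, yy, map_add, map_sub, map_mul, map_pow, hc, hb1', hb2',
      map_ofNat]
    simp only [f1, f2, b1, b2] at *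
  · linear_combination (f 0 2 * f 2 3 - f 0 3 * f 2 2) * k2 - 2 * (f 1 2 * f 2 3 - f 1 3 * f 2 2) * k1
  · linear_combination (f 0 2 * f 2 3 - f 0 3 * f 2 2) * k4 - 2 * (f 0 2 * f 1 3 - f 0 3 * f 1 2) * k5
  · linear_combination (f 0 2 * f 2 3 - f 0 3 * f 2 2) ^ 2 * k3 - (f 1 2 * f 2 3 - f 1 3 * f 2 2) ^ 2 * k1 - (f 0 2 * f 1 3 - f 0 3 * f 1 2) ^ 2 * k5
  · linear_combination (f 0 2 * f 2 3 - f 0 3 * f 2 2) * l2 - 2 * (f 1 2 * f 2 3 - f 1 3 * f 2 2) * l1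
  · linear_combination (f 0 2 * f 2 3 - f 0 3 * f 2 2) * l4 - 2 * (f 0 2 * f 1 3 - f 0 3 * f 1 2) * l5
  · linear_combination (f 0 2 * f 2 3 - f 0 3 * f 2 2) ^ 2 * l3 - (f 1 2 * f 2 3 - f 1 3 * f 2 2) ^ 2 * l1 - (f 0 2 * f 1 3 - f 0 3 * f 1 2) ^ 2 * l5

/-- `K` contains the product of `M` and `N` and the polynomials that vanish on the family -/
theorem mm_mem {T : Set (Par 6 2)} {K : Ideal A} (hK : M * N ≤ K) (hJ : J T ≤ K)
    (r1 : la 0 + yy * c1 ∈ J T) (r2 : la 2 + xx * c1 ∈ J T)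
    (r3 : (dd ^ 2 + xx * yy) * c1 + (xx * la 0 + yy * la 2 - mm 4 * mm 4) ∈ J T)
    (r4 : lb 0 + yy * c2 ∈ J T) (r5 : lb 2 + xx * c2 ∈ J T)
    (r6 : (dd ^ 2 + xx * yy) * c2 + (xx * lb 0 + yy * lb 2 + mm 1 * mm 4 - mm 5 * mm 5) ∈ J T) :
    mm 0 ∈ K ∧ mm 1 ∈ K ∧ mm 4 ∈ K ∧ mm 5 ∈ K := by
  obtain ⟨bd, bx, by', bm0, bm1, bm4, bm5⟩ := base
  obtain ⟨_, a0, a1, a2, a3, a4, a5, e0, e1, e2, e3, e4, e5⟩ := f00_val
  obtain ⟨n0, n1, n4, n5⟩ := mm_mem_N
  have hc : ∀ i j, cev f00 (p i j) = f00 i j := cev_p f00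
  have mx : xx ∈ M := bx
  have my : yy ∈ M := by'
  have m1 : mm 1 ∈ M := bm1
  have m4 : mm 4 ∈ M := bm4
  have m5 : mm 5 ∈ M := bm5
  obtain ⟨g, hg⟩ : ∃ g : A, g = dd ^ 2 + xx * yy := ⟨_, rfl⟩
  have mg : 1 - g ∈ M := by
    apply mem_M
    rw [hg]
    simp only [cev] at bd bx by' ⊢
    rw [map_sub, map_add, map_pow, map_mul, bd, bx, by']
    simp
  have mul : ∀ {a b : A}, a ∈ M → b ∈ N → a * b ∈ K := fun ha hb => hK (Ideal.mul_mem_mul ha hb)
  rw [← hg] at r3 r6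
  -- the product of `g` with the polar forms
  have k1 : g * c1 ∈ K := by
    have h := K.sub_mem (hJ r3) (K.sub_mem (K.add_mem (mul mx (la_mem_N 0)) (mul my (la_mem_N 2)))
      (mul m4 n4))
    simpa using h
  have k2 : g * c2 ∈ K := by
    have h := K.sub_mem (hJ r6) (K.sub_mem (K.add_mem (K.add_mem (mul mx (lb_mem_N 0))
      (mul my (lb_mem_N 2))) (mul m1 n4)) (mul m5 n5))
    simpa using h
  have s1 : g * la 0 ∈ K := by
    have h := K.sub_mem (K.mul_mem_left g (hJ r1)) (K.mul_mem_left yy k1)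
    have e : g * (la 0 + yy * c1) - yy * (g * c1) = g * la 0 := by ring
    rwa [e] at h
  have s2 : g * la 2 ∈ K := by
    have h := K.sub_mem (K.mul_mem_left g (hJ r2)) (K.mul_mem_left xx k1)
    have e : g * (la 2 + xx * c1) - xx * (g * c1) = g * la 2 := by ring
    rwa [e] at h
  have s3 : g * lb 0 ∈ K := by
    have h := K.sub_mem (K.mul_mem_left g (hJ r4)) (K.mul_mem_left yy k2)
    have e : g * (lb 0 + yy * c2) - yy * (g * c2) = g * lb 0 := by ring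
    rwa [e] at h
  have s4 : g * lb 2 ∈ K := by
    have h := K.sub_mem (K.mul_mem_left g (hJ r5)) (K.mul_mem_left xx k2)
    have e : g * (lb 2 + xx * c2) - xx * (g * c2) = g * lb 2 := by ring
    rwa [e] at h
  -- replace `g` by one
  have one : ∀ {a : A}, a ∈ N → g * a ∈ K → a ∈ K := by
    intro a ha h
    have h1 := K.add_mem h (mul mg ha)
    have e : g * a + (1 - g) * a = a := by ring
    rwa [e] at h1
  have t1 := one (la_mem_N 0) s1
  have t2 := one (la_mem_N 2) s2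
  have t3 := one (lb_mem_N 0) s3
  have t4 := one (lb_mem_N 2) s4
  -- the constant parts
  have cm : ∀ (i : Fin (2 + 1)) (j : Fin (6 + 1)) (z : ℂ), f00 i j = z → p i j - C z ∈ M := by
    intro i j z hz
    apply mem_M
    have h := hc i j
    simp only [cev] at h ⊢
    rw [map_sub, h, hz, eval_C, sub_self]
  have u1 : mm 0 - 2 * mm 1 - 4 * mm 4 ∈ K := by
    have h := K.sub_mem t1 (K.sub_mem (K.add_mem (mul (cm 0 2 _ a2) n0) (mul (cm 0 3 _ a3) n1))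
      (K.mul_mem_left 2 (mul (cm 0 4 _ a4) n4)))
    have e : la 0 - ((p 0 2 - C 1) * mm 0 + (p 0 3 - C (-2)) * mm 1 -
        2 * ((p 0 4 - C 2) * mm 4)) = mm 0 - 2 * mm 1 - 4 * mm 4 := by
      simp only [la, map_neg, map_one, map_ofNat]
      ring
    rwa [e] at h
  have u2 : -mm 1 - 2 * mm 4 ∈ K := by
    have h := K.sub_mem t2 (K.sub_mem (K.add_mem (mul (cm 2 2 _ e2) n0) (mul (cm 2 3 _ e3) n1))
      (K.mul_mem_left 2 (mul (cm 2 4 _ e4) n4)))
    have e : la 2 - ((p 2 2 - C 0) * mm 0 + (p 2 3 - C (-1)) * mm 1 -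
        2 * ((p 2 4 - C 1) * mm 4)) = -mm 1 - 2 * mm 4 := by
      simp only [la, map_neg, map_one, map_zero]
      ring
    rwa [e] at h
  have u3 : -2 * mm 0 + 2 * mm 1 - 4 * mm 4 + 2 * mm 5 ∈ K := by
    have h := K.sub_mem t3 (K.sub_mem (K.add_mem (K.add_mem (mul (cm 0 3 _ a3) n0)
      (mul (cm 0 4 _ a4) n1)) (mul (cm 0 1 _ a1) n4))
      (K.mul_mem_left 2 (mul (cm 0 5 _ a5) n5)))
    have e : lb 0 - ((p 0 3 - C (-2)) * mm 0 + (p 0 4 - C 2) * mm 1 + (p 0 1 - C (-4)) * mm 4 -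
        2 * ((p 0 5 - C (-1)) * mm 5)) = -2 * mm 0 + 2 * mm 1 - 4 * mm 4 + 2 * mm 5 := by
      simp only [lb, map_neg, map_one, map_ofNat]
      ring
    rwa [e] at h
  have u4 : -mm 0 + mm 1 - mm 4 + 2 * mm 5 ∈ K := by
    have h := K.sub_mem t4 (K.sub_mem (K.add_mem (K.add_mem (mul (cm 2 3 _ e3) n0)
      (mul (cm 2 4 _ e4) n1)) (mul (cm 2 1 _ e1) n4))
      (K.mul_mem_left 2 (mul (cm 2 5 _ e5) n5)))
    have e : lb 2 - ((p 2 3 - C (-1)) * mm 0 + (p 2 4 - C 1) * mm 1 + (p 2 1 - C (-1)) * mm 4 -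
        2 * ((p 2 5 - C (-1)) * mm 5)) = -mm 0 + mm 1 - mm 4 + 2 * mm 5 := by
      simp only [lb, map_neg, map_one]
      ring
    rwa [e] at h
  -- solve
  have hC : (C (1 / 10 : ℂ) : A) * 10 = 1 := by
    have h : (10 : A) = C 10 := (map_ofNat C 10).symm
    rw [h, ← C_mul]
    norm_num
  have v0 : mm 0 ∈ K := by
    have h := K.sub_mem u1 (K.mul_mem_left 2 u2)
    have e : mm 0 - 2 * mm 1 - 4 * mm 4 - 2 * (-mm 1 - 2 * mm 4) = mm 0 := by ring
    rwa [e] at h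
  have v4 : mm 4 ∈ K := by
    have h := K.mul_mem_left (C (1 / 10)) (K.mul_mem_left 2 (K.sub_mem (K.add_mem u2 u4)
      (K.add_mem u1 u3)))
    have e : C (1 / 10) * (2 * (-mm 1 - 2 * mm 4 + (-mm 0 + mm 1 - mm 4 + 2 * mm 5) -
        (mm 0 - 2 * mm 1 - 4 * mm 4 + (-2 * mm 0 + 2 * mm 1 - 4 * mm 4 + 2 * mm 5)))) =
        (C (1 / 10) * 10) * mm 4 := by ring
    rw [e, hC, one_mul] at h
    exact h
  have v1 : mm 1 ∈ K := by
    have h := K.sub_mem (K.neg_mem_iff.2 u2) (K.mul_mem_left 2 v4)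
    have e : -(-mm 1 - 2 * mm 4) - 2 * mm 4 = mm 1 := by ring
    rwa [e] at h
  have v5 : mm 5 ∈ K := by
    have h := K.mul_mem_left (C (1 / 10)) (K.mul_mem_left 5 (K.add_mem (K.sub_mem
      (K.add_mem u4 v0) v1) v4))
    have e : C (1 / 10) * (5 * (-mm 0 + mm 1 - mm 4 + 2 * mm 5 + mm 0 - mm 1 + mm 4)) =
        (C (1 / 10) * 10) * mm 5 := by ring
    rw [e, hC, one_mul] at h
    exact h
  exact ⟨v0, v1, v4, v5⟩

/-- the remainder vanishes on the family -/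
theorem mm_zero {hs : SmoothS} {hp : PrimesS} {T : Set (Par 6 2)}
    (hT : T ⊆ ratCurves (X3 hs hp) 2) (hI : IrrPar T) (h0 : f00 ∈ T) :
    ∀ P ∈ N, P ∈ J T := by
  obtain ⟨r1, r2, r3, r4, r5, r6⟩ := rel hT
  obtain ⟨v0, v1, v4, v5⟩ := mm_mem (K := M * N ⊔ J T) le_sup_left le_sup_right r1 r2 r3 r4 r5 r6
  have hN : N ≤ M * N ⊔ J T := by
    unfold N
    rw [Ideal.span_le]
    intro P hP
    simp only [Set.mem_insert_iff, Set.mem_singleton_iff] at hP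
    rcases hP with rfl | rfl | rfl | rfl
    · exact v0
    · exact v1
    · exact v4
    · exact v5
  have hfg : (Submodule.map (J T).mkQ N).FG := by
    apply Submodule.FG.map
    exact ⟨{mm 0, mm 1, mm 4, mm 5}, by simp [N, Ideal.span]⟩
  have hle : Submodule.map (J T).mkQ N ≤ M • Submodule.map (J T).mkQ N := by
    rw [← Submodule.map_smul'']
    rintro _ ⟨a, ha, rfl⟩
    obtain ⟨b, hb, c, hc, rfl⟩ := Submodule.mem_sup.1 (hN ha)
    refine ⟨b, hb, ?_⟩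
    rw [map_add]
    have h : (J T).mkQ c = 0 := by
      rw [Submodule.mkQ_apply, Submodule.Quotient.mk_eq_zero]
      exact hc
    rw [h, add_zero]
  obtain ⟨r, hr1, hr2⟩ := Submodule.exists_sub_one_mem_and_smul_eq_zero_of_fg_of_le_smul M _ hfg
    hle
  intro P hP
  have h1 : r * P ∈ J T := by
    have h2 := hr2 ((J T).mkQ P) ⟨P, hP, rfl⟩
    rw [← map_smul, Submodule.mkQ_apply, Submodule.Quotient.mk_eq_zero] at h2
    exact h2
  have h3 : ∀ f ∈ T, cev f r * cev f P = 0 := by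
    intro f hf
    have h4 := h1 f hf
    simp only [cev, map_mul] at h4 ⊢
    exact h4
  rcases hI.2 r P h3 with h | h
  · exfalso
    have h5 : cev f00 (r - 1) = 0 := hr1
    have h6 := h f00 h0
    simp only [cev, map_sub, map_one] at h5 h6
    rw [h6] at h5
    norm_num at h5
  · exact h

end D5

/-- MODULE D5 -/
theorem nakS : NakS := by
  intro hs hp T hT hI h0
  have hm := D5.mm_zero hT hI h0
  obtain ⟨n0, n1, n4, n5⟩ := D5.mm_mem_N
  have hall : ∀ k : Fin (6 + 1), k ≠ 6 → D5.mm k ∈ D5.J T := by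
    intro k hk
    fin_cases k
    · exact hm _ n0
    · exact hm _ n1
    · show D5.mm 2 ∈ D5.J T
      rw [D5.mm_two]
      exact (D5.J T).zero_mem
    · show D5.mm 3 ∈ D5.J T
      rw [D5.mm_three]
      exact (D5.J T).zero_mem
    · exact hm _ n4
    · exact hm _ n5
    · exact absurd rfl hk
  intro f hf i j k hi hj hk
  -- the product of the minor with `dd` vanishes
  have h1 : ∀ g ∈ T, cev g D5.dd * cev g (mnr D5.p i j k) = 0 := by
    intro g hg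
    have ei := hall i hi g hg
    have ej := hall j hj g hg
    have ek := hall k hk g hg
    simp only [cev, D5.mm, map_sub, map_mul] at ei ej ek
    simp only [cev, mnr, map_sub, map_add, map_mul]
    linear_combination ((eval (fun a : Fin (2 + 1) × Fin (6 + 1) => g a.1 a.2) (D5.p 0 k)) *
      (eval (fun a : Fin (2 + 1) × Fin (6 + 1) => g a.1 a.2) (D5.p 2 j)) -
      (eval (fun a : Fin (2 + 1) × Fin (6 + 1) => g a.1 a.2) (D5.p 0 j)) *
      (eval (fun a : Fin (2 + 1) × Fin (6 + 1) => g a.1 a.2) (D5.p 2 k))) * ei +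
      ((eval (fun a : Fin (2 + 1) × Fin (6 + 1) => g a.1 a.2) (D5.p 0 i)) *
      (eval (fun a : Fin (2 + 1) × Fin (6 + 1) => g a.1 a.2) (D5.p 2 k)) -
      (eval (fun a : Fin (2 + 1) × Fin (6 + 1) => g a.1 a.2) (D5.p 0 k)) *
      (eval (fun a : Fin (2 + 1) × Fin (6 + 1) => g a.1 a.2) (D5.p 2 i))) * ej +
      ((eval (fun a : Fin (2 + 1) × Fin (6 + 1) => g a.1 a.2) (D5.p 0 j)) *
      (eval (fun a : Fin (2 + 1) × Fin (6 + 1) => g a.1 a.2) (D5.p 2 i)) -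
      (eval (fun a : Fin (2 + 1) × Fin (6 + 1) => g a.1 a.2) (D5.p 0 i)) *
      (eval (fun a : Fin (2 + 1) × Fin (6 + 1) => g a.1 a.2) (D5.p 2 j))) * ek
  rcases hI.2 _ _ h1 with h | h
  · exfalso
    have h2 := h f00 h0
    rw [D5.base.1] at h2
    norm_num at h2
  · have h2 := h f hf
    have hc : ∀ a b, cev f (D5.p a b) = f a b := D5.cev_p f
    simp only [cev] at h2 hc
    simp only [mnr, map_sub, map_add, map_mul, hc] at h2
    simp only [mnr]
    exact h2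

end Pool.VMR
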