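import Pool.Agent.H30.VMR.D4

/-!
# Module D6: the family of conics is a component
-/

noncomputable section

namespace Pool.VMR

open MvPolynomial

theorem K0_sub_KK (Y : Mfd 6 3) : K0 Y ⊆ KK Y := fun f hf => ⟨hf.1, fun _ h => h f hf⟩

/-- the chart polynomial -/
def hdP : MvPolynomial (Fin 3 × Fin 7) ℂ := hd (fun j => X (0, j)) (fun j => X (2, j))

theorem cev_hdP (f : Par 6 2) : cev f hdP = hd (f 0) (f 2) := by
  simp [cev, hdP, hd, pl]

/-- MODULE D6 -/
theorem compS (h1 : KIrrS) (h2 : NakS) (h3 : NFcS) : CompS := by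
  intro hs hp
  have hf00 := f00_mem h3 hs hp
  refine ⟨fun f hf => hf.1, ⟨⟨f00, K0_sub_KK _ hf00⟩, ?_⟩, ?_⟩
  · intro P Q hPQ
    rcases (h1 hs hp).2 P Q (fun f hf => hPQ f (K0_sub_KK _ hf)) with h | h
    · exact Or.inl fun f hf => hf.2 P h
    · exact Or.inr fun f hf => hf.2 Q h
  · intro T hT hirr hsub
    refine Set.Subset.antisymm ?_ hsub
    intro f hf
    refine ⟨hT hf, ?_⟩
    intro P hP
    have hmin := h2 hs hp T hT hirr (hsub (K0_sub_KK _ hf00))
    have key : ∀ g ∈ T, cev g P * cev g hdP = 0 := by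
      intro g hg
      rw [cev_hdP]
      by_cases h0 : hd (g 0) (g 2) = 0
      · rw [h0, mul_zero]
      · rw [hP g ⟨hT hg, hmin g hg, h0⟩, zero_mul]
    rcases hirr.2 P hdP key with h | h
    · exact h f hf
    · exfalso
      have := h f00 (hsub (K0_sub_KK _ hf00))
      rw [cev_hdP] at this
      exact hf00.2.2 this

end Pool.VMR
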