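import Pool.Agent.H30.VMR.Stm

/-!
# Module E1: the general point is good

The lines through the projection of a point `x` correspond to the roots of a quartic `q4 x`.
-/

noncomputable section

namespace Pool.VMR

namespace E1

variable {R S : Type*} [CommRing R] [CommRing S]

open Polynomial

/-- `2 z1 z4 B` as a polynomial in `s` -/
def nP (x : Fin 7 → R) : R[X] :=
  C (x 2 * x 4 - x 3 ^ 2) * X ^ 2 + C (2 * x 3 * x 4 + x 2 * x 1) * X + C (x 0 * x 2 - x 1 * x 3)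

/-- the cubic `z1 s³ - z2 s² + 2 z3 s - v` -/
def cP (x : Fin 7 → R) : R[X] :=
  C (x 2) * X ^ 3 - C (x 3) * X ^ 2 + C (2 * x 4) * X - C (x 1)

/-- the quartic of the lines -/
def q4 (x : Fin 7 → R) : R[X] := nP x ^ 2 - C (4 * x 2 * x 5 ^ 2) * cP x

/-- the polynomial of the chart condition -/
def dhP (x : Fin 7 → R) : R[X] := C (x 2) * X ^ 2 - C (4 * x 3) * X + C (4 * x 4)

/-- `z1 u2` as a polynomial in `s` -/
def uP (x : Fin 7 → R) : R[X] := -(C (x 3) * X ^ 2) + C (2 * x 4) * X - C (x 1)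

/-- `2 z1 z4 b3` -/
def beP (x : Fin 7 → R) : R[X] :=
  C (2 * x 2 * x 5) * (C (x 0) * X + C (x 5) * X ^ 2 + C (2 * x 3)) + C (2 * x 5 * x 4) * uP x +
    C (x 1) * nP x

/-- `2 z1 z4 f3` -/
def gaP (x : Fin 7 → R) : R[X] :=
  C (2 * x 5) * (uP x * X) + X ^ 2 * nP x + C (2 * x 2 * x 5)

/-- the discriminant polynomial -/
def dnP (x : Fin 7 → R) : R[X] :=
  beP x ^ 2 - C (4 * (x 0 * x 4 + x 1 * x 5 + x 3 ^ 2) * (2 * x 2 * x 5)) * gaP x

theorem map_q4 (φ : R →+* S) (x : Fin 7 → R) : (q4 x).map φ = q4 fun i => φ (x i) := by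
  have h2 : φ 2 = 2 := map_ofNat φ 2
  have h4 : φ 4 = 4 := map_ofNat φ 4
  simp [q4, nP, cP, h2, h4]

theorem map_dhP (φ : R →+* S) (x : Fin 7 → R) : (dhP x).map φ = dhP fun i => φ (x i) := by
  have h4 : φ 4 = 4 := map_ofNat φ 4
  simp [dhP, h4]

theorem map_dnP (φ : R →+* S) (x : Fin 7 → R) : (dnP x).map φ = dnP fun i => φ (x i) := by
  have h2 : φ 2 = 2 := map_ofNat φ 2
  have h4 : φ 4 = 4 := map_ofNat φ 4
  simp [dnP, beP, gaP, uP, nP, h2, h4]

theorem deg_nP (x : Fin 7 → R) : (nP x).natDegree ≤ 2 := by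
  unfold nP
  compute_degree

theorem deg_uP (x : Fin 7 → R) : (uP x).natDegree ≤ 2 := by
  unfold uP
  compute_degree

theorem deg_cP (x : Fin 7 → R) : (cP x).natDegree ≤ 3 := by
  unfold cP
  compute_degree

theorem deg_q4 (x : Fin 7 → R) : (q4 x).natDegree ≤ 4 := by
  unfold q4 nP cP
  compute_degree

theorem deg_dhP (x : Fin 7 → R) : (dhP x).natDegree ≤ 2 := by
  unfold dhP
  compute_degree

theorem deg_dnP (x : Fin 7 → R) : (dnP x).natDegree ≤ 4 := by
  unfold dnP beP gaP uP nP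
  compute_degree

/-- nonzero resultant: no common root -/
theorem no_root {f g : ℂ[X]} {m n : ℕ} (hf : f.natDegree ≤ m) (hg : g.natDegree ≤ n)
    (hm : m ≠ 0) (hr : resultant f g m n ≠ 0) {s : ℂ} (hs : f.eval s = 0) : g.eval s ≠ 0 := by
  intro h
  obtain ⟨p, q, -, -, e⟩ := exists_mul_add_mul_eq_C_resultant f g hf hg (Or.inl hm)
  have := congrArg (Polynomial.eval s) e
  simp only [eval_add, eval_mul, hs, h, zero_mul, add_zero, eval_C] at this
  exact hr this.symm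

theorem q4_expand (x : V 6) : q4 x = C ((x 2 * x 4 - x 3 ^ 2) ^ 2) * X ^ 4 +
    C (2 * (x 2 * x 4 - x 3 ^ 2) * (2 * x 3 * x 4 + x 2 * x 1) - 4 * x 2 * x 5 ^ 2 * x 2) * X ^ 3 +
    C ((2 * x 3 * x 4 + x 2 * x 1) ^ 2 +
      2 * (x 2 * x 4 - x 3 ^ 2) * (x 0 * x 2 - x 1 * x 3) + 4 * x 2 * x 5 ^ 2 * x 3) * X ^ 2 +
    C (2 * (2 * x 3 * x 4 + x 2 * x 1) * (x 0 * x 2 - x 1 * x 3) - 4 * x 2 * x 5 ^ 2 * (2 * x 4)) *
      X + C ((x 0 * x 2 - x 1 * x 3) ^ 2 + 4 * x 2 * x 5 ^ 2 * x 1) := by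
  apply Polynomial.funext
  intro s
  simp only [q4, nP, cP, eval_add, eval_sub, eval_mul, eval_pow, eval_C, eval_X]
  ring

theorem natDegree_q4 {x : V 6} (h : x 2 * x 4 - x 3 ^ 2 ≠ 0) : (q4 x).natDegree = 4 := by
  rw [q4_expand]
  have h2 : (x 2 * x 4 - x 3 ^ 2) ^ 2 ≠ 0 := pow_ne_zero 2 h
  compute_degree!

/-- the direction of the line for the root `s` -/
def e2 (x : V 6) (s : ℂ) : V 6 :=
  ![(-(x 3) * s ^ 2 + 2 * x 4 * s - x 1) / x 2, s ^ 2, 0, 1, s,
    ((x 2 * x 4 - x 3 ^ 2) * s ^ 2 + (2 * x 3 * x 4 + x 2 * x 1) * s + (x 0 * x 2 - x 1 * x 3)) /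
      (2 * x 2 * x 5), 0]

theorem eval_q4 (x : V 6) (s : ℂ) : (q4 x).eval s =
    ((x 2 * x 4 - x 3 ^ 2) * s ^ 2 + (2 * x 3 * x 4 + x 2 * x 1) * s + (x 0 * x 2 - x 1 * x 3)) ^ 2
      - 4 * x 2 * x 5 ^ 2 * (x 2 * s ^ 3 - x 3 * s ^ 2 + 2 * x 4 * s - x 1) := by
  simp only [q4, nP, cP, eval_add, eval_sub, eval_mul, eval_pow, eval_C, eval_X]

theorem e2_0 (x : V 6) (s : ℂ) : e2 x s 0 = (-(x 3) * s ^ 2 + 2 * x 4 * s - x 1) / x 2 := rfl
theorem e2_1 (x : V 6) (s : ℂ) : e2 x s 1 = s ^ 2 := rfl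
theorem e2_2 (x : V 6) (s : ℂ) : e2 x s 2 = 0 := rfl
theorem e2_3 (x : V 6) (s : ℂ) : e2 x s 3 = 1 := rfl
theorem e2_4 (x : V 6) (s : ℂ) : e2 x s 4 = s := rfl
theorem e2_5 (x : V 6) (s : ℂ) : e2 x s 5 = ((x 2 * x 4 - x 3 ^ 2) * s ^ 2 +
    (2 * x 3 * x 4 + x 2 * x 1) * s + (x 0 * x 2 - x 1 * x 3)) / (2 * x 2 * x 5) := rfl
theorem e2_6 (x : V 6) (s : ℂ) : e2 x s 6 = 0 := rfl

theorem e2_line {x : V 6} (h2 : x 2 ≠ 0) (h5 : x 5 ≠ 0) {s : ℂ} (hs : (q4 x).eval s = 0) :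
    LineDir x (e2 x s) := by
  rw [eval_q4] at hs
  refine ⟨e2_6 x s, ?_, ?_, ?_, ?_⟩
  · simp only [f1, e2_0, e2_1, e2_2, e2_3, e2_4]
    ring
  · simp only [f2, e2_0, e2_1, e2_2, e2_3, e2_4, e2_5]
    field_simp
    linear_combination -hs
  · simp only [b1, e2_0, e2_1, e2_2, e2_3, e2_4]
    field_simp
    ring
  · simp only [b2, e2_0, e2_1, e2_2, e2_3, e2_4, e2_5]
    field_simp
    ring

theorem hd_e2 (x : V 6) (s : ℂ) : hd x (e2 x s) = x 2 ^ 2 * (dhP x).eval s := by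
  simp only [hd, pl, e2_2, e2_3, e2_4, dhP, eval_add, eval_sub, eval_mul, eval_pow, eval_C, eval_X]
  ring

theorem pr_i (x : V 6) (i : Fin 7) (hi : i ≠ 6) : pr x i = x i := by
  simp [pr, Function.update_of_ne hi]

theorem pr_6 (x : V 6) : pr x 6 = 0 := by
  simp [pr]

theorem f3_pr (x : V 6) : f3 (pr x) = x 0 * x 4 + x 1 * x 5 + x 3 ^ 2 := by
  simp only [f3, pr_6, pr_i x 0 (by decide), pr_i x 4 (by decide), pr_i x 1 (by decide),
    pr_i x 5 (by decide), pr_i x 3 (by decide)]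
  ring

theorem dn_e2 {x : V 6} (h2 : x 2 ≠ 0) (h5 : x 5 ≠ 0) (s : ℂ) :
    (2 * x 2 * x 5) ^ 2 * (b3 (pr x) (e2 x s) ^ 2 - 4 * f3 (pr x) * f3 (e2 x s)) =
      (dnP x).eval s := by
  have hb : 2 * x 2 * x 5 * b3 (pr x) (e2 x s) = (beP x).eval s := by
    simp only [b3, pr_6, pr_i x 0 (by decide), pr_i x 4 (by decide), pr_i x 1 (by decide),
      pr_i x 5 (by decide), pr_i x 3 (by decide), e2_0, e2_1, e2_3, e2_4, e2_5, e2_6, beP, uP, nP,
      eval_add, eval_sub, eval_neg, eval_mul, eval_pow, eval_C, eval_X]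
    field_simp
    ring
  have hg : 2 * x 2 * x 5 * f3 (e2 x s) = (gaP x).eval s := by
    simp only [f3, e2_0, e2_1, e2_3, e2_4, e2_5, e2_6, gaP, uP, nP,
      eval_add, eval_sub, eval_neg, eval_mul, eval_pow, eval_C, eval_X]
    field_simp
    ring
  rw [dnP, eval_sub, eval_pow, eval_mul, eval_C, ← hb, ← hg, f3_pr]
  ring

/-- every direction is one of these -/
theorem line_e2 {x : V 6} (hx : x ∈ Cone) (h2 : x 2 ≠ 0) (h5 : x 5 ≠ 0)
    (hD : x 2 * x 4 - x 3 ^ 2 ≠ 0) {η : V 6} (hη : LineDir x η) :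
    (∃ c : ℂ, η = c • pr x) ∨
      ∃ (c d s : ℂ), (q4 x).eval s = 0 ∧ η = c • pr x + d • e2 x s := by
  obtain ⟨-, q1, q2, -⟩ := hx
  obtain ⟨k6, k1, k2, l1, l2⟩ := hη
  simp only [f1, f2, b1, b2] at q1 q2 k1 k2 l1 l2
  obtain ⟨c, hc⟩ : ∃ c : ℂ, η 2 = c * x 2 := ⟨η 2 / x 2, by field_simp⟩
  obtain ⟨a0, ha0⟩ : ∃ a, η 0 = c * x 0 + a := ⟨η 0 - c * x 0, by ring⟩
  obtain ⟨a1, ha1⟩ : ∃ a, η 1 = c * x 1 + a := ⟨η 1 - c * x 1, by ring⟩
  obtain ⟨a3, ha3⟩ : ∃ a, η 3 = c * x 3 + a := ⟨η 3 - c * x 3, by ring⟩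
  obtain ⟨a4, ha4⟩ : ∃ a, η 4 = c * x 4 + a := ⟨η 4 - c * x 4, by ring⟩
  obtain ⟨a5, ha5⟩ : ∃ a, η 5 = c * x 5 + a := ⟨η 5 - c * x 5, by ring⟩
  rw [hc, ha0, ha1, ha3, ha4] at k1 l1
  rw [hc, ha0, ha1, ha3, ha4, ha5] at k2 l2
  have m1 : a0 * x 2 + x 1 * a3 + a1 * x 3 - 2 * (x 4 * a4) = 0 := by
    linear_combination l1 - 2 * c * q1
  have m2 : x 0 * a3 + a0 * x 3 + x 1 * a4 + a1 * x 4 - 2 * (x 5 * a5) = 0 := by
    linear_combination l2 - 2 * c * q2
  have n1 : a1 * a3 - a4 ^ 2 = 0 := by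
    linear_combination k1 - c ^ 2 * q1 - c * m1
  have n2 : a0 * a3 + a1 * a4 - a5 ^ 2 = 0 := by
    linear_combination k2 - c ^ 2 * q2 - c * m2
  by_cases h3 : a3 = 0
  · left
    subst h3
    have z4 : a4 = 0 := by
      have : a4 ^ 2 = 0 := by linear_combination -n1
      exact pow_eq_zero_iff (by norm_num) |>.1 this
    subst z4
    have z5 : a5 = 0 := by
      have : a5 ^ 2 = 0 := by linear_combination -n2
      exact pow_eq_zero_iff (by norm_num) |>.1 this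
    subst z5
    have z1 : a1 = 0 := by
      have : (x 2 * x 4 - x 3 ^ 2) * a1 = 0 := by linear_combination x 2 * m2 - x 3 * m1
      exact (mul_eq_zero.1 this).resolve_left hD
    subst z1
    have z0 : a0 = 0 := by
      have : x 2 * a0 = 0 := by linear_combination m1
      exact (mul_eq_zero.1 this).resolve_left h2
    subst z0
    refine ⟨c, ?_⟩
    ext i
    fin_cases i
    · show η 0 = c * pr x 0
      rw [pr_i x 0 (by decide), ha0]; ring
    · show η 1 = c * pr x 1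
      rw [pr_i x 1 (by decide), ha1]; ring
    · show η 2 = c * pr x 2
      rw [pr_i x 2 (by decide), hc]
    · show η 3 = c * pr x 3
      rw [pr_i x 3 (by decide), ha3]; ring
    · show η 4 = c * pr x 4
      rw [pr_i x 4 (by decide), ha4]; ring
    · show η 5 = c * pr x 5
      rw [pr_i x 5 (by decide), ha5]; ring
    · show η 6 = c * pr x 6
      rw [pr_6, k6, mul_zero]
  · right
    obtain ⟨s, hs⟩ : ∃ s, a4 = a3 * s := ⟨a4 / a3, by field_simp⟩
    obtain ⟨B, hB⟩ : ∃ B, a5 = a3 * B := ⟨a5 / a3, by field_simp⟩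
    obtain ⟨U, hU⟩ : ∃ U, a0 = a3 * U := ⟨a0 / a3, by field_simp⟩
    obtain ⟨W, hW⟩ : ∃ W, a1 = a3 * W := ⟨a1 / a3, by field_simp⟩
    subst hs hB hU hW
    have o1 : W = s ^ 2 := by
      have : a3 ^ 2 * (W - s ^ 2) = 0 := by linear_combination n1
      have := (mul_eq_zero.1 this).resolve_left (pow_ne_zero 2 h3)
      linear_combination this
    subst o1
    have o2 : U + s ^ 3 - B ^ 2 = 0 := by
      have : a3 ^ 2 * (U + s ^ 3 - B ^ 2) = 0 := by linear_combination n2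
      exact (mul_eq_zero.1 this).resolve_left (pow_ne_zero 2 h3)
    have p1 : U * x 2 + x 1 + s ^ 2 * x 3 - 2 * (x 4 * s) = 0 := by
      have : a3 * (U * x 2 + x 1 + s ^ 2 * x 3 - 2 * (x 4 * s)) = 0 := by linear_combination m1
      exact (mul_eq_zero.1 this).resolve_left h3
    have p2 : x 0 + U * x 3 + x 1 * s + s ^ 2 * x 4 - 2 * (x 5 * B) = 0 := by
      have : a3 * (x 0 + U * x 3 + x 1 * s + s ^ 2 * x 4 - 2 * (x 5 * B)) = 0 := by
        linear_combination m2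
      exact (mul_eq_zero.1 this).resolve_left h3
    have hU : U = (-(x 3) * s ^ 2 + 2 * x 4 * s - x 1) / x 2 := by
      field_simp
      linear_combination p1
    have hB : B = ((x 2 * x 4 - x 3 ^ 2) * s ^ 2 + (2 * x 3 * x 4 + x 2 * x 1) * s +
        (x 0 * x 2 - x 1 * x 3)) / (2 * x 2 * x 5) := by
      field_simp
      linear_combination x 3 * p1 - x 2 * p2
    refine ⟨c, a3, s, ?_, ?_⟩
    · rw [eval_q4]
      have e1 : (x 2 * x 4 - x 3 ^ 2) * s ^ 2 + (2 * x 3 * x 4 + x 2 * x 1) * s +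
          (x 0 * x 2 - x 1 * x 3) = 2 * x 2 * x 5 * B := by
        linear_combination x 2 * p2 - x 3 * p1
      rw [e1]
      linear_combination 4 * x 2 * x 5 ^ 2 * p1 - 4 * x 2 ^ 2 * x 5 ^ 2 * o2
    · ext i
      fin_cases i
      · show η 0 = c * pr x 0 + a3 * e2 x s 0
        rw [pr_i x 0 (by decide), ha0, e2_0, ← hU]
      · show η 1 = c * pr x 1 + a3 * e2 x s 1
        rw [pr_i x 1 (by decide), ha1, e2_1]
      · show η 2 = c * pr x 2 + a3 * e2 x s 2
        rw [pr_i x 2 (by decide), hc, e2_2]; ring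
      · show η 3 = c * pr x 3 + a3 * e2 x s 3
        rw [pr_i x 3 (by decide), ha3, e2_3]; ring
      · show η 4 = c * pr x 4 + a3 * e2 x s 4
        rw [pr_i x 4 (by decide), ha4, e2_4]
      · show η 5 = c * pr x 5 + a3 * e2 x s 5
        rw [pr_i x 5 (by decide), ha5, e2_5, ← hB]
      · show η 6 = c * pr x 6 + a3 * e2 x s 6
        rw [pr_6, k6, e2_6]; ring

/-- the polynomial `P` of module E1 -/
def PP : Po 6 :=
  MvPolynomial.X 2 * MvPolynomial.X 5 * DD *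
    (resultant (q4 (MvPolynomial.X : Fin 7 → Po 6)) (dhP MvPolynomial.X) 4 2 *
      resultant (q4 (MvPolynomial.X : Fin 7 → Po 6)) (dnP MvPolynomial.X) 4 4)

theorem eval_PP (x : V 6) : MvPolynomial.eval x PP = x 2 * x 5 * (x 2 * x 4 - x 3 ^ 2) *
    (resultant (q4 x) (dhP x) 4 2 * resultant (q4 x) (dnP x) 4 4) := by
  have e : (fun i => MvPolynomial.eval x (MvPolynomial.X i)) = x := by
    ext i
    simp
  have a1 : MvPolynomial.eval x (resultant (q4 (MvPolynomial.X : Fin 7 → Po 6))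
      (dhP MvPolynomial.X) 4 2) = resultant (q4 x) (dhP x) 4 2 := by
    rw [← resultant_map_map, map_q4, map_dhP, e]
  have a2 : MvPolynomial.eval x (resultant (q4 (MvPolynomial.X : Fin 7 → Po 6))
      (dnP MvPolynomial.X) 4 4) = resultant (q4 x) (dnP x) 4 4 := by
    rw [← resultant_map_map, map_q4, map_dnP, e]
  rw [PP, map_mul, map_mul, map_mul, map_mul, a1, a2]
  simp [DD]

theorem indep_PP : Indep PP := by
  intro x y h
  rw [eval_PP, eval_PP]
  have h0 := h 0 (by decide)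
  have h1 := h 1 (by decide)
  have h2 := h 2 (by decide)
  have h3 := h 3 (by decide)
  have h4 := h 4 (by decide)
  have h5 := h 5 (by decide)
  have e1 : q4 x = q4 y := by simp only [q4, nP, cP, h0, h1, h2, h3, h4, h5]
  have e2 : dhP x = dhP y := by simp only [dhP, h2, h3, h4]
  have e3 : dnP x = dnP y := by simp only [dnP, beP, gaP, uP, nP, h0, h1, h2, h3, h4, h5]
  rw [e1, e2, e3, h2, h3, h4, h5]

/-- the test point -/
def xt : V 6 := ![1, 0, 1, 0, 1, 1, 1]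

theorem q4_xt : q4 xt = X ^ 4 + C (-4) * X ^ 3 + C 2 * X ^ 2 + C (-8) * X + C 1 := by
  apply Polynomial.funext
  intro s
  simp only [q4, nP, cP, xt, eval_add, eval_sub, eval_mul, eval_pow, eval_C, eval_X]
  simp
  ring

theorem dhP_xt : dhP xt = X ^ 2 + C 4 := by
  apply Polynomial.funext
  intro s
  simp only [dhP, xt, eval_add, eval_sub, eval_mul, eval_pow, eval_C, eval_X]
  simp

theorem dnP_xt : dnP xt = C (-4) * X ^ 4 + C 24 * X ^ 3 + C (-4) * X ^ 2 + C (-16) := by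
  apply Polynomial.funext
  intro s
  simp only [dnP, beP, gaP, uP, nP, xt, eval_add, eval_sub, eval_neg, eval_mul, eval_pow, eval_C,
    eval_X]
  simp
  ring

theorem xt_mem : xt ∈ Cone := by
  refine ⟨?_, ?_, ?_, ?_⟩
  · intro h
    have := congrFun h 0
    simp [xt] at this
  · simp [f1, xt]
  · simp [f2, xt]
  · simp [f3, xt]

theorem eval_xt : MvPolynomial.eval xt PP ≠ 0 := by
  have r1 : resultant (q4 xt) (dhP xt) 4 2 ≠ 0 := by
    have h := resultant_ne_zero (q4 xt) (dhP xt) ⟨C ((1 : ℂ) / 337) * (C 9 - C 8 * X),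
      C ((1 : ℂ) / 337) * (C 82 + C 20 * X - C 41 * X ^ 2 + C 8 * X ^ 3), by
        rw [q4_xt, dhP_xt]
        apply Polynomial.funext
        intro s
        simp only [eval_add, eval_sub, eval_mul, eval_pow, eval_C, eval_X, eval_one]
        ring⟩
    have d1 : (q4 xt).natDegree = 4 := by
      rw [q4_xt]
      compute_degree!
    have d2 : (dhP xt).natDegree = 2 := by
      rw [dhP_xt]
      compute_degree!
    rwa [d1, d2] at h
  have r2 : resultant (q4 xt) (dnP xt) 4 4 ≠ 0 := by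
    have h := resultant_ne_zero (q4 xt) (dnP xt)
      ⟨C (-275 / 7988 : ℂ) + C (499 / 7988 : ℂ) * X - C (5843 / 31952 : ℂ) * X ^ 2 +
          C (953 / 31952 : ℂ) * X ^ 3,
        C (-8263 / 127808 : ℂ) + C (2699 / 127808 : ℂ) * X - C (3937 / 127808 : ℂ) * X ^ 2 +
          C (953 / 127808 : ℂ) * X ^ 3, by
        rw [q4_xt, dnP_xt]
        apply Polynomial.funext
        intro s
        simp only [eval_add, eval_sub, eval_mul, eval_pow, eval_C, eval_X, eval_one]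
        ring⟩
    have d1 : (q4 xt).natDegree = 4 := by
      rw [q4_xt]
      compute_degree!
    have d2 : (dnP xt).natDegree = 4 := by
      rw [dnP_xt]
      compute_degree!
    rwa [d1, d2] at h
  rw [eval_PP]
  refine mul_ne_zero ?_ (mul_ne_zero r1 r2)
  simp [xt]

end E1

open E1 in
/-- MODULE E1 -/
theorem genS : GenS := by
  refine ⟨PP, indep_PP, ⟨xt, xt_mem, eval_xt⟩, ?_⟩
  intro x hx hP h6
  rw [eval_PP] at hP
  have hr := right_ne_zero_of_mul hP
  have hr1 := left_ne_zero_of_mul hr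
  have hr2 := right_ne_zero_of_mul hr
  have hl := left_ne_zero_of_mul hP
  have hD := right_ne_zero_of_mul hl
  have hl' := left_ne_zero_of_mul hl
  have h2 := left_ne_zero_of_mul hl'
  have h5 := right_ne_zero_of_mul hl'
  have hdeg := natDegree_q4 hD
  have hq0 : q4 x ≠ 0 := by
    intro h
    rw [h] at hdeg
    simp at hdeg
  refine ⟨hx, h6, (q4 x).roots.toFinset.image (e2 x), ?_, ?_, ?_⟩
  · obtain ⟨s, hs⟩ := IsAlgClosed.exists_root (q4 x) (by
      intro h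
      have := Polynomial.natDegree_eq_zero_iff_degree_le_zero.2 h.le
      omega)
    refine ⟨e2 x s, Finset.mem_image_of_mem _ ?_⟩
    rw [Multiset.mem_toFinset, Polynomial.mem_roots hq0]
    exact hs
  · intro ζ hζ
    obtain ⟨s, hs, rfl⟩ := Finset.mem_image.1 hζ
    rw [Multiset.mem_toFinset, Polynomial.mem_roots hq0] at hs
    have hs' : (q4 x).eval s = 0 := hs
    refine ⟨e2_line h2 h5 hs', ?_, ?_⟩
    · rw [hd_e2]
      exact mul_ne_zero (pow_ne_zero 2 h2) (no_root (deg_q4 x) (deg_dhP x) (by norm_num) hr1 hs')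
    · intro h
      refine no_root (deg_q4 x) (deg_dnP x) (by norm_num) hr2 hs' ?_
      rw [← dn_e2 h2 h5, h]
      ring
  · intro η hη
    rcases line_e2 hx h2 h5 hD hη with ⟨c, rfl⟩ | ⟨c, d, s, hs, rfl⟩
    · obtain ⟨s, hs⟩ := IsAlgClosed.exists_root (q4 x) (by
        intro h
        have := Polynomial.natDegree_eq_zero_iff_degree_le_zero.2 h.le
        omega)
      refine ⟨e2 x s, Finset.mem_image_of_mem _ ?_, ?_⟩
      · rw [Multiset.mem_toFinset, Polynomial.mem_roots hq0]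
        exact hs
      · exact Submodule.smul_mem _ _ (Submodule.subset_span (by simp))
    · refine ⟨e2 x s, Finset.mem_image_of_mem _ ?_, ?_⟩
      · rw [Multiset.mem_toFinset, Polynomial.mem_roots hq0]
        exact hs
      · exact Submodule.add_mem _ (Submodule.smul_mem _ _ (Submodule.subset_span (by simp)))
          (Submodule.smul_mem _ _ (Submodule.subset_span (by simp)))

end Pool.VMR
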