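import Pool.Agent.H30.VMR.Stm

/-!
# Module E2: the variety of minimal rational tangents
-/

noncomputable section

namespace Pool.VMR

open MvPolynomial

namespace ETwo

/-! ## Conics and their derivatives -/

theorem ev_two (f : Par 6 2) (s t : ℂ) :
    ev f s t = s ^ 2 • f 0 + (s * t) • f 1 + t ^ 2 • f 2 := by
  refine (Fin.sum_univ_three
    (fun i : Fin 3 => (s ^ (2 - (i : ℕ)) * t ^ (i : ℕ)) • f i)).trans ?_
  simp

theorem evs_two (f : Par 6 2) (s t : ℂ) : evs f s t = (2 * s) • f 0 + t • f 1 := by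
  refine (Fin.sum_univ_three
    (fun i : Fin 3 => (((2 - (i : ℕ) : ℕ) : ℂ) * s ^ (2 - (i : ℕ) - 1) * t ^ (i : ℕ)) • f i)).trans ?_
  simp

theorem evt_two (f : Par 6 2) (s t : ℂ) : evt f s t = s • f 1 + (2 * t) • f 2 := by
  refine (Fin.sum_univ_three
    (fun i : Fin 3 => (((i : ℕ) : ℂ) * s ^ (2 - (i : ℕ)) * t ^ ((i : ℕ) - 1)) • f i)).trans ?_
  simp

theorem rep_coeff {f g : Par 6 2} {a b c d : ℂ}
    (h : ∀ s t : ℂ, ev g s t = ev f (a * s + b * t) (c * s + d * t)) :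
    g 0 = a ^ 2 • f 0 + (a * c) • f 1 + c ^ 2 • f 2 ∧
      g 1 = (2 * a * b) • f 0 + (a * d + b * c) • f 1 + (2 * c * d) • f 2 ∧
      g 2 = b ^ 2 • f 0 + (b * d) • f 1 + d ^ 2 • f 2 := by
  have h0 := h 1 0
  have h2 := h 0 1
  have h1 := h 1 1
  simp only [ev_two] at h0 h1 h2
  have e0 : g 0 = a ^ 2 • f 0 + (a * c) • f 1 + c ^ 2 • f 2 := by
    simpa using h0
  have e2 : g 2 = b ^ 2 • f 0 + (b * d) • f 1 + d ^ 2 • f 2 := by
    simpa using h2
  refine ⟨e0, ?_, e2⟩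
  have e1 : g 1 = ((a * 1 + b * 1) ^ 2 • f 0 + ((a * 1 + b * 1) * (c * 1 + d * 1)) • f 1 +
      (c * 1 + d * 1) ^ 2 • f 2) - g 0 - g 2 := by
    rw [← h1]
    ext i
    simp
    ring
  rw [e1, e0, e2]
  ext i
  simp
  ring

theorem rep_evs {f g : Par 6 2} {a b c d : ℂ}
    (h : ∀ s t : ℂ, ev g s t = ev f (a * s + b * t) (c * s + d * t)) (s t : ℂ) :
    evs g s t = a • evs f (a * s + b * t) (c * s + d * t) +
      c • evt f (a * s + b * t) (c * s + d * t) := by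
  obtain ⟨h0, h1, h2⟩ := rep_coeff h
  simp only [evs_two, evt_two, h0, h1]
  ext i
  simp
  ring

theorem rep_evt {f g : Par 6 2} {a b c d : ℂ}
    (h : ∀ s t : ℂ, ev g s t = ev f (a * s + b * t) (c * s + d * t)) (s t : ℂ) :
    evt g s t = b • evs f (a * s + b * t) (c * s + d * t) +
      d • evt f (a * s + b * t) (c * s + d * t) := by
  obtain ⟨h0, h1, h2⟩ := rep_coeff h
  simp only [evs_two, evt_two, h1, h2]
  ext i
  simp
  ring

theorem rep_refl (f : Par 6 2) : Rep f f := by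
  refine ⟨1, 0, 0, 1, by norm_num, ?_⟩
  intro s t
  simp

/-! ## The forms on a plane through the vertex -/

theorem f1_comb (η θ : V 6) (p r q : ℂ) :
    f1 (p • η + r • θ + q • E6) = p ^ 2 * f1 η + p * r * b1 η θ + r ^ 2 * f1 θ := by
  simp [f1, b1, E6, Pi.single_apply]
  ring

theorem f2_comb (η θ : V 6) (p r q : ℂ) :
    f2 (p • η + r • θ + q • E6) = p ^ 2 * f2 η + p * r * b2 η θ + r ^ 2 * f2 θ := by
  simp [f2, b2, E6, Pi.single_apply]
  ring

theorem b1_comb (η θ : V 6) (p r q p' r' q' : ℂ) :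
    b1 (p • η + r • θ + q • E6) (p' • η + r' • θ + q' • E6) =
      2 * p * p' * f1 η + (p * r' + r * p') * b1 η θ + 2 * r * r' * f1 θ := by
  simp [f1, b1, E6, Pi.single_apply]
  ring

theorem b2_comb (η θ : V 6) (p r q p' r' q' : ℂ) :
    b2 (p • η + r • θ + q • E6) (p' • η + r' • θ + q' • E6) =
      2 * p * p' * f2 η + (p * r' + r * p') * b2 η θ + 2 * r * r' * f2 θ := by
  simp [f2, b2, E6, Pi.single_apply]
  ring

theorem b3_comb (η θ : V 6) (hη : η 6 = 0) (hθ : θ 6 = 0) (p r q p' r' q' : ℂ) :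
    b3 (p • η + r • θ + q • E6) (p' • η + r' • θ + q' • E6) =
      2 * p * p' * f3 η + (p * r' + r * p') * b3 η θ + 2 * r * r' * f3 θ - 2 * q * q' := by
  simp [f3, b3, E6, Pi.single_apply, hη, hθ]
  ring

theorem b1_smul (c : ℂ) (x y : V 6) : b1 (c • x) y = c * b1 x y := by
  simp [b1]
  ring

theorem b2_smul (c : ℂ) (x y : V 6) : b2 (c • x) y = c * b2 x y := by
  simp [b2]
  ring

theorem b3_smul (c : ℂ) (x y : V 6) : b3 (c • x) y = c * b3 x y := by
  simp [b3]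
  ring

/-- the vectors of the planes tangent to the conic are in `Lc` -/
theorem mem_Lc {η θ : V 6} (hN : NPair η θ) {x v : V 6} {c s t A B : ℂ} (hc : c ≠ 0)
    (hx : c • x = s ^ 2 • η + t ^ 2 • θ + (s * t) • E6)
    (hv : v = (2 * A * s) • η + (2 * B * t) • θ + (A * t + B * s) • E6) : v ∈ Lc x := by
  obtain ⟨hη, hθ, e1, e2, e3, e4, e5, e6, e7, e8, e9⟩ := hN
  refine ⟨?_, ?_, ?_, ?_, ?_⟩
  · rw [hv, f1_comb, e1, e2, e3]; ring
  · rw [hv, f2_comb, e4, e5, e6]; ring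
  · have h : c * b1 x v = 0 := by
      rw [← b1_smul, hx, hv, b1_comb, e1, e2, e3]; ring
    exact (mul_eq_zero.mp h).resolve_left hc
  · have h : c * b2 x v = 0 := by
      rw [← b2_smul, hx, hv, b2_comb, e4, e5, e6]; ring
    exact (mul_eq_zero.mp h).resolve_left hc
  · have h : c * b3 x v = 0 := by
      rw [← b3_smul, hx, hv, b3_comb _ _ hη hθ, e7, e8, e9]; ring
    exact (mul_eq_zero.mp h).resolve_left hc

theorem isClosed_Lc (x : V 6) : IsClosed (Lc x) := by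
  have h1 : Continuous fun v : V 6 => f1 v := by unfold f1; fun_prop
  have h2 : Continuous fun v : V 6 => f2 v := by unfold f2; fun_prop
  have h3 : Continuous fun v : V 6 => b1 x v := by unfold b1; fun_prop
  have h4 : Continuous fun v : V 6 => b2 x v := by unfold b2; fun_prop
  have h5 : Continuous fun v : V 6 => b3 x v := by unfold b3; fun_prop
  have e : Lc x = {v | f1 v = 0} ∩ ({v | f2 v = 0} ∩ ({v | b1 x v = 0} ∩
      ({v | b2 x v = 0} ∩ {v | b3 x v = 0}))) := by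
    ext v
    rfl
  rw [e]
  exact (isClosed_eq h1 continuous_const).inter ((isClosed_eq h2 continuous_const).inter
    ((isClosed_eq h3 continuous_const).inter ((isClosed_eq h4 continuous_const).inter
      (isClosed_eq h5 continuous_const))))

/-! ## Members of the family -/

/-- the minors as polynomials in the coefficients -/
def mP (i j k : Fin 7) : MvPolynomial (Fin (2 + 1) × Fin (6 + 1)) ℂ :=
  mnr (fun a b => X (a, b)) i j k

theorem cev_mP (f : Par 6 2) (i j k : Fin 7) : cev f (mP i j k) = mnr f i j k := by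
  simp [cev, mP, mnr]

theorem minZ_of_mem {X : Mfd 6 3} {f : Par 6 2} (hf : f ∈ KK X) : MinZ f := by
  intro i j k hi hj hk
  rw [← cev_mP]
  apply hf.2
  intro g hg
  rw [cev_mP]
  exact hg.2.1 i j k hi hj hk

theorem K0_subset (X : Mfd 6 3) : K0 X ⊆ KK X := fun _ hg => ⟨hg.1, fun _ hP => hP _ hg⟩

/-- the tangent planes of the members through `x` are contained in `Lc x` -/
theorem sub_Lc (h1 : NFS) (hs : SmoothS) (hp : PrimesS) (x : V 6) :
    vmrt (KK (X3 hs hp)) x ⊆ Lc x := by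
  apply closure_minimal _ (isClosed_Lc x)
  rintro v ⟨f, hf, s, t, hsm, hv⟩
  obtain ⟨η, θ, hN, a, b, c, d, -, hrep⟩ := h1 hs hp f hf.1 (minZ_of_mem hf)
  obtain ⟨k, hk, hx⟩ := hsm.2.1
  obtain ⟨α, β, rfl⟩ := Submodule.mem_span_pair.mp hv
  refine mem_Lc hN (c := k) (s := a * s + b * t) (t := c * s + d * t) (A := α * a + β * b)
    (B := α * c + β * d) hk ?_ ?_
  · rw [← hx, hrep, ev_two]
    simp only [par0, Matrix.cons_val_zero, Matrix.cons_val_one, Matrix.cons_val]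
    abel
  · rw [rep_evs hrep, rep_evt hrep, evs_two, evt_two]
    simp only [par0, Matrix.cons_val_zero, Matrix.cons_val_one, Matrix.cons_val]
    module

/-! ## The converse at a good point -/

theorem f3_lin (u ζ : V 6) (p r : ℂ) :
    f3 (p • u + r • ζ) = p ^ 2 * f3 u + p * r * b3 u ζ + r ^ 2 * f3 ζ := by
  simp [f3, b3]
  ring

theorem b3_lin (u ζ : V 6) (p r p' r' : ℂ) :
    b3 (p • u + r • ζ) (p' • u + r' • ζ) =
      2 * p * p' * f3 u + (p * r' + r * p') * b3 u ζ + 2 * r * r' * f3 ζ := by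
  simp [f3, b3]
  ring

theorem f1_lin (u ζ : V 6) (p r : ℂ) :
    f1 (p • u + r • ζ) = p ^ 2 * f1 u + p * r * b1 u ζ + r ^ 2 * f1 ζ := by
  simp [f1, b1]
  ring

theorem b1_lin (u ζ : V 6) (p r p' r' : ℂ) :
    b1 (p • u + r • ζ) (p' • u + r' • ζ) =
      2 * p * p' * f1 u + (p * r' + r * p') * b1 u ζ + 2 * r * r' * f1 ζ := by
  simp [f1, b1]
  ring

theorem f2_lin (u ζ : V 6) (p r : ℂ) :
    f2 (p • u + r • ζ) = p ^ 2 * f2 u + p * r * b2 u ζ + r ^ 2 * f2 ζ := by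
  simp [f2, b2]
  ring

theorem b2_lin (u ζ : V 6) (p r p' r' : ℂ) :
    b2 (p • u + r • ζ) (p' • u + r' • ζ) =
      2 * p * p' * f2 u + (p * r' + r * p') * b2 u ζ + 2 * r * r' * f2 ζ := by
  simp [f2, b2]
  ring

theorem hd_lin (u ζ : V 6) (p r p' r' : ℂ) :
    hd (p • u + r • ζ) (p' • u + r' • ζ) = (p * r' - r * p') ^ 3 * hd u ζ := by
  simp [hd, pl]
  ring

theorem pr_six (x : V 6) : pr x 6 = 0 := by simp [pr]

theorem pr_ne (x : V 6) {i : Fin 7} (hi : i ≠ 6) : pr x i = x i := by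
  simp [pr, Function.update_of_ne hi]

theorem eq_pr_add (x : V 6) : x = pr x + x 6 • E6 := by
  ext i
  by_cases hi : i = 6
  · subst hi
    simp [pr, E6]
  · simp [pr, E6, Function.update_of_ne hi, Pi.single_apply, hi]

theorem f1_pr (x : V 6) : f1 (pr x) = f1 x := by
  simp [f1, pr, Function.update_apply, Fin.ext_iff]

theorem f2_pr (x : V 6) : f2 (pr x) = f2 x := by
  simp [f2, pr, Function.update_apply, Fin.ext_iff]

theorem f3_pr (x : V 6) : f3 (pr x) = f3 x + x 6 ^ 2 := by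
  simp [f3, pr, Function.update_apply, Fin.ext_iff]

theorem b1_pr (x y : V 6) : b1 (pr x) y = b1 x y := by
  simp [b1, pr, Function.update_apply, Fin.ext_iff]

theorem b2_pr (x y : V 6) : b2 (pr x) y = b2 x y := by
  simp [b2, pr, Function.update_apply, Fin.ext_iff]

theorem b1_pr_right (x y : V 6) : b1 x (pr y) = b1 x y := by
  simp [b1, pr, Function.update_apply, Fin.ext_iff]

theorem b2_pr_right (x y : V 6) : b2 x (pr y) = b2 x y := by
  simp [b2, pr, Function.update_apply, Fin.ext_iff]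

theorem hd_pr (x y : V 6) : hd (pr x) y = hd x y := by
  simp [hd, pl, pr, Function.update_apply, Fin.ext_iff]

/-- the two isotropic directions of a line through a point where the third form is not zero -/
theorem exists_pair {x ζ : V 6} (hx : x ∈ Cone) (h6 : x 6 ≠ 0) (hζ : LineDir x ζ)
    (hhd : hd x ζ ≠ 0) (hdisc : b3 (pr x) ζ ^ 2 ≠ 4 * f3 (pr x) * f3 ζ) :
    ∃ (η θ : V 6) (s t : ℂ), NPair η θ ∧ hd η θ ≠ 0 ∧ s * t = x 6 ∧
      pr x = s ^ 2 • η + t ^ 2 • θ ∧ ∃ p r : ℂ, ζ = p • η + r • θ := by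
  obtain ⟨hζ6, z1, z2, z3, z4⟩ := hζ
  set A := f3 (pr x) with hA
  set B := b3 (pr x) ζ with hB
  set C := f3 ζ with hC
  have hA6 : A = x 6 ^ 2 := by rw [hA, f3_pr, hx.2.2.2, zero_add]
  have hA0 : A ≠ 0 := by rw [hA6]; exact pow_ne_zero 2 h6
  obtain ⟨D, hD⟩ := IsAlgClosed.exists_pow_nat_eq (B ^ 2 - 4 * A * C) (n := 2) two_pos
  have hD0 : D ≠ 0 := by
    rintro rfl
    apply hdisc
    have : B ^ 2 - 4 * A * C = 0 := by rw [← hD]; ring
    linear_combination this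
  obtain ⟨s, hs⟩ := IsAlgClosed.exists_pow_nat_eq (-D) (n := 2) two_pos
  have hs0 : s ≠ 0 := by
    rintro rfl
    apply hD0
    have h : (0 : ℂ) ^ 2 = 0 := by norm_num
    rw [h] at hs
    linear_combination hs
  set ρ1 := (-B + D) / (2 * A) with hρ1
  set ρ2 := (-B - D) / (2 * A) with hρ2
  set κ := -(D ^ 2) / A with hκ
  have hκ0 : κ ≠ 0 := by
    rw [hκ]
    exact div_ne_zero (neg_ne_zero.mpr (pow_ne_zero 2 hD0)) hA0
  have g1 : f1 (pr x) = 0 := by rw [f1_pr, hx.2.1]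
  have g2 : f2 (pr x) = 0 := by rw [f2_pr, hx.2.2.1]
  have g3 : b1 (pr x) ζ = 0 := by rw [b1_pr, z3]
  have g4 : b2 (pr x) ζ = 0 := by rw [b2_pr, z4]
  refine ⟨(ρ1 / κ) • pr x + (1 / κ) • ζ, ρ2 • pr x + (1 : ℂ) • ζ, s, x 6 / s, ?_, ?_, ?_, ?_, ?_⟩
  · refine ⟨?_, ?_, ?_, ?_, ?_, ?_, ?_, ?_, ?_, ?_, ?_⟩
    · simp [pr_six, hζ6]
    · simp [pr_six, hζ6]
    · rw [f1_lin, g1, g3, z1]; ring
    · rw [f1_lin, g1, g3, z1]; ring
    · rw [b1_lin, g1, g3, z1]; ring
    · rw [f2_lin, g2, g4, z2]; ring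
    · rw [f2_lin, g2, g4, z2]; ring
    · rw [b2_lin, g2, g4, z2]; ring
    · rw [f3_lin, ← hA, ← hB, ← hC, hρ1]
      field_simp
      linear_combination hD
    · rw [f3_lin, ← hA, ← hB, ← hC, hρ2]
      field_simp
      linear_combination hD
    · rw [b3_lin, ← hA, ← hB, ← hC, hρ1, hρ2, hκ]
      field_simp
      linear_combination (-1 : ℂ) * hD
  · rw [hd_lin, hd_pr]
    refine mul_ne_zero (pow_ne_zero 3 ?_) hhd
    have : ρ1 / κ * 1 - 1 / κ * ρ2 = (ρ1 - ρ2) / κ := by ring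
    rw [this]
    apply div_ne_zero _ hκ0
    rw [hρ1, hρ2]
    have : (-B + D) / (2 * A) - (-B - D) / (2 * A) = D / A := by field_simp; ring
    rw [this]
    exact div_ne_zero hD0 hA0
  · field_simp
  · have ht : (x 6 / s) ^ 2 = -A / D := by
      rw [div_pow, hs, ← hA6]
      field_simp
    rw [hs, ht]
    have e1 : (-D) * (ρ1 / κ) + (-A / D) * ρ2 = 1 := by
      rw [hρ1, hρ2, hκ]
      field_simp
      ring
    have e2 : (-D) * (1 / κ) + (-A / D) * 1 = 0 := by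
      rw [hκ]
      field_simp
      ring
    calc pr x = ((-D) * (ρ1 / κ) + (-A / D) * ρ2) • pr x +
          ((-D) * (1 / κ) + (-A / D) * 1) • ζ := by rw [e1, e2]; simp
      _ = _ := by module
  · refine ⟨-ρ2 * κ / (ρ1 - ρ2), ρ1 / (ρ1 - ρ2), ?_⟩
    have hρ : ρ1 - ρ2 ≠ 0 := by
      rw [hρ1, hρ2]
      have : (-B + D) / (2 * A) - (-B - D) / (2 * A) = D / A := by field_simp; ring
      rw [this]
      exact div_ne_zero hD0 hA0
    have e1 : (-ρ2 * κ / (ρ1 - ρ2)) * (ρ1 / κ) + (ρ1 / (ρ1 - ρ2)) * ρ2 = 0 := by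
      field_simp
      ring
    have e2 : (-ρ2 * κ / (ρ1 - ρ2)) * (1 / κ) + (ρ1 / (ρ1 - ρ2)) * 1 = 1 := by
      field_simp
      ring
    calc ζ = ((-ρ2 * κ / (ρ1 - ρ2)) * (ρ1 / κ) + (ρ1 / (ρ1 - ρ2)) * ρ2) • pr x +
          ((-ρ2 * κ / (ρ1 - ρ2)) * (1 / κ) + (ρ1 / (ρ1 - ρ2)) * 1) • ζ := by rw [e1, e2]; simp
      _ = _ := by module

/-- the values of the third form on the plane of the conic -/
theorem b3_theta {η θ : V 6} (hN : NPair η θ) (p r q : ℂ) :
    b3 (p • η + r • θ + q • E6) θ = p := by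
  obtain ⟨hη, hθ, -, -, -, -, -, -, e7, e8, e9⟩ := hN
  have := b3_comb η θ hη hθ p r q 0 1 0
  have h2 : (0 : ℂ) • η + (1 : ℂ) • θ + (0 : ℂ) • E6 = θ := by simp
  rw [h2, e7, e8, e9] at this
  rw [this]
  ring

theorem b3_eta {η θ : V 6} (hN : NPair η θ) (p r q : ℂ) :
    b3 (p • η + r • θ + q • E6) η = r := by
  obtain ⟨hη, hθ, -, -, -, -, -, -, e7, e8, e9⟩ := hN
  have := b3_comb η θ hη hθ p r q 1 0 0
  have h2 : (1 : ℂ) • η + (0 : ℂ) • θ + (0 : ℂ) • E6 = η := by simp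
  rw [h2, e7, e8, e9] at this
  rw [this]
  ring

theorem six_comb {η θ : V 6} (hN : NPair η θ) (p r q : ℂ) :
    (p • η + r • θ + q • E6 : V 6) 6 = q := by
  obtain ⟨hη, hθ, -⟩ := hN
  simp [hη, hθ, E6]

theorem ev_par0 (η θ : V 6) (s t : ℂ) :
    ev (par0 η θ) s t = s ^ 2 • η + t ^ 2 • θ + (s * t) • E6 := by
  rw [ev_two]
  simp only [par0, Matrix.cons_val_zero, Matrix.cons_val_one, Matrix.cons_val]
  abel

theorem evs_par0 (η θ : V 6) (s t : ℂ) :
    evs (par0 η θ) s t = (2 * s) • η + (0 : ℂ) • θ + t • E6 := by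
  rw [evs_two]
  simp [par0]

theorem evt_par0 (η θ : V 6) (s t : ℂ) :
    evt (par0 η θ) s t = (0 : ℂ) • η + (2 * t) • θ + s • E6 := by
  rw [evt_two]
  simp [par0]
  abel

/-- the conic is smooth at each of its points off the two ramification points -/
theorem smoothAt_par0 {η θ : V 6} (hN : NPair η θ) {x : V 6} {s t : ℂ} (hs : s ≠ 0) (ht : t ≠ 0)
    (hx : x = s ^ 2 • η + t ^ 2 • θ + (s * t) • E6) : SmoothAt (par0 η θ) x s t := by
  refine ⟨?_, ?_, ?_, ?_⟩
  · intro h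
    exact hs (congrArg Prod.fst h)
  · refine ⟨1, one_ne_zero, ?_⟩
    rw [ev_par0, one_smul, hx]
  · rintro s' t' - ⟨c, -, hc⟩
    rw [ev_par0] at hc
    have h1 : s' ^ 2 = c * s ^ 2 := by
      have := congrArg (fun y => b3 y θ) hc
      simp only [b3_smul] at this
      rw [b3_theta hN, hx, b3_theta hN] at this
      exact this
    have h2 : t' ^ 2 = c * t ^ 2 := by
      have := congrArg (fun y => b3 y η) hc
      simp only [b3_smul] at this
      rw [b3_eta hN, hx, b3_eta hN] at this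
      exact this
    have h3 : s' * t' = c * (s * t) := by
      have := congrFun hc 6
      rw [six_comb hN, hx, Pi.smul_apply, six_comb hN] at this
      exact this
    have h4 : (s * t' - t * s') ^ 2 = 0 := by
      linear_combination s ^ 2 * h2 + t ^ 2 * h1 - 2 * s * t * h3
    have h5 := pow_eq_zero_iff (two_ne_zero) |>.mp h4
    unfold Par1
    linear_combination h5
  · rw [LinearIndependent.pair_iff]
    intro a b hab
    rw [evs_par0, evt_par0] at hab
    have e : a • ((2 * s) • η + (0 : ℂ) • θ + t • E6) + b • ((0 : ℂ) • η + (2 * t) • θ + s • E6) =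
        (a * (2 * s)) • η + (b * (2 * t)) • θ + (a * t + b * s) • E6 := by module
    rw [e] at hab
    have h0 : ∀ y : V 6, b3 (0 : V 6) y = 0 := by intro y; simp [b3]
    have h1 := b3_theta hN (a * (2 * s)) (b * (2 * t)) (a * t + b * s)
    have h2 := b3_eta hN (a * (2 * s)) (b * (2 * t)) (a * t + b * s)
    rw [hab, h0] at h1 h2
    refine ⟨?_, ?_⟩
    · have := mul_eq_zero.mp h1.symm
      exact this.resolve_right (mul_ne_zero two_ne_zero hs)
    · have := mul_eq_zero.mp h2.symm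
      exact this.resolve_right (mul_ne_zero two_ne_zero ht)

theorem Lc_sub (h2 : NFcS) (hs : SmoothS) (hp : PrimesS) {x : V 6} (hx : GoodPt x) :
    Lc x ⊆ vmrt (KK (X3 hs hp)) x := by
  obtain ⟨hxc, h6, S, -, hS, hcov⟩ := hx
  intro v hv
  obtain ⟨v1, v2, v3, v4, v5⟩ := hv
  obtain ⟨ζ, hζS, hζ⟩ := hcov (pr v) ⟨pr_six v, by rw [f1_pr, v1], by rw [f2_pr, v2],
    by rw [b1_pr_right, v3], by rw [b2_pr_right, v4]⟩
  obtain ⟨hL, hhd, hdisc⟩ := hS ζ hζS
  obtain ⟨η, θ, s, t, hN, hhd', hst, hprx, p, r, hpr⟩ := exists_pair hxc h6 hL hhd hdisc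
  obtain ⟨a, b, hab⟩ := Submodule.mem_span_pair.mp hζ
  have hs0 : s ≠ 0 := by rintro rfl; apply h6; rw [← hst, zero_mul]
  have ht0 : t ≠ 0 := by rintro rfl; apply h6; rw [← hst, mul_zero]
  have hx' : x = s ^ 2 • η + t ^ 2 • θ + (s * t) • E6 := by
    rw [hst, ← hprx]
    exact eq_pr_add x
  have hv' : v = (a * s ^ 2 + b * p) • η + (a * t ^ 2 + b * r) • θ + v 6 • E6 := by
    conv_lhs => rw [eq_pr_add v, ← hab, hprx, hpr]
    module
  set P := a * s ^ 2 + b * p with hP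
  set Q := a * t ^ 2 + b * r with hQ
  have hK : par0 η θ ∈ K0 (X3 hs hp) := by
    obtain ⟨k1, k2⟩ := h2 hs hp η θ (par0 η θ) hN (rep_refl _)
    refine ⟨k1, k2, ?_⟩
    simpa [par0] using hhd'
  apply subset_closure
  refine ⟨par0 η θ, K0_subset _ hK, s, t, smoothAt_par0 hN hs0 ht0 hx', ?_⟩
  have h5 : s ^ 2 * Q + t ^ 2 * P - 2 * (s * t) * v 6 = 0 := by
    have hb := v5
    rw [hx', hv', b3_comb _ _ hN.1 hN.2.1, hN.2.2.2.2.2.2.2.2.1, hN.2.2.2.2.2.2.2.2.2.1,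
      hN.2.2.2.2.2.2.2.2.2.2] at hb
    linear_combination hb
  rw [Submodule.mem_span_pair]
  refine ⟨P / (2 * s), Q / (2 * t), ?_⟩
  rw [evs_par0, evt_par0]
  have e1 : P / (2 * s) * (2 * s) = P := by field_simp
  have e2 : Q / (2 * t) * (2 * t) = Q := by field_simp
  have e3 : P / (2 * s) * t + Q / (2 * t) * s = v 6 := by
    field_simp
    linear_combination h5
  calc _ = (P / (2 * s) * (2 * s)) • η + (Q / (2 * t) * (2 * t)) • θ +
        (P / (2 * s) * t + Q / (2 * t) * s) • E6 := by module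
    _ = v := by rw [e1, e2, e3]; exact hv'.symm

end ETwo

/-- MODULE E2 -/
theorem vmrtS (h1 : NFS) (h2 : NFcS) : VmrtS := by
  intro hs hp x _
  refine ⟨ETwo.sub_Lc h1 hs hp x, fun hg => ?_⟩
  exact Set.Subset.antisymm (ETwo.sub_Lc h1 hs hp x) (ETwo.Lc_sub h2 hs hp hg)

end Pool.VMR
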