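import Pool.Agent.H30.VMR.Stm

/-!
# Module E3: finitely many conics of the family pass through a good point
-/

noncomputable section

namespace Pool.VMR

open MvPolynomial

namespace E3

theorem ev2 (f : Par 6 2) (s t : ℂ) :
    ev f s t = (s ^ 2) • f 0 + (s * t) • f 1 + (t ^ 2) • f 2 := by
  unfold ev
  rw [Fin.sum_univ_three]
  simp

theorem rep_refl (f : Par 6 2) : Rep f f :=
  ⟨1, 0, 0, 1, by norm_num, fun s t => by simp⟩

theorem rep_symm {f g : Par 6 2} (h : Rep f g) : Rep g f := by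
  obtain ⟨a, b, c, d, hdet, h⟩ := h
  obtain ⟨D, hD⟩ : ∃ D, D = a * d - b * c := ⟨_, rfl⟩
  rw [← hD] at hdet
  refine ⟨d / D, -b / D, -c / D, a / D, ?_, ?_⟩
  · have : d / D * (a / D) - -b / D * (-c / D) = 1 / D := by
      field_simp
      rw [hD]
      ring
    rw [this]
    exact one_div_ne_zero hdet
  · intro s t
    rw [h]
    congr 1
    · field_simp
      rw [hD]
      ring
    · field_simp
      rw [hD]
      ring

theorem rep_trans {f g k : Par 6 2} (h : Rep f g) (h' : Rep g k) : Rep f k := by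
  obtain ⟨a, b, c, d, hdet, h⟩ := h
  obtain ⟨a', b', c', d', hdet', h'⟩ := h'
  refine ⟨a * a' + b * c', a * b' + b * d', c * a' + d * c', c * b' + d * d', ?_, ?_⟩
  · have : (a * a' + b * c') * (c * b' + d * d') - (a * b' + b * d') * (c * a' + d * c') =
        (a * d - b * c) * (a' * d' - b' * c') := by ring
    rw [this]
    exact mul_ne_zero hdet hdet'
  · intro s t
    rw [h', h]
    congr 1 <;> ring

/-! ## The forms on a plane -/

variable (p z : V 6) (a b c d : ℂ)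

theorem f1_lin : f1 (a • p + b • z) = a ^ 2 * f1 p + a * b * b1 p z + b ^ 2 * f1 z := by
  simp only [f1, b1, Pi.add_apply, Pi.smul_apply, smul_eq_mul]
  ring

theorem f2_lin : f2 (a • p + b • z) = a ^ 2 * f2 p + a * b * b2 p z + b ^ 2 * f2 z := by
  simp only [f2, b2, Pi.add_apply, Pi.smul_apply, smul_eq_mul]
  ring

theorem f3_lin : f3 (a • p + b • z) = a ^ 2 * f3 p + a * b * b3 p z + b ^ 2 * f3 z := by
  simp only [f3, b3, Pi.add_apply, Pi.smul_apply, smul_eq_mul]
  ring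

theorem b1_lin : b1 (a • p + b • z) (c • p + d • z) =
    2 * (a * c) * f1 p + (a * d + b * c) * b1 p z + 2 * (b * d) * f1 z := by
  simp only [f1, b1, Pi.add_apply, Pi.smul_apply, smul_eq_mul]
  ring

theorem b2_lin : b2 (a • p + b • z) (c • p + d • z) =
    2 * (a * c) * f2 p + (a * d + b * c) * b2 p z + 2 * (b * d) * f2 z := by
  simp only [f2, b2, Pi.add_apply, Pi.smul_apply, smul_eq_mul]
  ring

theorem b3_lin : b3 (a • p + b • z) (c • p + d • z) =
    2 * (a * c) * f3 p + (a * d + b * c) * b3 p z + 2 * (b * d) * f3 z := by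
  simp only [f3, b3, Pi.add_apply, Pi.smul_apply, smul_eq_mul]
  ring

theorem hd_lin : hd (a • p + b • z) (c • p + d • z) = (a * d - b * c) ^ 3 * hd p z := by
  simp only [hd, pl, Pi.add_apply, Pi.smul_apply, smul_eq_mul]
  ring

variable {x : V 6}

theorem pr_ne (x : V 6) {i : Fin 7} (hi : i ≠ 6) : pr x i = x i := by
  simp [pr, Function.update_of_ne hi]

theorem pr_six (x : V 6) : pr x 6 = 0 := by simp [pr]

theorem pr0 (x : V 6) : pr x 0 = x 0 := pr_ne x (by decide)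
theorem pr1 (x : V 6) : pr x 1 = x 1 := pr_ne x (by decide)
theorem pr2 (x : V 6) : pr x 2 = x 2 := pr_ne x (by decide)
theorem pr3 (x : V 6) : pr x 3 = x 3 := pr_ne x (by decide)
theorem pr4 (x : V 6) : pr x 4 = x 4 := pr_ne x (by decide)
theorem pr5 (x : V 6) : pr x 5 = x 5 := pr_ne x (by decide)

theorem f1_pr (x : V 6) : f1 (pr x) = f1 x := by
  simp only [f1, pr0, pr1, pr2, pr3, pr4]

theorem f2_pr (x : V 6) : f2 (pr x) = f2 x := by
  simp only [f2, pr0, pr1, pr2, pr3, pr4, pr5]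

theorem f3_pr (x : V 6) : f3 (pr x) = f3 x + x 6 ^ 2 := by
  simp only [f3, pr0, pr1, pr3, pr4, pr5, pr_six]
  ring

theorem b1_pr (x y : V 6) : b1 (pr x) y = b1 x y := by
  simp only [b1, pr0, pr1, pr2, pr3, pr4]

theorem b2_pr (x y : V 6) : b2 (pr x) y = b2 x y := by
  simp only [b2, pr0, pr1, pr2, pr3, pr4, pr5]

theorem hd_pr (x y : V 6) : hd (pr x) y = hd x y := by
  simp only [hd, pl, pr2, pr3, pr4]

theorem b1_symm (x y : V 6) : b1 x y = b1 y x := by
  simp only [b1]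
  ring

theorem b2_symm (x y : V 6) : b2 x y = b2 y x := by
  simp only [b2]
  ring

theorem b3_symm (x y : V 6) : b3 x y = b3 y x := by
  simp only [b3]
  ring

theorem x_eq (x : V 6) : x = pr x + (x 6) • E6 := by
  funext i
  by_cases hi : i = 6
  · subst hi
    simp [pr, E6]
  · simp [pr, E6, hi]

/-- isotropic vectors on the plane of a good line -/
theorem exists_pair {x ζ : V 6} (hx : x ∈ Cone) (h6 : x 6 ≠ 0) (hl : LineDir x ζ)
    (hh : hd x ζ ≠ 0) (hdisc : b3 (pr x) ζ ^ 2 ≠ 4 * f3 (pr x) * f3 ζ) :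
    ∃ η θ : V 6, NPair η θ ∧ hd η θ ≠ 0 ∧ ∃ α β : ℂ, α * β = x 6 ^ 2 ∧
      pr x = α • η + β • θ := by
  obtain ⟨-, h1, h2, h3⟩ := hx
  obtain ⟨hζ6, hζ1, hζ2, hb1, hb2⟩ := hl
  have e1 : f1 (pr x) = 0 := by rw [f1_pr, h1]
  have e2 : f2 (pr x) = 0 := by rw [f2_pr, h2]
  have e3 : f3 (pr x) = x 6 ^ 2 := by rw [f3_pr, h3, zero_add]
  have e4 : b1 (pr x) ζ = 0 := by rw [b1_pr, hb1]
  have e5 : b2 (pr x) ζ = 0 := by rw [b2_pr, hb2]
  obtain ⟨A, hA⟩ : ∃ A, A = f3 (pr x) := ⟨_, rfl⟩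
  obtain ⟨B, hB⟩ : ∃ B, B = b3 (pr x) ζ := ⟨_, rfl⟩
  obtain ⟨C, hC⟩ : ∃ C, C = f3 ζ := ⟨_, rfl⟩
  have hA0 : A ≠ 0 := by
    rw [hA, e3]
    exact pow_ne_zero 2 h6
  rw [← hA, ← hB, ← hC] at hdisc
  have hD0 : B ^ 2 - 4 * A * C ≠ 0 := sub_ne_zero.mpr hdisc
  obtain ⟨δ, hδ⟩ := IsAlgClosed.exists_pow_nat_eq (B ^ 2 - 4 * A * C) (n := 2) (by norm_num)
  have hδ0 : δ ≠ 0 := by
    rintro rfl
    apply hD0
    rw [← hδ]
    norm_num
  obtain ⟨r, hr⟩ : ∃ r, r = (-B + δ) / (2 * A) := ⟨_, rfl⟩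
  obtain ⟨r', hr'⟩ : ∃ r', r' = (-B - δ) / (2 * A) := ⟨_, rfl⟩
  have hrA : A * r ^ 2 + B * r + C = 0 := by
    rw [hr]
    field_simp
    linear_combination hδ
  have hrA' : A * r' ^ 2 + B * r' + C = 0 := by
    rw [hr']
    field_simp
    linear_combination hδ
  have hdiff : r - r' = δ / A := by
    rw [hr, hr']
    field_simp
    ring
  have hsum : A * (r + r') = -B := by
    rw [hr, hr']
    field_simp
    ring
  have hprod : A * (r * r') = C := by
    rw [hr, hr']
    field_simp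
    linear_combination -hδ
  obtain ⟨κ, hκ⟩ : ∃ κ, κ = -(A / δ ^ 2) := ⟨_, rfl⟩
  have hκ0 : κ ≠ 0 := by
    rw [hκ]
    exact neg_ne_zero.mpr (div_ne_zero hA0 (pow_ne_zero 2 hδ0))
  have hb3 : κ * (2 * (A * (r * r')) + B * (r + r') + 2 * C) = 1 := by
    have e6 : B * (r + r') = -(B ^ 2) / A := by
      have : r + r' = -B / A := by
        field_simp
        linear_combination hsum
      rw [this]
      field_simp
    rw [hprod, e6, hκ]
    field_simp
    linear_combination -hδ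
  refine ⟨r • pr x + (1 : ℂ) • ζ, (κ * r') • pr x + κ • ζ, ?_, ?_, 1 / (r - r'),
    -(1 / (κ * (r - r'))), ?_, ?_⟩
  · refine ⟨?_, ?_, ?_, ?_, ?_, ?_, ?_, ?_, ?_, ?_, ?_⟩
    · simp [pr_six, hζ6]
    · simp [pr_six, hζ6]
    · rw [f1_lin, e1, e4, hζ1]
      ring
    · rw [f1_lin, e1, e4, hζ1]
      ring
    · rw [b1_lin, e1, e4, hζ1]
      ring
    · rw [f2_lin, e2, e5, hζ2]
      ring
    · rw [f2_lin, e2, e5, hζ2]
      ring
    · rw [b2_lin, e2, e5, hζ2]
      ring
    · rw [f3_lin, ← hA, ← hB, ← hC]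
      linear_combination hrA
    · rw [f3_lin, ← hA, ← hB, ← hC]
      linear_combination κ ^ 2 * hrA'
    · rw [b3_lin, ← hA, ← hB, ← hC]
      linear_combination hb3
  · rw [hd_lin, hd_pr]
    refine mul_ne_zero (pow_ne_zero 3 ?_) hh
    have : r * κ - 1 * (κ * r') = κ * (r - r') := by ring
    rw [this, hdiff]
    exact mul_ne_zero hκ0 (div_ne_zero hδ0 hA0)
  · rw [hdiff, ← e3, ← hA, hκ]
    field_simp
  · have hrr : r - r' ≠ 0 := by
      rw [hdiff]
      exact div_ne_zero hδ0 hA0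
    rw [smul_add, smul_add, smul_smul, smul_smul, smul_smul, smul_smul]
    have e7 : (1 / (r - r') * r) • pr x + (1 / (r - r') * 1) • ζ +
        ((-(1 / (κ * (r - r'))) * (κ * r')) • pr x + (-(1 / (κ * (r - r'))) * κ) • ζ) =
        (1 / (r - r') * r + -(1 / (κ * (r - r'))) * (κ * r')) • pr x +
          (1 / (r - r') * 1 + -(1 / (κ * (r - r'))) * κ) • ζ := by
      module
    rw [e7]
    have e8 : 1 / (r - r') * r + -(1 / (κ * (r - r'))) * (κ * r') = 1 := by
      field_simp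
      ring
    have e9 : 1 / (r - r') * 1 + -(1 / (κ * (r - r'))) * κ = 0 := by
      field_simp
      ring
    rw [e8, e9, one_smul, zero_smul, add_zero]

theorem minZ_of_KK {X : Mfd 6 3} {f : Par 6 2} (hf : f ∈ KK X) : MinZ f := by
  intro i j k hi hj hk
  have h := hf.2 (mnr (fun a i => MvPolynomial.X (a, i)) i j k) (by
    intro g hg
    have := hg.2.1 i j k hi hj hk
    simpa [cev, mnr] using this)
  simpa [cev, mnr] using h

/-- the plane of a conic of the family through `x` -/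
def OnPlane (x ζ : V 6) (f : Par 6 2) : Prop :=
  ∃ η θ : V 6, NPair η θ ∧ Rep (par0 η θ) f ∧ (∃ a b : ℂ, η = a • pr x + b • ζ) ∧
    (∃ a b : ℂ, θ = a • pr x + b • ζ) ∧ (∃ a b : ℂ, pr x = a • η + b • θ) ∧
    ∃ a b : ℂ, ζ = a • η + b • θ

theorem exists_plane (h1 : NFS) (hs : SmoothS) (hp : PrimesS) {x : V 6} (h6 : x 6 ≠ 0)
    {S : Finset (V 6)}
    (hS : ∀ η, LineDir x η → ∃ ζ ∈ S, η ∈ Submodule.span ℂ {pr x, ζ})
    {f : Par 6 2} (hf : f ∈ thr (KK (X3 hs hp)) x) : ∃ ζ ∈ S, OnPlane x ζ f := by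
  obtain ⟨hfK, s, t, -, c₀, hc₀, hst⟩ := hf
  obtain ⟨η, θ, hN, hR⟩ := h1 hs hp f hfK.1 (minZ_of_KK hfK)
  obtain ⟨hη6, hθ6, n1, n2, n3, n4, n5, n6, n7, n8, n9⟩ := hN
  obtain ⟨a, b, c, d, hdet, hR'⟩ := hR
  rw [hR' s t] at hst
  obtain ⟨s', hs'⟩ : ∃ s', s' = a * s + b * t := ⟨_, rfl⟩
  obtain ⟨t', ht'⟩ : ∃ t', t' = c * s + d * t := ⟨_, rfl⟩
  rw [← hs', ← ht', ev2] at hst
  have hp0 : par0 η θ 0 = η := rfl
  have hp1 : par0 η θ 1 = E6 := rfl
  have hp2 : par0 η θ 2 = θ := rfl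
  rw [hp0, hp1, hp2] at hst
  -- the last coordinate
  have hE6 : E6 6 = 1 := by simp [E6]
  have h66 : s' * t' = c₀ * x 6 := by
    have := congrFun hst 6
    simp only [Pi.add_apply, Pi.smul_apply, smul_eq_mul, hη6, hθ6, hE6] at this
    linear_combination this
  have hs0 : s' ≠ 0 := by
    rintro h0
    rw [h0, zero_mul] at h66
    exact mul_ne_zero hc₀ h6 h66.symm
  have ht0 : t' ≠ 0 := by
    rintro h0
    rw [h0, mul_zero] at h66
    exact mul_ne_zero hc₀ h6 h66.symm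
  obtain ⟨α, hα⟩ : ∃ α, α = s' ^ 2 / c₀ := ⟨_, rfl⟩
  obtain ⟨β, hβ⟩ : ∃ β, β = t' ^ 2 / c₀ := ⟨_, rfl⟩
  have hα0 : α ≠ 0 := by
    rw [hα]
    exact div_ne_zero (pow_ne_zero 2 hs0) hc₀
  have hβ0 : β ≠ 0 := by
    rw [hβ]
    exact div_ne_zero (pow_ne_zero 2 ht0) hc₀
  have hpx : pr x = α • η + β • θ := by
    funext i
    by_cases hi : i = 6
    · subst hi
      simp [pr_six, hη6, hθ6]
    · rw [pr_ne x hi]
      have := congrFun hst i
      have hEi : E6 i = 0 := by simp [E6, hi]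
      simp only [Pi.add_apply, Pi.smul_apply, smul_eq_mul, hEi] at this ⊢
      rw [hα, hβ]
      field_simp
      linear_combination -this
  have hlη : LineDir x η := by
    refine ⟨hη6, n1, n4, ?_, ?_⟩
    · rw [← b1_pr, hpx]
      have := b1_lin η θ α β 1 0
      simp only [one_smul, zero_smul, add_zero] at this
      rw [this, n1, n3, n2]
      ring
    · rw [← b2_pr, hpx]
      have := b2_lin η θ α β 1 0
      simp only [one_smul, zero_smul, add_zero] at this
      rw [this, n4, n6, n5]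
      ring
  obtain ⟨ζ, hζS, hζ⟩ := hS η hlη
  rw [Submodule.mem_span_pair] at hζ
  obtain ⟨m, n, hmn⟩ := hζ
  refine ⟨ζ, hζS, η, θ, ⟨hη6, hθ6, n1, n2, n3, n4, n5, n6, n7, n8, n9⟩,
    ⟨a, b, c, d, hdet, hR'⟩, ⟨m, n, hmn.symm⟩, ?_, ⟨α, β, hpx⟩, ?_⟩
  · refine ⟨1 / β - α / β * m, -(α / β * n), ?_⟩
    have e1 : θ = (1 / β) • (pr x) - (α / β) • η := by
      rw [hpx, smul_add, smul_smul, smul_smul]
      have : 1 / β * β = 1 := by field_simp
      rw [this, one_smul]
      have e2 : 1 / β * α = α / β := by ring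
      rw [e2]
      abel
    conv_lhs => rw [e1, ← hmn]
    module
  · -- `n ≠ 0`
    have hn : n ≠ 0 := by
      rintro rfl
      rw [zero_smul, add_zero] at hmn
      -- η = m • pr x
      have e1 : η = (m * α) • η + (m * β) • θ := by
        conv_lhs => rw [← hmn, hpx]
        module
      have e2 : b3 η η = b3 ((m * α) • η + (m * β) • θ) ((1 : ℂ) • η + (0 : ℂ) • θ) := by
        rw [← e1, one_smul, zero_smul, add_zero]
      rw [b3_lin, n7, n8, n9] at e2
      have e3 : b3 η η = 2 * f3 η := by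
        simp only [b3, f3]
        ring
      rw [e3, n7] at e2
      have e4 : m * β = 0 := by linear_combination -e2
      have hm : m = 0 := (mul_eq_zero.mp e4).resolve_right hβ0
      rw [hm, zero_smul] at hmn
      rw [← hmn] at n9
      simp [b3] at n9
    refine ⟨(1 - m * α) / n, -(m * β) / n, ?_⟩
    have e1 : ζ = (1 / n) • (η - m • pr x) := by
      rw [← hmn, add_sub_cancel_left, smul_smul]
      have : 1 / n * n = 1 := by field_simp
      rw [this, one_smul]
    conv_lhs => rw [e1, hpx]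
    have e3 : (1 - m * α) / n = 1 / n - 1 / n * (m * α) := by ring
    have e4 : -(m * β) / n = -(1 / n * (m * β)) := by ring
    rw [e3, e4]
    module

/-- two conics of the family on one plane are the same -/
theorem rep_of_plane {x ζ : V 6} {f g : Par 6 2} (hf : OnPlane x ζ f) (hg : OnPlane x ζ g) :
    Rep f g := by
  obtain ⟨η, θ, hN, hR, -, -, ⟨a1, a2, ha⟩, ⟨c1, c2, hc⟩⟩ := hf
  obtain ⟨η', θ', hN', hR', ⟨k1, k2, hk⟩, ⟨l1, l2, hl⟩, -, -⟩ := hg
  obtain ⟨-, -, n1, n2, n3, n4, n5, n6, n7, n8, n9⟩ := hN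
  obtain ⟨-, -, m1, m2, m3, m4, m5, m6, m7, m8, m9⟩ := hN'
  have e1 : η' = (k1 * a1 + k2 * c1) • η + (k1 * a2 + k2 * c2) • θ := by
    rw [hk, ha, hc]
    module
  have e2 : θ' = (l1 * a1 + l2 * c1) • η + (l1 * a2 + l2 * c2) • θ := by
    rw [hl, ha, hc]
    module
  obtain ⟨u, hu⟩ : ∃ u, u = k1 * a1 + k2 * c1 := ⟨_, rfl⟩
  obtain ⟨v, hv⟩ : ∃ v, v = k1 * a2 + k2 * c2 := ⟨_, rfl⟩
  obtain ⟨u', hu'⟩ : ∃ u', u' = l1 * a1 + l2 * c1 := ⟨_, rfl⟩
  obtain ⟨v', hv'⟩ : ∃ v', v' = l1 * a2 + l2 * c2 := ⟨_, rfl⟩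
  rw [← hu, ← hv] at e1
  rw [← hu', ← hv'] at e2
  have g1 : u * v = 0 := by
    have := m7
    rw [e1, f3_lin, n7, n8, n9] at this
    linear_combination this
  have g2 : u' * v' = 0 := by
    have := m8
    rw [e2, f3_lin, n7, n8, n9] at this
    linear_combination this
  have g3 : u * v' + v * u' = 1 := by
    have := m9
    rw [e1, e2, b3_lin, n7, n8, n9] at this
    linear_combination this
  have key : Rep (par0 η θ) (par0 η' θ') := by
    have p0 : ∀ a b : V 6, par0 a b 0 = a := fun _ _ => rfl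
    have p1 : ∀ a b : V 6, par0 a b 1 = E6 := fun _ _ => rfl
    have p2 : ∀ a b : V 6, par0 a b 2 = b := fun _ _ => rfl
    rcases mul_eq_zero.mp g1 with h0 | h0
    · -- u = 0
      rw [h0, zero_mul, zero_add] at g3
      have hv0 : v ≠ 0 := left_ne_zero_of_mul (by rw [g3]; exact one_ne_zero)
      have hu0 : u' ≠ 0 := right_ne_zero_of_mul (by rw [g3]; exact one_ne_zero)
      have hv'0 : v' = 0 := (mul_eq_zero.mp g2).resolve_left hu0
      obtain ⟨r, hr⟩ := IsAlgClosed.exists_pow_nat_eq v (n := 2) (by norm_num)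
      have hr0 : r ≠ 0 := by
        rintro rfl
        apply hv0
        rw [← hr]
        norm_num
      refine ⟨0, 1 / r, r, 0, ?_, ?_⟩
      · have : (0 : ℂ) * 0 - 1 / r * r = -1 := by field_simp; ring
        rw [this]
        norm_num
      · intro s t
        rw [ev2, ev2, p0, p0, p1, p1, p2, p2, e1, e2, h0, hv'0, zero_smul, zero_add, zero_smul,
          add_zero]
        have hu1 : u' = 1 / r ^ 2 := by
          rw [hr]
          field_simp
          linear_combination g3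
        rw [hu1, ← hr, smul_smul, smul_smul]
        have q1 : (0 * s + 1 / r * t) ^ 2 = t ^ 2 * (1 / r ^ 2) := by
          field_simp
          ring
        have q2 : (0 * s + 1 / r * t) * (r * s + 0 * t) = s * t := by
          field_simp
          ring
        have q3 : (r * s + 0 * t) ^ 2 = s ^ 2 * r ^ 2 := by ring
        rw [q1, q2, q3]
        abel
    · rw [h0, zero_mul, add_zero] at g3
      have hu0 : u ≠ 0 := left_ne_zero_of_mul (by rw [g3]; exact one_ne_zero)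
      have hv'0 : v' ≠ 0 := right_ne_zero_of_mul (by rw [g3]; exact one_ne_zero)
      have hu'0 : u' = 0 := (mul_eq_zero.mp g2).resolve_right hv'0
      obtain ⟨r, hr⟩ := IsAlgClosed.exists_pow_nat_eq u (n := 2) (by norm_num)
      have hr0 : r ≠ 0 := by
        rintro rfl
        apply hu0
        rw [← hr]
        norm_num
      refine ⟨r, 0, 0, 1 / r, ?_, ?_⟩
      · have : r * (1 / r) - 0 * 0 = 1 := by field_simp; ring
        rw [this]
        norm_num
      · intro s t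
        rw [ev2, ev2, p0, p0, p1, p1, p2, p2, e1, e2, h0, hu'0, zero_smul, zero_smul, zero_add,
          add_zero]
        have hv1 : v' = 1 / r ^ 2 := by
          rw [hr]
          field_simp
          linear_combination g3
        rw [hv1, ← hr, smul_smul, smul_smul]
        have q1 : (r * s + 0 * t) ^ 2 = s ^ 2 * r ^ 2 := by ring
        have q2 : (r * s + 0 * t) * (0 * s + 1 / r * t) = s * t := by
          field_simp
          ring
        have q3 : (0 * s + 1 / r * t) ^ 2 = t ^ 2 * (1 / r ^ 2) := by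
          field_simp
          ring
        rw [q1, q2, q3]
  exact rep_trans (rep_symm hR) (rep_trans key hR')

end E3

open E3 in
/-- MODULE E3 -/
theorem finS (h1 : NFS) (h2 : NFcS) : FinS := by
  intro hs hp x hx
  obtain ⟨hxC, h6, S, hSne, hS1, hS2⟩ := hx
  refine ⟨?_, ?_⟩
  · obtain ⟨ζ, hζ⟩ := hSne
    obtain ⟨hl, hh, hdisc⟩ := hS1 ζ hζ
    obtain ⟨η, θ, hN, hhd, α, β, hαβ, hpx⟩ := exists_pair hxC h6 hl hh hdisc
    obtain ⟨hr, hm⟩ := h2 hs hp η θ (par0 η θ) hN (rep_refl _)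
    have hK0 : par0 η θ ∈ K0 (X3 hs hp) := ⟨hr, hm, hhd⟩
    have hKK : par0 η θ ∈ KK (X3 hs hp) := ⟨hr, fun P hP => hP _ hK0⟩
    obtain ⟨s, hs2⟩ := IsAlgClosed.exists_pow_nat_eq α (n := 2) (by norm_num)
    have hα0 : α ≠ 0 := by
      rintro rfl
      rw [zero_mul] at hαβ
      exact pow_ne_zero 2 h6 hαβ.symm
    have hs0 : s ≠ 0 := by
      rintro rfl
      apply hα0
      rw [← hs2]
      norm_num
    refine ⟨par0 η θ, hKK, s, x 6 / s, ?_, 1, one_ne_zero, ?_⟩
    · intro h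
      exact hs0 (congrArg Prod.fst h)
    · rw [one_smul, ev2]
      show s ^ 2 • η + (s * (x 6 / s)) • E6 + ((x 6 / s) ^ 2) • θ = x
      have e1 : s * (x 6 / s) = x 6 := by field_simp
      have e2 : (x 6 / s) ^ 2 = β := by
        rw [div_pow, hs2, ← hαβ]
        field_simp
      rw [e1, e2, hs2]
      conv_rhs => rw [x_eq x, hpx]
      abel
  · have hex : ∀ f : thr (KK (X3 hs hp)) x, ∃ ζ : S, OnPlane x ζ f.1 := by
      intro f
      obtain ⟨ζ, hζ, h⟩ := exists_plane h1 hs hp h6 hS2 f.2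
      exact ⟨⟨ζ, hζ⟩, h⟩
    choose F hF using hex
    refine Finite.of_injective (β := S)
      (fun q : Quot (fun f g : thr (KK (X3 hs hp)) x => Rep f.1 g.1) => F q.out) ?_
    intro q q' h
    have h3 : F q.out = F q'.out := h
    have h4 : Rep q.out.1 q'.out.1 := by
      refine rep_of_plane (hF q.out) ?_
      rw [h3]
      exact hF q'.out
    rw [← Quot.out_eq q, ← Quot.out_eq q']
    exact Quot.sound h4

end Pool.VMR
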