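import Pool.Agent.H30.VMR.Util

/-!
# Module F1: the local lift
-/

noncomputable section

namespace Pool.VMR

open MvPolynomial Topology

namespace Lo

/-! ## The square root -/

/-- the principal square root -/
def sq (z : ℂ) : ℂ := z ^ (2⁻¹ : ℂ)

theorem sq_sq (z : ℂ) : sq z ^ 2 = z := by
  have := Complex.cpow_nat_inv_pow z (n := 2) two_ne_zero
  rw [sq]
  push_cast at this
  exact this

theorem sq_of_re {s : ℂ} (h : 0 < s.re) : sq (s ^ 2) = s := Complex.sq_cpow_two_inv h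

theorem sq_re {z : ℂ} (h : 0 < z.re) : 0 < (sq z).re := by
  have hz : z ≠ 0 := by
    rintro rfl
    simp at h
  have h1 : sq z = Complex.exp (Complex.log z * 2⁻¹) := by
    rw [sq, Complex.cpow_def_of_ne_zero hz]
  rw [h1, Complex.exp_re]
  apply mul_pos (Real.exp_pos _)
  have h2 : (Complex.log z * 2⁻¹).im = z.arg / 2 := by
    have : (Complex.log z * 2⁻¹ : ℂ) = Complex.log z / ((2 : ℝ) : ℂ) := by
      push_cast
      ring
    rw [this, Complex.div_ofReal_im, Complex.log_im]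
  rw [h2]
  apply Real.cos_pos_of_mem_Ioo
  have h3 := Complex.abs_arg_lt_pi_div_two_iff.mpr (Or.inl h)
  rw [abs_lt] at h3
  constructor <;> linarith [h3.1, h3.2, Real.pi_pos]

theorem slit {z : ℂ} (h : 0 < z.re) : z ∈ Complex.slitPlane := Or.inl h

theorem sq_an {E : Type*} [NormedAddCommGroup E] [NormedSpace ℂ E] {f : E → ℂ} {x : E}
    (hf : AnalyticAt ℂ f x) (h : 0 < (f x).re) : AnalyticAt ℂ (fun y => sq (f y)) x :=
  hf.cpow analyticAt_const (slit h)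

/-! ## The parameters -/

/-- the affine coordinates `z2, z3, z4` -/
def bb (x : V 6) : Fin 3 → ℂ := ![x 3 / x 2, x 4 / x 2, x 5 / x 2]

/-- the automorphism on the affine coordinates -/
def gb (b : Fin 3 → ℂ) : Fin 3 → ℂ := ![b 0, b 1, -(b 2)]

/-- the determinant -/
def dt (b : Fin 3 → ℂ) : ℂ := b 1 - b 0 ^ 2

/-- the coordinate `u` -/
def uu (b : Fin 3 → ℂ) : ℂ := (b 1 ^ 3 - b 0 * (b 2 ^ 2 - 1)) / dt b

/-- the coordinate `v` -/
def vv (b : Fin 3 → ℂ) : ℂ := ((b 2 ^ 2 - 1) - b 0 * b 1 ^ 2) / dt b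

/-- the square of `w` -/
def GG (b : Fin 3 → ℂ) : ℂ := uu b * b 1 + vv b * b 2 + b 0 ^ 2

/-- the square of `w` in terms of the other coordinates -/
def q3 (x : V 6) : ℂ := x 0 * x 4 + x 1 * x 5 + x 3 ^ 2

/-- the section without the last coordinate -/
def s0 (b : Fin 3 → ℂ) : V 6 := ![uu b, vv b, 1, b 0, b 1, b 2, 0]

/-- the section -/
def sec (ρ : ℂ) (b : Fin 3 → ℂ) : V 6 := ![uu b, vv b, 1, b 0, b 1, b 2, ρ * sq (GG b / ρ ^ 2)]

/-- the local map -/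
def ph (ρ : ℂ) (x : V 6) : V 6 :=
  ![x 0, x 1, x 2, x 3, x 4, -(x 5), x 2 * ρ * sq (q3 (gx x) / (x 2 * ρ) ^ 2)]

/-- the conical domain -/
def U0 (B : Set (Fin 3 → ℂ)) (ρ : ℂ) : Set (V 6) :=
  {x | x ∈ Cone ∧ x 2 ≠ 0 ∧ bb x ∈ B ∧ 0 < (x 6 / (x 2 * ρ)).re}

/-- the conditions on the base -/
def Ok (B : Set (Fin 3 → ℂ)) (ρ ρ' : ℂ) : Prop :=
  IsOpen B ∧ IsConnected B ∧ ρ ≠ 0 ∧ ρ' ≠ 0 ∧
    ∀ b ∈ B, dt b ≠ 0 ∧ 0 < (GG b / ρ ^ 2).re ∧ 0 < (GG (gb b) / ρ' ^ 2).re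

theorem gb_gb (b : Fin 3 → ℂ) : gb (gb b) = b := by
  funext i
  fin_cases i <;> simp [gb]

theorem dt_gb (b : Fin 3 → ℂ) : dt (gb b) = dt b := by simp [dt, gb]
theorem uu_gb (b : Fin 3 → ℂ) : uu (gb b) = uu b := by
  rw [uu, uu, dt_gb]
  simp [gb]
theorem vv_gb (b : Fin 3 → ℂ) : vv (gb b) = vv b := by
  rw [vv, vv, dt_gb]
  simp [gb]

theorem gb_cont : Continuous gb := by
  refine continuous_pi fun i => ?_
  fin_cases i
  · exact continuous_apply 0
  · exact continuous_apply 1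
  · exact (continuous_apply 2).neg

/-- the involution as a homeomorphism -/
def gbh : (Fin 3 → ℂ) ≃ₜ (Fin 3 → ℂ) where
  toFun := gb
  invFun := gb
  left_inv := gb_gb
  right_inv := gb_gb
  continuous_toFun := gb_cont
  continuous_invFun := gb_cont

theorem Ok.symm {B : Set (Fin 3 → ℂ)} {ρ ρ' : ℂ} (h : Ok B ρ ρ') : Ok (gb ⁻¹' B) ρ' ρ := by
  obtain ⟨h1, h2, h3, h4, h5⟩ := h
  refine ⟨h1.preimage gb_cont, ?_, h4, h3, ?_⟩
  · have e : gb ⁻¹' B = gb '' B := by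
      ext b
      constructor
      · intro hb
        exact ⟨gb b, hb, gb_gb b⟩
      · rintro ⟨c, hc, rfl⟩
        show gb (gb c) ∈ B
        rwa [gb_gb]
    rw [e]
    exact h2.image gb gb_cont.continuousOn
  · intro b hb
    obtain ⟨e1, e2, e3⟩ := h5 (gb b) hb
    rw [dt_gb] at e1
    rw [gb_gb] at e3
    exact ⟨e1, e3, e2⟩

theorem gx_apply (x : V 6) : gx x 0 = x 0 ∧ gx x 1 = x 1 ∧ gx x 2 = x 2 ∧ gx x 3 = x 3 ∧
    gx x 4 = x 4 ∧ gx x 5 = -(x 5) ∧ gx x 6 = x 6 := by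
  refine ⟨?_, ?_, ?_, ?_, ?_, ?_, ?_⟩ <;> simp [gx]

theorem q3_gx (x : V 6) : q3 (gx x) = x 0 * x 4 - x 1 * x 5 + x 3 ^ 2 := by
  obtain ⟨e0, e1, e2, e3, e4, e5, e6⟩ := gx_apply x
  rw [q3, e0, e1, e3, e4, e5]
  ring

theorem bb_apply (x : V 6) : bb x 0 = x 3 / x 2 ∧ bb x 1 = x 4 / x 2 ∧ bb x 2 = x 5 / x 2 :=
  ⟨rfl, rfl, rfl⟩

theorem coord {x : V 6} (hx : x ∈ Cone) (h2 : x 2 ≠ 0) (hd : dt (bb x) ≠ 0) :
    x 0 = x 2 * uu (bb x) ∧ x 1 = x 2 * vv (bb x) ∧ x 3 = x 2 * bb x 0 ∧ x 4 = x 2 * bb x 1 ∧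
      x 5 = x 2 * bb x 2 := by
  obtain ⟨b0, b1, b2⟩ := bb_apply x
  have e3 : x 3 = x 2 * bb x 0 := by rw [b0]; field_simp
  have e4 : x 4 = x 2 * bb x 1 := by rw [b1]; field_simp
  have e5 : x 5 = x 2 * bb x 2 := by rw [b2]; field_simp
  have g1 := hx.2.1
  have g2 := hx.2.2.1
  unfold f1 at g1
  unfold f2 at g2
  rw [e3, e4] at g1
  rw [e3, e4, e5] at g2
  have k1 : x 0 + x 1 * bb x 0 = x 2 * bb x 1 ^ 2 := by
    apply mul_left_cancel₀ h2
    linear_combination g1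
  have k2 : x 0 * bb x 0 + x 1 * bb x 1 = x 2 * (bb x 2 ^ 2 - 1) := by
    apply mul_left_cancel₀ h2
    linear_combination g2
  refine ⟨?_, ?_, e3, e4, e5⟩
  · rw [uu, mul_div_assoc', eq_div_iff hd, dt]
    linear_combination bb x 1 * k1 - bb x 0 * k2
  · rw [vv, mul_div_assoc', eq_div_iff hd, dt]
    linear_combination k2 - bb x 0 * k1

theorem q3_eq {x : V 6} (hx : x ∈ Cone) (h2 : x 2 ≠ 0) (hd : dt (bb x) ≠ 0) :
    q3 x = x 2 ^ 2 * GG (bb x) ∧ q3 (gx x) = x 2 ^ 2 * GG (gb (bb x)) := by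
  obtain ⟨e0, e1, e3, e4, e5⟩ := coord hx h2 hd
  constructor
  · rw [q3, GG]
    rw [e0, e1, e3, e4, e5]
    ring
  · rw [q3_gx, GG, uu_gb, vv_gb]
    have g0 : gb (bb x) 0 = bb x 0 := rfl
    have g1 : gb (bb x) 1 = bb x 1 := rfl
    have g2 : gb (bb x) 2 = -(bb x 2) := rfl
    rw [g0, g1, g2]
    rw [e0, e1, e3, e4, e5]
    ring

theorem sec_apply (ρ : ℂ) (b : Fin 3 → ℂ) : sec ρ b 0 = uu b ∧ sec ρ b 1 = vv b ∧
    sec ρ b 2 = 1 ∧ sec ρ b 3 = b 0 ∧ sec ρ b 4 = b 1 ∧ sec ρ b 5 = b 2 ∧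
    sec ρ b 6 = ρ * sq (GG b / ρ ^ 2) := ⟨rfl, rfl, rfl, rfl, rfl, rfl, rfl⟩

theorem ph_apply (ρ : ℂ) (x : V 6) : ph ρ x 0 = x 0 ∧ ph ρ x 1 = x 1 ∧ ph ρ x 2 = x 2 ∧
    ph ρ x 3 = x 3 ∧ ph ρ x 4 = x 4 ∧ ph ρ x 5 = -(x 5) ∧
    ph ρ x 6 = x 2 * ρ * sq (q3 (gx x) / (x 2 * ρ) ^ 2) := ⟨rfl, rfl, rfl, rfl, rfl, rfl, rfl⟩

theorem ext7 {x y : V 6} (h0 : x 0 = y 0) (h1 : x 1 = y 1) (h2 : x 2 = y 2) (h3 : x 3 = y 3)
    (h4 : x 4 = y 4) (h5 : x 5 = y 5) (h6 : x 6 = y 6) : x = y := by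
  funext i
  fin_cases i
  · exact h0
  · exact h1
  · exact h2
  · exact h3
  · exact h4
  · exact h5
  · exact h6

theorem sec_mem {ρ : ℂ} (hρ : ρ ≠ 0) {b : Fin 3 → ℂ} (hd : dt b ≠ 0) : sec ρ b ∈ Cone := by
  obtain ⟨e0, e1, e2, e3, e4, e5, e6⟩ := sec_apply ρ b
  refine ⟨?_, ?_, ?_, ?_⟩
  · intro h
    have := congrFun h 2
    rw [e2] at this
    simp at this
  · rw [f1, e0, e1, e2, e3, e4, uu, vv]
    field_simp
    rw [dt]
    ring
  · rw [f2, e0, e1, e2, e3, e4, e5, uu, vv]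
    field_simp
    rw [dt]
    ring
  · rw [f3, e0, e1, e3, e4, e5, e6, mul_pow, sq_sq, GG]
    field_simp
    ring

theorem smul_mem {x : V 6} (hx : x ∈ Cone) {c : ℂ} (hc : c ≠ 0) : c • x ∈ Cone := by
  obtain ⟨h0, h1, h2, h3⟩ := hx
  refine ⟨smul_ne_zero hc h0, ?_, ?_, ?_⟩
  · unfold f1 at h1 ⊢
    simp only [Pi.smul_apply, smul_eq_mul]
    linear_combination c ^ 2 * h1
  · unfold f2 at h2 ⊢
    simp only [Pi.smul_apply, smul_eq_mul]
    linear_combination c ^ 2 * h2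
  · unfold f3 at h3 ⊢
    simp only [Pi.smul_apply, smul_eq_mul]
    linear_combination c ^ 2 * h3

theorem bb_smul {x : V 6} {c : ℂ} (hc : c ≠ 0) : bb (c • x) = bb x := by
  funext i
  fin_cases i
  · show c * x 3 / (c * x 2) = x 3 / x 2
    exact mul_div_mul_left _ _ hc
  · show c * x 4 / (c * x 2) = x 4 / x 2
    exact mul_div_mul_left _ _ hc
  · show c * x 5 / (c * x 2) = x 5 / x 2
    exact mul_div_mul_left _ _ hc

theorem U0_smul {B : Set (Fin 3 → ℂ)} {ρ : ℂ} {x : V 6} (hx : x ∈ U0 B ρ) {c : ℂ}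
    (hc : c ≠ 0) : c • x ∈ U0 B ρ := by
  obtain ⟨h1, h2, h3, h4⟩ := hx
  refine ⟨smul_mem h1 hc, mul_ne_zero hc h2, ?_, ?_⟩
  · rw [bb_smul hc]
    exact h3
  · show 0 < (c * x 6 / (c * x 2 * ρ)).re
    rw [mul_assoc, mul_div_mul_left _ _ hc]
    exact h4

theorem U0_eq {B : Set (Fin 3 → ℂ)} {ρ ρ' : ℂ} (h : Ok B ρ ρ') :
    U0 B ρ = (fun p : ℂ × (Fin 3 → ℂ) => p.1 • sec ρ p.2) '' ({0}ᶜ ×ˢ B) := by
  obtain ⟨h1, h2, hρ, h4, h5⟩ := h
  ext x
  constructor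
  · rintro ⟨g1, g2, g3, g4⟩
    obtain ⟨k1, k2, k3⟩ := h5 _ g3
    obtain ⟨e0, e1, e3, e4, e5⟩ := coord g1 g2 k1
    obtain ⟨q, _⟩ := q3_eq g1 g2 k1
    refine ⟨(x 2, bb x), ⟨g2, g3⟩, ?_⟩
    obtain ⟨d0, d1, d2, d3, d4, d5, d6⟩ := sec_apply ρ (bb x)
    refine ext7 ?_ ?_ ?_ ?_ ?_ ?_ ?_
    · show x 2 * sec ρ (bb x) 0 = x 0
      rw [d0, e0]
    · show x 2 * sec ρ (bb x) 1 = x 1
      rw [d1, e1]
    · show x 2 * sec ρ (bb x) 2 = x 2
      rw [d2, mul_one]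
    · show x 2 * sec ρ (bb x) 3 = x 3
      rw [d3, ← e3]
    · show x 2 * sec ρ (bb x) 4 = x 4
      rw [d4, ← e4]
    · show x 2 * sec ρ (bb x) 5 = x 5
      rw [d5, ← e5]
    · show x 2 * sec ρ (bb x) 6 = x 6
      have g5 := g1.2.2.2
      have e : GG (bb x) / ρ ^ 2 = (x 6 / (x 2 * ρ)) ^ 2 := by
        have : x 6 ^ 2 = x 2 ^ 2 * GG (bb x) := by
          rw [← q]
          unfold f3 at g5
          rw [q3]
          linear_combination -g5
        rw [div_pow, this]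
        field_simp
      rw [d6, e, sq_of_re g4]
      field_simp
  · rintro ⟨⟨c, b⟩, ⟨hc, hb⟩, rfl⟩
    have hc' : c ≠ 0 := hc
    obtain ⟨k1, k2, k3⟩ := h5 _ hb
    obtain ⟨d0, d1, d2, d3, d4, d5, d6⟩ := sec_apply ρ b
    have hbb : bb (sec ρ b) = b := by
      funext i
      fin_cases i
      · show sec ρ b 3 / sec ρ b 2 = b 0
        rw [d3, d2, div_one]
      · show sec ρ b 4 / sec ρ b 2 = b 1
        rw [d4, d2, div_one]
      · show sec ρ b 5 / sec ρ b 2 = b 2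
        rw [d5, d2, div_one]
    have hs : sec ρ b ∈ U0 B ρ := by
      refine ⟨sec_mem hρ k1, ?_, ?_, ?_⟩
      · rw [d2]
        exact one_ne_zero
      · rw [hbb]
        exact hb
      · rw [d6, d2, one_mul, mul_div_cancel_left₀ _ hρ]
        exact sq_re k2
    exact U0_smul hs hc'

theorem dt_cont : Continuous dt := by
  unfold dt
  fun_prop

theorem uu_cont {b : Fin 3 → ℂ} (h : dt b ≠ 0) : ContinuousAt uu b := by
  unfold uu
  refine ContinuousAt.div ?_ dt_cont.continuousAt h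
  fun_prop

theorem vv_cont {b : Fin 3 → ℂ} (h : dt b ≠ 0) : ContinuousAt vv b := by
  unfold vv
  refine ContinuousAt.div ?_ dt_cont.continuousAt h
  fun_prop

theorem GG_cont {b : Fin 3 → ℂ} (h : dt b ≠ 0) : ContinuousAt GG b := by
  unfold GG
  exact (((uu_cont h).mul (continuous_apply 1).continuousAt).add
    ((vv_cont h).mul (continuous_apply 2).continuousAt)).add
    ((continuous_apply 0).continuousAt.pow 2)

theorem sec_cont {ρ : ℂ} {b : Fin 3 → ℂ} (h : dt b ≠ 0) (h2 : 0 < (GG b / ρ ^ 2).re) :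
    ContinuousAt (sec ρ) b := by
  refine continuousAt_pi.mpr fun i => ?_
  fin_cases i
  · exact uu_cont h
  · exact vv_cont h
  · exact continuousAt_const
  · exact (continuous_apply 0).continuousAt
  · exact (continuous_apply 1).continuousAt
  · exact (continuous_apply 2).continuousAt
  · show ContinuousAt (fun b => ρ * sq (GG b / ρ ^ 2)) b
    refine ContinuousAt.mul continuousAt_const ?_
    have h3 : ContinuousAt (fun b => GG b / ρ ^ 2) b := (GG_cont h).div_const _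
    exact ContinuousAt.cpow h3 continuousAt_const (slit h2)

theorem U0_conn {B : Set (Fin 3 → ℂ)} {ρ ρ' : ℂ} (h : Ok B ρ ρ') : IsConnected (U0 B ρ) := by
  rw [U0_eq h]
  obtain ⟨h1, h2, hρ, h4, h5⟩ := h
  refine IsConnected.image ?_ _ ?_
  · refine IsConnected.prod ?_ h2
    exact isConnected_compl_singleton_of_one_lt_rank (by simp) 0
  · intro p hp
    obtain ⟨k1, k2, k3⟩ := h5 p.2 hp.2
    apply ContinuousAt.continuousWithinAt
    exact continuousAt_fst.smul ((sec_cont k1 k2).comp continuousAt_snd)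

theorem U0_open {B : Set (Fin 3 → ℂ)} (hB : IsOpen B) {ρ : ℂ} (hρ : ρ ≠ 0) :
    ∃ O : Set (V 6), IsOpen O ∧ U0 B ρ = O ∩ Cone := by
  refine ⟨{x | x 2 ≠ 0 ∧ bb x ∈ B ∧ 0 < (x 6 / (x 2 * ρ)).re}, ?_, ?_⟩
  · rw [isOpen_iff_mem_nhds]
    rintro x ⟨h1, h2, h3⟩
    have c2 : ContinuousAt (fun y : V 6 => y 2) x := (continuous_apply 2).continuousAt
    have hbc : ContinuousAt bb x := by
      refine continuousAt_pi.mpr fun i => ?_
      fin_cases i
      · exact (continuous_apply 3).continuousAt.div c2 h1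
      · exact (continuous_apply 4).continuousAt.div c2 h1
      · exact (continuous_apply 5).continuousAt.div c2 h1
    have hrc : ContinuousAt (fun y : V 6 => (y 6 / (y 2 * ρ)).re) x := by
      refine Complex.continuous_re.continuousAt.comp ?_
      exact (continuous_apply 6).continuousAt.div (c2.mul continuousAt_const)
        (mul_ne_zero h1 hρ)
    have a1 := c2.eventually_ne h1
    have a2 := hbc.eventually (hB.mem_nhds h2)
    have a3 := hrc.eventually (lt_mem_nhds h3)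
    filter_upwards [a1, a2, a3] with y k1 k2 k3
    exact ⟨k1, k2, k3⟩
  · ext x
    constructor
    · rintro ⟨h1, h2, h3, h4⟩
      exact ⟨⟨h2, h3, h4⟩, h1⟩
    · rintro ⟨⟨h2, h3, h4⟩, h1⟩
      exact ⟨h1, h2, h3, h4⟩

/-! ## The map -/

theorem ph_bb (ρ : ℂ) (x : V 6) : bb (ph ρ x) = gb (bb x) := by
  obtain ⟨e0, e1, e2, e3, e4, e5, e6⟩ := ph_apply ρ x
  funext i
  fin_cases i
  · show ph ρ x 3 / ph ρ x 2 = x 3 / x 2
    rw [e3, e2]
  · show ph ρ x 4 / ph ρ x 2 = x 4 / x 2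
    rw [e4, e2]
  · show ph ρ x 5 / ph ρ x 2 = -(x 5 / x 2)
    rw [e5, e2, neg_div]

theorem ph_mem {B : Set (Fin 3 → ℂ)} {ρ ρ' : ℂ} (h : Ok B ρ ρ') {x : V 6}
    (hx : x ∈ U0 B ρ) : ph ρ' x ∈ U0 (gb ⁻¹' B) ρ' := by
  obtain ⟨h1, h2, hρ, h4, h5⟩ := h
  obtain ⟨g1, g2, g3, g4⟩ := hx
  obtain ⟨k1, k2, k3⟩ := h5 _ g3
  obtain ⟨e0, e1, e2, e3, e4, e5, e6⟩ := ph_apply ρ' x
  have hz : x 2 * ρ' ≠ 0 := mul_ne_zero g2 h4
  refine ⟨⟨?_, ?_, ?_, ?_⟩, ?_, ?_, ?_⟩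
  · intro h
    apply g2
    have := congrFun h 2
    rw [e2] at this
    exact this
  · have := g1.2.1
    unfold f1 at this ⊢
    rw [e0, e1, e2, e3, e4]
    exact this
  · have := g1.2.2.1
    unfold f2 at this ⊢
    rw [e0, e1, e2, e3, e4, e5]
    linear_combination this
  · unfold f3
    rw [e0, e1, e3, e4, e5, e6, mul_pow, sq_sq, q3_gx]
    field_simp
    ring
  · rw [e2]
    exact g2
  · show gb (bb (ph ρ' x)) ∈ B
    rw [ph_bb, gb_gb]
    exact g3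
  · rw [e6, e2, mul_div_cancel_left₀ _ hz]
    apply sq_re
    have : q3 (gx x) / (x 2 * ρ') ^ 2 = GG (gb (bb x)) / ρ' ^ 2 := by
      rw [(q3_eq g1 g2 k1).2]
      field_simp
    rw [this]
    exact k3

theorem ph_ph {B : Set (Fin 3 → ℂ)} {ρ ρ' : ℂ} (hρ : ρ ≠ 0) {x : V 6}
    (hx : x ∈ U0 B ρ) : ph ρ (ph ρ' x) = x := by
  obtain ⟨g1, g2, g3, g4⟩ := hx
  obtain ⟨e0, e1, e2, e3, e4, e5, e6⟩ := ph_apply ρ' x
  obtain ⟨d0, d1, d2, d3, d4, d5, d6⟩ := ph_apply ρ (ph ρ' x)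
  refine ext7 ?_ ?_ ?_ ?_ ?_ ?_ ?_
  · rw [d0, e0]
  · rw [d1, e1]
  · rw [d2, e2]
  · rw [d3, e3]
  · rw [d4, e4]
  · rw [d5, e5, neg_neg]
  · rw [d6, q3_gx, e0, e1, e3, e4, e5, e2]
    have g5 := g1.2.2.2
    unfold f3 at g5
    have : (x 0 * x 4 - x 1 * -x 5 + x 3 ^ 2) / (x 2 * ρ) ^ 2 = (x 6 / (x 2 * ρ)) ^ 2 := by
      rw [div_pow]
      congr 1
      linear_combination g5
    rw [this, sq_of_re g4]
    field_simp

theorem ph_smul {ρ : ℂ} (x : V 6) {c : ℂ} (hc : c ≠ 0) :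
    ph ρ (c • x) = c • ph ρ x := by
  obtain ⟨e0, e1, e2, e3, e4, e5, e6⟩ := ph_apply ρ x
  obtain ⟨d0, d1, d2, d3, d4, d5, d6⟩ := ph_apply ρ (c • x)
  refine ext7 ?_ ?_ ?_ ?_ ?_ ?_ ?_
  · rw [d0]
    show c * x 0 = c * ph ρ x 0
    rw [e0]
  · rw [d1]
    show c * x 1 = c * ph ρ x 1
    rw [e1]
  · rw [d2]
    show c * x 2 = c * ph ρ x 2
    rw [e2]
  · rw [d3]
    show c * x 3 = c * ph ρ x 3
    rw [e3]
  · rw [d4]
    show c * x 4 = c * ph ρ x 4
    rw [e4]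
  · rw [d5]
    show -(c * x 5) = c * ph ρ x 5
    rw [e5]
    ring
  · rw [d6, q3_gx]
    show c * x 2 * ρ * sq ((c * x 0 * (c * x 4) - c * x 1 * (c * x 5) + (c * x 3) ^ 2) /
      (c * x 2 * ρ) ^ 2) = c * ph ρ x 6
    rw [e6, q3_gx]
    have : (c * x 0 * (c * x 4) - c * x 1 * (c * x 5) + (c * x 3) ^ 2) / (c * x 2 * ρ) ^ 2 =
        (x 0 * x 4 - x 1 * x 5 + x 3 ^ 2) / (x 2 * ρ) ^ 2 := by
      have a1 : c * x 0 * (c * x 4) - c * x 1 * (c * x 5) + (c * x 3) ^ 2 =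
          c ^ 2 * (x 0 * x 4 - x 1 * x 5 + x 3 ^ 2) := by ring
      have a2 : (c * x 2 * ρ) ^ 2 = c ^ 2 * (x 2 * ρ) ^ 2 := by ring
      rw [a1, a2]
      exact mul_div_mul_left _ _ (pow_ne_zero 2 hc)
    rw [this]
    ring

theorem ph_an {ρ : ℂ} (hρ : ρ ≠ 0) {x : V 6} (h2 : x 2 ≠ 0)
    (hr : 0 < (q3 (gx x) / (x 2 * ρ) ^ 2).re) : AnalyticAt ℂ (ph ρ) x := by
  have pj : ∀ i : Fin 7, AnalyticAt ℂ (fun y : V 6 => y i) x := fun i =>
    (ContinuousLinearMap.proj (R := ℂ) (φ := fun _ : Fin 7 => ℂ) i).analyticAt x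
  rw [analyticAt_pi_iff]
  intro i
  fin_cases i
  · exact pj 0
  · exact pj 1
  · exact pj 2
  · exact pj 3
  · exact pj 4
  · exact (pj 5).neg
  · show AnalyticAt ℂ (fun y : V 6 => y 2 * ρ * sq (q3 (gx y) / (y 2 * ρ) ^ 2)) x
    refine ((pj 2).mul analyticAt_const).mul (sq_an ?_ hr)
    refine AnalyticAt.div ?_ (((pj 2).mul analyticAt_const).pow 2)
      (pow_ne_zero 2 (mul_ne_zero h2 hρ))
    have : (fun y : V 6 => q3 (gx y)) = fun y => y 0 * y 4 - y 1 * y 5 + y 3 ^ 2 := by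
      funext y
      exact q3_gx y
    rw [this]
    exact (((pj 0).mul (pj 4)).sub ((pj 1).mul (pj 5))).add ((pj 3).pow 2)

theorem ph_der {ρ : ℂ} (hρ : ρ ≠ 0) {x : V 6} (h2 : x 2 ≠ 0)
    (hr : 0 < (q3 (gx x) / (x 2 * ρ) ^ 2).re) (v : V 6) :
    (∀ i, i ≠ 6 → fderiv ℂ (ph ρ) x v i = gx v i) ∧
      2 * ph ρ x 6 * fderiv ℂ (ph ρ) x v 6 = b3 (gx (pr x)) (gx v) := by
  have hF : HasFDerivAt (ph ρ) (fderiv ℂ (ph ρ) x) x :=
    (ph_an hρ h2 hr).differentiableAt.hasFDerivAt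
  have hl : HasDerivAt (fun t : ℂ => x + t • v) v 0 := by
    have := ((hasDerivAt_id (0 : ℂ)).smul_const v).const_add x
    simpa using this
  have hF' : HasFDerivAt (ph ρ) (fderiv ℂ (ph ρ) x) ((fun t : ℂ => x + t • v) 0) := by
    simpa using hF
  have hc := hF'.comp_hasDerivAt (0 : ℂ) hl
  have hi : ∀ i, HasDerivAt (fun t : ℂ => ph ρ (x + t • v) i) (fderiv ℂ (ph ρ) x v i) 0 :=
    hasDerivAt_pi.mp hc
  have key : ∀ i : Fin 7, (∀ t : ℂ, ph ρ (x + t • v) i = gx (x + t • v) i) →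
      (∀ t : ℂ, gx (x + t • v) i = gx x i + t * gx v i) → fderiv ℂ (ph ρ) x v i = gx v i := by
    intro i a1 a2
    have b1 : HasDerivAt (fun t : ℂ => ph ρ (x + t • v) i) (gx v i) 0 := by
      have e : (fun t : ℂ => ph ρ (x + t • v) i) = fun t => gx x i + t * gx v i := by
        funext t
        rw [a1, a2]
      rw [e]
      have := ((hasDerivAt_id (0 : ℂ)).mul_const (gx v i)).const_add (gx x i)
      simpa using this
    exact (hi i).unique b1
  have hg : ∀ (t : ℂ) (i : Fin 7), gx (x + t • v) i = gx x i + t * gx v i := by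
    intro t i
    by_cases h : i = 5
    · subst h
      rw [(gx_apply _).2.2.2.2.2.1, (gx_apply x).2.2.2.2.2.1, (gx_apply v).2.2.2.2.2.1]
      simp only [Pi.add_apply, Pi.smul_apply, smul_eq_mul]
      ring
    · simp [gx, Function.update_of_ne h]
  refine ⟨?_, ?_⟩
  · intro i hi6
    refine key i (fun t => ?_) (fun t => hg t i)
    obtain ⟨e0, e1, e2, e3, e4, e5, e6⟩ := ph_apply ρ (x + t • v)
    obtain ⟨d0, d1, d2, d3, d4, d5, d6⟩ := gx_apply (x + t • v)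
    fin_cases i
    · exact e0.trans d0.symm
    · exact e1.trans d1.symm
    · exact e2.trans d2.symm
    · exact e3.trans d3.symm
    · exact e4.trans d4.symm
    · exact e5.trans d5.symm
    · exact absurd rfl hi6
  · have h6 := (hi 6).pow 2
    have hev : (fun t : ℂ => ph ρ (x + t • v) 6 ^ 2) =ᶠ[𝓝 0]
        fun t => q3 (gx x) + t * (b3 (gx (pr x)) (gx v)) + t ^ 2 * q3 (gx v) := by
      have hne : ∀ᶠ t : ℂ in 𝓝 0, (x + t • v) 2 ≠ 0 := by
        have hcn : ContinuousAt (fun t : ℂ => (x + t • v) 2) 0 := by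
          have : Continuous fun t : ℂ => x 2 + t * v 2 := by fun_prop
          exact this.continuousAt
        exact hcn.eventually_ne (by simpa using h2)
      filter_upwards [hne] with t ht
      rw [(ph_apply ρ (x + t • v)).2.2.2.2.2.2, mul_pow, sq_sq]
      rw [mul_div_cancel₀ _ (pow_ne_zero 2 (mul_ne_zero ht hρ))]
      rw [q3_gx, q3_gx, q3_gx, b3]
      have p0 : gx (pr x) 0 = x 0 := by simp [gx, pr]
      have p1 : gx (pr x) 1 = x 1 := by simp [gx, pr]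
      have p3 : gx (pr x) 3 = x 3 := by simp [gx, pr]
      have p4 : gx (pr x) 4 = x 4 := by simp [gx, pr]
      have p5 : gx (pr x) 5 = -(x 5) := by simp [gx, pr]
      have p6 : gx (pr x) 6 = 0 := by simp [gx, pr]
      obtain ⟨d0, d1, d2, d3, d4, d5, d6⟩ := gx_apply v
      rw [p0, p1, p3, p4, p5, p6, d0, d1, d3, d4, d5, d6]
      simp only [Pi.add_apply, Pi.smul_apply, smul_eq_mul]
      ring
    have h7 : HasDerivAt (fun t : ℂ => q3 (gx x) + t * (b3 (gx (pr x)) (gx v)) +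
        t ^ 2 * q3 (gx v)) (b3 (gx (pr x)) (gx v)) 0 := by
      have a1 := ((hasDerivAt_id (0 : ℂ)).mul_const (b3 (gx (pr x)) (gx v))).const_add
        (q3 (gx x))
      have a2 := ((hasDerivAt_id (0 : ℂ)).pow 2).mul_const (q3 (gx v))
      exact (a1.add a2).congr_deriv (by simp)
    have h8 := h7.congr_of_eventuallyEq hev
    have h9 := h6.unique h8
    simp only [zero_smul, add_zero] at h9
    rw [← h9]
    norm_num

/-! ## The polynomials -/

/-- the substitution `z4 ↦ -z4` -/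
def gpol (P : Po 6) : Po 6 := bind₁ (fun i : Fin 7 => if i = 5 then -(X 5 : Po 6) else X i) P

theorem eval_gpol (P : Po 6) (x : V 6) : eval x (gpol P) = eval (gx x) P := by
  rw [gpol, eval, eval₂Hom_bind₁, ← eval]
  congr 2
  funext i
  by_cases h : i = 5
  · subst h
    simp [gx]
  · simp [gx, h]

/-- the polynomial `q3 ∘ g` -/
def qpol : Po 6 := X 0 * X 4 - X 1 * X 5 + X 3 ^ 2

theorem eval_qpol (x : V 6) : eval x qpol = q3 (gx x) := by
  rw [q3_gx]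
  simp [qpol]

theorem g_point {P : Po 6} (hI : Indep P) (h : ∃ x ∈ Cone, eval x P ≠ 0) :
    ∃ x ∈ Cone, eval x (gpol P) ≠ 0 := by
  obtain ⟨x, hx, h0⟩ := h
  obtain ⟨w, hw⟩ := IsAlgClosed.exists_pow_nat_eq (x 0 * x 4 - x 1 * x 5 + x 3 ^ 2)
    (n := 2) (by norm_num)
  refine ⟨![x 0, x 1, x 2, x 3, x 4, -(x 5), w], ⟨?_, ?_, ?_, ?_⟩, ?_⟩
  · intro h
    have c0 : x 0 = 0 := congrFun h 0
    have c1 : x 1 = 0 := congrFun h 1
    have c2 : x 2 = 0 := congrFun h 2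
    have c3 : x 3 = 0 := congrFun h 3
    have c4 : x 4 = 0 := congrFun h 4
    have c5 : -(x 5) = 0 := congrFun h 5
    rw [neg_eq_zero] at c5
    apply hx.1
    have g3 := hx.2.2.2
    unfold f3 at g3
    rw [c0, c1, c3] at g3
    have c6 : x 6 = 0 := by
      have : x 6 ^ 2 = 0 := by linear_combination -g3
      exact pow_eq_zero_iff (two_ne_zero) |>.mp this
    exact ext7 c0 c1 c2 c3 c4 c5 c6
  · have := hx.2.1
    unfold f1 at this ⊢
    exact this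
  · have := hx.2.2.1
    unfold f2 at this ⊢
    show x 0 * x 3 + x 1 * x 4 + x 2 ^ 2 - (-(x 5)) ^ 2 = 0
    linear_combination this
  · unfold f3
    show x 0 * x 4 + x 1 * (-(x 5)) + x 3 ^ 2 - w ^ 2 = 0
    linear_combination -hw
  · rw [eval_gpol]
    have : eval (gx ![x 0, x 1, x 2, x 3, x 4, -(x 5), w]) P = eval x P := by
      apply hI
      intro i hi
      fin_cases i
      · rfl
      · rfl
      · rfl
      · rfl
      · rfl
      · show gx ![x 0, x 1, x 2, x 3, x 4, -(x 5), w] 5 = x 5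
        rw [(gx_apply _).2.2.2.2.2.1]
        show -(-(x 5)) = x 5
        rw [neg_neg]
      · exact absurd rfl hi
    rw [this]
    exact h0

theorem base (hp : PrimesS) {P : Po 6} (hI : Indep P) (h : ∃ x ∈ Cone, eval x P ≠ 0) :
    ∃ x ∈ Cone, x 2 ≠ 0 ∧ eval x DD ≠ 0 ∧ x 6 ≠ 0 ∧ eval x P ≠ 0 ∧ eval (gx x) P ≠ 0 ∧
      q3 (gx x) ≠ 0 := by
  have t : ∀ Q : Po 6, eval x11 Q ≠ 0 → ∃ x ∈ Cone, eval x Q ≠ 0 := fun Q hQ =>
    ⟨x11, x11_mem, hQ⟩
  have mul : ∀ Q R : Po 6, (∃ x ∈ Cone, eval x Q ≠ 0) → (∃ x ∈ Cone, eval x R ≠ 0) →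
      ∃ x ∈ Cone, eval x (Q * R) ≠ 0 := by
    intro Q R h1 h2
    obtain ⟨x, hx, a, b⟩ := cone_irr hp h1 h2
    exact ⟨x, hx, by rw [map_mul]; exact mul_ne_zero a b⟩
  have h1 := t (X 2) (by simp [x11])
  have h2 := t DD (by simp [x11, DD])
  have h3 := t (X 6) (by simp [x11])
  have h4 := t qpol (by simp [x11, qpol])
  obtain ⟨x, hx, e⟩ := mul _ _ (mul _ _ (mul _ _ (mul _ _ (mul _ _ h1 h2) h3) h)
    (g_point hI h)) h4
  rw [map_mul, map_mul, map_mul, map_mul, map_mul] at e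
  obtain ⟨e, e6⟩ := mul_ne_zero_iff.mp e
  obtain ⟨e, e5⟩ := mul_ne_zero_iff.mp e
  obtain ⟨e, e4⟩ := mul_ne_zero_iff.mp e
  obtain ⟨e, e3⟩ := mul_ne_zero_iff.mp e
  obtain ⟨e1, e2⟩ := mul_ne_zero_iff.mp e
  rw [eval_X] at e1 e3
  rw [eval_gpol] at e5
  rw [eval_qpol] at e6
  exact ⟨x, hx, e1, e2, e3, e4, e5, e6⟩

theorem s0_cont {b : Fin 3 → ℂ} (h : dt b ≠ 0) : ContinuousAt s0 b := by
  refine continuousAt_pi.mpr fun i => ?_
  fin_cases i
  · exact uu_cont h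
  · exact vv_cont h
  · exact continuousAt_const
  · exact (continuous_apply 0).continuousAt
  · exact (continuous_apply 1).continuousAt
  · exact (continuous_apply 2).continuousAt
  · exact continuousAt_const

/-- the value of a homogeneous polynomial on a multiple -/
theorem eval_smul' {k : ℕ} {P : Po 6} (hk : P.IsHomogeneous k) (y : V 6) (c : ℂ) :
    eval (c • y) P = c ^ k * eval y P := by
  rw [eval_eq', eval_eq', Finset.mul_sum]
  refine Finset.sum_congr rfl fun d hd => ?_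
  have h1 : coeff d P ≠ 0 := mem_support_iff.mp hd
  have h2 : d.degree = k := by
    have := hk h1
    rwa [Finsupp.degree_eq_weight_one]
  have h3 : ∏ i, (c • y) i ^ d i = c ^ k * ∏ i, y i ^ d i := by
    have : ∀ i, (c • y) i ^ d i = c ^ d i * y i ^ d i := fun i => by
      rw [Pi.smul_apply, smul_eq_mul, mul_pow]
    rw [Finset.prod_congr rfl fun i _ => this i, Finset.prod_mul_distrib,
      Finset.prod_pow_eq_pow_sum]
    congr 2
    rw [← h2, Finsupp.degree_eq_sum]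
  rw [h3]
  ring

/-- being good is a property of the point of projective space -/
theorem good_smul {x : V 6} {c : ℂ} (hc : c ≠ 0) (h : GoodPt (c • x)) : GoodPt x := by
  obtain ⟨h1, h2, S, hS, h3, h4⟩ := h
  have e1 : ∀ ζ : V 6, b1 (c • x) ζ = c * b1 x ζ := fun ζ => by
    simp only [b1, Pi.smul_apply, smul_eq_mul]
    ring
  have e2 : ∀ ζ : V 6, b2 (c • x) ζ = c * b2 x ζ := fun ζ => by
    simp only [b2, Pi.smul_apply, smul_eq_mul]
    ring
  have e3 : pr (c • x) = c • pr x := by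
    funext i
    by_cases h : i = 6
    · subst h
      simp [pr]
    · simp [pr, Function.update_of_ne h]
  have e4 : ∀ y ζ : V 6, b3 (c • y) ζ = c * b3 y ζ := fun y ζ => by
    simp only [b3, Pi.smul_apply, smul_eq_mul]
    ring
  have e5 : ∀ y : V 6, f3 (c • y) = c ^ 2 * f3 y := fun y => by
    simp only [f3, Pi.smul_apply, smul_eq_mul]
    ring
  have e6 : ∀ ζ : V 6, hd (c • x) ζ = c ^ 3 * hd x ζ := fun ζ => by
    simp only [hd, pl, Pi.smul_apply, smul_eq_mul]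
    ring
  have hl : ∀ ζ : V 6, LineDir (c • x) ζ ↔ LineDir x ζ := fun ζ => by
    unfold LineDir
    rw [e1, e2]
    simp [hc]
  refine ⟨?_, ?_, S, hS, fun ζ hζ => ?_, fun η hη => ?_⟩
  · have := smul_mem h1 (inv_ne_zero hc)
    rwa [inv_smul_smul₀ hc] at this
  · intro h
    apply h2
    rw [Pi.smul_apply, h, smul_zero]
  · obtain ⟨k1, k2, k3⟩ := h3 ζ hζ
    refine ⟨(hl ζ).mp k1, ?_, ?_⟩
    · intro h
      apply k2
      rw [e6, h, mul_zero]
    · intro h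
      apply k3
      rw [e3, e4, e5]
      linear_combination c ^ 2 * h
  · obtain ⟨ζ, hζ, k⟩ := h4 η ((hl η).mpr hη)
    refine ⟨ζ, hζ, ?_⟩
    rw [e3] at k
    have hle : Submodule.span ℂ {c • pr x, ζ} ≤ Submodule.span ℂ {pr x, ζ} := by
      rw [Submodule.span_le]
      intro z hz
      simp only [Set.mem_insert_iff, Set.mem_singleton_iff] at hz
      rcases hz with rfl | rfl
      · exact Submodule.smul_mem _ _ (Submodule.subset_span (by simp))
      · exact Submodule.subset_span (by simp)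
    exact hle k

/-- the restriction of a polynomial to a line through the origin -/
theorem line_pol (P : Po 6) : ∃ n : ℕ, ∃ R : V 6 → Polynomial ℂ,
    (∀ x c, (R x).eval c = eval (c • x) P) ∧
    (∀ x, ∀ k < n, (R x).coeff k = eval x (homogeneousComponent k P)) ∧
    ∀ x, eval x P = ∑ k ∈ Finset.range n, eval x (homogeneousComponent k P) := by
  have hs : ∀ x : V 6, eval x P =
      ∑ k ∈ Finset.range (P.totalDegree + 1), eval x (homogeneousComponent k P) := by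
    intro x
    rw [← map_sum, sum_homogeneousComponent]
  refine ⟨P.totalDegree + 1, fun x => ∑ k ∈ Finset.range (P.totalDegree + 1),
    Polynomial.C (eval x (homogeneousComponent k P)) * Polynomial.X ^ k, ?_, ?_, hs⟩
  · intro x c
    rw [Polynomial.eval_finsetSum, hs (c • x)]
    refine Finset.sum_congr rfl fun k _ => ?_
    rw [eval_smul' (homogeneousComponent_isHomogeneous k P)]
    simp only [Polynomial.eval_mul, Polynomial.eval_C, Polynomial.eval_pow, Polynomial.eval_X]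
    ring
  · intro x k hk
    rw [Polynomial.finsetSum_coeff]
    simp only [Polynomial.coeff_C_mul, Polynomial.coeff_X_pow]
    rw [Finset.sum_eq_single k]
    · simp
    · intro j _ hj
      rw [if_neg (fun h => hj h.symm), mul_zero]
    · intro h
      exact absurd (Finset.mem_range.mpr hk) h

/-- the value of a homogeneous polynomial without `w` -/
theorem eval_hom {k : ℕ} {P : Po 6} (hk : P.IsHomogeneous k) (hI : Indep P) {x y : V 6} {c : ℂ}
    (h : ∀ i, i ≠ 6 → x i = c * y i) : eval x P = c ^ k * eval y P := by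
  have h1 : eval x P = eval (c • y) P := by
    apply hI
    intro i hi
    rw [h i hi]
    rfl
  rw [h1, eval_smul' hk]

theorem s0_eq {x : V 6} (hx : x ∈ Cone) (h2 : x 2 ≠ 0) (hd : dt (bb x) ≠ 0) (i : Fin 7)
    (hi : i ≠ 6) : x i = x 2 * s0 (bb x) i := by
  obtain ⟨e0, e1, e3, e4, e5⟩ := coord hx h2 hd
  fin_cases i
  · exact e0
  · exact e1
  · show x 2 = x 2 * 1
    rw [mul_one]
  · exact e3
  · exact e4
  · exact e5
  · exact absurd rfl hi

theorem dt_eq {x : V 6} (h2 : x 2 ≠ 0) : eval x DD = x 2 ^ 2 * dt (bb x) := by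
  obtain ⟨b0, b1, b2⟩ := bb_apply x
  rw [dt, b0, b1, DD]
  simp only [map_sub, map_mul, map_pow, eval_X]
  field_simp

end Lo

open Lo

/-- the polynomial of the general point can be taken homogeneous -/
theorem genHS_of (h : GenS) : GenHS := by
  obtain ⟨P, hI, ⟨x, hx, h0⟩, hP⟩ := h
  obtain ⟨n, R, r1, r2, r3⟩ := line_pol P
  rw [r3 x] at h0
  obtain ⟨k, hk, hk0⟩ := Finset.exists_ne_zero_of_sum_ne_zero h0
  rw [Finset.mem_range] at hk
  refine ⟨k, homogeneousComponent k P, homogeneousComponent_isHomogeneous k P, ?_,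
    ⟨x, hx, hk0⟩, ?_⟩
  · intro y z hyz
    have : R y = R z := by
      apply Polynomial.funext
      intro c
      rw [r1, r1]
      apply hI
      intro i hi
      rw [Pi.smul_apply, Pi.smul_apply, hyz i hi]
    rw [← r2 y k hk, ← r2 z k hk, this]
  · intro y hy hy0 hy6
    have hR : Polynomial.X * R y ≠ 0 := by
      apply mul_ne_zero Polynomial.X_ne_zero
      intro h
      apply hy0
      rw [← r2 y k hk, h, Polynomial.coeff_zero]
    have hc : ∃ c : ℂ, (Polynomial.X * R y).eval c ≠ 0 := by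
      by_contra hcon
      push Not at hcon
      apply hR
      apply Polynomial.funext
      intro c
      rw [hcon c, Polynomial.eval_zero]
    obtain ⟨c, hc⟩ := hc
    rw [Polynomial.eval_mul, Polynomial.eval_X, r1] at hc
    obtain ⟨c0, c1⟩ := mul_ne_zero_iff.mp hc
    apply good_smul c0
    refine hP _ (smul_mem hy c0) c1 ?_
    rw [Pi.smul_apply, smul_eq_mul]
    exact mul_ne_zero c0 hy6

theorem locS : LocS := by
  intro hs hp k P hk hI hne
  obtain ⟨x, hx, a2, aD, a6, aP, aG, aq⟩ := base hp hI hne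
  obtain ⟨w, hw⟩ := IsAlgClosed.exists_pow_nat_eq (q3 (gx x)) (n := 2) (by norm_num)
  have hw0 : w ≠ 0 := by
    rintro rfl
    apply aq
    rw [← hw]
    norm_num
  have hd : dt (bb x) ≠ 0 := by
    intro h
    apply aD
    rw [dt_eq a2, h, mul_zero]
  obtain ⟨q1, q2⟩ := q3_eq hx a2 hd
  set ρ : ℂ := x 6 / x 2 with hρ
  set ρ' : ℂ := w / x 2 with hρ'
  have r0 : ρ ≠ 0 := div_ne_zero a6 a2
  have r0' : ρ' ≠ 0 := div_ne_zero hw0 a2
  have v1 : GG (bb x) / ρ ^ 2 = 1 := by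
    have g3 := hx.2.2.2
    unfold f3 at g3
    have e : x 6 ^ 2 = x 2 ^ 2 * GG (bb x) := by
      rw [← q1, q3]
      linear_combination -g3
    rw [hρ, div_pow, e]
    have : GG (bb x) ≠ 0 := by
      intro h
      rw [h, mul_zero] at e
      exact a6 (pow_eq_zero_iff (two_ne_zero) |>.mp e)
    field_simp
  have v2 : GG (gb (bb x)) / ρ' ^ 2 = 1 := by
    rw [hρ', div_pow, hw, q2]
    have : GG (gb (bb x)) ≠ 0 := by
      intro h
      rw [h, mul_zero] at q2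
      exact aq q2
    field_simp
  have hdg : dt (gb (bb x)) ≠ 0 := by rwa [dt_gb]
  have hPs : eval (s0 (bb x)) P ≠ 0 := by
    intro h
    apply aP
    rw [eval_hom hk hI (s0_eq hx a2 hd), h, mul_zero]
  have hPg : eval (s0 (gb (bb x))) P ≠ 0 := by
    intro h
    apply aG
    rw [eval_hom hk hI (y := s0 (gb (bb x))) (c := x 2), h, mul_zero]
    intro i hi
    obtain ⟨e0, e1, e3, e4, e5⟩ := coord hx a2 hd
    obtain ⟨d0, d1, d2, d3, d4, d5, d6⟩ := gx_apply x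
    fin_cases i
    · exact d0.trans (e0.trans (by show _ = x 2 * uu (gb (bb x)); rw [uu_gb]))
    · exact d1.trans (e1.trans (by show _ = x 2 * vv (gb (bb x)); rw [vv_gb]))
    · exact d2.trans (by show _ = x 2 * (1 : ℂ); rw [mul_one])
    · exact d3.trans e3
    · exact d4.trans e4
    · exact d5.trans (by show _ = x 2 * -(bb x 2); rw [mul_neg, ← e5])
    · exact absurd rfl hi
  -- the ball
  have gbc : ContinuousAt gb (bb x) := gb_cont.continuousAt
  have ev1 : ∀ᶠ b in 𝓝 (bb x), dt b ≠ 0 := dt_cont.continuousAt.eventually_ne hd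
  have ev2 : ∀ᶠ b in 𝓝 (bb x), 0 < (GG b / ρ ^ 2).re := by
    have hc : ContinuousAt (fun b => (GG b / ρ ^ 2).re) (bb x) :=
      Complex.continuous_re.continuousAt.comp ((GG_cont hd).div_const _)
    refine hc.eventually (lt_mem_nhds ?_)
    show 0 < (GG (bb x) / ρ ^ 2).re
    rw [v1]
    norm_num
  have ev3 : ∀ᶠ b in 𝓝 (bb x), 0 < (GG (gb b) / ρ' ^ 2).re := by
    have hc : ContinuousAt (fun b => (GG (gb b) / ρ' ^ 2).re) (bb x) :=
      Complex.continuous_re.continuousAt.comp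
        ((ContinuousAt.comp (g := GG) (GG_cont hdg) gbc).div_const _)
    refine hc.eventually (lt_mem_nhds ?_)
    show 0 < (GG (gb (bb x)) / ρ' ^ 2).re
    rw [v2]
    norm_num
  have ev4 : ∀ᶠ b in 𝓝 (bb x), eval (s0 b) P ≠ 0 := by
    have hc : ContinuousAt (fun b => eval (s0 b) P) (bb x) :=
      ContinuousAt.comp (g := fun y => eval y P) (MvPolynomial.continuous_eval P).continuousAt
        (s0_cont hd)
    exact hc.eventually_ne hPs
  have ev5 : ∀ᶠ b in 𝓝 (bb x), eval (s0 (gb b)) P ≠ 0 := by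
    have hc : ContinuousAt (fun b => eval (s0 (gb b)) P) (bb x) :=
      ContinuousAt.comp (g := fun y => eval y P) (MvPolynomial.continuous_eval P).continuousAt
        (ContinuousAt.comp (g := s0) (s0_cont hdg) gbc)
    exact hc.eventually_ne hPg
  obtain ⟨ε, hε, hball⟩ := Metric.eventually_nhds_iff_ball.mp
    (((ev1.and ev2).and ev3).and (ev4.and ev5))
  set B : Set (Fin 3 → ℂ) := Metric.ball (bb x) ε with hB
  have hok : Ok B ρ ρ' := by
    refine ⟨Metric.isOpen_ball, ?_, r0, r0', fun b hb => ?_⟩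
    · exact (convex_ball (bb x) ε).isConnected ⟨bb x, Metric.mem_ball_self hε⟩
    · obtain ⟨⟨⟨c1, c2⟩, c3⟩, _⟩ := hball b hb
      exact ⟨c1, c2, c3⟩
  have hok' := hok.symm
  have hBB : gb ⁻¹' (gb ⁻¹' B) = B := by
    ext b
    show gb (gb b) ∈ B ↔ b ∈ B
    rw [gb_gb]
  have hmap' : ∀ y ∈ U0 (gb ⁻¹' B) ρ', ph ρ y ∈ U0 B ρ := by
    intro y hy
    have := ph_mem hok' hy
    rwa [hBB] at this
  have hre : ∀ {B : Set (Fin 3 → ℂ)} {ρ ρ' : ℂ}, Ok B ρ ρ' → ∀ y ∈ U0 B ρ,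
      0 < (q3 (gx y) / (y 2 * ρ') ^ 2).re := by
    intro B ρ ρ' hok y hy
    obtain ⟨k1, k2, k3⟩ := hok.2.2.2.2 _ hy.2.2.1
    have : q3 (gx y) / (y 2 * ρ') ^ 2 = GG (gb (bb y)) / ρ' ^ 2 := by
      rw [(q3_eq hy.1 hy.2.1 k1).2]
      have := hy.2.1
      have := hok.2.2.2.1
      field_simp
    rw [this]
    exact k3
  have hlift : ∀ {B : Set (Fin 3 → ℂ)} {ρ ρ' : ℂ}, Ok B ρ ρ' → ∀ y ∈ U0 B ρ,
      IsLift (X3 hs hp) (ph ρ') (ph ρ') y := by
    intro B ρ ρ' hok y hy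
    refine ⟨ph_an hok.2.2.2.1 hy.2.1 (hre hok y hy), ?_⟩
    exact Filter.Eventually.of_forall fun z => ⟨1, one_ne_zero, by rw [one_smul]⟩
  have hsame : ∀ (ρ : ℂ) (y z : V 6), Same y z → Same (ph ρ y) (ph ρ z) := by
    rintro ρ y z ⟨c, hc, rfl⟩
    exact ⟨c, hc, ph_smul y hc⟩
  have n6 : ∀ {B : Set (Fin 3 → ℂ)} {ρ : ℂ} {y : V 6}, y ∈ U0 B ρ → y 6 ≠ 0 := by
    intro B ρ y hy h
    have := hy.2.2.2
    rw [h] at this
    simp at this
  refine ⟨{
    U := U0 B ρ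
    U' := U0 (gb ⁻¹' B) ρ'
    φ := ph ρ'
    ψ := ph ρ
    openU := by
      rw [cone_X3]
      exact U0_open hok.1 r0
    openU' := by
      rw [cone_X3]
      exact U0_open hok'.1 r0'
    coneU := fun y hy c hc => U0_smul hy hc
    coneU' := fun y hy c hc => U0_smul hy hc
    connU := U0_conn hok
    connU' := U0_conn hok'
    mapφ := fun y hy => ph_mem hok hy
    mapψ := hmap'
    sameφ := fun y _ z _ h => hsame ρ' y z h
    sameψ := fun y _ z _ h => hsame ρ y z h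
    left := fun y hy => ⟨1, one_ne_zero, by rw [one_smul, ph_ph r0 hy]⟩
    right := fun y hy => ⟨1, one_ne_zero, by rw [one_smul, ph_ph r0' hy]⟩
    holφ := fun y hy => ⟨ph ρ', hlift hok y hy⟩
    holψ := fun y hy => ⟨ph ρ, hlift hok' y hy⟩ }, ?_⟩
  intro y hy
  have hy' : y ∈ U0 B ρ := hy
  obtain ⟨k1, k2, k3⟩ := hok.2.2.2.2 _ hy'.2.2.1
  obtain ⟨_, c4, c5⟩ := hball _ hy'.2.2.1
  have y2 := hy'.2.1
  have hφ := ph_mem hok hy'
  obtain ⟨e0, e1, e2, e3, e4, e5, e6⟩ := ph_apply ρ' y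
  obtain ⟨d0, d1, d2, d3, d4, d5, d6⟩ := gx_apply y
  have hcoord : ∀ i, i ≠ 6 → ph ρ' y i = gx y i := by
    intro i hi
    fin_cases i
    · exact e0.trans d0.symm
    · exact e1.trans d1.symm
    · exact e2.trans d2.symm
    · exact e3.trans d3.symm
    · exact e4.trans d4.symm
    · exact e5.trans d5.symm
    · exact absurd rfl hi
  refine ⟨?_, ?_, n6 hy', n6 hφ, y2, ?_, hcoord, ?_⟩
  · rw [eval_hom hk hI (s0_eq hy'.1 y2 k1)]
    exact mul_ne_zero (pow_ne_zero _ y2) c4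
  · have kd : dt (bb (ph ρ' y)) ≠ 0 := by
      rw [ph_bb, dt_gb]
      exact k1
    show eval (ph ρ' y) P ≠ 0
    rw [eval_hom hk hI (s0_eq hφ.1 hφ.2.1 kd), ph_bb]
    exact mul_ne_zero (pow_ne_zero _ hφ.2.1) c5
  · rw [dt_eq y2]
    exact mul_ne_zero (pow_ne_zero _ y2) k1
  · exact ⟨ph ρ', hlift hok y hy', rfl, fun v => ph_der r0' y2 (hre hok y hy') v⟩

end Pool.VMR
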