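import Pool.Agent.H30.VMR.Stm

/-!
# Module F2: the tangent cones correspond
-/

noncomputable section

namespace Pool.VMR

theorem pr6 (x : V 6) : pr x 6 = 0 := by simp [pr]

theorem pri (x : V 6) {i : Fin 7} (hi : i ≠ 6) : pr x i = x i := by simp [pr, hi]

theorem gx5 (x : V 6) : gx x 5 = -x 5 := by simp [gx]

theorem gxi (x : V 6) {i : Fin 7} (hi : i ≠ 5) : gx x i = x i := by simp [gx, hi]

theorem presS : PresS := by
  intro x y T hx hy hx6 hy6 hxy hT hT6
  have y0 : y 0 = x 0 := by rw [hxy 0 (by decide), gxi x (by decide)]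
  have y1 : y 1 = x 1 := by rw [hxy 1 (by decide), gxi x (by decide)]
  have y2 : y 2 = x 2 := by rw [hxy 2 (by decide), gxi x (by decide)]
  have y3 : y 3 = x 3 := by rw [hxy 3 (by decide), gxi x (by decide)]
  have y4 : y 4 = x 4 := by rw [hxy 4 (by decide), gxi x (by decide)]
  have y5 : y 5 = -x 5 := by rw [hxy 5 (by decide), gx5]
  have T0 : ∀ v, T v 0 = v 0 := fun v => by rw [hT v 0 (by decide), gxi v (by decide)]
  have T1 : ∀ v, T v 1 = v 1 := fun v => by rw [hT v 1 (by decide), gxi v (by decide)]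
  have T2 : ∀ v, T v 2 = v 2 := fun v => by rw [hT v 2 (by decide), gxi v (by decide)]
  have T3 : ∀ v, T v 3 = v 3 := fun v => by rw [hT v 3 (by decide), gxi v (by decide)]
  have T4 : ∀ v, T v 4 = v 4 := fun v => by rw [hT v 4 (by decide), gxi v (by decide)]
  have T5 : ∀ v, T v 5 = -v 5 := fun v => by rw [hT v 5 (by decide), gx5]
  have T6 : ∀ v, 2 * y 6 * T v 6 = x 0 * v 4 + v 0 * x 4 + x 1 * (-v 5) + v 1 * (-x 5) +
      2 * (x 3 * v 3) := by
    intro v
    rw [hT6 v]
    simp only [b3, gx5, gxi _ (show (0 : Fin 7) ≠ 5 by decide),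
      gxi _ (show (1 : Fin 7) ≠ 5 by decide), gxi _ (show (3 : Fin 7) ≠ 5 by decide),
      gxi _ (show (4 : Fin 7) ≠ 5 by decide), gxi _ (show (6 : Fin 7) ≠ 5 by decide), pr6,
      pri x (show (0 : Fin 7) ≠ 6 by decide), pri x (show (1 : Fin 7) ≠ 6 by decide),
      pri x (show (3 : Fin 7) ≠ 6 by decide), pri x (show (4 : Fin 7) ≠ 6 by decide),
      pri x (show (5 : Fin 7) ≠ 6 by decide)]
    ring
  obtain ⟨-, hy1, hy2, hy3⟩ := hy
  simp only [f1, f2, f3] at hy1 hy2 hy3
  ext w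
  constructor
  · rintro ⟨v, ⟨v1, v2, v3, v4, v5⟩, c, rfl⟩
    have h6 := T6 v
    simp only [f1, f2, b1, b2, b3] at v1 v2 v3 v4 v5
    refine ⟨?_, ?_, ?_, ?_, ?_⟩ <;>
      simp only [f1, f2, b1, b2, b3, Pi.add_apply, Pi.smul_apply, smul_eq_mul, T0, T1, T2, T3,
        T4, T5]
    · rw [y0, y1, y2, y3, y4] at *
      linear_combination v1 + c * v3 + c ^ 2 * hy1
    · rw [y0, y1, y2, y3, y4, y5] at *
      linear_combination v2 + c * v4 + c ^ 2 * hy2
    · rw [y0, y1, y2, y3, y4] at *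
      linear_combination v3 + 2 * c * hy1
    · rw [y0, y1, y2, y3, y4, y5] at *
      linear_combination v4 + 2 * c * hy2
    · rw [y0, y1, y3, y4, y5] at *
      linear_combination -h6 + 2 * c * hy3
  · rintro ⟨w1, w2, w3, w4, w5⟩
    set d : ℂ := (x 0 * w 4 + w 0 * x 4 + x 1 * (-w 5) + w 1 * x 5 + 2 * (x 3 * w 3)) / (2 * x 6)
      with hd
    have hd' : 2 * x 6 * d = x 0 * w 4 + w 0 * x 4 + x 1 * (-w 5) + w 1 * x 5 +
        2 * (x 3 * w 3) := by
      rw [hd]
      field_simp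
    refine ⟨![w 0, w 1, w 2, w 3, w 4, -w 5, d], ⟨?_, ?_, ?_, ?_, ?_⟩, 0, ?_⟩
    · simp only [f1] at *
      show w 0 * w 2 + w 1 * w 3 - w 4 ^ 2 = 0
      exact w1
    · simp only [f2] at *
      show w 0 * w 3 + w 1 * w 4 + w 2 ^ 2 - (-w 5) ^ 2 = 0
      linear_combination w2
    · simp only [b1] at *
      show x 0 * w 2 + w 0 * x 2 + x 1 * w 3 + w 1 * x 3 - 2 * (x 4 * w 4) = 0
      rw [y0, y1, y2, y3, y4] at w3
      exact w3
    · simp only [b2] at *
      show x 0 * w 3 + w 0 * x 3 + x 1 * w 4 + w 1 * x 4 + 2 * (x 2 * w 2) -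
        2 * (x 5 * -w 5) = 0
      rw [y0, y1, y2, y3, y4, y5] at w4
      linear_combination w4
    · simp only [b3] at *
      show x 0 * w 4 + w 0 * x 4 + x 1 * -w 5 + w 1 * x 5 + 2 * (x 3 * w 3) -
        2 * (x 6 * d) = 0
      linear_combination -hd'
    · rw [zero_smul, add_zero]
      set v : V 6 := ![w 0, w 1, w 2, w 3, w 4, -w 5, d] with hv
      funext i
      by_cases hi : i = 6
      · subst hi
        have h6 := T6 v
        have : 2 * y 6 * T v 6 = 2 * y 6 * w 6 := by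
          rw [h6]
          simp only [b3] at w5
          rw [y0, y1, y3, y4, y5] at w5
          show x 0 * w 4 + w 0 * x 4 + x 1 * (-(-w 5)) + w 1 * (-x 5) + 2 * (x 3 * w 3) = _
          linear_combination w5
        have h2 : (2 * y 6) ≠ 0 := mul_ne_zero two_ne_zero hy6
        exact (mul_left_cancel₀ h2 this).symm
      · rw [hT v i hi]
        by_cases h5 : i = 5
        · subst h5
          rw [gx5]
          show w 5 = - -w 5
          ring
        · rw [gxi v h5]
          fin_cases i <;> first | rfl | exact absurd rfl h5 | exact absurd rfl hi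

end Pool.VMR
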