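import Pool.Agent.H30.VMR.Util

/-!
# The identity theorem on the cone

A polynomial which vanishes on the cone near one point of the chart vanishes on the cone. The chart:
`z1, z2, z3, z4` are free, `u, v` are rational functions of them and `w ^ 2` is one.
-/

noncomputable section

namespace Pool.VMR

open MvPolynomial

/-- The polynomials in `z1, z2, z3, z4`. -/
def Zs : Subalgebra ℂ (Po 6) := supported ℂ ({2, 3, 4, 5} : Set (Fin 7))

theorem X_Zs {i : Fin 7} (h : i ∈ ({2, 3, 4, 5} : Set (Fin 7))) : (X i : Po 6) ∈ Zs :=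
  X_mem_supported.2 h

theorem eval_Zs {A : Po 6} (hA : A ∈ Zs) {x y : V 6} (h2 : x 2 = y 2) (h3 : x 3 = y 3)
    (h4 : x 4 = y 4) (h5 : x 5 = y 5) : eval x A = eval y A := by
  have hv := mem_supported.1 hA
  refine hom_congr_vars (f₁ := eval x) (f₂ := eval y) ?_ ?_ rfl
  · ext c
    simp
  · intro i hi _
    have := hv hi
    simp only [Set.mem_insert_iff, Set.mem_singleton_iff] at this
    rw [eval_X, eval_X]
    rcases this with rfl | rfl | rfl | rfl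
    · exact h2
    · exact h3
    · exact h4
    · exact h5


/-- The numerator of `u`. -/
def Un : Po 6 := X 4 ^ 3 - X 3 * (X 5 ^ 2 - X 2 ^ 2)

/-- The numerator of `v`. -/
def Vn : Po 6 := X 2 * (X 5 ^ 2 - X 2 ^ 2) - X 3 * X 4 ^ 2

/-- The numerator of `w ^ 2`. -/
def Sn : Po 6 := X 4 * Un + X 5 * Vn + DD * X 3 ^ 2

theorem DD_Zs : DD ∈ Zs := by
  unfold DD
  exact Zs.sub_mem (Zs.mul_mem (X_Zs (by simp)) (X_Zs (by simp))) (Zs.pow_mem (X_Zs (by simp)) 2)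

theorem Un_Zs : Un ∈ Zs := by
  unfold Un
  exact Zs.sub_mem (Zs.pow_mem (X_Zs (by simp)) 3) (Zs.mul_mem (X_Zs (by simp))
    (Zs.sub_mem (Zs.pow_mem (X_Zs (by simp)) 2) (Zs.pow_mem (X_Zs (by simp)) 2)))

theorem Vn_Zs : Vn ∈ Zs := by
  unfold Vn
  exact Zs.sub_mem (Zs.mul_mem (X_Zs (by simp))
    (Zs.sub_mem (Zs.pow_mem (X_Zs (by simp)) 2) (Zs.pow_mem (X_Zs (by simp)) 2)))
    (Zs.mul_mem (X_Zs (by simp)) (Zs.pow_mem (X_Zs (by simp)) 2))

theorem Sn_Zs : Sn ∈ Zs := by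
  unfold Sn
  exact Zs.add_mem (Zs.add_mem (Zs.mul_mem (X_Zs (by simp)) Un_Zs)
    (Zs.mul_mem (X_Zs (by simp)) Vn_Zs)) (Zs.mul_mem DD_Zs (Zs.pow_mem (X_Zs (by simp)) 2))

theorem DU : DD * X 0 - Un ∈ I0 := by
  have h : DD * X 0 - Un = X 4 * F1 - X 3 * F2 := by
    unfold DD Un F1 F2 f1 f2
    ring
  rw [h]
  exact I0.sub_mem (I0.mul_mem_left _ F1_mem) (I0.mul_mem_left _ F2_mem)

theorem DV : DD * X 1 - Vn ∈ I0 := by
  have h : DD * X 1 - Vn = X 2 * F2 - X 3 * F1 := by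
    unfold DD Vn F1 F2 f1 f2
    ring
  rw [h]
  exact I0.sub_mem (I0.mul_mem_left _ F2_mem) (I0.mul_mem_left _ F1_mem)

theorem DW : DD * X 6 ^ 2 - Sn ∈ I0 := by
  have h : DD * X 6 ^ 2 - Sn = X 4 * (DD * X 0 - Un) + X 5 * (DD * X 1 - Vn) - DD * F3 := by
    unfold Sn F3 f3
    ring
  rw [h]
  exact I0.sub_mem (I0.add_mem (I0.mul_mem_left _ DU) (I0.mul_mem_left _ DV))
    (I0.mul_mem_left _ F3_mem)

/-- Every polynomial times a power of `DD` is `A + w B` modulo the ideal. -/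
theorem red (P : Po 6) : ∃ (k : ℕ) (A B : Po 6), A ∈ Zs ∧ B ∈ Zs ∧
    DD ^ k * P - (A + X 6 * B) ∈ I0 := by
  induction P using MvPolynomial.induction_on with
  | C a =>
    refine ⟨0, C a, 0, Zs.algebraMap_mem a, Zs.zero_mem, ?_⟩
    simp
  | add P Q hP hQ =>
    obtain ⟨k, A, B, hA, hB, h⟩ := hP
    obtain ⟨k', A', B', hA', hB', h'⟩ := hQ
    refine ⟨k + k', DD ^ k' * A + DD ^ k * A', DD ^ k' * B + DD ^ k * B',
      Zs.add_mem (Zs.mul_mem (Zs.pow_mem DD_Zs _) hA) (Zs.mul_mem (Zs.pow_mem DD_Zs _) hA'),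
      Zs.add_mem (Zs.mul_mem (Zs.pow_mem DD_Zs _) hB) (Zs.mul_mem (Zs.pow_mem DD_Zs _) hB'), ?_⟩
    have e : DD ^ (k + k') * (P + Q) - (DD ^ k' * A + DD ^ k * A' + X 6 *
        (DD ^ k' * B + DD ^ k * B')) = DD ^ k' * (DD ^ k * P - (A + X 6 * B)) +
        DD ^ k * (DD ^ k' * Q - (A' + X 6 * B')) := by
      rw [pow_add]
      ring
    rw [e]
    exact I0.add_mem (I0.mul_mem_left _ h) (I0.mul_mem_left _ h')
  | mul_X P i hP =>
    obtain ⟨k, A, B, hA, hB, h⟩ := hP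
    have hz : (X i : Po 6) ∈ Zs → ∃ (k : ℕ) (A B : Po 6), A ∈ Zs ∧ B ∈ Zs ∧
        DD ^ k * (P * X i) - (A + X 6 * B) ∈ I0 := by
      intro hi
      refine ⟨k, X i * A, X i * B, Zs.mul_mem hi hA, Zs.mul_mem hi hB, ?_⟩
      have e : DD ^ k * (P * X i) - (X i * A + X 6 * (X i * B)) =
          X i * (DD ^ k * P - (A + X 6 * B)) := by ring
      rw [e]
      exact I0.mul_mem_left _ h
    fin_cases i
    · refine ⟨k + 1, Un * A, Un * B, Zs.mul_mem Un_Zs hA, Zs.mul_mem Un_Zs hB, ?_⟩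
      have e : DD ^ (k + 1) * (P * X 0) - (Un * A + X 6 * (Un * B)) =
          (DD * X 0) * (DD ^ k * P - (A + X 6 * B)) + (A + X 6 * B) * (DD * X 0 - Un) := by
        ring
      exact e ▸ I0.add_mem (I0.mul_mem_left _ h) (I0.mul_mem_left _ DU)
    · refine ⟨k + 1, Vn * A, Vn * B, Zs.mul_mem Vn_Zs hA, Zs.mul_mem Vn_Zs hB, ?_⟩
      have e : DD ^ (k + 1) * (P * X 1) - (Vn * A + X 6 * (Vn * B)) =
          (DD * X 1) * (DD ^ k * P - (A + X 6 * B)) + (A + X 6 * B) * (DD * X 1 - Vn) := by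
        ring
      exact e ▸ I0.add_mem (I0.mul_mem_left _ h) (I0.mul_mem_left _ DV)
    · exact hz (X_Zs (by simp))
    · exact hz (X_Zs (by simp))
    · exact hz (X_Zs (by simp))
    · exact hz (X_Zs (by simp))
    · refine ⟨k + 1, Sn * B, DD * A, Zs.mul_mem Sn_Zs hB, Zs.mul_mem DD_Zs hA, ?_⟩
      have e : DD ^ (k + 1) * (P * X 6) - (Sn * B + X 6 * (DD * A)) =
          (DD * X 6) * (DD ^ k * P - (A + X 6 * B)) + B * (DD * X 6 ^ 2 - Sn) := by
        ring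
      exact e ▸ I0.add_mem (I0.mul_mem_left _ h) (I0.mul_mem_left _ DW)

/-- A polynomial which vanishes on a ball is zero. -/
theorem zero_of_ball {A : Po 6} {x : V 6} {ε : ℝ} (hε : 0 < ε)
    (h : ∀ y ∈ Metric.ball x ε, eval y A = 0) : A = 0 := by
  refine MvPolynomial.funext_set (fun i => Metric.ball (x i) ε) (fun i => ?_) fun y hy => ?_
  · exact infinite_of_mem_nhds (x i) (Metric.ball_mem_nhds _ hε)
  · rw [map_zero]
    refine h y ?_
    rw [Metric.mem_ball, dist_pi_lt_iff hε]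
    intro i
    exact hy i (Set.mem_univ i)

theorem eval_DD (y : V 6) : eval y DD = y 2 * y 4 - y 3 ^ 2 := by simp [DD]

theorem eval_Un (y : V 6) : eval y Un = y 4 ^ 3 - y 3 * (y 5 ^ 2 - y 2 ^ 2) := by simp [Un]

theorem eval_Vn (y : V 6) : eval y Vn = y 2 * (y 5 ^ 2 - y 2 ^ 2) - y 3 * y 4 ^ 2 := by
  simp [Vn]

theorem eval_Sn (y : V 6) : eval y Sn =
    y 4 * eval y Un + y 5 * eval y Vn + eval y DD * y 3 ^ 2 := by simp [Sn]

/-- The ratio under the root. -/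
def rt (ρ : ℂ) (y : V 6) : ℂ := eval y Sn / (eval y DD * ρ ^ 2)

/-- The chart. -/
def pt (ρ : ℂ) (y : V 6) : V 6 :=
  ![eval y Un / eval y DD, eval y Vn / eval y DD, y 2, y 3, y 4, y 5,
    ρ * rt ρ y ^ ((2 : ℕ) : ℂ)⁻¹]

theorem pt_sq {ρ : ℂ} (hρ : ρ ≠ 0) {y : V 6} (hy : eval y DD ≠ 0) :
    (pt ρ y) 6 ^ 2 = eval y Sn / eval y DD := by
  show (ρ * rt ρ y ^ ((2 : ℕ) : ℂ)⁻¹) ^ 2 = _
  rw [mul_pow, Complex.cpow_nat_inv_pow _ two_ne_zero]
  unfold rt
  field_simp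

theorem pt_cone {ρ : ℂ} (hρ : ρ ≠ 0) {y : V 6} (hy : eval y DD ≠ 0) (h2 : y 2 ≠ 0) :
    pt ρ y ∈ Cone := by
  have e0 : pt ρ y 0 = eval y Un / eval y DD := rfl
  have e1 : pt ρ y 1 = eval y Vn / eval y DD := rfl
  have e2 : pt ρ y 2 = y 2 := rfl
  have e3 : pt ρ y 3 = y 3 := rfl
  have e4 : pt ρ y 4 = y 4 := rfl
  have e5 : pt ρ y 5 = y 5 := rfl
  refine ⟨fun h => h2 ?_, ?_, ?_, ?_⟩
  · rw [← e2, h]
    rfl
  · unfold f1
    rw [e0, e1, e2, e3, e4, eval_Un, eval_Vn]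
    field_simp
    rw [eval_DD]
    ring
  · unfold f2
    rw [e0, e1, e2, e3, e4, e5, eval_Un, eval_Vn]
    field_simp
    rw [eval_DD]
    ring
  · unfold f3
    rw [pt_sq hρ hy, e0, e1, e3, e4, e5, eval_Sn]
    field_simp
    ring

theorem pt_self {x : V 6} (hx : x ∈ Cone) (hD : eval x DD ≠ 0) (h6 : x 6 ≠ 0) :
    pt (x 6) x = x ∧ rt (x 6) x = 1 := by
  obtain ⟨_, h1, h2, h3⟩ := hx
  have a0 := eval_eq_zero_of_mem DU h1 h2 h3
  have a1 := eval_eq_zero_of_mem DV h1 h2 h3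
  have a6 := eval_eq_zero_of_mem DW h1 h2 h3
  rw [map_sub, map_mul, eval_X, sub_eq_zero] at a0 a1
  rw [map_sub, map_mul, map_pow, eval_X, sub_eq_zero] at a6
  have hr : rt (x 6) x = 1 := by
    unfold rt
    rw [← a6]
    field_simp
  refine ⟨?_, hr⟩
  unfold pt
  rw [hr, Complex.one_cpow, mul_one, ← a0, ← a1, mul_div_cancel_left₀ _ hD,
    mul_div_cancel_left₀ _ hD]
  ext i
  fin_cases i <;> rfl

theorem pt_cont {x : V 6} (hx : x ∈ Cone) (hD : eval x DD ≠ 0) (h6 : x 6 ≠ 0) :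
    ContinuousAt (pt (x 6)) x ∧ ContinuousAt (rt (x 6)) x := by
  have hc : ∀ A : Po 6, ContinuousAt (fun y : V 6 => eval y A) x := fun A =>
    (MvPolynomial.continuous_eval A).continuousAt
  have hr : ContinuousAt (rt (x 6)) x := by
    unfold rt
    exact (hc Sn).div ((hc DD).mul continuousAt_const) (mul_ne_zero hD (pow_ne_zero 2 h6))
  refine ⟨?_, hr⟩
  rw [continuousAt_pi]
  intro i
  fin_cases i
  · exact (hc Un).div (hc DD) hD
  · exact (hc Vn).div (hc DD) hD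
  · exact (continuous_apply 2).continuousAt
  · exact (continuous_apply 3).continuousAt
  · exact (continuous_apply 4).continuousAt
  · exact (continuous_apply 5).continuousAt
  · refine continuousAt_const.mul (hr.cpow continuousAt_const ?_)
    rw [(pt_self hx hD h6).2]
    exact Complex.one_mem_slitPlane

/-- **MODULE F3.** -/
theorem idS : IdS := by
  intro hp O hO x hxO hx h2 hD h6 P hP y hy
  obtain ⟨k, A, B, hA, hB, hk⟩ := red P
  obtain ⟨hc1, hc2⟩ := pt_cont hx hD h6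
  obtain ⟨hs1, hs2⟩ := pt_self hx hD h6
  have v1 : ∀ᶠ z in nhds x, pt (x 6) z ∈ O := hc1 (by rw [hs1]; exact hO.mem_nhds hxO)
  have v2 : ∀ᶠ z in nhds x, eval z DD ≠ 0 :=
    (MvPolynomial.continuous_eval DD).continuousAt.eventually_ne hD
  have v3 : ∀ᶠ z in nhds x, z 2 ≠ 0 := (continuous_apply 2).continuousAt.eventually_ne h2
  have v4 : ∀ᶠ z in nhds x, rt (x 6) z ≠ 0 := hc2.eventually_ne (by rw [hs2]; exact one_ne_zero)
  obtain ⟨ε, hε, hb⟩ := Metric.eventually_nhds_iff_ball.1 (v1.and (v2.and (v3.and v4)))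
  -- the relation
  have hAB : ∀ z ∈ Metric.ball x ε, eval z A + pt (x 6) z 6 * eval z B = 0 := by
    intro z hz
    obtain ⟨w1, w2, w3, _⟩ := hb z hz
    have hcz := pt_cone h6 w2 w3
    have e := eval_eq_zero_of_mem hk hcz.2.1 hcz.2.2.1 hcz.2.2.2
    rw [map_sub, map_mul, hP _ w1 hcz, mul_zero, zero_sub, neg_eq_zero, map_add, map_mul,
      eval_X, eval_Zs hA (x := pt (x 6) z) (y := z) rfl rfl rfl rfl,
      eval_Zs hB (x := pt (x 6) z) (y := z) rfl rfl rfl rfl] at e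
    exact e
  have hw : ∀ z ∈ Metric.ball x ε, pt (x 6) z 6 ≠ 0 := by
    intro z hz
    obtain ⟨_, w2, _, w4⟩ := hb z hz
    exact mul_ne_zero h6 (Complex.cpow_ne_zero_iff.2 (Or.inl w4))
  have h0 : DD * A ^ 2 - Sn * B ^ 2 = 0 := by
    refine zero_of_ball (x := x) hε fun z hz => ?_
    obtain ⟨_, w2, _, _⟩ := hb z hz
    have e := hAB z hz
    have e2 := pt_sq h6 w2
    rw [map_sub, map_mul, map_mul, map_pow, map_pow, eq_neg_of_add_eq_zero_left e, neg_sq, mul_pow,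
      e2]
    field_simp
    ring
  have hprod : DD * ((A + X 6 * B) * (A - X 6 * B)) ∈ I0 := by
    have e : DD * ((A + X 6 * B) * (A - X 6 * B)) =
        (DD * A ^ 2 - Sn * B ^ 2) - B ^ 2 * (DD * X 6 ^ 2 - Sn) := by ring
    rw [e, h0, zero_sub]
    exact I0.neg_mem (I0.mul_mem_left _ DW)
  have hfin : A + X 6 * B ∈ I0 := by
    rcases hp.1.mem_or_mem ((hp.1.mem_or_mem hprod).resolve_left DD_notMem) with h | h
    · exact h
    · have hz : ∀ z ∈ Metric.ball x ε, eval z A = 0 ∧ eval z B = 0 := by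
        intro z hz
        obtain ⟨_, w2, w3, _⟩ := hb z hz
        have hcz := pt_cone h6 w2 w3
        have e := eval_eq_zero_of_mem h hcz.2.1 hcz.2.2.1 hcz.2.2.2
        rw [map_sub, map_mul, eval_X, eval_Zs hA (x := pt (x 6) z) (y := z) rfl rfl rfl rfl,
          eval_Zs hB (x := pt (x 6) z) (y := z) rfl rfl rfl rfl] at e
        have e2 := hAB z hz
        have e3 : pt (x 6) z 6 * eval z B = 0 := by linear_combination (1 / 2) * e2 - (1 / 2) * e
        have e4 := (mul_eq_zero.1 e3).resolve_left (hw z hz)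
        refine ⟨?_, e4⟩
        rw [e4, mul_zero, add_zero] at e2
        exact e2
      rw [zero_of_ball (x := x) hε fun z hz' => (hz z hz').1, zero_of_ball (x := x) hε fun z hz' => (hz z hz').2,
        mul_zero, add_zero]
      exact I0.zero_mem
  have hDP : DD ^ k * P ∈ I0 := by
    have e : DD ^ k * P = (DD ^ k * P - (A + X 6 * B)) + (A + X 6 * B) := by ring
    rw [e]
    exact I0.add_mem hk hfin
  have hPI : P ∈ I0 :=
    (hp.1.mem_or_mem hDP).resolve_left fun h => DD_notMem (hp.1.mem_of_pow_mem k h)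
  exact eval_eq_zero_of_mem hPI hy.2.1 hy.2.2.1 hy.2.2.2

end Pool.VMR
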