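import Pool.Agent.H30.VMR.Util

/-!
# Module G: the assembly
-/

noncomputable section

namespace Pool.VMR

open MvPolynomial

variable {N n : ℕ}

theorem eval_smul_hom {σ : Type*} [Fintype σ] {k : ℕ} {P : MvPolynomial σ ℂ}
    (hP : P.IsHomogeneous k) (c : ℂ) (x : σ → ℂ) : eval (c • x) P = c ^ k * eval x P := by
  rw [eval_eq', eval_eq', Finset.mul_sum]
  refine Finset.sum_congr rfl fun d hd => ?_
  have h1 : (∏ i, (c • x) i ^ d i) = c ^ k * ∏ i, x i ^ d i := by
    simp_rw [Pi.smul_apply, smul_eq_mul, mul_pow]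
    rw [Finset.prod_mul_distrib, Finset.prod_pow_eq_pow_sum]
    congr 2
    have := hP (mem_support_iff.mp hd)
    rw [← this, Finsupp.weight_apply, Finsupp.sum_fintype]
    · simp
    · simp
  rw [h1]
  ring

theorem smul_cone (X : Mfd N n) {x : V N} (hx : x ∈ X.cone) {c : ℂ} (hc : c ≠ 0) :
    c • x ∈ X.cone := by
  refine ⟨smul_ne_zero hc hx.1, fun j => ?_⟩
  rw [eval_smul_hom (X.hom j), hx.2 j, mul_zero]

/-- a property invariant under scaling that holds where some polynomial is nonzero is general -/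
theorem gen_of_poly (X : Mfd N n) (p : V N → Prop) (hp : ∀ x c, c ≠ (0 : ℂ) → p (c • x) → p x)
    (P : Po N) (hP : ∃ x ∈ X.cone, eval x P ≠ 0) (h : ∀ x ∈ X.cone, eval x P ≠ 0 → p x) :
    Gen X p := by
  classical
  obtain ⟨x0, hx0, h0⟩ := hP
  have hsum : ∀ (x : V N) (c : ℂ), eval (c • x) P =
      ∑ k ∈ Finset.range (P.totalDegree + 1), c ^ k * eval x (homogeneousComponent k P) := by
    intro x c
    conv_lhs => rw [← sum_homogeneousComponent P]
    rw [map_sum]
    exact Finset.sum_congr rfl fun k _ =>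
      eval_smul_hom (homogeneousComponent_isHomogeneous k P) c x
  have h1 := hsum x0 1
  rw [one_smul] at h1
  rw [h1] at h0
  obtain ⟨k, hk, hk0⟩ := Finset.exists_ne_zero_of_sum_ne_zero h0
  refine ⟨k, homogeneousComponent k P, homogeneousComponent_isHomogeneous k P,
    ⟨x0, hx0, fun hz => hk0 (by rw [hz, mul_zero])⟩, ?_⟩
  intro x hx hxk
  set q : Polynomial ℂ := ∑ j ∈ Finset.range (P.totalDegree + 1),
    Polynomial.C (eval x (homogeneousComponent j P)) * Polynomial.X ^ j with hq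
  have hq0 : q ≠ 0 := by
    intro hz
    have := congrArg (fun r : Polynomial ℂ => r.coeff k) hz
    simp only [hq, Polynomial.finsetSum_coeff, Polynomial.coeff_C_mul, Polynomial.coeff_X_pow,
      Polynomial.coeff_zero, mul_ite, mul_one, mul_zero, Finset.sum_ite_eq, hk, if_true] at this
    exact hxk this
  obtain ⟨c, hc⟩ : ∃ c, (Polynomial.X * q).eval c ≠ 0 := by
    by_contra hcon
    push Not at hcon
    exact mul_ne_zero Polynomial.X_ne_zero hq0 (Polynomial.funext fun c => by simp [hcon c])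
  rw [Polynomial.eval_mul, Polynomial.eval_X] at hc
  have hc0 := left_ne_zero_of_mul hc
  apply hp x c hc0
  apply h _ (smul_cone X hx hc0)
  rw [hsum]
  have h2 := right_ne_zero_of_mul hc
  rw [hq, Polynomial.eval_finsetSum] at h2
  intro h3
  apply h2
  rw [← h3]
  exact Finset.sum_congr rfl fun j _ => by
    rw [Polynomial.eval_mul, Polynomial.eval_C, Polynomial.eval_pow, Polynomial.eval_X, mul_comm]

theorem mem_tan (hs : SmoothS) (hp : PrimesS) (x v : V 6) :
    v ∈ (X3 hs hp).tan x ↔ b1 x v = 0 ∧ b2 x v = 0 ∧ b3 x v = 0 := by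
  obtain ⟨e1, e2, e3⟩ := sum_pderiv x v
  rw [Mfd.tan, LinearMap.mem_ker, Matrix.mulVecLin_apply]
  constructor
  · intro h
    refine ⟨?_, ?_, ?_⟩
    · rw [← e1]; exact congrFun h (0 : Fin 3)
    · rw [← e2]; exact congrFun h (1 : Fin 3)
    · rw [← e3]; exact congrFun h (2 : Fin 3)
  · rintro ⟨h1, h2, h3⟩
    funext j
    change Fin 3 at j
    fin_cases j
    · exact e1.trans h1
    · exact e2.trans h2
    · exact e3.trans h3

theorem same_smul {c : ℂ} (hc : c ≠ 0) (x y : V N) : Same (c • x) y ↔ Same x y := by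
  constructor
  · rintro ⟨d, hd, rfl⟩
    exact ⟨d * c, mul_ne_zero hd hc, by rw [smul_smul]⟩
  · rintro ⟨d, hd, rfl⟩
    exact ⟨d / c, div_ne_zero hd hc, by rw [smul_smul, div_mul_cancel₀ _ hc]⟩

theorem answer_of (hs : SmoothS) (hp : PrimesS) (h1 : PicS) (h2 : CompS) (h3 : GenHS)
    (h4 : VmrtS) (h5 : FinS) (h6 : LinS) (h7 : LocS) (h8 : PresS) (h9 : ExtS) :
    ∃ (X : Mfd 6 3) (K : Set (Par 6 2)) (L : Loc X), PicOne X ∧ MinComp X 2 K ∧
      LinearVmrt X K ∧ NotFull X K ∧ Preserves X K L ∧ ¬ Extends X L := by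
  obtain ⟨k, P, hk, hI, hP, hG⟩ := h3
  obtain ⟨L, hL⟩ := h7 hs hp k P hk hI hP
  have hcone : ∀ x ∈ L.U, x ∈ Cone := by
    intro x hx
    obtain ⟨O, _, hO⟩ := L.openU
    rw [← cone_X3 hs hp]
    exact (hO ▸ hx).2
  have hcone' : ∀ x ∈ L.U', x ∈ Cone := by
    intro x hx
    obtain ⟨O, _, hO⟩ := L.openU'
    rw [← cone_X3 hs hp]
    exact (hO ▸ hx).2
  -- scaling invariance
  have sthr : ∀ (x : V 6) (c : ℂ), c ≠ 0 → thr (KK (X3 hs hp)) (c • x) = thr (KK (X3 hs hp)) x := by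
    intro x c hc
    ext f
    simp only [thr, Set.mem_ofPred_eq]
    refine and_congr_right fun _ => exists_congr fun s => exists_congr fun t =>
      and_congr_right fun _ => same_smul hc _ _
  have svm : ∀ (x : V 6) (c : ℂ), c ≠ 0 → vmrt (KK (X3 hs hp)) (c • x) = vmrt (KK (X3 hs hp)) x := by
    intro x c hc
    unfold vmrt
    congr 1
    ext v
    simp only [Set.mem_ofPred_eq, SmoothAt, same_smul hc]
  have stan : ∀ (x : V 6) (c : ℂ), c ≠ 0 → (X3 hs hp).tan (c • x) = (X3 hs hp).tan x := by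
    intro x c hc
    ext v
    rw [mem_tan, mem_tan]
    have e1 : b1 (c • x) v = c * b1 x v := by simp [b1]; ring
    have e2 : b2 (c • x) v = c * b2 x v := by simp [b2]; ring
    have e3 : b3 (c • x) v = c * b3 x v := by simp [b3]; ring
    rw [e1, e2, e3]
    simp [hc]
  have hPP : ∃ x ∈ (X3 hs hp).cone, eval x (P * X 6) ≠ 0 := by
    rw [cone_X3]
    obtain ⟨x, hx, h1, h2⟩ := cone_irr hp hP (Q := X 6) ⟨x11, x11_mem, by simp [x11]⟩
    exact ⟨x, hx, by rw [map_mul]; exact mul_ne_zero h1 h2⟩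
  have hGG : ∀ x ∈ (X3 hs hp).cone, eval x (P * X 6) ≠ 0 → GoodPt x := by
    rw [cone_X3]
    intro x hx h
    rw [map_mul, eval_X] at h
    exact hG x hx (left_ne_zero_of_mul h) (right_ne_zero_of_mul h)
  refine ⟨X3 hs hp, KK (X3 hs hp), L, h1 hs hp, ⟨h2 hs hp, ?_⟩, ?_, ?_, ?_, ?_⟩
  · refine gen_of_poly _ _ (fun x c hc => ?_) (P * X 6) hPP fun x hx h => ?_
    · rw [sthr x c hc]
      exact id
    · obtain ⟨k1, k2⟩ := h5 hs hp x (hGG x hx h)
      exact ⟨k1, inferInstance⟩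
  · refine gen_of_poly _ _ (fun x c hc => ?_) (P * X 6) hPP fun x hx h => ?_
    · rw [svm x c hc]
      exact id
    · have hg := hGG x hx h
      rw [(h4 hs hp x hg.1).2 hg]
      exact (h6 hs hp x hg).1
  · refine gen_of_poly _ _ (fun x c hc => ?_) (P * X 6) hPP fun x hx h => ?_
    · rw [svm x c hc, stan x c hc]
      exact id
    · have hg := hGG x hx h
      rw [(h4 hs hp x hg.1).2 hg]
      exact (h6 hs hp x hg).2
  · intro x hx
    obtain ⟨g1, g2, g3, g4, g5, g6, g7, Φ, hΦ, hΦx, hd⟩ := hL x hx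
    have hxc := hcone x hx
    have hyc := hcone' _ (L.mapφ x hx)
    refine ⟨Φ, hΦ, ?_⟩
    rw [(h4 hs hp x hxc).2 (hG x hxc g1 g3), (h4 hs hp _ hyc).2 (hG _ hyc g2 g4), hΦx]
    exact h8 x (L.φ x) (fderiv ℂ Φ x).toLinearMap hxc hyc g3 g4 g7 (fun v i hi => (hd v).1 i hi)
      (fun v => (hd v).2)
  · exact h9 hs hp L fun x hx => ⟨(hL x hx).2.2.2.2.1, (hL x hx).2.2.2.2.2.1, (hL x hx).2.2.1,
      (hL x hx).2.2.2.2.2.2.1⟩

end Pool.VMR
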