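import Pool.Agent.H30.VMR.Stm

/-!
# Module A: smoothness of the threefold
-/

noncomputable section

namespace Pool.VMR

set_option maxRecDepth 20000 in
/-- the certificate for smoothness at the points with `z2 ≠ 0` -/
theorem cert1 (a b z : ℂ)
    (h3 : (b - a ^ 3 - a ^ 2 * b ^ 3) * z + (-a ^ 2 * b + a ^ 2 * b ^ 2 - a * b ^ 4) = 0)
    (h4 : (-a ^ 2 * b + a ^ 2 * b ^ 2 - a * b ^ 4) * z +
      (1 - a * b ^ 2 + 2 * a * b ^ 3 - a ^ 2 * b - b ^ 5) = 0)
    (g1 : (3 * a ^ 2 + 2 * a * b ^ 3) * z ^ 2 + 2 * (2 * a * b - 2 * a * b ^ 2 + b ^ 4) * z +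
      (b ^ 2 - 2 * b ^ 3 + 2 * a * b) = 0)
    (g2 : (1 - 3 * a ^ 2 * b ^ 2) * z ^ 2 + 2 * (-a ^ 2 + 2 * a ^ 2 * b - 4 * a * b ^ 3) * z +
      (-2 * a * b + 6 * a * b ^ 2 - a ^ 2 - 5 * b ^ 4) = 0) : False := by
  have key : (12395105936404884 : ℂ) = 0 := by
    linear_combination
      ((-32022539963385600)*1 + (-77669256631174668)*z + (-43841299196340540)*z^2 + (10270529386191336)*z^3 + (-7748763077757312)*b + (-60306730864897920)*b*z + (99591205381297320)*b*z^2 + (27113019585643032)*b*z^3 + (32053964304183204)*b^2 + (-6375695158254255)*b^2*z + (-1226954033757792)*b^2*z^2 + (3704121766760064)*b^2*z^3 + (86913441357325770)*b^3 + (10429631263529256)*b^3*z + (-8907260447004192)*b^3*z^2 + (-5038080508420704)*a + (-10108394458849152)*a*z + (-54829733738265216)*a*z^2 + (-18119422675706112)*a*z^3 + (72492260188948494)*a*b + (-5243985119517342)*a*b*z + (8673265953593508)*a*b*z^2 + (2850552384603552)*a*b*z^3 + (-68803396293369600)*a*b^2 + (400657902748858128)*a*b^2*z + (624071353958046)*a*b^2*z^2 + (5067648683739648)*a*b^2*z^3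 + (34401698146684800)*a^2 + (54961406011914738)*a^2*z + (-18529262495886948)*a^2*z^2 + (4802794647339123)*a^2*z^3 + (-3239970970878720)*a^2*b + (-86004245366712000)*a^2*b*z + (310941130166896518)*a^2*b*z^2 + (14579869368954240)*a^3*z)*h3 +
      ((12395105936404884)*1 + (4546463936604288)*z^2 + (-5159869139443120)*z^3 + (32022539963385600)*b*z + (68441585711454824)*b*z^2 + (10319738278886240)*b*z^3 + (-5688424508465059)*b^2 + (17029596272840352)*b^2*z + (66904593983837952)*b^2*z^2 + (-75415633284126272)*b^2*z^3 + (10938515761247080)*b^3 + (-51226316657647776)*b^3*z + (6479941941757440)*b^3*z^2 + (-11339898398075520)*a*z^2 + (-9342743167234560)*a*z^3 + (-20469776890138694)*a*b + (11165787143612788)*a*b*z + (42215135692099104)*a*b*z^2 + (48318460468549632)*a*b*z^3 + (42512123502987940)*a*b^2 + (-13482826422948934)*a*b^2*z + (-42319056210643584)*a*b^2*z^2 + (-4546463936604288)*a^2 + (-3933058733765456)*a^2*z + (-6745535246508937)*a^2*z^2 + (22804419076828416)*a^2*z^3 + (-17200849073342400)*a^2*b + (-63496302161702300)*a^2*b*z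 + (-14615782274624804)*a^2*b*z^2 + (-5067648683739648)*a^2*b*z^3 + (11339898398075520)*a^3 + (-103205094440054400)*a^3*z^2)*h4 +
      ((5688424508465059)*1 + (-9280833195083040)*z + (-2533824341869824)*z^2 + (438333255683038)*b + (610685963298492)*b*z + (-2579934569721560)*b*z^2 + (-21855653171655364)*b^2 + (-71269572750443304)*b^2*z + (5159869139443120)*b^2*z^2 + (14822154191693376)*b^3 + (24191992575018816)*b^3*z + (-37707816642063136)*b^3*z^2 + (9324114498035712)*b^4 + (3239970970878720)*b^4*z + (14740441381116284)*a + (-3146533683218580)*a*z + (3423509795397112)*a*z^2 + (-15092125839725952)*a*b + (40395738908656056)*a*b*z + (5923425472802824)*a*b*z^2 + (-21639721676933013)*a*b^2 + (11968169947419744)*a*b^2*z + (20455108467514752)*a*b^2*z^2 + (14236489585220522)*a*b^3 + (-4650794632708128)*a*b^3*z + (2523079861200576)*a^2 + (-13208929229015424)*a^2*z + (-6039807558568704)*a^2*z^2 + (-13649814813043624)*a^2*b + (-3906798007624356)*a^2*b*z + (8551657153810656)*a^2*b*z^2 + (72048676466916546)*a^2*b^2 + (4430929675649312)*a^2*b^2*z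 + (-4613996760484954)*a^3 + (-6176420831962316)*a^3*z + (1600931549113041)*a^3*z^2 + (-17200849073342400)*a^3*b + (69245345242280706)*a^3*b*z + (4859956456318080)*a^4)*g1 +
      ((-4546463936604288)*1 + (5159869139443120)*z + (9227670919719844)*b + (33521560917454300)*b*z + (-10270529386191336)*b*z^2 + (-4064038777070208)*b^2 + (-24175572097171048)*b^2*z + (-27113019585643032)*b^2*z^2 + (-2591960897521273)*b^3 + (1226954033757792)*b^3*z + (-3704121766760064)*b^3*z^2 + (-2187703152249416)*b^4 + (13974909130743840)*b^4*z + (11339898398075520)*a + (9342743167234560)*a*z + (10084240230821856)*a*b + (16646570637194880)*a*b*z + (18119422675706112)*a*b*z^2 + (-6261270795097578)*a*b^2 + (-13648694181629684)*a*b^2*z + (-2850552384603552)*a*b^2*z^2 + (-25885112972062742)*a*b^3 + (7617856757321794)*a*b^3*z + (5038080508420704)*a^2*z + (7601473025609472)*a^2*z^2 + (-39083227731050420)*a^2*b + (-2813120480887496)*a^2*b*z + (-2222860077617563)*a^2*b*z^2 + (17200849073342400)*a^2*b^2 + (-23081781747426902)*a^2*b^2*z + (-34401698146684800)*a^3*z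 + (-1619985485439360)*a^3*b)*g2
  norm_num at key

/-- the certificate for smoothness at the points with `z2 = 0` -/
theorem cert2 (a b : ℂ) (h3 : b - a ^ 3 - a ^ 2 * b ^ 3 = 0)
    (h4 : -a ^ 2 * b + a ^ 2 * b ^ 2 - a * b ^ 4 = 0) (g1 : 3 * a ^ 2 + 2 * a * b ^ 3 = 0)
    (g2 : 1 - 3 * a ^ 2 * b ^ 2 = 0) : False := by
  have key : (1 : ℂ) = 0 := by
    linear_combination (3 * b ^ 2 - 3 / 4 * a) * g1 + 6 * b * h4 - 9 / 4 * h3 +
      (1 + 9 / 4 * b) * g2
  norm_num at key

theorem smoothS : SmoothS := by
  rintro x ⟨hx, q1, q2, q3⟩ a b c h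
  have e0 := h (Pi.single 0 1)
  have e1 := h (Pi.single 1 1)
  have e2 := h (Pi.single 2 1)
  have e3 := h (Pi.single 3 1)
  have e4 := h (Pi.single 4 1)
  have e5 := h (Pi.single 5 1)
  have e6 := h (Pi.single 6 1)
  simp [b1, b2, b3, Pi.single_apply] at e0 e1 e2 e3 e4 e5 e6
  simp only [f1, f2, f3] at q1 q2 q3
  have hx' : ¬ (x 0 = 0 ∧ x 1 = 0 ∧ x 2 = 0 ∧ x 3 = 0 ∧ x 4 = 0 ∧ x 5 = 0 ∧ x 6 = 0) := by
    rintro ⟨h0, h1, h2, h3, h4, h5, h6⟩
    apply hx
    ext i
    fin_cases i <;> assumption
  clear h hx
  generalize x 0 = u at *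
  generalize x 1 = v at *
  generalize x 2 = z1 at *
  generalize x 3 = z2 at *
  generalize x 4 = z3 at *
  generalize x 5 = z4 at *
  generalize x 6 = w at *
  clear x
  by_cases hc : c = 0
  · subst hc
    by_cases hb : b = 0
    · subst hb
      by_cases ha : a = 0
      · exact ⟨ha, rfl, rfl⟩
      · exfalso
        simp only [zero_mul, add_zero, mul_eq_zero, ha, false_or, neg_eq_zero, or_false,
          OfNat.ofNat_ne_zero] at e0 e1 e2 e3 e4
        subst e0 e1 e2 e3 e4
        have h4 : z4 = 0 := by
          have : z4 ^ 2 = 0 := by linear_combination -q2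
          exact pow_eq_zero_iff (by norm_num) |>.1 this
        subst h4
        have h6 : w = 0 := by
          have : w ^ 2 = 0 := by linear_combination -q3
          exact pow_eq_zero_iff (by norm_num) |>.1 this
        exact hx' ⟨rfl, rfl, rfl, rfl, rfl, rfl, h6⟩
    · exfalso
      obtain ⟨r, rfl⟩ : ∃ r, a = r * b := ⟨a / b, by field_simp⟩
      have h4 : z4 = 0 := by
        have : b * (2 * z4) = 0 := by linear_combination -e5
        simpa [hb] using this
      subst h4
      have k2 : z2 = -r * z1 := by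
        apply mul_left_cancel₀ hb
        linear_combination e0
      have k3 : z3 = r ^ 2 * z1 := by
        apply mul_left_cancel₀ hb
        linear_combination e1 - b * r * k2
      have kv : v = 2 * r ^ 3 * z1 := by
        apply mul_left_cancel₀ hb
        linear_combination e4 + 2 * r * b * k3
      have ku : u = -2 * r ^ 4 * z1 := by
        apply mul_left_cancel₀ hb
        linear_combination e3 - b * r * kv
      subst k2 k3 kv ku
      have hz : z1 = 0 := by
        have h5 : r ^ 4 * z1 ^ 2 = 0 := by linear_combination -1 / 5 * q1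
        rcases mul_eq_zero.1 h5 with h5 | h5
        · have hr : r = 0 := pow_eq_zero_iff (by norm_num) |>.1 h5
          subst hr
          have : b * z1 = 0 := by linear_combination 1 / 2 * e2
          simpa [hb] using this
        · exact pow_eq_zero_iff (by norm_num) |>.1 h5
      subst hz
      have h6 : w = 0 := by
        have : w ^ 2 = 0 := by linear_combination -q3
        exact pow_eq_zero_iff (by norm_num) |>.1 this
      subst h6
      exact hx' ⟨by ring, by ring, rfl, by ring, by ring, rfl, rfl⟩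
  · exfalso
    have hw : w = 0 := e6.resolve_left hc
    subst hw
    obtain ⟨r, rfl⟩ : ∃ r, a = r * c := ⟨a / c, by field_simp⟩
    obtain ⟨s, rfl⟩ : ∃ s, b = s * c := ⟨b / c, by field_simp⟩
    have k3 : z3 = -r * z1 - s * z2 := by
      apply mul_left_cancel₀ hc
      linear_combination e0
    have k4 : z4 = r * s * z1 + (s ^ 2 - r) * z2 := by
      apply mul_left_cancel₀ hc
      linear_combination e1 - c * s * k3
    have kv : v = 2 * s * z4 := by
      apply mul_left_cancel₀ hc
      linear_combination e5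
    have ku : u = 2 * r * z3 - s * v := by
      apply mul_left_cancel₀ hc
      linear_combination e4
    subst kv ku k3 k4
    have h3 : (s - r ^ 3 - r ^ 2 * s ^ 3) * z1 +
        (-r ^ 2 * s + r ^ 2 * s ^ 2 - r * s ^ 4) * z2 = 0 := by
      apply mul_left_cancel₀ hc
      linear_combination 1 / 2 * e2
    have h4 : (-r ^ 2 * s + r ^ 2 * s ^ 2 - r * s ^ 4) * z1 +
        (1 - r * s ^ 2 + 2 * r * s ^ 3 - r ^ 2 * s - s ^ 5) * z2 = 0 := by
      apply mul_left_cancel₀ hc
      linear_combination 1 / 2 * e3
    by_cases hz : z2 = 0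
    · subst hz
      by_cases hz1 : z1 = 0
      · subst hz1
        exact hx' ⟨by ring, by ring, rfl, rfl, by ring, by ring, rfl⟩
      · refine cert2 r s ?_ ?_ ?_ ?_
        · apply mul_left_cancel₀ hz1
          linear_combination h3
        · apply mul_left_cancel₀ hz1
          linear_combination h4
        · apply mul_left_cancel₀ (pow_ne_zero 2 hz1)
          linear_combination -q1
        · apply mul_left_cancel₀ (pow_ne_zero 2 hz1)
          linear_combination q2
    · obtain ⟨z, rfl⟩ : ∃ z, z1 = z * z2 := ⟨z1 / z2, by field_simp⟩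
      refine cert1 r s z ?_ ?_ ?_ ?_
      · apply mul_left_cancel₀ hz
        linear_combination h3
      · apply mul_left_cancel₀ hz
        linear_combination h4
      · apply mul_left_cancel₀ (pow_ne_zero 2 hz)
        linear_combination -q1
      · apply mul_left_cancel₀ (pow_ne_zero 2 hz)
        linear_combination q2

end Pool.VMR
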