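import Pool.Agent.H30.VMR.Bt

/-!
# The ideals of the threefold and of its section `z1 = 0` are prime
-/

noncomputable section

namespace Pool.VMR

open MvPolynomial QuadraticAlgebra

section three

variable {R : Type*} [CommRing R]

/-- the square of `z3` -/
def sq3 (u v a b : R) : R := u * a + v * b

/-- the square of `z4` -/
def sq4 (u v a b : R) : QA R (sq3 u v a b) := ⟨u * b + a ^ 2, v⟩

/-- the square of `w` -/
def sq6 (u v a b : R) : QA (QA R (sq3 u v a b)) (sq4 u v a b) := ⟨⟨b ^ 2, u⟩, ⟨v, 0⟩⟩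

/-- the tower -/
abbrev Tw (u v a b : R) : Type _ := QA (QA (QA R (sq3 u v a b)) (sq4 u v a b)) (sq6 u v a b)

/-- constants -/
def cst (u v a b : R) : R →+* Tw u v a b := ((em (sq6 u v a b)).comp (em (sq4 u v a b))).comp (em _)

/-- the coordinates -/
def crd (u v a b : R) : Fin 7 → Tw u v a b :=
  ![cst u v a b u, cst u v a b v, cst u v a b a, cst u v a b b,
    em (sq6 u v a b) (em (sq4 u v a b) (om _)), em (sq6 u v a b) (om _), om _]

theorem gen_f (u v a b c d w : R) (h3 : c * c = u * a + v * b) (h4 : d * d = u * b + v * c + a ^ 2)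
    (h6 : w * w = u * c + v * d + b ^ 2) : f1 ![u, v, a, b, c, d, w] = 0 ∧
      f2 ![u, v, a, b, c, d, w] = 0 ∧ f3 ![u, v, a, b, c, d, w] = 0 := by
  refine ⟨?_, ?_, ?_⟩
  · show u * a + v * b - c ^ 2 = 0
    linear_combination -h3
  · show u * b + v * c + a ^ 2 - d ^ 2 = 0
    linear_combination -h4
  · show u * c + v * d + b ^ 2 - w ^ 2 = 0
    linear_combination -h6

theorem cst_eq (u v a b x : R) :
    cst u v a b x = em (sq6 u v a b) (em (sq4 u v a b) (em (sq3 u v a b) x)) := rfl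

theorem sq4_eq (u v a b : R) : sq4 u v a b = em (sq3 u v a b) (u * b + a ^ 2) +
    em (sq3 u v a b) v * om (sq3 u v a b) := mk_eq _ _ _

theorem sq6_eq (u v a b : R) : sq6 u v a b = em (sq4 u v a b) (em (sq3 u v a b) (b ^ 2) +
    em (sq3 u v a b) u * om (sq3 u v a b)) +
    em (sq4 u v a b) (em (sq3 u v a b) v) * om (sq4 u v a b) := by
  have h1 : (⟨b ^ 2, u⟩ : QA R (sq3 u v a b)) = em (sq3 u v a b) (b ^ 2) +
    em (sq3 u v a b) u * om (sq3 u v a b) := mk_eq _ _ _
  rw [← h1]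
  exact mk_eq (sq4 u v a b) (⟨b ^ 2, u⟩ : QA R (sq3 u v a b)) (⟨v, 0⟩ : QA R (sq3 u v a b))

theorem crd_f (u v a b : R) : f1 (crd u v a b) = 0 ∧ f2 (crd u v a b) = 0 ∧
    f3 (crd u v a b) = 0 := by
  apply gen_f
  · rw [← map_mul, ← map_mul, om_sq, ← cst_eq, ← map_mul, ← map_mul, ← map_add]
    rfl
  · rw [← map_mul, om_sq]
    refine (congrArg (fun x => em (sq6 u v a b) (em (sq4 u v a b) x)) (sq4_eq u v a b)).trans ?_
    rw [map_add, map_mul, map_add, map_mul, ← cst_eq, ← cst_eq, map_add, map_mul, map_pow]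
    ring
  · rw [om_sq]
    refine (congrArg (fun x => em (sq6 u v a b) x) (sq6_eq u v a b)).trans ?_
    rw [map_add, map_add, map_add, map_mul, map_mul, map_mul, ← cst_eq, ← cst_eq,
      ← cst_eq, map_pow]
    ring

/-- the map to the tower -/
def phiT (e : ℂ →+* R) (u v a b : R) : Po 6 →+* Tw u v a b :=
  eval₂Hom ((cst u v a b).comp e) (crd u v a b)

theorem phiT_F (e : ℂ →+* R) (u v a b : R) : phiT e u v a b F1 = 0 ∧ phiT e u v a b F2 = 0 ∧
    phiT e u v a b F3 = 0 := by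
  obtain ⟨h1, h2, h3⟩ := crd_f u v a b
  refine ⟨?_, ?_, ?_⟩
  · rw [← h1]
    simp [phiT, F1, f1]
  · rw [← h2]
    simp [phiT, F2, f2]
  · rw [← h3]
    simp [phiT, F3, f3]

/-- the kernel is not too big -/
theorem phiT_ker {A : Type*} [CommRing A] (e : ℂ →+* R) (u v a b : R) (g : Po 6 →+* A)
    (h1 : g F1 = 0) (h2 : g F2 = 0) (h3 : g F3 = 0) (r : R →+* A)
    (he : ∀ x, r (e x) = g (C x)) (hu : r u = g (X 0)) (hv : r v = g (X 1)) (ha : r a = g (X 2))
    (hb : r b = g (X 3)) (P : Po 6) (hP : phiT e u v a b P = 0) : g P = 0 := by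
  have k1 : g (X 4) * g (X 4) = r (sq3 u v a b) := by
    simp only [sq3, map_add, map_mul, hu, hv, ha, hb]
    simp only [F1, f1, map_add, map_sub, map_mul, map_pow] at h1
    linear_combination -h1
  obtain ⟨r1, hr1, hr1'⟩ : ∃ r1 : QA R (sq3 u v a b) →+* A, (∀ x, r1 (em _ x) = r x) ∧
      r1 (om _) = g (X 4) := ⟨lft r _ _ k1, lft_em r _ _ k1, lft_om r _ _ k1⟩
  have k2 : g (X 5) * g (X 5) = r1 (sq4 u v a b) := by
    rw [sq4, mk_eq]
    simp only [map_add, map_mul, map_pow, hr1, hr1', hu, hv, ha, hb]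
    simp only [F2, f2, map_add, map_sub, map_mul, map_pow] at h2
    linear_combination -h2
  obtain ⟨r2, hr2, hr2'⟩ : ∃ r2 : QA _ (sq4 u v a b) →+* A, (∀ x, r2 (em _ x) = r1 x) ∧
      r2 (om _) = g (X 5) := ⟨lft r1 _ _ k2, lft_em r1 _ _ k2, lft_om r1 _ _ k2⟩
  have k3 : g (X 6) * g (X 6) = r2 (sq6 u v a b) := by
    rw [sq6, mk_eq, mk_eq, mk_eq]
    simp only [map_add, map_mul, map_pow, map_zero, hr2, hr2', hr1, hr1', hu, hv, hb]
    simp only [F3, f3, map_add, map_sub, map_mul, map_pow] at h3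
    linear_combination -h3
  obtain ⟨r3, hr3, hr3'⟩ : ∃ r3 : Tw u v a b →+* A, (∀ x, r3 (em _ x) = r2 x) ∧
      r3 (om _) = g (X 6) := ⟨lft r2 _ _ k3, lft_em r2 _ _ k3, lft_om r2 _ _ k3⟩
  have hc : ∀ x, r3 (cst u v a b x) = r x := by
    intro x
    show r3 (em _ (em _ (em _ x))) = r x
    rw [hr3, hr2, hr1]
  have key : r3.comp (phiT e u v a b) = g := by
    apply MvPolynomial.ringHom_ext
    · intro x
      rw [RingHom.comp_apply, phiT, coe_eval₂Hom, eval₂_C, RingHom.comp_apply, hc, he]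
    · intro i
      rw [RingHom.comp_apply, phiT, coe_eval₂Hom, eval₂_X]
      fin_cases i
      · exact (hc u).trans hu
      · exact (hc v).trans hv
      · exact (hc a).trans ha
      · exact (hc b).trans hb
      · show r3 (em _ (em _ (om _))) = g (X 4)
        rw [hr3, hr2, hr1']
      · show r3 (em _ (om _)) = g (X 5)
        rw [hr3, hr2']
      · show r3 (om _) = g (X 6)
        rw [hr3']
  rw [← key, RingHom.comp_apply, hP, map_zero]

/-- the tower is a domain -/
theorem tw_domain [IsDomain R] (u v a b : R) (h3 : NSq (sq3 u v a b))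
    (h4 : NSq ((u * b + a ^ 2) ^ 2 - sq3 u v a b * v ^ 2))
    (h6 : NSq ((b ^ 4 + u ^ 2 * sq3 u v a b - v ^ 2 * (u * b + a ^ 2)) ^ 2 -
      sq3 u v a b * (2 * u * b ^ 2 - v ^ 3) ^ 2)) : IsDomain (Tw u v a b) := by
  have d3 := qa_domain h3
  have n4 : NSq (sq4 u v a b) := nsq_of_nm h3 _ h4
  have d4 := qa_domain n4
  have n6 : NSq (sq6 u v a b) := by
    apply nsq_of_nm n4
    apply nsq_of_nm h3
    have e : nm (sq3 u v a b) (nm (sq4 u v a b) (sq6 u v a b)) =
        (b ^ 4 + u ^ 2 * sq3 u v a b - v ^ 2 * (u * b + a ^ 2)) ^ 2 -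
          sq3 u v a b * (2 * u * b ^ 2 - v ^ 3) ^ 2 := by
      simp only [nm, sq6, sq4, pow_two, re_sub, im_sub, re_mul, im_mul]
      ring
    rw [e]
    exact h6
  exact qa_domain n6

end three

/-- MODULE B1 -/
theorem b1_prime : I0.IsPrime := by
  set R := MvPolynomial (Fin 4) ℂ with hR
  have hd : IsDomain (Tw (X 0 : R) (X 1) (X 2) (X 3)) := by
    apply tw_domain
    · apply nsq_of_point _ ![0, 0, 1, 0] 0
      · simp [sq3]
      · simp [sq3, pderiv_X]
    · apply nsq_of_point _ ![1, 1, 1, 0] 0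
      · simp [sq3]
      · simp [sq3, pderiv_X]
    · apply nsq_of_point _ ![0, 1, 0, 0] 3
      · simp [sq3]
      · simp [sq3, pderiv_X]
  have hk : RingHom.ker (phiT (C : ℂ →+* R) (X 0) (X 1) (X 2) (X 3)) = I0 := by
    obtain ⟨h1, h2, h3⟩ := phiT_F (C : ℂ →+* R) (X 0) (X 1) (X 2) (X 3)
    apply le_antisymm
    · intro P hP
      rw [← Ideal.Quotient.eq_zero_iff_mem]
      apply phiT_ker (C : ℂ →+* R) (X 0) (X 1) (X 2) (X 3) (Ideal.Quotient.mk I0)
        (Ideal.Quotient.eq_zero_iff_mem.mpr F1_mem) (Ideal.Quotient.eq_zero_iff_mem.mpr F2_mem)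
        (Ideal.Quotient.eq_zero_iff_mem.mpr F3_mem)
        (eval₂Hom ((Ideal.Quotient.mk I0).comp C)
          ![Ideal.Quotient.mk I0 (X 0), Ideal.Quotient.mk I0 (X 1), Ideal.Quotient.mk I0 (X 2),
            Ideal.Quotient.mk I0 (X 3)])
      · intro x
        simp
      · simp
      · simp
      · simp
      · simp
      · exact hP
    · rw [I0, Ideal.span_le]
      intro Q hQ
      simp only [Set.mem_insert_iff, Set.mem_singleton_iff] at hQ
      rcases hQ with rfl | rfl | rfl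
      · exact h1
      · exact h2
      · exact h3
  rw [← hk]
  exact RingHom.ker_isPrime _

/-- MODULE B2 -/
theorem b2_prime : (Ideal.span {F1, F2, F3, X 2}).IsPrime := by
  set R := MvPolynomial (Fin 3) ℂ with hR
  set J : Ideal (Po 6) := Ideal.span {F1, F2, F3, X 2} with hJ
  have m1 : F1 ∈ J := Ideal.subset_span (by simp)
  have m2 : F2 ∈ J := Ideal.subset_span (by simp)
  have m3 : F3 ∈ J := Ideal.subset_span (by simp)
  have m4 : (X 2 : Po 6) ∈ J := Ideal.subset_span (by simp)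
  have hd : IsDomain (Tw (X 0 : R) (X 1) 0 (X 2)) := by
    apply tw_domain
    · apply nsq_of_point _ ![0, 1, 0] 2
      · simp [sq3]
      · simp [sq3, pderiv_X]
    · apply nsq_of_point _ ![0, 1, 0] 2
      · simp [sq3]
      · simp [sq3, pderiv_X]
    · apply nsq_of_point _ ![0, 1, 0] 2
      · simp [sq3]
      · simp [sq3, pderiv_X]
  have hk : RingHom.ker (phiT (C : ℂ →+* R) (X 0) (X 1) 0 (X 2)) = J := by
    obtain ⟨h1, h2, h3⟩ := phiT_F (C : ℂ →+* R) (X 0) (X 1) 0 (X 2)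
    apply le_antisymm
    · intro P hP
      rw [← Ideal.Quotient.eq_zero_iff_mem]
      apply phiT_ker (C : ℂ →+* R) (X 0) (X 1) 0 (X 2) (Ideal.Quotient.mk J)
        (Ideal.Quotient.eq_zero_iff_mem.mpr m1) (Ideal.Quotient.eq_zero_iff_mem.mpr m2)
        (Ideal.Quotient.eq_zero_iff_mem.mpr m3)
        (eval₂Hom ((Ideal.Quotient.mk J).comp C)
          ![Ideal.Quotient.mk J (X 0), Ideal.Quotient.mk J (X 1), Ideal.Quotient.mk J (X 3)])
      · intro x
        simp
      · simp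
      · simp
      · rw [map_zero]
        exact (Ideal.Quotient.eq_zero_iff_mem.mpr m4).symm
      · simp
      · exact hP
    · rw [hJ, Ideal.span_le]
      intro Q hQ
      simp only [Set.mem_insert_iff, Set.mem_singleton_iff] at hQ
      rcases hQ with rfl | rfl | rfl | rfl
      · exact h1
      · exact h2
      · exact h3
      · show phiT (C : ℂ →+* R) (X 0) (X 1) 0 (X 2) (X 2) = 0
        rw [phiT, coe_eval₂Hom, eval₂_X]
        simp [crd]
  rw [← hk]
  exact RingHom.ker_isPrime _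

end Pool.VMR
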