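import Pool.Agent.H30.VMR.Util

/-!
# Towers of square roots
-/

noncomputable section

namespace Pool.VMR

open MvPolynomial QuadraticAlgebra

section tower

variable {R A : Type*} [CommRing R] [CommRing A]

/-- `c` is not a square in the fraction field of `R` -/
def NSq (c : R) : Prop := ∀ x y : R, x ^ 2 = c * y ^ 2 → y = 0

/-- adjoin a square root of `c` -/
abbrev QA (R : Type*) [CommRing R] (c : R) : Type _ := QuadraticAlgebra R c 0

/-- the norm of a pair -/
def nm (c : R) (x : QA R c) : R := x.re ^ 2 - c * x.im ^ 2

theorem nm_mul (c : R) (x y : QA R c) : nm c (x * y) = nm c x * nm c y := by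
  simp only [nm, re_mul, im_mul]
  ring

theorem nm_ne [IsDomain R] {c : R} (hc : NSq c) {x : QA R c} (hx : nm c x = 0) : x = 0 := by
  have h1 : x.im = 0 := hc x.re x.im (by rw [nm] at hx; linear_combination hx)
  have h2 : x.re = 0 := by
    rw [nm, h1] at hx
    have : x.re ^ 2 = 0 := by linear_combination hx
    exact pow_eq_zero_iff (two_ne_zero) |>.mp this
  ext
  · exact h2
  · exact h1

/-- adjoining a square root of a nonsquare gives a domain -/
theorem qa_domain [IsDomain R] {c : R} (hc : NSq c) : IsDomain (QA R c) := by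
  have : NoZeroDivisors (QA R c) := by
    constructor
    intro x y hxy
    have h1 : nm c x * nm c y = 0 := by
      rw [← nm_mul, hxy]
      simp [nm]
    rcases mul_eq_zero.mp h1 with h | h
    · exact Or.inl (nm_ne hc h)
    · exact Or.inr (nm_ne hc h)
  exact NoZeroDivisors.to_isDomain _

/-- an element whose norm is not a square is not a square -/
theorem nsq_of_nm [IsDomain R] {c : R} (hc : NSq c) (d : QA R c) (hd : NSq (nm c d)) : NSq d := by
  intro x y h
  have h1 : nm c x ^ 2 = nm c d * nm c y ^ 2 := by
    have := congrArg (nm c) h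
    rw [nm_mul, pow_two, nm_mul, pow_two, nm_mul] at this
    linear_combination this
  exact nm_ne hc (hd _ _ h1)

/-- a ring homomorphism on `R` and a square root of the image of `c` -/
def lft (f : R →+* A) (c : R) (u : A) (hu : u * u = f c) : QA R c →+* A where
  toFun x := f x.re + f x.im * u
  map_one' := by simp
  map_zero' := by simp
  map_add' x y := by
    simp only [re_add, im_add, map_add]
    ring
  map_mul' x y := by
    simp only [re_mul, im_mul, map_add, map_mul, zero_mul, add_zero]
    linear_combination (- (f x.im * f y.im)) * hu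

theorem lft_mk (f : R →+* A) (c : R) (u : A) (hu : u * u = f c) (x y : R) :
    lft f c u hu ⟨x, y⟩ = f x + f y * u := rfl

theorem lft_C (f : R →+* A) (c : R) (u : A) (hu : u * u = f c) (x : R) :
    lft f c u hu (algebraMap R (QA R c) x) = f x := by
  show f x + f 0 * u = f x
  rw [map_zero, zero_mul, add_zero]

/-- the square root -/
def om (c : R) : QA R c := ⟨0, 1⟩

/-- the constants -/
def em (c : R) : R →+* QA R c := algebraMap R (QA R c)

theorem om_sq (c : R) : om c * om c = em c c := by
  show om c * om c = (⟨c, 0⟩ : QA R c)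
  ext
  · simp [om]
  · simp [om]

theorem mk_eq (c x y : R) : (⟨x, y⟩ : QA R c) = em c x + em c y * om c := by
  show (⟨x, y⟩ : QA R c) = (⟨x, 0⟩ : QA R c) + (⟨y, 0⟩ : QA R c) * om c
  ext
  · simp [om]
  · simp [om]

theorem lft_em (f : R →+* A) (c : R) (u : A) (hu : u * u = f c) (x : R) :
    lft f c u hu (em c x) = f x := lft_C f c u hu x

theorem lft_om (f : R →+* A) (c : R) (u : A) (hu : u * u = f c) :
    lft f c u hu (om c) = u := by
  show f 0 + f 1 * u = u
  rw [map_zero, map_one, one_mul, zero_add]

/-- over a polynomial ring it is enough that `c` vanishes at a point where a derivative does not -/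
theorem nsq_of_point {σ : Type*} (c : MvPolynomial σ ℂ) (p : σ → ℂ) (i : σ)
    (h0 : eval p c = 0) (h1 : eval p (pderiv i c) ≠ 0) : NSq c := by
  intro x y h
  by_contra hy
  have hdvd : y ^ 2 ∣ x ^ 2 := ⟨c, by rw [h]; ring⟩
  obtain ⟨s, rfl⟩ := (IsIntegrallyClosed.pow_dvd_pow_iff two_ne_zero).mp hdvd
  have hc : c = s * s := by
    have hy2 : y ^ 2 ≠ 0 := pow_ne_zero 2 hy
    apply mul_left_cancel₀ hy2
    linear_combination -h
  rw [hc, map_mul] at h0
  have hs : eval p s = 0 := by simpa using h0
  apply h1
  rw [hc, Derivation.leibniz]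
  simp [hs]

end tower

end Pool.VMR
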