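import Pool.Agent.H30.VMR.Stm

/-!
# C1, the factors of the discriminant: a place at infinity where c2 or c0 has odd order
-/

noncomputable section
namespace Pool.VMR.C1Inf

/-- simple roots at infinity lift to power series -/
theorem hens (α : ℂ) (hα : α ^ 6 + α = 0) : ∃ al : PowerSeries ℂ,
    PowerSeries.constantCoeff al = α ∧
      al ^ 6 + (al - PowerSeries.X * (2 * al ^ 4 + al ^ 3)
        - PowerSeries.X ^ 2 * (al ^ 3 - al ^ 2) + PowerSeries.X ^ 3
        + PowerSeries.X ^ 5 * al) = 0 := by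
  set e : PowerSeries ℂ := PowerSeries.X with he
  set g : Polynomial (PowerSeries ℂ) := Polynomial.X
      - Polynomial.C e * (2 * Polynomial.X ^ 4 + Polynomial.X ^ 3)
      - Polynomial.C (e ^ 2) * (Polynomial.X ^ 3 - Polynomial.X ^ 2) + Polynomial.C (e ^ 3)
      + Polynomial.C (e ^ 5) * Polynomial.X with hg
  have hgd : g.degree ≤ 4 := by
    rw [hg]
    compute_degree
  have hgd' : g.degree < (6 : ℕ) := lt_of_le_of_lt hgd (by norm_num)
  have hmon : (Polynomial.X ^ 6 + g).Monic := Polynomial.monic_X_pow_add hgd'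
  have hH : HenselianRing (PowerSeries ℂ) (Ideal.span {PowerSeries.X}) := inferInstance
  have hc0 : PowerSeries.constantCoeff e = 0 := by simp [he]
  have hder : ∀ x : PowerSeries ℂ, (Polynomial.derivative (Polynomial.X ^ 6 + g)).eval x
      = 6 * x ^ 5 + 1 - e * (8 * x ^ 3 + 3 * x ^ 2) - e ^ 2 * (3 * x ^ 2 - 2 * x) + e ^ 5 := by
    intro x
    rw [hg]
    generalize e ^ 2 = e2
    generalize e ^ 3 = e3
    generalize e ^ 5 = e5
    simp only [Polynomial.derivative_add, Polynomial.derivative_sub, Polynomial.derivative_mul,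
      Polynomial.derivative_C, Polynomial.derivative_X_pow, Polynomial.derivative_X,
      Polynomial.derivative_ofNat, Polynomial.eval_add, Polynomial.eval_sub, Polynomial.eval_mul,
      Polynomial.eval_C, Polynomial.eval_X, Polynomial.eval_pow, Polynomial.eval_ofNat,
      Polynomial.eval_zero, Polynomial.eval_one, Polynomial.eval_natCast]
    push_cast
    norm_num
    ring
  obtain ⟨al, h1, h2⟩ := hH.is_henselian (Polynomial.X ^ 6 + g) hmon (PowerSeries.C α)
    (by
      rw [Ideal.mem_span_singleton, PowerSeries.X_dvd_iff]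
      rw [hg]
      simp [hc0]
      exact hα)
    (by
      apply IsUnit.map
      rw [PowerSeries.isUnit_iff_constantCoeff, isUnit_iff_ne_zero, hder]
      have e1 : PowerSeries.constantCoeff (6 * (PowerSeries.C α) ^ 5 + 1
          - e * (8 * (PowerSeries.C α) ^ 3 + 3 * (PowerSeries.C α) ^ 2)
          - e ^ 2 * (3 * (PowerSeries.C α) ^ 2 - 2 * (PowerSeries.C α)) + e ^ 5) = 6 * α ^ 5 + 1 := by
        have h6 : PowerSeries.constantCoeff (6 : PowerSeries ℂ) = 6 := map_ofNat _ 6
        simp [hc0, h6]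
      rw [e1]
      rcases eq_or_ne α 0 with h0 | h0
      · simp [h0]
      · have h5 : α ^ 5 = -1 := by
          have : α * (α ^ 5 + 1) = 0 := by linear_combination hα
          rcases mul_eq_zero.mp this with h | h
          · exact absurd h h0
          · linear_combination h
        rw [h5]
        norm_num)
  refine ⟨al, ?_, ?_⟩
  · rw [Ideal.mem_span_singleton, PowerSeries.X_dvd_iff] at h2
    simpa [sub_eq_zero] using h2
  · rw [Polynomial.IsRoot, hg] at h1
    simpa using h1

/-! ## Laurent series -/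

/-- Laurent series -/
abbrev LS : Type := LaurentSeries ℂ

/-- the parameter -/
def ee : LS := HahnSeries.single 1 1

/-- its inverse -/
def ei : LS := ee⁻¹

/-- the inclusion of the power series -/
def pc : PowerSeries ℂ →+* LS := HahnSeries.ofPowerSeries ℤ ℂ

theorem pc_X : pc PowerSeries.X = ee := HahnSeries.ofPowerSeries_X

theorem pc_inj : Function.Injective pc := HahnSeries.ofPowerSeries_injective

theorem ee_ne : ee ≠ 0 := by
  intro h
  have := congrArg HahnSeries.order h
  rw [ee, HahnSeries.order_single one_ne_zero] at this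
  simp at this

theorem ei_ne : ei ≠ 0 := inv_ne_zero ee_ne

theorem ei_eq : ei = HahnSeries.single (-1) 1 := by
  unfold ei
  apply inv_eq_of_mul_eq_one_right
  rw [ee, HahnSeries.single_mul_single]
  simp

theorem ord_pc (u : PowerSeries ℂ) (hu : PowerSeries.constantCoeff u ≠ 0) :
    (pc u).order = 0 := by
  have h1 : ∀ v : PowerSeries ℂ, v ≠ 0 → 0 ≤ (pc v).order := by
    intro v hv
    by_contra hneg
    push Not at hneg
    have h2 : (pc v).coeff (pc v).order ≠ 0 := by
      intro h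
      rw [HahnSeries.coeff_order_eq_zero] at h
      exact hv (pc_inj (by rw [h, map_zero]))
    apply h2
    have := PowerSeries.coeff_coe v (pc v).order
    rw [if_pos hneg] at this
    exact this
  obtain ⟨v, hv⟩ := (PowerSeries.isUnit_iff_constantCoeff.mpr (isUnit_iff_ne_zero.mpr hu)).exists_right_inv
  have hu0 : u ≠ 0 := by
    rintro rfl
    simp at hv
  have hv0 : v ≠ 0 := by
    rintro rfl
    simp at hv
  have h3 : pc u * pc v = 1 := by rw [← map_mul, hv, map_one]
  have hpu : pc u ≠ 0 := fun h => by rw [h, zero_mul] at h3; exact zero_ne_one h3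
  have hpv : pc v ≠ 0 := fun h => by rw [h, mul_zero] at h3; exact zero_ne_one h3
  have h4 := HahnSeries.order_mul hpu hpv
  rw [h3, HahnSeries.order_one] at h4
  have := h1 u hu0
  have := h1 v hv0
  omega

theorem nonsq (k : ℕ) (hk : Odd k) (u : PowerSeries ℂ) (hu : PowerSeries.constantCoeff u ≠ 0)
    (x y : LS) (h : x ^ 2 = ei ^ k * pc u * y ^ 2) : y = 0 := by
  by_contra hy
  have hu0 : u ≠ 0 := by
    rintro rfl
    simp at hu
  have hpu : pc u ≠ 0 := fun h => hu0 (pc_inj (by rw [h, map_zero]))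
  have hx : x ≠ 0 := by
    rintro rfl
    have : ei ^ k * pc u * y ^ 2 ≠ 0 :=
      mul_ne_zero (mul_ne_zero (pow_ne_zero _ ei_ne) hpu) (pow_ne_zero _ hy)
    apply this
    rw [← h]
    simp
  have h1 := congrArg HahnSeries.order h
  rw [HahnSeries.order_mul (mul_ne_zero (pow_ne_zero _ ei_ne) hpu) (pow_ne_zero _ hy),
    HahnSeries.order_mul (pow_ne_zero _ ei_ne) hpu, HahnSeries.order_pow, HahnSeries.order_pow,
    HahnSeries.order_pow, ord_pc u hu, ei_eq, HahnSeries.order_single one_ne_zero] at h1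
  obtain ⟨j, rfl⟩ := hk
  simp at h1
  omega

/-! ## Evaluation -/

/-- the coefficients `b ↦ 1/e` -/
def phi : MvPolynomial (Fin 1) ℂ →+* LS :=
  (MvPolynomial.aeval (fun _ : Fin 1 => ei) : MvPolynomial (Fin 1) ℂ →ₐ[ℂ] LS).toRingHom

theorem phi_inj : Function.Injective phi := by
  have h : AlgebraicIndependent ℂ (fun _ : Fin 1 => ei) := by
    rw [algebraicIndependent_unique_type_iff]
    intro halg
    have hint : IsIntegral ℂ ei := halg.isIntegral
    have h1 := IsAlgClosed.degree_eq_one_of_irreducible ℂ (minpoly.irreducible hint)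
    rw [minpoly.degree_eq_one_iff] at h1
    obtain ⟨c, hc⟩ := h1
    have h2 := congrArg (fun z : LS => z.coeff (-1)) hc
    have h3 : algebraMap ℂ LS c = HahnSeries.C c := by
      rw [HahnSeries.algebraMap_apply']
      simp
    rw [ei_eq, h3] at h2
    simp [HahnSeries.C_apply] at h2
  exact h

/-- evaluation at `(r, 1/e)` -/
def ev2 (r : LS) : Rab →+* LS := (MvPolynomial.aeval ![r, ei] : Rab →ₐ[ℂ] LS).toRingHom

theorem ev2_eq (r : LS) (q : Rab) :
    Polynomial.eval₂ phi r (MvPolynomial.finSuccEquiv ℂ 1 q) = ev2 r q := by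
  have h : (Polynomial.eval₂RingHom phi r).comp
      ((MvPolynomial.finSuccEquiv ℂ 1 : Rab ≃ₐ[ℂ] _) : Rab →+* _) = ev2 r := by
    apply MvPolynomial.ringHom_ext
    · intro c
      simp [MvPolynomial.finSuccEquiv_apply, phi, ev2]
    · intro i
      fin_cases i
      · simp [MvPolynomial.finSuccEquiv_apply, phi, ev2]
      · have h1 := MvPolynomial.finSuccEquiv_X_succ (R := ℂ) (n := 1) (j := 0)
        have h2 : (MvPolynomial.finSuccEquiv ℂ 1) (MvPolynomial.X 1)
            = Polynomial.C (MvPolynomial.X 0) := h1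
        show Polynomial.eval₂ phi r ((MvPolynomial.finSuccEquiv ℂ 1) (MvPolynomial.X 1))
          = ev2 r (MvPolynomial.X 1)
        rw [h2]
        simp [phi, ev2]
  exact congrArg (fun f : Rab →+* LS => f q) h

/-- the discriminant of the conic bundle -/
def Dl : Rab := cc1 (MvPolynomial.X 0) (MvPolynomial.X 1) ^ 2
  - cc0 (MvPolynomial.X 0) (MvPolynomial.X 1) * cc2 (MvPolynomial.X 0) (MvPolynomial.X 1)

theorem Dl_eq : Dl = (MvPolynomial.X 0) ^ 6 + MvPolynomial.X 0 * MvPolynomial.X 1 ^ 5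
    - 2 * MvPolynomial.X 0 ^ 4 * MvPolynomial.X 1 - MvPolynomial.X 0 ^ 3 * MvPolynomial.X 1 ^ 2
    - MvPolynomial.X 0 ^ 3 * MvPolynomial.X 1 + MvPolynomial.X 0 ^ 2 * MvPolynomial.X 1 ^ 2
    + MvPolynomial.X 1 ^ 3 + MvPolynomial.X 0 := by
  unfold Dl cc0 cc1 cc2
  ring

/-- the discriminant as a polynomial in `a` -/
def Dp : Polynomial (MvPolynomial (Fin 1) ℂ) :=
  Polynomial.C (-2 * MvPolynomial.X 0) * Polynomial.X ^ 4
    - Polynomial.C (MvPolynomial.X 0 ^ 2 + MvPolynomial.X 0) * Polynomial.X ^ 3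
    + Polynomial.C (MvPolynomial.X 0 ^ 2) * Polynomial.X ^ 2
    + Polynomial.C (MvPolynomial.X 0 ^ 5 + 1) * Polynomial.X
    + Polynomial.C (MvPolynomial.X 0 ^ 3)

theorem fs_Dl : MvPolynomial.finSuccEquiv ℂ 1 Dl = Polynomial.X ^ 6 + Dp := by
  have h1 := MvPolynomial.finSuccEquiv_X_succ (R := ℂ) (n := 1) (j := 0)
  have h2 : (MvPolynomial.finSuccEquiv ℂ 1) (MvPolynomial.X 1)
      = Polynomial.C (MvPolynomial.X 0) := h1
  have h3 := MvPolynomial.finSuccEquiv_X_zero (R := ℂ) (n := 1)
  rw [Dl_eq, Dp]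
  simp only [map_add, map_sub, map_mul, map_pow, h2, h3, map_ofNat, map_one, map_neg]
  ring

theorem Dp_deg : Dp.degree < (6 : ℕ) := by
  have h : Dp.degree ≤ 4 := by
    unfold Dp
    compute_degree
  exact lt_of_le_of_lt h (by norm_num)

theorem Dl_monic : (MvPolynomial.finSuccEquiv ℂ 1 Dl).Monic := by
  rw [fs_Dl]
  exact Polynomial.monic_X_pow_add Dp_deg

theorem Dl_natDegree : (MvPolynomial.finSuccEquiv ℂ 1 Dl).natDegree = 6 := by
  rw [fs_Dl]
  rw [Polynomial.natDegree_add_eq_left_of_degree_lt, Polynomial.natDegree_X_pow]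
  rw [Polynomial.degree_X_pow]
  exact Dp_deg

theorem ev2_X0 (r : LS) : ev2 r (MvPolynomial.X 0) = r := by simp [ev2]

theorem ev2_X1 (r : LS) : ev2 r (MvPolynomial.X 1) = ei := by simp [ev2]

theorem root_Dl (al : PowerSeries ℂ) (h : al ^ 6 + (al - PowerSeries.X * (2 * al ^ 4 + al ^ 3)
        - PowerSeries.X ^ 2 * (al ^ 3 - al ^ 2) + PowerSeries.X ^ 3
        + PowerSeries.X ^ 5 * al) = 0) : ev2 (pc al * ei) Dl = 0 := by
  have h1 := congrArg pc h
  simp only [map_add, map_sub, map_mul, map_pow, map_ofNat, map_zero, pc_X] at h1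
  rw [Dl_eq]
  simp only [map_add, map_sub, map_mul, map_pow, map_ofNat, ev2_X0, ev2_X1]
  have h2 : (pc al) ^ 6 + (pc al - ee * (2 * pc al ^ 4 + pc al ^ 3)
        - ee ^ 2 * (pc al ^ 3 - pc al ^ 2) + ee ^ 3 + ee ^ 5 * pc al) = 0 := h1
  have h3 := ee_ne
  unfold ei
  field_simp
  linear_combination h2

/-! ## Places of a factor -/

/-- the six residues -/
def S6 : Finset ℂ := (Polynomial.X ^ 6 + Polynomial.X : Polynomial ℂ).roots.toFinset

theorem mem_S6 (α : ℂ) : α ∈ S6 ↔ α ^ 6 + α = 0 := by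
  have hne : (Polynomial.X ^ 6 + Polynomial.X : Polynomial ℂ) ≠ 0 := by
    apply Polynomial.Monic.ne_zero
    apply Polynomial.monic_X_pow_add
    rw [Polynomial.degree_X]
    norm_num
  unfold S6
  rw [Multiset.mem_toFinset, Polynomial.mem_roots hne]
  simp

theorem card_S6 : S6.card = 6 := by
  have hd : (Polynomial.X ^ 6 + Polynomial.X : Polynomial ℂ).natDegree = 6 := by
    compute_degree!
  have hsep : (Polynomial.X ^ 6 + Polynomial.X : Polynomial ℂ).Separable := by
    refine ⟨Polynomial.C (-36 / 5) * Polynomial.X ^ 4,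
      1 + Polynomial.C (6 / 5) * Polynomial.X ^ 5, ?_⟩
    have e1 : (Polynomial.C (-36 / 5 : ℂ)) = -6 * Polynomial.C (6 / 5) := by
      rw [← Polynomial.C_ofNat, ← Polynomial.C_neg, ← Polynomial.C_mul]
      norm_num
    have e2 : (5 : Polynomial ℂ) * Polynomial.C (6 / 5) = 6 := by
      rw [← Polynomial.C_ofNat, ← Polynomial.C_ofNat, ← Polynomial.C_mul]
      norm_num
    simp only [Polynomial.derivative_add, Polynomial.derivative_X_pow, Polynomial.derivative_X]
    rw [e1]
    push_cast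
    rw [map_ofNat]
    linear_combination (-(Polynomial.X : Polynomial ℂ) ^ 5) * e2
  unfold S6
  rw [Multiset.toFinset_card_of_nodup (Polynomial.nodup_roots hsep)]
  exact (Polynomial.splits_iff_card_roots.mp
    (IsAlgClosed.splits (Polynomial.X ^ 6 + Polynomial.X : Polynomial ℂ))).trans hd

theorem exists_place (Q : Polynomial LS) (hQ : Q ∣ (MvPolynomial.finSuccEquiv ℂ 1 Dl).map phi)
    (hd : Q.degree ≠ 0) : ∃ (α : ℂ) (al : PowerSeries ℂ), α ^ 6 + α = 0 ∧
      PowerSeries.constantCoeff al = α ∧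
      al ^ 6 + (al - PowerSeries.X * (2 * al ^ 4 + al ^ 3)
        - PowerSeries.X ^ 2 * (al ^ 3 - al ^ 2) + PowerSeries.X ^ 3
        + PowerSeries.X ^ 5 * al) = 0 ∧ Q.eval (pc al * ei) = 0 := by
  classical
  set P : Polynomial LS := (MvPolynomial.finSuccEquiv ℂ 1 Dl).map phi with hP
  have hPm : P.Monic := Dl_monic.map phi
  have hP0 : P ≠ 0 := hPm.ne_zero
  have hPd : P.natDegree = 6 := by
    rw [hP, Polynomial.natDegree_map_eq_of_injective phi_inj, Dl_natDegree]
  have hch : ∀ α : S6, ∃ al : PowerSeries ℂ, PowerSeries.constantCoeff al = α.1 ∧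
      al ^ 6 + (al - PowerSeries.X * (2 * al ^ 4 + al ^ 3)
        - PowerSeries.X ^ 2 * (al ^ 3 - al ^ 2) + PowerSeries.X ^ 3
        + PowerSeries.X ^ 5 * al) = 0 := fun α => hens α.1 ((mem_S6 _).mp α.2)
  choose al hal1 hal2 using hch
  set T : Finset LS := Finset.univ.image (fun α : S6 => pc (al α) * ei) with hT
  have hTc : T.card = 6 := by
    rw [hT, Finset.card_image_of_injective]
    · rw [Finset.card_univ, Fintype.card_coe, card_S6]
    · intro α β h
      have h1 : pc (al α) = pc (al β) := mul_right_cancel₀ ei_ne h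
      have h2 := pc_inj h1
      apply Subtype.ext
      rw [← hal1 α, ← hal1 β, h2]
  have hTr : T.val ≤ P.roots := by
    rw [Multiset.le_iff_subset T.nodup]
    intro z hz
    have hz' : z ∈ T := hz
    rw [hT, Finset.mem_image] at hz'
    obtain ⟨α, _, rfl⟩ := hz'
    rw [Polynomial.mem_roots hP0, Polynomial.IsRoot, hP, Polynomial.eval_map, ev2_eq]
    exact root_Dl _ (hal2 α)
  have hle : P.roots.card ≤ T.val.card := by
    have h1 := Polynomial.card_roots' P
    have h2 : T.val.card = 6 := hTc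
    omega
  have heq : T.val = P.roots := Multiset.eq_of_le_of_card_le hTr hle
  have hsp : P.Splits := by
    rw [Polynomial.splits_iff_card_roots, ← heq, hPd]
    exact hTc
  obtain ⟨z, hz⟩ := (hsp.of_dvd hP0 hQ).exists_eval_eq_zero hd
  have hzP : z ∈ P.roots := by
    rw [Polynomial.mem_roots hP0]
    exact Polynomial.IsRoot.dvd hz hQ
  rw [← heq] at hzP
  have hz' : z ∈ T := hzP
  rw [hT, Finset.mem_image] at hz'
  obtain ⟨α, _, rfl⟩ := hz'
  exact ⟨α.1, al α, (mem_S6 _).mp α.2, hal1 α, hal2 α, hz⟩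

theorem gen_ker {B L : Type} [CommRing B] [IsDomain B] [IsIntegrallyClosed B] [Field L]
    (φ : B →+* L) (hφ : Function.Injective φ) (r : L) (D : Polynomial B) (hD : D.Monic)
    (hr : Polynomial.eval₂ φ r D = 0) (Q Y : Polynomial B) (hQ : Irreducible Q)
    (h1 : Polynomial.eval₂ φ r Q = 0) (h2 : Polynomial.eval₂ φ r Y = 0) : Q ∣ Y := by
  let : Algebra B L := φ.toAlgebra
  have : FaithfulSMul B L := (faithfulSMul_iff_algebraMap_injective B L).mpr hφ
  have hint : IsIntegral B r := ⟨D, hD, hr⟩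
  have d1 : minpoly B r ∣ Q := minpoly.isIntegrallyClosed_dvd hint h1
  have d2 : minpoly B r ∣ Y := minpoly.isIntegrallyClosed_dvd hint h2
  obtain ⟨u, hu⟩ := d1
  rcases hQ.isUnit_or_isUnit hu with h | h
  · exact absurd h (minpoly.not_isUnit B r)
  · rw [hu]
    exact (IsUnit.mul_right_dvd h).mpr d2

theorem place (q : Rab) (hq : Irreducible q) (hd : q ∣ Dl) :
    ∃ (α : ℂ) (al : PowerSeries ℂ), α ^ 6 + α = 0 ∧ PowerSeries.constantCoeff al = α ∧
      al ^ 6 + (al - PowerSeries.X * (2 * al ^ 4 + al ^ 3)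
        - PowerSeries.X ^ 2 * (al ^ 3 - al ^ 2) + PowerSeries.X ^ 3
        + PowerSeries.X ^ 5 * al) = 0 ∧ ev2 (pc al * ei) q = 0 ∧
      ∀ y : Rab, ev2 (pc al * ei) y = 0 → q ∣ y := by
  set q' := MvPolynomial.finSuccEquiv ℂ 1 q with hq'
  have hqi : Irreducible q' := (MulEquiv.irreducible_iff (MvPolynomial.finSuccEquiv ℂ 1)).mpr hq
  have hqd : q' ∣ MvPolynomial.finSuccEquiv ℂ 1 Dl := map_dvd _ hd
  have hlc : IsUnit q'.leadingCoeff := by
    obtain ⟨s, hs⟩ := hqd
    have h1 := Dl_monic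
    rw [hs, Polynomial.Monic, Polynomial.leadingCoeff_mul] at h1
    exact IsUnit.of_mul_eq_one _ h1
  have hnd : q'.natDegree ≠ 0 := by
    intro h0
    rw [Polynomial.eq_C_of_natDegree_eq_zero h0] at hqi
    have h2 : q'.leadingCoeff = q'.coeff 0 := by rw [Polynomial.leadingCoeff, h0]
    rw [h2] at hlc
    exact hqi.not_isUnit (Polynomial.isUnit_C.mpr hlc)
  have hdeg : (q'.map phi).degree ≠ 0 := by
    intro h
    have h3 := Polynomial.natDegree_eq_zero_iff_degree_le_zero.mpr h.le
    rw [Polynomial.natDegree_map_eq_of_injective phi_inj] at h3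
    exact hnd h3
  obtain ⟨α, al, h1, h2, h3, h4⟩ := exists_place (q'.map phi) (Polynomial.map_dvd phi hqd) hdeg
  rw [Polynomial.eval_map] at h4
  refine ⟨α, al, h1, h2, h3, ?_, ?_⟩
  · rw [← ev2_eq]
    exact h4
  · intro y hy
    have h5 := gen_ker phi phi_inj (pc al * ei) _ Dl_monic
      (by rw [ev2_eq]; exact root_Dl al h3) q' (MvPolynomial.finSuccEquiv ℂ 1 y) hqi h4
      (by rw [ev2_eq]; exact hy)
    exact (map_dvd_iff (MvPolynomial.finSuccEquiv ℂ 1)).mp h5

end Pool.VMR.C1Inf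

namespace Pool.VMR

open C1Inf

/-- `c` is not a square modulo `q` (in the fraction field) -/
def NSqF (q c : Rab) : Prop := ¬ ∃ x y : Rab, ¬ q ∣ y ∧ q ∣ x ^ 2 - c * y ^ 2

/-- C1, the factors of the discriminant -/
theorem c1_inf : ∀ q : Rab, Irreducible q →
    q ∣ cc1 (MvPolynomial.X 0) (MvPolynomial.X 1) ^ 2
      - cc0 (MvPolynomial.X 0) (MvPolynomial.X 1) * cc2 (MvPolynomial.X 0) (MvPolynomial.X 1) →
    NSqF q (cc2 (MvPolynomial.X 0) (MvPolynomial.X 1)) ∨
      NSqF q (cc0 (MvPolynomial.X 0) (MvPolynomial.X 1)) := by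
  intro q hq hd
  obtain ⟨α, al, h1, h2, h3, h4, h5⟩ := place q hq hd
  have key : ∀ (c : Rab) (k : ℕ) (u : PowerSeries ℂ), Odd k → PowerSeries.constantCoeff u ≠ 0 →
      ev2 (pc al * ei) c = ei ^ k * pc u → NSqF q c := by
    rintro c k u hk hu hc ⟨x, y, hy, s, hs⟩
    apply hy
    apply h5
    apply nonsq k hk u hu (ev2 (pc al * ei) x)
    have h6 := congrArg (ev2 (pc al * ei)) hs
    rw [map_sub, map_mul, map_mul, map_pow, map_pow, h4, zero_mul, hc] at h6
    linear_combination h6
  have hee := ee_ne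
  rcases eq_or_ne α 0 with h0 | h0
  · right
    have hW : PowerSeries.constantCoeff (al ^ 5 + 1 - PowerSeries.X * (2 * al ^ 3 + al ^ 2)
        - PowerSeries.X ^ 2 * (al ^ 2 - al) + PowerSeries.X ^ 5) ≠ 0 := by
      simp [h2, h0]
    obtain ⟨m, hm⟩ := (PowerSeries.isUnit_iff_constantCoeff.mpr
      (isUnit_iff_ne_zero.mpr hW)).exists_right_inv
    have hal : al = -(PowerSeries.X ^ 3 * m) := by linear_combination m * h3 - al * hm
    apply key _ 3 (-(PowerSeries.X ^ 7 * m ^ 3) - 1 + PowerSeries.X ^ 5 * m) (by decide)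
    · simp
    · simp only [cc0, map_add, map_sub, map_mul, map_pow, map_one, map_neg, ev2_X0, ev2_X1, pc_X]
      rw [hal]
      simp only [map_mul, map_pow, map_neg, pc_X]
      unfold ei
      field_simp
      ring
  · left
    have ha5 : α ^ 5 = -1 := by
      have : α * (α ^ 5 + 1) = 0 := by linear_combination h1
      rcases mul_eq_zero.mp this with h | h
      · exact absurd h h0
      · linear_combination h
    apply key _ 5 (PowerSeries.X ^ 5 - al ^ 2 * PowerSeries.X ^ 2 + al ^ 5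
      - 2 * al ^ 3 * PowerSeries.X + al * PowerSeries.X ^ 2) (by decide)
    · simp [h2, ha5]
    · simp only [cc2, map_add, map_sub, map_mul, map_pow, map_ofNat, map_one, ev2_X0, ev2_X1, pc_X]
      unfold ei
      field_simp

end Pool.VMR
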