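import Pool.Agent.H30.VMR.Util

/-!
# Module C4, first part: the parametrisation of the open part of the threefold
-/

noncomputable section

namespace Pool.VMR

namespace C4

open MvPolynomial

/-- polynomials in `a, b, z, w` -/
abbrev A4 : Type := MvPolynomial (Fin 4) ℂ

/-! ## The conic bundle is irreducible -/

theorem not_sq (r : Polynomial ℂ) : r ^ 2 ≠ -Polynomial.X ^ 3 := by
  intro h
  have := congrArg Polynomial.natDegree h
  rw [Polynomial.natDegree_pow, Polynomial.natDegree_neg, Polynomial.natDegree_X_pow] at this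
  omega

/-- the right side of the conic bundle in three variables (`b, z, a`) -/
def c3 : MvPolynomial (Fin 3) ℂ :=
  cc0 (X 2) (X 0) + 2 * cc1 (X 2) (X 0) * X 1 + cc2 (X 2) (X 0) * X 1 ^ 2

theorem c3_not_sq (r : MvPolynomial (Fin 3) ℂ) : r ^ 2 ≠ c3 := by
  intro h
  have h2 := congrArg (aeval (R := ℂ) (![Polynomial.X, 0, 0] : Fin 3 → Polynomial ℂ)) h
  apply not_sq (aeval (R := ℂ) (![Polynomial.X, 0, 0] : Fin 3 → Polynomial ℂ) r)
  rw [map_pow] at h2
  rw [h2]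
  simp [c3, cc0, cc1, cc2]

/-- the swap of the first and the last variable -/
def sw : Fin 4 ≃ Fin 4 := Equiv.swap 0 3

/-- `w` as the main variable -/
def eqw : A4 ≃ₐ[ℂ] Polynomial (MvPolynomial (Fin 3) ℂ) :=
  (renameEquiv ℂ sw).trans (finSuccEquiv ℂ 3)

theorem eqw_gw : eqw gw = Polynomial.X ^ 2 - Polynomial.C c3 := by
  have s0 : sw 0 = 3 := by decide
  have s1 : sw 1 = 1 := by decide
  have s2 : sw 2 = 2 := by decide
  have s3 : sw 3 = 0 := by decide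
  have e0 : eqw (X 0) = Polynomial.C (X 2) := by
    simp only [eqw, AlgEquiv.trans_apply, renameEquiv_apply, rename_X, s0]
    exact finSuccEquiv_X_succ (j := 2)
  have e1 : eqw (X 1) = Polynomial.C (X 0) := by
    simp only [eqw, AlgEquiv.trans_apply, renameEquiv_apply, rename_X, s1]
    exact finSuccEquiv_X_succ (j := 0)
  have e2 : eqw (X 2) = Polynomial.C (X 1) := by
    simp only [eqw, AlgEquiv.trans_apply, renameEquiv_apply, rename_X, s2]
    exact finSuccEquiv_X_succ (j := 1)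
  have e3 : eqw (X 3) = Polynomial.X := by
    simp only [eqw, AlgEquiv.trans_apply, renameEquiv_apply, rename_X, s3]
    exact finSuccEquiv_X_zero
  simp only [gw, c3, cc0, cc1, cc2, map_sub, map_add, map_mul, map_pow, e0, e1, e2, e3, map_one,
    map_ofNat]

theorem irr_eqw : Irreducible (Polynomial.X ^ 2 - Polynomial.C c3) := by
  have hm : (Polynomial.X ^ 2 - Polynomial.C c3).Monic :=
    Polynomial.monic_X_pow_sub_C c3 (by norm_num)
  rw [hm.irreducible_iff_irreducible_map_fraction_map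
    (K := FractionRing (MvPolynomial (Fin 3) ℂ))]
  have hdeg : ((Polynomial.X ^ 2 - Polynomial.C c3).map
      (algebraMap _ (FractionRing (MvPolynomial (Fin 3) ℂ)))).natDegree = 2 := by
    rw [Polynomial.Monic.natDegree_map hm]
    exact Polynomial.natDegree_X_pow_sub_C
  refine Polynomial.irreducible_of_degree_le_three_of_not_isRoot (by rw [hdeg]; simp) ?_
  intro r hr
  have hr' : r ^ 2 = algebraMap _ _ c3 := by
    have : Polynomial.eval r ((Polynomial.X ^ 2 - Polynomial.C c3).map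
      (algebraMap _ (FractionRing (MvPolynomial (Fin 3) ℂ)))) = 0 := hr
    simp only [Polynomial.map_sub, Polynomial.map_pow, Polynomial.map_X, Polynomial.map_C,
      Polynomial.eval_sub, Polynomial.eval_pow, Polynomial.eval_X, Polynomial.eval_C] at this
    linear_combination this
  have hint : IsIntegral (MvPolynomial (Fin 3) ℂ) r := by
    refine ⟨Polynomial.X ^ 2 - Polynomial.C c3, hm, ?_⟩
    simp [Polynomial.eval₂_sub, hr']
  obtain ⟨y, hy⟩ := IsIntegrallyClosed.isIntegral_iff.1 hint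
  apply c3_not_sq y
  apply IsFractionRing.injective (MvPolynomial (Fin 3) ℂ)
    (FractionRing (MvPolynomial (Fin 3) ℂ))
  rw [map_pow, hy, hr']

theorem gw_prime : (Ideal.span {gw} : Ideal A4).IsPrime := by
  have h : Irreducible gw := by
    rw [← MulEquiv.irreducible_iff (eqw : A4 ≃* Polynomial (MvPolynomial (Fin 3) ℂ))]
    show Irreducible (eqw gw)
    rw [eqw_gw]
    exact irr_eqw
  rw [Ideal.span_singleton_prime h.ne_zero]
  exact h.prime

/-- Nullstellensatz in four variables -/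
theorem nst (I : Ideal A4) (P : A4) (h : ∀ p : Fin 4 → ℂ, (∀ Q ∈ I, eval p Q = 0) →
    eval p P = 0) : P ∈ I.radical := by
  have key := MvPolynomial.vanishingIdeal_zeroLocus_eq_radical (k := ℂ) (K := ℂ) I
  rw [← key, MvPolynomial.mem_vanishingIdeal_iff]
  intro x hx
  rw [MvPolynomial.mem_zeroLocus_iff] at hx
  have hc : ∀ Q : A4, aeval x Q = eval x Q := fun Q => by rw [← coe_aeval_eq_eval]; rfl
  rw [hc]
  exact h x fun Q hQ => by rw [← hc]; exact hx Q hQ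

/-! ## The two maps -/

/-- the value of `DD` on the affine chart -/
def dv (p : Fin 4 → ℂ) : ℂ := p 0 * p 2 - p 1 - p 2 ^ 2
/-- the value of `z3` on the affine chart -/
def t3 (p : Fin 4 → ℂ) : ℂ := p 0 * p 2 - p 1
/-- the value of `z4` on the affine chart -/
def t4 (p : Fin 4 → ℂ) : ℂ := (p 0 ^ 2 - p 1) * p 2 - p 0 * p 1

/-- the map of the conic bundle to the cone -/
def B (p : Fin 4 → ℂ) : V 6 :=
  ![t3 p ^ 3 - p 2 * t4 p ^ 2 + p 2, t4 p ^ 2 - 1 - p 2 * t3 p ^ 2, dv p, dv p * p 2, dv p * t3 p,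
    dv p * t4 p, dv p * p 3]

theorem B_0 (p : Fin 4 → ℂ) : B p 0 = t3 p ^ 3 - p 2 * t4 p ^ 2 + p 2 := rfl
theorem B_1 (p : Fin 4 → ℂ) : B p 1 = t4 p ^ 2 - 1 - p 2 * t3 p ^ 2 := rfl
theorem B_2 (p : Fin 4 → ℂ) : B p 2 = dv p := rfl
theorem B_3 (p : Fin 4 → ℂ) : B p 3 = dv p * p 2 := rfl
theorem B_4 (p : Fin 4 → ℂ) : B p 4 = dv p * t3 p := rfl
theorem B_5 (p : Fin 4 → ℂ) : B p 5 = dv p * t4 p := rfl
theorem B_6 (p : Fin 4 → ℂ) : B p 6 = dv p * p 3 := rfl

/-- `DD` on the affine chart as a polynomial -/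
def Dp : A4 := X 0 * X 2 - X 1 - X 2 ^ 2
/-- `z3` on the affine chart as a polynomial -/
def T3 : A4 := X 0 * X 2 - X 1
/-- `z4` on the affine chart as a polynomial -/
def T4 : A4 := (X 0 ^ 2 - X 1) * X 2 - X 0 * X 1

theorem eval_Dp (p : Fin 4 → ℂ) : eval p Dp = dv p := by simp [Dp, dv]

/-- the map `B` as polynomials -/
def Bp : Fin 7 → A4 :=
  ![T3 ^ 3 - X 2 * T4 ^ 2 + X 2, T4 ^ 2 - 1 - X 2 * T3 ^ 2, Dp, Dp * X 2, Dp * T3, Dp * T4,
    Dp * X 3]

theorem eval_Bp (p : Fin 4 → ℂ) (i : Fin 7) : eval p (Bp i) = B p i := by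
  fin_cases i <;> simp [Bp, B, T3, T4, Dp, t3, t4, dv]

/-- composition with `B` -/
def cB (P : Po 6) : A4 := aeval Bp P

theorem eval_cB (p : Fin 4 → ℂ) (P : Po 6) : eval p (cB P) = eval (B p) P := by
  have : (eval p).comp (aeval (R := ℂ) Bp).toRingHom = eval (B p) := by
    apply MvPolynomial.ringHom_ext
    · intro r
      simp
    · intro i
      simp [eval_Bp]
  exact RingHom.congr_fun this P

theorem cB_mul (P Q : Po 6) : cB (P * Q) = cB P * cB Q := map_mul _ _ _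

theorem eval_gw (p : Fin 4 → ℂ) : eval p gw =
    p 3 ^ 2 - (cc0 (p 0) (p 1) + 2 * cc1 (p 0) (p 1) * p 2 + cc2 (p 0) (p 1) * p 2 ^ 2) := by
  simp [gw, cc0, cc1, cc2]

theorem f1_B (p : Fin 4 → ℂ) : f1 (B p) = 0 := by
  simp only [f1, B_0, B_1, B_2, B_3, B_4, t3, t4, dv]
  ring

theorem f2_B (p : Fin 4 → ℂ) : f2 (B p) = 0 := by
  simp only [f2, B_0, B_1, B_2, B_3, B_4, B_5, t3, t4, dv]
  ring

theorem f3_B (p : Fin 4 → ℂ) : f3 (B p) = -(dv p ^ 2 * eval p gw) := by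
  simp only [f3, B_0, B_1, B_3, B_4, B_5, B_6, t3, t4, dv, eval_gw, cc0, cc1, cc2]
  ring

/-- the value of `DD` -/
def dx (x : V 6) : ℂ := x 2 * x 4 - x 3 ^ 2

theorem eval_DD (x : V 6) : eval x DD = dx x := by simp [DD, dx]

theorem dx_B (p : Fin 4 → ℂ) : dx (B p) = dv p ^ 3 := by
  simp only [dx, B_2, B_3, B_4, t3, dv]
  ring

theorem B_mem {p : Fin 4 → ℂ} (hg : eval p gw = 0) (hd : dv p ≠ 0) : B p ∈ Cone := by
  refine ⟨?_, f1_B p, f2_B p, ?_⟩
  · intro h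
    apply hd
    rw [← B_2, h]
    rfl
  · rw [f3_B, hg]
    ring

/-- the inverse map -/
def al (x : V 6) : Fin 4 → ℂ :=
  ![(x 2 * x 5 - x 3 * x 4) / dx x, (x 3 * x 5 - x 4 ^ 2) / dx x, x 3 / x 2, x 6 / x 2]

theorem al_0 (x : V 6) : al x 0 = (x 2 * x 5 - x 3 * x 4) / dx x := rfl
theorem al_1 (x : V 6) : al x 1 = (x 3 * x 5 - x 4 ^ 2) / dx x := rfl
theorem al_2 (x : V 6) : al x 2 = x 3 / x 2 := rfl
theorem al_3 (x : V 6) : al x 3 = x 6 / x 2 := rfl

theorem t3_al {x : V 6} (h2 : x 2 ≠ 0) (hd : dx x ≠ 0) : t3 (al x) = x 4 / x 2 := by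
  simp only [t3, al_0, al_1, al_2]
  field_simp
  simp only [dx]
  ring

theorem t4_al {x : V 6} (h2 : x 2 ≠ 0) (hd : dx x ≠ 0) : t4 (al x) = x 5 / x 2 := by
  have e : t4 (al x) = al x 0 * t3 (al x) - al x 1 * al x 2 := by
    simp only [t4, t3]
    ring
  rw [e, t3_al h2 hd, al_0, al_1, al_2]
  field_simp
  simp only [dx]
  ring

theorem dv_al {x : V 6} (h2 : x 2 ≠ 0) (hd : dx x ≠ 0) : dv (al x) = dx x / x 2 ^ 2 := by
  have e : dv (al x) = t3 (al x) - al x 2 ^ 2 := by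
    simp only [dv, t3]
  rw [e, t3_al h2 hd, al_2]
  field_simp
  simp only [dx]
  ring

theorem B_al {x : V 6} (hx : x ∈ Cone) (h2 : x 2 ≠ 0) (hd : dx x ≠ 0) :
    B (al x) = (dx x / x 2 ^ 3) • x := by
  obtain ⟨-, q1, q2, -⟩ := hx
  simp only [f1, f2] at q1 q2
  ext i
  fin_cases i
  · show B (al x) 0 = dx x / x 2 ^ 3 * x 0
    rw [B_0, t3_al h2 hd, t4_al h2 hd, al_2]
    field_simp
    simp only [dx]
    linear_combination (-x 4) * q1 + x 3 * q2
  · show B (al x) 1 = dx x / x 2 ^ 3 * x 1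
    rw [B_1, t3_al h2 hd, t4_al h2 hd, al_2]
    field_simp
    simp only [dx]
    linear_combination x 3 * q1 - x 2 * q2
  · show B (al x) 2 = dx x / x 2 ^ 3 * x 2
    rw [B_2, dv_al h2 hd]
    field_simp
  · show B (al x) 3 = dx x / x 2 ^ 3 * x 3
    rw [B_3, dv_al h2 hd, al_2]
    field_simp
  · show B (al x) 4 = dx x / x 2 ^ 3 * x 4
    rw [B_4, dv_al h2 hd, t3_al h2 hd]
    field_simp
  · show B (al x) 5 = dx x / x 2 ^ 3 * x 5
    rw [B_5, dv_al h2 hd, t4_al h2 hd]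
    field_simp
  · show B (al x) 6 = dx x / x 2 ^ 3 * x 6
    rw [B_6, dv_al h2 hd, al_3]
    field_simp

theorem gw_al {x : V 6} (hx : x ∈ Cone) (h2 : x 2 ≠ 0) (hd : dx x ≠ 0) :
    eval (al x) gw = 0 := by
  have h := f3_B (al x)
  rw [B_al hx h2 hd] at h
  have h3 : f3 ((dx x / x 2 ^ 3) • x) = (dx x / x 2 ^ 3) ^ 2 * f3 x := by
    simp only [f3, Pi.smul_apply, smul_eq_mul]
    ring
  rw [h3, hx.2.2.2, mul_zero] at h
  have h4 : dv (al x) ≠ 0 := by
    rw [dv_al h2 hd]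
    exact div_ne_zero hd (pow_ne_zero 2 h2)
  have h5 := neg_eq_zero.1 h.symm
  exact (mul_eq_zero.1 h5).resolve_left (pow_ne_zero 2 h4)

theorem al_B {p : Fin 4 → ℂ} (hd : dv p ≠ 0) : al (B p) = p := by
  ext i
  fin_cases i
  · show al (B p) 0 = p 0
    rw [al_0, dx_B, B_2, B_3, B_4, B_5]
    rw [div_eq_iff (pow_ne_zero 3 hd)]
    simp only [t3, t4, dv]
    ring
  · show al (B p) 1 = p 1
    rw [al_1, dx_B, B_3, B_4, B_5]
    rw [div_eq_iff (pow_ne_zero 3 hd)]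
    simp only [t3, t4, dv]
    ring
  · show al (B p) 2 = p 2
    rw [al_2, B_2, B_3]
    field_simp
  · show al (B p) 3 = p 3
    rw [al_3, B_2, B_6]
    field_simp

/-- evaluation of a homogeneous polynomial at a multiple -/
theorem eval_smul_hom {P : Po 6} {k : ℕ} (hP : P.IsHomogeneous k) (c : ℂ) (x : V 6) :
    eval (c • x) P = c ^ k * eval x P := by
  rw [eval_eq, eval_eq, Finset.mul_sum]
  apply Finset.sum_congr rfl
  intro m hm
  have hk : m.sum (fun _ e => e) = k := by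
    have := hP (mem_support_iff.1 hm)
    rw [Finsupp.weight_apply] at this
    simpa using this
  have e : ∏ i ∈ m.support, (c • x) i ^ m i = c ^ k * ∏ i ∈ m.support, x i ^ m i := by
    rw [← hk, Finsupp.sum, ← Finset.prod_pow_eq_pow_sum, ← Finset.prod_mul_distrib]
    apply Finset.prod_congr rfl
    intro i _
    simp [mul_pow]
  rw [e]
  ring

/-! ## Homogenisation -/

/-- a monomial in `a, b, z, w` times a power of `z1 DD` -/
def mon (N : ℕ) (m : Fin 4 →₀ ℕ) : Po 6 :=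
  (X 2 * X 5 - X 3 * X 4) ^ m 0 * (X 3 * X 5 - X 4 ^ 2) ^ m 1 * X 3 ^ m 2 * X 6 ^ m 3 *
    (DD ^ (N - (m 0 + m 1)) * X 2 ^ (N - (m 2 + m 3)))

/-- `(z1 DD)^N Q(a, b, z, w)` as a polynomial -/
def H (N : ℕ) (Q : A4) : Po 6 := ∑ m ∈ Q.support, C (coeff m Q) * mon N m

theorem hom_DD : DD.IsHomogeneous 2 := by
  unfold DD
  exact ((isHomogeneous_X ℂ _).mul (isHomogeneous_X ℂ _)).sub ((isHomogeneous_X ℂ _).pow 2)

theorem hom_mon {N : ℕ} {m : Fin 4 →₀ ℕ} (h1 : m 0 + m 1 ≤ N) (h2 : m 2 + m 3 ≤ N) :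
    (mon N m).IsHomogeneous (3 * N) := by
  have a1 : ((X 2 * X 5 - X 3 * X 4 : Po 6)).IsHomogeneous 2 :=
    ((isHomogeneous_X ℂ _).mul (isHomogeneous_X ℂ _)).sub
      ((isHomogeneous_X ℂ _).mul (isHomogeneous_X ℂ _))
  have a2 : ((X 3 * X 5 - X 4 ^ 2 : Po 6)).IsHomogeneous 2 :=
    ((isHomogeneous_X ℂ _).mul (isHomogeneous_X ℂ _)).sub ((isHomogeneous_X ℂ _).pow 2)
  have a3 : ((X 3 : Po 6)).IsHomogeneous 1 := isHomogeneous_X ℂ _
  have a4 : ((X 6 : Po 6)).IsHomogeneous 1 := isHomogeneous_X ℂ _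
  have a5 : ((X 2 : Po 6)).IsHomogeneous 1 := isHomogeneous_X ℂ _
  have key := ((((a1.pow (m 0)).mul (a2.pow (m 1))).mul (a3.pow (m 2))).mul (a4.pow (m 3))).mul
    ((hom_DD.pow (N - (m 0 + m 1))).mul (a5.pow (N - (m 2 + m 3))))
  have e : 2 * m 0 + 2 * m 1 + 1 * m 2 + 1 * m 3 +
      (2 * (N - (m 0 + m 1)) + 1 * (N - (m 2 + m 3))) = 3 * N := by omega
  rw [e] at key
  exact key

theorem sum_le {N : ℕ} {Q : A4} (hN : Q.totalDegree ≤ N) {m : Fin 4 →₀ ℕ} (hm : m ∈ Q.support) :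
    m 0 + m 1 + m 2 + m 3 ≤ N := by
  have := le_totalDegree hm
  rw [Finsupp.sum_fintype _ _ (fun _ => rfl), Fin.sum_univ_four] at this
  omega

theorem hom_H {N : ℕ} {Q : A4} (hN : Q.totalDegree ≤ N) : (H N Q).IsHomogeneous (3 * N) := by
  unfold H
  apply IsHomogeneous.sum
  intro m hm
  have := sum_le hN hm
  have h := (isHomogeneous_C (Fin 7) (coeff m Q)).mul
    (hom_mon (N := N) (m := m) (by omega) (by omega))
  rwa [zero_add] at h

theorem eval_mon {N : ℕ} {m : Fin 4 →₀ ℕ} (h1 : m 0 + m 1 ≤ N) (h2 : m 2 + m 3 ≤ N) {x : V 6}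
    (hx2 : x 2 ≠ 0) (hd : dx x ≠ 0) : eval x (mon N m) =
      (x 2 * dx x) ^ N * ∏ i, al x i ^ m i := by
  rw [Fin.prod_univ_four, al_0, al_1, al_2, al_3]
  obtain ⟨r, hr⟩ := Nat.exists_eq_add_of_le h1
  obtain ⟨t, ht⟩ := Nat.exists_eq_add_of_le h2
  have e1 : N - (m 0 + m 1) = r := by omega
  have e2 : N - (m 2 + m 3) = t := by omega
  have e3 : (x 2 * dx x) ^ N = dx x ^ (m 0) * dx x ^ (m 1) * dx x ^ r * (x 2 ^ (m 2) *
      x 2 ^ (m 3) * x 2 ^ t) := by
    rw [mul_pow, ← pow_add, ← pow_add, ← pow_add, ← pow_add, ← ht, ← hr, mul_comm]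
  rw [mon, e1, e2, e3]
  simp only [map_mul, map_pow, map_sub, eval_X, eval_DD, div_pow]
  field_simp

theorem eval_H {N : ℕ} {Q : A4} (hN : Q.totalDegree ≤ N) {x : V 6} (hx2 : x 2 ≠ 0)
    (hd : dx x ≠ 0) : eval x (H N Q) = (x 2 * dx x) ^ N * eval (al x) Q := by
  rw [H, map_sum, eval_eq', Finset.mul_sum]
  apply Finset.sum_congr rfl
  intro m hm
  have := sum_le hN hm
  rw [map_mul, eval_C, eval_mon (by omega) (by omega) hx2 hd]
  ring

end C4

end Pool.VMR
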