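import Pool.Agent.H30.VMR.C4a

/-!
# Module C4, second part: division on the cone
-/

noncomputable section

namespace Pool.VMR

namespace C4

open MvPolynomial

/-- the ideal of a hypersurface section -/
def J (G : Po 6) : Ideal (Po 6) := Ideal.span {F1, F2, F3, G}

theorem mem_J {G R : Po 6} : R ∈ J G ↔ ∃ S, R - G * S ∈ I0 := by
  have e : J G = I0 ⊔ Ideal.span {G} := by
    rw [J, I0, ← Ideal.span_union]
    congr 1
    ext P
    simp
    tauto
  rw [e]
  constructor
  · intro h
    obtain ⟨a, ha, b, hb, hab⟩ := Submodule.mem_sup.1 h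
    obtain ⟨S, rfl⟩ := Ideal.mem_span_singleton'.1 hb
    refine ⟨S, ?_⟩
    rw [← hab]
    have : a + S * G - G * S = a := by ring
    rwa [this]
  · rintro ⟨S, hS⟩
    have : R = (R - G * S) + G * S := by ring
    rw [this]
    exact Submodule.add_mem_sup hS (Ideal.mul_mem_right _ _ (Ideal.mem_span_singleton_self G))

theorem eval_of_mem_J {G R : Po 6} (h : R ∈ J G) {x : V 6} (h1 : f1 x = 0) (h2 : f2 x = 0)
    (h3 : f3 x = 0) (hG : eval x G = 0) : eval x R = 0 := by
  obtain ⟨S, hS⟩ := mem_J.1 h
  have := eval_eq_zero_of_mem hS h1 h2 h3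
  rw [map_sub, map_mul, hG, zero_mul, sub_zero] at this
  exact this

theorem smul_mem_Cone {x : V 6} (hx : x ∈ Cone) {c : ℂ} (hc : c ≠ 0) : c • x ∈ Cone := by
  obtain ⟨h0, h1, h2, h3⟩ := hx
  refine ⟨smul_ne_zero hc h0, ?_, ?_, ?_⟩
  · have : f1 (c • x) = c ^ 2 * f1 x := by
      simp only [f1, Pi.smul_apply, smul_eq_mul]
      ring
    rw [this, h1, mul_zero]
  · have : f2 (c • x) = c ^ 2 * f2 x := by
      simp only [f2, Pi.smul_apply, smul_eq_mul]
      ring
    rw [this, h2, mul_zero]
  · have : f3 (c • x) = c ^ 2 * f3 x := by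
      simp only [f3, Pi.smul_apply, smul_eq_mul]
      ring
    rw [this, h3, mul_zero]

/-- the quotient of homogeneous polynomials on the cone can be taken homogeneous -/
theorem hom_div {G P R : Po 6} {d k : ℕ} (hG : G.IsHomogeneous d) (hP : P.IsHomogeneous k)
    (h : ∀ x ∈ Cone, eval x P = eval x G * eval x R) :
    (∀ x ∈ Cone, eval x P = 0) ∨ (d ≤ k ∧ ∃ R' : Po 6, R'.IsHomogeneous (k - d) ∧
      ∀ x ∈ Cone, eval x P = eval x G * eval x R') := by
  have key : ∀ x ∈ Cone, eval x P =
      if d ≤ k then eval x G * eval x (homogeneousComponent (k - d) R) else 0 := by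
    intro x hx
    set g : Polynomial ℂ := ∑ j ∈ Finset.range (R.totalDegree + 1),
      Polynomial.C (eval x (homogeneousComponent j R)) * Polynomial.X ^ j with hg
    have hgc : ∀ j, g.coeff j = eval x (homogeneousComponent j R) := by
      intro j
      rw [hg, Polynomial.finsetSum_coeff]
      simp only [Polynomial.coeff_C_mul_X_pow]
      rw [Finset.sum_ite_eq]
      split_ifs with hj
      · rfl
      · rw [Finset.mem_range] at hj
        rw [homogeneousComponent_eq_zero _ _ (by omega), map_zero]
    have hge : ∀ c : ℂ, g.eval c = eval (c • x) R := by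
      intro c
      conv_rhs => rw [← sum_homogeneousComponent R]
      rw [hg, Polynomial.eval_finsetSum, map_sum]
      apply Finset.sum_congr rfl
      intro j _
      rw [eval_smul_hom (homogeneousComponent_isHomogeneous j R)]
      simp
      ring
    set f : Polynomial ℂ := Polynomial.C (eval x P) * Polynomial.X ^ k -
      Polynomial.C (eval x G) * (Polynomial.X ^ d * g) with hf
    have hf0 : Polynomial.X * f = 0 := by
      apply Polynomial.funext
      intro c
      by_cases hc : c = 0
      · simp [hc]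
      · have e1 := h (c • x) (smul_mem_Cone hx hc)
        rw [eval_smul_hom hP, eval_smul_hom hG, ← hge c] at e1
        rw [hf]
        simp only [Polynomial.eval_mul, Polynomial.eval_sub, Polynomial.eval_X,
          Polynomial.eval_C, Polynomial.eval_pow, Polynomial.eval_zero]
        linear_combination c * e1
    have hf1 : f = 0 := (mul_eq_zero.1 hf0).resolve_left Polynomial.X_ne_zero
    have hk := congrArg (fun q => Polynomial.coeff q k) hf1
    simp only [hf, Polynomial.coeff_sub, Polynomial.coeff_C_mul, Polynomial.coeff_X_pow_mul',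
      hgc, Polynomial.coeff_zero, Polynomial.coeff_X_pow, if_true, mul_one] at hk
    rw [sub_eq_zero.1 hk]
    split_ifs <;> simp
  by_cases hdk : d ≤ k
  · right
    refine ⟨hdk, homogeneousComponent (k - d) R, homogeneousComponent_isHomogeneous _ _, ?_⟩
    intro x hx
    have := key x hx
    rwa [if_pos hdk] at this
  · left
    intro x hx
    have := key x hx
    rwa [if_neg hdk] at this

/-- divide by `z1` and `DD` as often as possible -/
theorem descend (hp : PrimesS) : ∀ (k : ℕ) (P : Po 6), P.IsHomogeneous k → P ∉ I0 →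
    ∃ (i j k1 : ℕ) (P1 : Po 6), P1.IsHomogeneous k1 ∧ P1 ∉ J (X 2) ∧ P1 ∉ J DD ∧
      ∀ x ∈ Cone, eval x P = x 2 ^ i * dx x ^ j * eval x P1 := by
  intro k
  induction k using Nat.strong_induction_on with
  | _ k ih =>
    intro P hP hPI
    by_cases h2 : P ∈ J (X 2)
    · obtain ⟨S, hS⟩ := mem_J.1 h2
      have hv : ∀ x ∈ Cone, eval x P = eval x (X 2 : Po 6) * eval x S := by
        intro x hx
        have := eval_eq_zero_of_mem hS hx.2.1 hx.2.2.1 hx.2.2.2
        rw [map_sub, map_mul] at this
        linear_combination this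
      rcases hom_div (isHomogeneous_X ℂ (2 : Fin 7)) hP hv with h | ⟨hdk, R', hR', h⟩
      · exact absurd (mem_of_vanish hp h) hPI
      · have hR0 : R' ∉ I0 := by
          intro hR
          apply hPI
          apply mem_of_vanish hp
          intro x hx
          rw [h x hx, eval_eq_zero_of_mem hR hx.2.1 hx.2.2.1 hx.2.2.2, mul_zero]
        obtain ⟨i, j, k1, P1, a1, a2, a3, a4⟩ := ih (k - 1) (by omega) R' hR' hR0
        refine ⟨i + 1, j, k1, P1, a1, a2, a3, ?_⟩
        intro x hx
        rw [h x hx, a4 x hx, eval_X]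
        ring
    · by_cases hD : P ∈ J DD
      · obtain ⟨S, hS⟩ := mem_J.1 hD
        have hv : ∀ x ∈ Cone, eval x P = eval x DD * eval x S := by
          intro x hx
          have := eval_eq_zero_of_mem hS hx.2.1 hx.2.2.1 hx.2.2.2
          rw [map_sub, map_mul] at this
          linear_combination this
        rcases hom_div hom_DD hP hv with h | ⟨hdk, R', hR', h⟩
        · exact absurd (mem_of_vanish hp h) hPI
        · have hR0 : R' ∉ I0 := by
            intro hR
            apply hPI
            apply mem_of_vanish hp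
            intro x hx
            rw [h x hx, eval_eq_zero_of_mem hR hx.2.1 hx.2.2.1 hx.2.2.2, mul_zero]
          obtain ⟨i, j, k1, P1, a1, a2, a3, a4⟩ := ih (k - 2) (by omega) R' hR' hR0
          refine ⟨i, j + 1, k1, P1, a1, a2, a3, ?_⟩
          intro x hx
          rw [h x hx, a4 x hx, eval_DD]
          ring
      · exact ⟨0, 0, k, P, hP, h2, hD, fun x _ => by simp⟩

/-- cancel a prime `G` -/
theorem cancel (hp : PrimesS) {G P1 T R : Po 6} (hG : (J G).IsPrime) (hG0 : G ∉ I0)
    (hP1 : P1 ∉ J G) (h : ∀ x ∈ Cone, eval x G * eval x T = eval x P1 * eval x R) :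
    ∃ R1 : Po 6, ∀ x ∈ Cone, eval x T = eval x P1 * eval x R1 := by
  have h1 : G * T - P1 * R ∈ I0 := by
    apply mem_of_vanish hp
    intro x hx
    rw [map_sub, map_mul, map_mul, h x hx, sub_self]
  have h2 : P1 * R ∈ J G := by
    rw [mem_J]
    refine ⟨T, ?_⟩
    have : P1 * R - G * T = -(G * T - P1 * R) := by ring
    rw [this]
    exact neg_mem h1
  obtain ⟨S, hS⟩ := mem_J.1 ((hG.mem_or_mem h2).resolve_left hP1)
  have h3 : G * (T - P1 * S) ∈ I0 := by
    have : G * (T - P1 * S) = (G * T - P1 * R) + P1 * (R - G * S) := by ring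
    rw [this]
    exact add_mem h1 (Ideal.mul_mem_left _ _ hS)
  have h4 := (hp.1.mem_or_mem h3).resolve_left hG0
  refine ⟨S, fun x hx => ?_⟩
  have := eval_eq_zero_of_mem h4 hx.2.1 hx.2.2.1 hx.2.2.2
  rw [map_sub, map_mul] at this
  linear_combination this

theorem cancel_pow (hp : PrimesS) {G P1 T : Po 6} (hG : (J G).IsPrime) (hG0 : G ∉ I0)
    (hP1 : P1 ∉ J G) : ∀ (b : ℕ) (R : Po 6),
    (∀ x ∈ Cone, eval x G ^ b * eval x T = eval x P1 * eval x R) →
    ∃ R1 : Po 6, ∀ x ∈ Cone, eval x T = eval x P1 * eval x R1 := by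
  intro b
  induction b with
  | zero =>
    intro R h
    exact ⟨R, fun x hx => by rw [← h x hx]; simp⟩
  | succ b ih =>
    intro R h
    obtain ⟨R1, h1⟩ := cancel hp (T := G ^ b * T) (R := R) hG hG0 hP1 (by
      intro x hx
      rw [← h x hx, map_mul, map_pow]
      ring)
    apply ih R1
    intro x hx
    rw [← h1 x hx, map_mul, map_pow]

/-- the vertex-free point with only the first coordinate -/
def pt0 : V 6 := ![1, 0, 0, 0, 0, 0, 0]

/-- a prime divisor inside a prime hypersurface section is equal to it -/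
theorem sec_case (hs : SmoothS) (hp : PrimesS) {G : Po 6} {d : ℕ} (hom : G.IsHomogeneous d)
    (hG : (J G).IsPrime) (hG0 : ∃ x ∈ Cone, eval x G ≠ 0) (hpt : eval pt0 G = 0)
    {Z : Set (V 6)} (hZ : PrimeDiv (X3 hs hp) Z) (hsub : ∀ x ∈ Z, eval x G = 0) :
    Z = {x ∈ (X3 hs hp).cone | eval x G = 0} := by
  obtain ⟨⟨S, hS, hZS⟩, hirr, hne, hmax⟩ := hZ
  symm
  apply hmax
  · exact ⟨{G}, by simpa using ⟨d, hom⟩, by simp⟩
  · refine ⟨?_, ?_⟩
    · obtain ⟨x, hx⟩ := hirr.1
      refine ⟨x, ?_, hsub x hx⟩
      rw [hZS] at hx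
      exact hx.1
    · intro k l P Q _ _ h
      have hmem : X 0 * P * Q ∈ J G := by
        apply mem_of_vanish_prime _ hG
        intro x hx
        have e1 : f1 x = 0 := by rw [← eval_F1]; exact hx _ (Ideal.subset_span (by simp))
        have e2 : f2 x = 0 := by rw [← eval_F2]; exact hx _ (Ideal.subset_span (by simp))
        have e3 : f3 x = 0 := by rw [← eval_F3]; exact hx _ (Ideal.subset_span (by simp))
        have e4 : eval x G = 0 := hx _ (Ideal.subset_span (by simp))
        rw [map_mul, map_mul, eval_X]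
        by_cases h0 : x = 0
        · rw [h0]; simp
        · have := h x ⟨by rw [cone_X3]; exact ⟨h0, e1, e2, e3⟩, e4⟩
          rw [mul_assoc, this, mul_zero]
      have hv : ∀ R ∈ J G, ∀ x ∈ {x ∈ (X3 hs hp).cone | eval x G = 0}, eval x R = 0 := by
        rintro R hR x ⟨hx, hxG⟩
        rw [cone_X3] at hx
        exact eval_of_mem_J hR hx.2.1 hx.2.2.1 hx.2.2.2 hxG
      rcases hG.mem_or_mem hmem with h1 | h1
      · rcases hG.mem_or_mem h1 with h2 | h2
        · exfalso
          have := eval_of_mem_J h2 (x := pt0) (by simp [f1, pt0]) (by simp [f2, pt0])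
            (by simp [f3, pt0]) hpt
          simp [pt0] at this
        · left
          exact hv P h2
      · right
        exact hv Q h1
  · intro h
    obtain ⟨x, hx, h0⟩ := hG0
    rw [← cone_X3 hs hp, ← h] at hx
    exact h0 hx.2
  · intro x hx
    refine ⟨?_, hsub x hx⟩
    rw [hZS] at hx
    exact hx.1

end C4

end Pool.VMR
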