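import Mathlib

/-!
# Definitions for the VMRT extension question

Points of projective `N`-space are nonzero vectors of `ℂ^(N+1)` up to nonzero scalars.  A projective
variety is handled through its affine cone, a rational curve through its parametrisations
`(s,t) ↦ ∑ i, s^(e-i) t^i f_i` by binary forms without common zero.
-/

noncomputable section

namespace Pool.VMR

open MvPolynomial

/-- vectors of homogeneous coordinates on projective `N`-space -/
abbrev V (N : ℕ) : Type := Fin (N + 1) → ℂ

/-- polynomials in the homogeneous coordinates of projective `N`-space -/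
abbrev Po (N : ℕ) : Type := MvPolynomial (Fin (N + 1)) ℂ

/-- the vectors `x` and `y` are nonzero multiples of each other: they are the same point of
projective space (when they are nonzero) -/
def Same {N : ℕ} (x y : V N) : Prop := ∃ c : ℂ, c ≠ 0 ∧ y = c • x

/-- A connected (indeed irreducible) projective manifold of dimension `n` in projective `N`-space:
finitely many homogeneous polynomials that generate a prime ideal, with a common zero in
projective space, such that at every common zero `x ≠ 0` the common kernel of their differentials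
(the tangent space at `x` of the affine cone) has dimension `n + 1`. -/
structure Mfd (N n : ℕ) where
  /-- the number of equations -/
  m : ℕ
  /-- the equations -/
  F : Fin m → Po N
  /-- their degrees -/
  d : Fin m → ℕ
  hom : ∀ j, (F j).IsHomogeneous (d j)
  prime : (Ideal.span (Set.range F)).IsPrime
  ne : ∃ x : V N, x ≠ 0 ∧ ∀ j, eval x (F j) = 0
  smooth : ∀ x : V N, x ≠ 0 → (∀ j, eval x (F j) = 0) →
    Module.finrank ℂ (LinearMap.ker (Matrix.mulVecLin
      (Matrix.of fun j i => eval x (pderiv i (F j)) : Matrix (Fin m) (Fin (N + 1)) ℂ))) = n + 1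

variable {N n : ℕ}

/-- the affine cone over `X` without its vertex: the homogeneous coordinate vectors of the points
of `X` -/
def Mfd.cone (X : Mfd N n) : Set (V N) := {x | x ≠ 0 ∧ ∀ j, eval x (X.F j) = 0}

/-- the tangent space at `x` of the affine cone over `X`; modulo the line spanned by `x` it is the
tangent space of `X` at the point `x` (twisted by that line) -/
def Mfd.tan (X : Mfd N n) (x : V N) : Submodule ℂ (V N) :=
  LinearMap.ker (Matrix.mulVecLin
    (Matrix.of fun j i => eval x (pderiv i (X.F j)) : Matrix (Fin X.m) (Fin (N + 1)) ℂ))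

/-- `p` holds at the general point of `X`: at all points outside some hypersurface section that is
not all of `X` -/
def Gen (X : Mfd N n) (p : V N → Prop) : Prop :=
  ∃ (k : ℕ) (P : Po N), P.IsHomogeneous k ∧ (∃ x ∈ X.cone, eval x P ≠ 0) ∧
    ∀ x ∈ X.cone, eval x P ≠ 0 → p x

/-! ## Picard number one -/

/-- `Z` is (the cone over) a Zariski closed subset of `X` -/
def IsClo (X : Mfd N n) (Z : Set (V N)) : Prop :=
  ∃ S : Set (Po N), (∀ P ∈ S, ∃ k, P.IsHomogeneous k) ∧ Z = {x ∈ X.cone | ∀ P ∈ S, eval x P = 0}

/-- `Z` is irreducible: nonempty, and a product of two homogeneous polynomials vanishes on `Z` only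
if one of them does -/
def IsIrr (Z : Set (V N)) : Prop :=
  Z.Nonempty ∧ ∀ (k l : ℕ) (P Q : Po N), P.IsHomogeneous k → Q.IsHomogeneous l →
    (∀ x ∈ Z, eval x P * eval x Q = 0) → (∀ x ∈ Z, eval x P = 0) ∨ (∀ x ∈ Z, eval x Q = 0)

/-- `Z` is a prime divisor of `X`: a maximal one among the irreducible closed subsets different
from `X` -/
def PrimeDiv (X : Mfd N n) (Z : Set (V N)) : Prop :=
  IsClo X Z ∧ IsIrr Z ∧ Z ≠ X.cone ∧
    ∀ Z' : Set (V N), IsClo X Z' → IsIrr Z' → Z' ≠ X.cone → Z ⊆ Z' → Z' = Z

/-- every prime divisor of `X` is, as a set, the intersection of `X` with a hypersurface; so some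
multiple of every divisor is linearly equivalent to a multiple of the hyperplane section, and the
Picard number of `X` is one -/
def PicOne (X : Mfd N n) : Prop :=
  ∀ Z : Set (V N), PrimeDiv X Z →
    ∃ (k : ℕ) (P : Po N), P.IsHomogeneous k ∧ Z = {x ∈ X.cone | eval x P = 0}

/-! ## Rational curves -/

/-- the coefficients of `N + 1` binary forms of degree `e` -/
abbrev Par (N e : ℕ) : Type := Fin (e + 1) → V N

variable {e : ℕ}

/-- the value at `(s,t)` of the binary forms with coefficients `f` -/
def ev (f : Par N e) (s t : ℂ) : V N := ∑ i : Fin (e + 1), (s ^ (e - (i : ℕ)) * t ^ (i : ℕ)) • f i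

/-- the value at `(s,t)` of the partial derivative along `s` -/
def evs (f : Par N e) (s t : ℂ) : V N :=
  ∑ i : Fin (e + 1), (((e - (i : ℕ) : ℕ) : ℂ) * s ^ (e - (i : ℕ) - 1) * t ^ (i : ℕ)) • f i

/-- the value at `(s,t)` of the partial derivative along `t` -/
def evt (f : Par N e) (s t : ℂ) : V N :=
  ∑ i : Fin (e + 1), (((i : ℕ) : ℂ) * s ^ (e - (i : ℕ)) * t ^ ((i : ℕ) - 1)) • f i

/-- two pairs are the same point of the projective line -/
def Par1 (s t s' t' : ℂ) : Prop := s * t' = t * s'

/-- the parametrised rational curves of degree `e` on `X`: binary forms without common zero, with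
values in `X`, which give a map from the projective line to `X` that is birational onto its image
(only finitely many points of the projective line share their image with another point) -/
def ratCurves (X : Mfd N n) (e : ℕ) : Set (Par N e) :=
  {f | (∀ s t : ℂ, (s, t) ≠ (0, 0) → ev f s t ∈ X.cone) ∧
    {s : ℂ | ∃ s' t' : ℂ, (s', t') ≠ (0, 0) ∧ ¬ Par1 s 1 s' t' ∧
      Same (ev f s 1) (ev f s' t')}.Finite}

/-- the evaluation of a polynomial in the coefficients -/
def cev (f : Par N e) (P : MvPolynomial (Fin (e + 1) × Fin (N + 1)) ℂ) : ℂ :=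
  eval (fun a => f a.1 a.2) P

/-- a set of parametrised curves is irreducible in the Zariski topology of the coefficients -/
def IrrPar (T : Set (Par N e)) : Prop :=
  T.Nonempty ∧ ∀ P Q : MvPolynomial (Fin (e + 1) × Fin (N + 1)) ℂ,
    (∀ f ∈ T, cev f P * cev f Q = 0) → (∀ f ∈ T, cev f P = 0) ∨ (∀ f ∈ T, cev f Q = 0)

/-- `K` is an irreducible component of the space of parametrised rational curves of degree `e` on
`X` (this amounts to an irreducible component of the space of rational curves of degree `e`) -/
def IsComp (X : Mfd N n) (e : ℕ) (K : Set (Par N e)) : Prop :=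
  K ⊆ ratCurves X e ∧ IrrPar K ∧
    ∀ T : Set (Par N e), T ⊆ ratCurves X e → IrrPar T → K ⊆ T → T = K

/-- the members of `K` through the point `x` -/
def thr (K : Set (Par N e)) (x : V N) : Set (Par N e) :=
  {f ∈ K | ∃ s t : ℂ, (s, t) ≠ (0, 0) ∧ Same x (ev f s t)}

/-- two parametrisations of the same rational curve: they differ by a linear change of the
parameters -/
def Rep (f g : Par N e) : Prop :=
  ∃ a b c d : ℂ, a * d - b * c ≠ 0 ∧ ∀ s t : ℂ, ev g s t = ev f (a * s + b * t) (c * s + d * t)

/-- a minimal component: a component `K` of the space of rational curves such that for the general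
point `x` the space of members of `K` through `x`, up to reparametrisation, is nonempty and
compact -/
def MinComp (X : Mfd N n) (e : ℕ) (K : Set (Par N e)) : Prop :=
  IsComp X e K ∧ Gen X fun x => (thr K x).Nonempty ∧
    CompactSpace (Quot fun f g : thr K x => Rep f.1 g.1)

/-! ## The variety of minimal rational tangents -/

/-- the curve `f` passes through the point `x` at the parameter `(s,t)` only, and is immersed
there: the image curve is smooth at `x` -/
def SmoothAt (f : Par N e) (x : V N) (s t : ℂ) : Prop :=
  (s, t) ≠ (0, 0) ∧ Same x (ev f s t) ∧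
    (∀ s' t' : ℂ, (s', t') ≠ (0, 0) → Same x (ev f s' t') → Par1 s t s' t') ∧
    LinearIndependent ℂ ![evs f s t, evt f s t]

/-- the affine cone over the variety of minimal rational tangents at `x`, a subset of the tangent
space at `x` of the affine cone over `X` which contains the line spanned by `x`: the closure of
the union of the planes spanned by the two partial derivatives, over the members of `K` that pass
through `x` and are smooth there -/
def vmrt (K : Set (Par N e)) (x : V N) : Set (V N) :=
  closure {v | ∃ f ∈ K, ∃ s t : ℂ, SmoothAt f x s t ∧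
    v ∈ Submodule.span ℂ {evs f s t, evt f s t}}

/-- at the general point the variety of minimal rational tangents is a union of finitely many
linear subspaces -/
def LinearVmrt (X : Mfd N n) (K : Set (Par N e)) : Prop :=
  Gen X fun x => ∃ S : Finset (Submodule ℂ (V N)), vmrt K x = ⋃ L ∈ S, (L : Set (V N))

/-- at the general point the variety of minimal rational tangents is not the whole projectivised
tangent space -/
def NotFull (X : Mfd N n) (K : Set (Par N e)) : Prop :=
  Gen X fun x => vmrt K x ≠ (X.tan x : Set (V N))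

/-! ## Local biholomorphic maps -/

/-- `Φ` is a holomorphic lift at `x` of the map `φ`, defined near `x` -/
def IsLift (X : Mfd N n) (φ Φ : V N → V N) (x : V N) : Prop :=
  AnalyticAt ℂ Φ x ∧ ∀ᶠ y in nhdsWithin x X.cone, Same (φ y) (Φ y)

/-- a biholomorphic map `φ : U → U'` between connected open subsets of `X`, with inverse `ψ`; the
open sets are given by the cones over them -/
structure Loc (X : Mfd N n) where
  /-- the source -/
  U : Set (V N)
  /-- the target -/
  U' : Set (V N)
  /-- the map -/
  φ : V N → V N
  /-- its inverse -/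
  ψ : V N → V N
  openU : ∃ O : Set (V N), IsOpen O ∧ U = O ∩ X.cone
  openU' : ∃ O : Set (V N), IsOpen O ∧ U' = O ∩ X.cone
  coneU : ∀ x ∈ U, ∀ c : ℂ, c ≠ 0 → c • x ∈ U
  coneU' : ∀ x ∈ U', ∀ c : ℂ, c ≠ 0 → c • x ∈ U'
  connU : IsConnected U
  connU' : IsConnected U'
  mapφ : ∀ x ∈ U, φ x ∈ U'
  mapψ : ∀ x ∈ U', ψ x ∈ U
  sameφ : ∀ x ∈ U, ∀ y ∈ U, Same x y → Same (φ x) (φ y)
  sameψ : ∀ x ∈ U', ∀ y ∈ U', Same x y → Same (ψ x) (ψ y)
  left : ∀ x ∈ U, Same x (ψ (φ x))
  right : ∀ x ∈ U', Same x (φ (ψ x))
  holφ : ∀ x ∈ U, ∃ Φ : V N → V N, IsLift X φ Φ x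
  holψ : ∀ x ∈ U', ∃ Ψ : V N → V N, IsLift X ψ Ψ x

/-- the differential of `φ` sends the variety of minimal rational tangents at every point `x` of
`U` onto the one at `φ x`, expressed with a holomorphic lift `Φ` of `φ` at `x` (whose differential
induces the differential of `φ` modulo the line spanned by `Φ x`) -/
def Preserves (X : Mfd N n) (K : Set (Par N e)) (L : Loc X) : Prop :=
  ∀ x ∈ L.U, ∃ Φ : V N → V N, IsLift X L.φ Φ x ∧
    {w | ∃ v ∈ vmrt K x, ∃ c : ℂ, w = fderiv ℂ Φ x v + c • Φ x} = vmrt K (L.φ x)

/-- a regular map from `X` to itself, given locally by homogeneous polynomials of one degree -/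
def IsReg (X : Mfd N n) (F : V N → V N) : Prop :=
  (∀ x ∈ X.cone, F x ∈ X.cone) ∧
    ∀ x ∈ X.cone, ∃ (k : ℕ) (G : Fin (N + 1) → Po N), (∀ i, (G i).IsHomogeneous k) ∧
      (fun i => eval x (G i)) ≠ 0 ∧
      ∀ y ∈ X.cone, (fun i => eval y (G i)) ≠ 0 → Same (F y) (fun i => eval y (G i))

/-- `φ` is the restriction of a biregular automorphism of `X` -/
def Extends (X : Mfd N n) (L : Loc X) : Prop :=
  ∃ F G : V N → V N, IsReg X F ∧ IsReg X G ∧ (∀ x ∈ X.cone, Same x (G (F x))) ∧
    (∀ x ∈ X.cone, Same x (F (G x))) ∧ ∀ x ∈ L.U, Same (L.φ x) (F x)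

/-- the question has a negative answer -/
def Answer : Prop :=
  ∃ (N n e : ℕ) (X : Mfd N n) (K : Set (Par N e)) (L : Loc X),
    PicOne X ∧ MinComp X e K ∧ LinearVmrt X K ∧ NotFull X K ∧ Preserves X K L ∧ ¬ Extends X L

end Pool.VMR
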