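import Pool.Agent.H30.VMR.Defs

/-!
# The explicit threefold

`X` is the intersection of three quadrics in projective 6-space with coordinates
`u, v, z1, z2, z3, z4, w` (numbered 0, ..., 6).  The first two equations do not involve `w`.
-/

noncomputable section

namespace Pool.VMR

open MvPolynomial

variable {R : Type*} [CommRing R]

/-- the first quadratic form, `u z1 + v z2 - z3²` -/
def f1 (x : Fin 7 → R) : R := x 0 * x 2 + x 1 * x 3 - x 4 ^ 2

/-- the second quadratic form, `u z2 + v z3 + z1² - z4²` -/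
def f2 (x : Fin 7 → R) : R := x 0 * x 3 + x 1 * x 4 + x 2 ^ 2 - x 5 ^ 2

/-- the third quadratic form, `u z3 + v z4 + z2² - w²` -/
def f3 (x : Fin 7 → R) : R := x 0 * x 4 + x 1 * x 5 + x 3 ^ 2 - x 6 ^ 2

/-- the polar form of `f1` -/
def b1 (x y : Fin 7 → R) : R :=
  x 0 * y 2 + y 0 * x 2 + x 1 * y 3 + y 1 * x 3 - 2 * (x 4 * y 4)

/-- the polar form of `f2` -/
def b2 (x y : Fin 7 → R) : R :=
  x 0 * y 3 + y 0 * x 3 + x 1 * y 4 + y 1 * x 4 + 2 * (x 2 * y 2) - 2 * (x 5 * y 5)

/-- the polar form of `f3` -/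
def b3 (x y : Fin 7 → R) : R :=
  x 0 * y 4 + y 0 * x 4 + x 1 * y 5 + y 1 * x 5 + 2 * (x 3 * y 3) - 2 * (x 6 * y 6)

/-- the three equations as polynomials -/
def F1 : Po 6 := f1 X
/-- the three equations as polynomials -/
def F2 : Po 6 := f2 X
/-- the three equations as polynomials -/
def F3 : Po 6 := f3 X

/-- the ideal of the threefold -/
def I0 : Ideal (Po 6) := Ideal.span {F1, F2, F3}

/-- the determinant `z1 z3 - z2²` -/
def DD : Po 6 := X 2 * X 4 - X 3 ^ 2

/-- the affine cone over the threefold, without the vertex -/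
def Cone : Set (V 6) := {x | x ≠ 0 ∧ f1 x = 0 ∧ f2 x = 0 ∧ f3 x = 0}

/-- MODULE A: smoothness -/
def SmoothS : Prop :=
  ∀ x ∈ Cone, ∀ a b c : ℂ, (∀ v : V 6, a * b1 x v + b * b2 x v + c * b3 x v = 0) →
    a = 0 ∧ b = 0 ∧ c = 0

/-- MODULE B: the three prime ideals -/
def PrimesS : Prop :=
  I0.IsPrime ∧ (Ideal.span {F1, F2, F3, X 2}).IsPrime ∧ (Ideal.span {F1, F2, F3, DD}).IsPrime

theorem eval_F1 (x : V 6) : eval x F1 = f1 x := by simp [F1, f1]
theorem eval_F2 (x : V 6) : eval x F2 = f2 x := by simp [F2, f2]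
theorem eval_F3 (x : V 6) : eval x F3 = f3 x := by simp [F3, f3]

theorem hom_F1 : F1.IsHomogeneous 2 := by
  unfold F1 f1
  exact (((isHomogeneous_X ℂ _).mul (isHomogeneous_X ℂ _)).add
    ((isHomogeneous_X ℂ _).mul (isHomogeneous_X ℂ _))).sub ((isHomogeneous_X ℂ _).pow 2)

theorem hom_F2 : F2.IsHomogeneous 2 := by
  unfold F2 f2
  exact ((((isHomogeneous_X ℂ _).mul (isHomogeneous_X ℂ _)).add
    ((isHomogeneous_X ℂ _).mul (isHomogeneous_X ℂ _))).add ((isHomogeneous_X ℂ _).pow 2)).sub
    ((isHomogeneous_X ℂ _).pow 2)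

theorem hom_F3 : F3.IsHomogeneous 2 := by
  unfold F3 f3
  exact ((((isHomogeneous_X ℂ _).mul (isHomogeneous_X ℂ _)).add
    ((isHomogeneous_X ℂ _).mul (isHomogeneous_X ℂ _))).add ((isHomogeneous_X ℂ _).pow 2)).sub
    ((isHomogeneous_X ℂ _).pow 2)

/-- the Jacobian matrix is given by the polar forms -/
theorem sum_pderiv (x v : V 6) :
    (∑ i, eval x (pderiv i F1) * v i = b1 x v) ∧ (∑ i, eval x (pderiv i F2) * v i = b2 x v) ∧
      (∑ i, eval x (pderiv i F3) * v i = b3 x v) := by
  refine ⟨?_, ?_, ?_⟩ <;>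
  · simp only [Fin.sum_univ_succ, F1, F2, F3, f1, f2, f3, b1, b2, b3, map_add, map_sub,
      Derivation.leibniz, Derivation.leibniz_pow, pderiv_X, smul_eq_mul, nsmul_eq_mul]
    simp [Pi.single_apply, Fin.ext_iff]
    try ring

/-- the threefold as a projective manifold -/
def X3 (hs : SmoothS) (hp : PrimesS) : Mfd 6 3 where
  m := 3
  F := ![F1, F2, F3]
  d := fun _ => 2
  hom := by
    intro j
    fin_cases j
    · exact hom_F1
    · exact hom_F2
    · exact hom_F3
  prime := by
    have h : Set.range ![F1, F2, F3] = {F1, F2, F3} := by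
      ext P
      simp
      tauto
    rw [h]
    exact hp.1
  ne := by
    refine ⟨![1, 0, 0, 0, 0, 0, 0], ?_, ?_⟩
    · intro h
      have := congrFun h 0
      simp at this
    · intro j
      fin_cases j
      · show eval _ F1 = 0
        rw [eval_F1]
        simp [f1]
      · show eval _ F2 = 0
        rw [eval_F2]
        simp [f2]
      · show eval _ F3 = 0
        rw [eval_F3]
        simp [f3]
  smooth := by
    intro x hx hF
    have h1 : f1 x = 0 := by have := hF 0; rwa [← eval_F1]
    have h2 : f2 x = 0 := by have := hF 1; rwa [← eval_F2]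
    have h3 : f3 x = 0 := by have := hF 2; rwa [← eval_F3]
    set M : Matrix (Fin 3) (Fin 7) ℂ :=
      (Matrix.of fun j i => eval x (pderiv i ((![F1, F2, F3] : Fin 3 → Po 6) j))) with hM
    have hli : LinearIndependent ℂ M.row := by
      rw [Fintype.linearIndependent_iff]
      intro g hg
      have key := hs x ⟨hx, h1, h2, h3⟩ (g 0) (g 1) (g 2) (by
        intro v
        obtain ⟨e1, e2, e3⟩ := sum_pderiv x v
        rw [← e1, ← e2, ← e3, Finset.mul_sum, Finset.mul_sum, Finset.mul_sum,
          ← Finset.sum_add_distrib, ← Finset.sum_add_distrib]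
        apply Finset.sum_eq_zero
        intro i _
        have hi := congrFun hg i
        rw [Fin.sum_univ_three] at hi
        simp only [Pi.add_apply, Pi.smul_apply, smul_eq_mul, Pi.zero_apply, Matrix.row, hM,
          Matrix.of_apply, Matrix.cons_val_zero, Matrix.cons_val_one, Matrix.cons_val] at hi
        linear_combination (v i) * hi)
      intro i
      fin_cases i
      · exact key.1
      · exact key.2.1
      · exact key.2.2
    have hr : M.rank = 3 := by
      have := LinearIndependent.rank_matrix hli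
      simpa using this
    have := LinearMap.finrank_range_add_finrank_ker (Matrix.mulVecLin M)
    have hr' : Module.finrank ℂ (LinearMap.range (Matrix.mulVecLin M)) = 3 := hr
    rw [hr'] at this
    simp at this
    have h4 : Module.finrank ℂ (LinearMap.ker (Matrix.mulVecLin M)) = 4 := by omega
    exact h4

theorem cone_X3 (hs : SmoothS) (hp : PrimesS) : (X3 hs hp).cone = Cone := by
  ext x
  simp only [Mfd.cone, Cone, X3, Set.mem_setOf_eq]
  constructor
  · rintro ⟨h0, h⟩
    refine ⟨h0, ?_, ?_, ?_⟩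
    · have := h 0; rwa [← eval_F1]
    · have := h 1; rwa [← eval_F2]
    · have := h 2; rwa [← eval_F3]
  · rintro ⟨h0, h1, h2, h3⟩
    refine ⟨h0, ?_⟩
    intro j
    fin_cases j
    · show eval x F1 = 0
      rwa [eval_F1]
    · show eval x F2 = 0
      rwa [eval_F2]
    · show eval x F3 = 0
      rwa [eval_F3]

end Pool.VMR
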