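import Pool.Agent.H30.VMR.Util

/-!
# The local map does not extend
-/

noncomputable section

namespace Pool.VMR

open MvPolynomial

theorem same_symm {N : ℕ} {x y : V N} (h : Same x y) : Same y x := by
  obtain ⟨c, hc, rfl⟩ := h
  exact ⟨c⁻¹, inv_ne_zero hc, by rw [smul_smul, inv_mul_cancel₀ hc, one_smul]⟩

theorem same_trans {N : ℕ} {x y z : V N} (h : Same x y) (h' : Same y z) : Same x z := by
  obtain ⟨c, hc, rfl⟩ := h
  obtain ⟨d, hd, rfl⟩ := h'
  exact ⟨d * c, mul_ne_zero hd hc, by rw [smul_smul]⟩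

/-- the first six coordinates are proportional -/
def Prp (a b : V 6) : Prop := ∀ i j : Fin 7, i ≠ 6 → j ≠ 6 → a i * b j = a j * b i

theorem prp_left {a a' b : V 6} (h : Same a a') (hp : Prp a b) : Prp a' b := by
  obtain ⟨c, _, rfl⟩ := h
  intro i j hi hj
  simp only [Pi.smul_apply, smul_eq_mul]
  have := hp i j hi hj
  linear_combination c * this

/-- the coordinates of the automorphism -/
def gP (j : Fin 7) : Po 6 := if j = 5 then -X 5 else X j

theorem eval_gP (y : V 6) (j : Fin 7) : eval y (gP j) = gx y j := by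
  unfold gP gx
  by_cases h : j = 5
  · subst h
    simp
  · rw [if_neg h, Function.update_of_ne h, eval_X]

/-- homogeneous polynomials scale -/
theorem hom_smul {P : Po 6} {k : ℕ} (hP : P.IsHomogeneous k) (c : ℂ) (x : V 6) :
    eval (c • x) P = c ^ k * eval x P := by
  rw [eval_eq', eval_eq', Finset.mul_sum]
  refine Finset.sum_congr rfl fun d hd => ?_
  have h1 : ∑ i, d i = k := by
    have h2 := hP (mem_support_iff.1 hd)
    rw [← h2, Finsupp.weight_apply, Finsupp.sum_fintype _ _ (by simp)]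
    simp
  have h2 : ∏ i, (c • x) i ^ d i = c ^ k * ∏ i, x i ^ d i := by
    rw [← h1, ← Finset.prod_pow_eq_pow_sum, ← Finset.prod_mul_distrib]
    refine Finset.prod_congr rfl fun i _ => ?_
    rw [Pi.smul_apply, smul_eq_mul, mul_pow]
  rw [h2]
  ring

/-- a regular map respects the relation of proportionality -/
theorem reg_same {X : Mfd 6 3} {F : V 6 → V 6} (hF : IsReg X F) {x y : V 6} (hx : x ∈ X.cone)
    (hy : y ∈ X.cone) (h : Same x y) : Same (F x) (F y) := by
  obtain ⟨k, G, hG, h0, h1⟩ := hF.2 x hx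
  obtain ⟨c, hc, rfl⟩ := h
  have e : (fun i => eval (c • x) (G i)) = c ^ k • fun i => eval x (G i) := by
    funext i
    simp only [Pi.smul_apply, smul_eq_mul]
    exact hom_smul (hG i) c x
  have h2 : (fun i => eval (c • x) (G i)) ≠ 0 := by
    rw [e]
    exact smul_ne_zero (pow_ne_zero k hc) h0
  have h3 := h1 _ hy h2
  have h4 := h1 _ hx h0
  refine same_trans h4 (same_trans ?_ (same_symm h3))
  rw [e]
  exact ⟨c ^ k, pow_ne_zero k hc, rfl⟩

/-- an extension covers the automorphism -/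
theorem ext_prp (h : IdS) (hs : SmoothS) (hp : PrimesS) (L : Loc (X3 hs hp))
    (hL : ∀ x ∈ L.U, x 2 ≠ 0 ∧ eval x DD ≠ 0 ∧ x 6 ≠ 0 ∧ ∀ i, i ≠ 6 → L.φ x i = gx x i)
    {F : V 6 → V 6} (hF : IsReg (X3 hs hp) F) (hφ : ∀ x ∈ L.U, Same (L.φ x) (F x)) :
    ∀ x ∈ Cone, Prp (F x) (gx x) := by
  intro x hx i j hi hj
  have hx' : x ∈ (X3 hs hp).cone := by rwa [cone_X3]
  obtain ⟨k, G, hG, h0, h1⟩ := hF.2 x hx'
  obtain ⟨l, hl⟩ : ∃ l, eval x (G l) ≠ 0 := by
    by_contra hcon
    push Not at hcon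
    exact h0 (funext hcon)
  obtain ⟨O, hO, hU⟩ := L.openU
  obtain ⟨x₁, hx₁⟩ := L.connU.nonempty
  obtain ⟨c1, c2, c3, -⟩ := hL x₁ hx₁
  have hx₁' := hx₁
  rw [hU] at hx₁'
  have hx₁c : x₁ ∈ Cone := by
    have := hx₁'.2
    rwa [cone_X3] at this
  have key := h hp O hO x₁ hx₁'.1 hx₁c c1 c2 c3 ((G i * gP j - G j * gP i) * G l)
    (fun y hyO hyC => by
      have hyU : y ∈ L.U := by
        rw [hU]
        exact ⟨hyO, by rwa [cone_X3]⟩
      rw [map_mul, map_sub, map_mul, map_mul, eval_gP, eval_gP]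
      by_cases hz : (fun i => eval y (G i)) = 0
      · rw [congrFun hz l]
        simp
      · have h2 := h1 y (by rwa [cone_X3]) hz
        have h3 := same_trans (hφ y hyU) h2
        obtain ⟨c, _, hc⟩ := h3
        have e1 : eval y (G i) = c * gx y i := by
          have := congrFun hc i
          simp only [Pi.smul_apply, smul_eq_mul] at this
          rw [this, (hL y hyU).2.2.2 i hi]
        have e2 : eval y (G j) = c * gx y j := by
          have := congrFun hc j
          simp only [Pi.smul_apply, smul_eq_mul] at this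
          rw [this, (hL y hyU).2.2.2 j hj]
        rw [e1, e2]
        ring) x hx
  rw [map_mul, map_sub, map_mul, map_mul, eval_gP, eval_gP] at key
  have h2 := (mul_eq_zero.1 key).resolve_right hl
  obtain ⟨c, hc, hc'⟩ := h1 x hx' h0
  have e1 : eval x (G i) = c * F x i := by
    have := congrFun hc' i
    simpa only [Pi.smul_apply, smul_eq_mul] using this
  have e2 : eval x (G j) = c * F x j := by
    have := congrFun hc' j
    simpa only [Pi.smul_apply, smul_eq_mul] using this
  rw [e1, e2] at h2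
  have h3 : c * (F x i * gx x j - F x j * gx x i) = 0 := by linear_combination h2
  have h4 := (mul_eq_zero.1 h3).resolve_left hc
  linear_combination h4

/-- MODULE F4 -/
theorem extS (h : IdS) : ExtS := by
  intro hs hp L hL hext
  obtain ⟨F, G, hF, hG, hGF, hFG, hφ⟩ := hext
  have hFp := ext_prp h hs hp L hL hF hφ
  -- the branch point
  obtain ⟨a, ha⟩ : ∃ a : ℂ, a ^ 4 = 3 / 8 := IsAlgClosed.exists_pow_nat_eq _ (by norm_num)
  have ha0 : a ≠ 0 := by
    rintro rfl
    norm_num at ha
  obtain ⟨r, hr⟩ : ∃ r : ℂ, r ^ 2 = 2 * a ^ 3 := IsAlgClosed.exists_pow_nat_eq _ (by norm_num)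
  have hr0 : r ≠ 0 := by
    rintro rfl
    have h1 : 2 * a ^ 3 = 0 := by
      rw [← hr]
      ring
    have h2 : a ^ 3 ≠ 0 := pow_ne_zero 3 ha0
    exact h2 (by linear_combination h1 / 2)
  obtain ⟨v, hv⟩ : ∃ v : ℂ, v * a = -(3 / 4) := ⟨-(3 / 4) / a, by field_simp⟩
  -- the points of the cone over the image of the branch point
  obtain ⟨yy, hyy⟩ : ∃ yy : ℂ → V 6, yy = fun s => ![a ^ 2, v, 1, 0, a, -(1 / 2), s] := ⟨_, rfl⟩
  have hyc : ∀ s, s ^ 2 = 2 * a ^ 3 → yy s ∈ Cone := by
    intro s hs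
    rw [hyy]
    refine ⟨fun h0 => ?_, ?_, ?_, ?_⟩
    · have := congrFun h0 2
      simp at this
    · simp [f1]
    · simp [f2]
      linear_combination hv
    · simp [f3]
      have h1 : v = -2 * a ^ 3 := by
        have h2 : (v + 2 * a ^ 3) * a = 0 := by linear_combination hv + 2 * ha
        have := (mul_eq_zero.1 h2).resolve_right ha0
        linear_combination this
      rw [h1, hs]
      ring
  -- the preimages
  have hpre : ∀ s, s ^ 2 = 2 * a ^ 3 →
      Same (![a ^ 2, v, 1, 0, a, 1 / 2, 0] : V 6) (G (yy s)) := by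
    intro s hs'
    have hyC := hyc s hs'
    have hyX : yy s ∈ (X3 hs hp).cone := by rwa [cone_X3]
    have hGX := hG.1 _ hyX
    have hGC : G (yy s) ∈ Cone := by rwa [cone_X3] at hGX
    have h1 := prp_left (same_symm (hFG _ hyX)) (hFp _ hGC)
    obtain ⟨p, hp'⟩ : ∃ p, p = G (yy s) := ⟨_, rfl⟩
    rw [← hp'] at h1 hGC ⊢
    have g0 : gx p 0 = p 0 := rfl
    have g1 : gx p 1 = p 1 := rfl
    have g2 : gx p 2 = p 2 := rfl
    have g3 : gx p 3 = p 3 := rfl
    have g4 : gx p 4 = p 4 := rfl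
    have g5 : gx p 5 = -p 5 := rfl
    have y2 : yy s 2 = 1 := by rw [hyy]; rfl
    have k0 := h1 2 0 (by decide) (by decide)
    have k1 := h1 2 1 (by decide) (by decide)
    have k3 := h1 2 3 (by decide) (by decide)
    have k4 := h1 2 4 (by decide) (by decide)
    have k5 := h1 2 5 (by decide) (by decide)
    rw [y2, g0, g2] at k0
    rw [y2, g1, g2] at k1
    rw [y2, g3, g2] at k3
    rw [y2, g4, g2] at k4
    rw [y2, g5, g2] at k5
    have y0 : yy s 0 = a ^ 2 := by rw [hyy]; rfl
    have y1 : yy s 1 = v := by rw [hyy]; rfl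
    have y3 : yy s 3 = 0 := by rw [hyy]; rfl
    have y4 : yy s 4 = a := by rw [hyy]; rfl
    have y5 : yy s 5 = -(1 / 2) := by rw [hyy]; rfl
    rw [y0] at k0
    rw [y1] at k1
    rw [y3] at k3
    rw [y4] at k4
    rw [y5] at k5
    have q0 : p 0 = a ^ 2 * p 2 := by linear_combination k0
    have q1 : p 1 = v * p 2 := by linear_combination k1
    have q3 : p 3 = 0 := by linear_combination k3
    have q4 : p 4 = a * p 2 := by linear_combination k4
    have q5 : p 5 = 1 / 2 * p 2 := by linear_combination -k5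
    obtain ⟨hne, -, -, hf3⟩ := hGC
    have h6 : p 6 = 0 := by
      unfold f3 at hf3
      rw [q0, q1, q3, q4, q5] at hf3
      have h2 : v = -2 * a ^ 3 := by
        have h2 : (v + 2 * a ^ 3) * a = 0 := by linear_combination hv + 2 * ha
        have := (mul_eq_zero.1 h2).resolve_right ha0
        linear_combination this
      rw [h2] at hf3
      have h3 : p 6 ^ 2 = 0 := by linear_combination -hf3
      exact pow_eq_zero_iff (by norm_num) |>.1 h3
    have h2 : p 2 ≠ 0 := by
      intro h2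
      apply hne
      funext i
      rw [h2, mul_zero] at q0 q1 q4 q5
      fin_cases i
      exacts [q0, q1, h2, q3, q4, q5, h6]
    refine ⟨p 2, h2, ?_⟩
    funext i
    fin_cases i
    · simp [q0, mul_comm]
    · simp [q1, mul_comm]
    · simp
    · simp [q3]
    · simp [q4, mul_comm]
    · simp [q5, mul_comm]
    · simp [h6]
  have hr' : (-r) ^ 2 = 2 * a ^ 3 := by rw [neg_sq, hr]
  have yX : yy r ∈ (X3 hs hp).cone := by
    rw [cone_X3]
    exact hyc r hr
  have yX' : yy (-r) ∈ (X3 hs hp).cone := by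
    rw [cone_X3]
    exact hyc (-r) hr'
  have s1 : Same (G (yy r)) (G (yy (-r))) := same_trans (same_symm (hpre r hr)) (hpre (-r) hr')
  have s2 := reg_same hF (hG.1 _ yX) (hG.1 _ yX') s1
  have s3 := same_trans (hFG _ yX) (same_trans s2 (same_symm (hFG _ yX')))
  obtain ⟨c, _, hc⟩ := s3
  have e2 := congrFun hc 2
  have e6 := congrFun hc 6
  rw [hyy] at e2 e6
  simp at e2 e6
  rw [← e2, one_mul] at e6
  have : 2 * r = 0 := by linear_combination -e6
  exact hr0 (by linear_combination this / 2)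

end Pool.VMR
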