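import Pool.Agent.H30.VMR.Eqs

/-!
# The modules of the proof, as propositions
-/

noncomputable section

namespace Pool.VMR

open MvPolynomial

variable {R : Type*} [CommRing R]

/-! ## Picard number one -/

/-- first coefficient of the conic bundle -/
def cc0 (a b : R) : R := a ^ 3 * b ^ 2 - b ^ 3 - a
/-- half of the second coefficient of the conic bundle -/
def cc1 (a b : R) : R := a * b ^ 2 - a ^ 4 * b + a ^ 2 * b ^ 2
/-- third coefficient of the conic bundle -/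
def cc2 (a b : R) : R := 1 - a ^ 2 * b + a ^ 5 - 2 * a ^ 3 * b + a * b ^ 2

/-- the quadratic polynomial `c0 + 2 c1 z + c2 z²` -/
def qz (c0 c1 c2 : R) : Polynomial R :=
  Polynomial.C c0 + Polynomial.C (2 * c1) * Polynomial.X + Polynomial.C c2 * Polynomial.X ^ 2

/-- the polynomial `w² - (c0 + 2 c1 z + c2 z²)` in `R[z][w]` -/
def qw (c0 c1 c2 : R) : Polynomial (Polynomial R) :=
  Polynomial.X ^ 2 - Polynomial.C (qz c0 c1 c2)

/-- the coordinate ring of the plane of the parameters `a, b` -/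
abbrev Rab : Type := MvPolynomial (Fin 2) ℂ

/-- the conic bundle over the plane -/
def qab : Polynomial (Polynomial Rab) := qw (cc0 (X 0) (X 1)) (cc1 (X 0) (X 1)) (cc2 (X 0) (X 1))

/-- MODULE C1 (vertical primes): every irreducible polynomial in `a, b` stays prime in
`ℂ[a,b][z][w] / (w² - (c0 + 2 c1 z + c2 z²))` -/
def VertS : Prop :=
  ∀ q : Rab, Irreducible q → (Ideal.span {qab, Polynomial.C (Polynomial.C q)}).IsPrime

/-- MODULE C2 (conics over a field): every nonzero prime of `K[z,w]/(w² - (c0 + 2 c1 z + c2 z²))`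
is the radical of a principal ideal -/
def FLS : Prop :=
  ∀ (K : Type) [Field K] [CharZero K] (c0 c1 c2 : K), c1 ^ 2 ≠ c0 * c2 →
    ∀ p : Ideal (Polynomial (Polynomial K)), p.IsPrime → qw c0 c1 c2 ∈ p →
      p ≠ Ideal.span {qw c0 c1 c2} → ∃ P, p = (Ideal.span {qw c0 c1 c2, P}).radical

/-- the conic bundle over the plane as a polynomial in `a, b, z, w` -/
def gw : MvPolynomial (Fin 4) ℂ :=
  X 3 ^ 2 - (cc0 (X 0) (X 1) + 2 * cc1 (X 0) (X 1) * X 2 + cc2 (X 0) (X 1) * X 2 ^ 2)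

/-- MODULE C3 (from C1 and C2): every prime bigger than `(gw)` contains a `P` outside `(gw)` such
that the radical of `(gw, P)` is prime -/
def StarS : Prop :=
  ∀ p : Ideal (MvPolynomial (Fin 4) ℂ), p.IsPrime → gw ∈ p → p ≠ Ideal.span {gw} →
    ∃ P ∈ p, P ∉ Ideal.span {gw} ∧ (Ideal.span {gw, P}).radical.IsPrime

/-- MODULE C4 (from B and C3) -/
def PicS : Prop := ∀ (hs : SmoothS) (hp : PrimesS), PicOne (X3 hs hp)

/-! ## The family of conics -/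

/-- the vertex of the projection that forgets `w` -/
def E6 : V 6 := Pi.single 6 1

/-- `η` and `θ` span a line of the threefold `f1 = f2 = 0` in projective 5-space, and are isotropic
for the third form, with product one -/
def NPair (η θ : V 6) : Prop :=
  η 6 = 0 ∧ θ 6 = 0 ∧ f1 η = 0 ∧ f1 θ = 0 ∧ b1 η θ = 0 ∧ f2 η = 0 ∧ f2 θ = 0 ∧ b2 η θ = 0 ∧
    f3 η = 0 ∧ f3 θ = 0 ∧ b3 η θ = 1

/-- the conic `(s,t) ↦ s² η + s t E6 + t² θ` -/
def par0 (η θ : V 6) : Par 6 2 := ![η, E6, θ]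

/-- a `3 × 3` minor of the coefficients -/
def mnr (f : Fin 3 → Fin 7 → R) (i j k : Fin 7) : R :=
  f 0 i * (f 1 j * f 2 k - f 1 k * f 2 j) - f 0 j * (f 1 i * f 2 k - f 1 k * f 2 i) +
    f 0 k * (f 1 i * f 2 j - f 1 j * f 2 i)

/-- the first six coordinates of the three coefficient vectors are linearly dependent -/
def MinZ (f : Fin 3 → Fin 7 → R) : Prop :=
  ∀ i j k : Fin 7, i ≠ 6 → j ≠ 6 → k ≠ 6 → mnr f i j k = 0

/-- a Plücker coordinate -/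
def pl (i j : Fin 7) (x y : Fin 7 → R) : R := x i * y j - x j * y i

/-- the line spanned by `x` and `y` is in the good chart iff this is nonzero -/
def hd (x y : Fin 7 → R) : R :=
  pl 2 3 x y * (pl 2 4 x y ^ 2 + 4 * pl 4 3 x y * pl 2 3 x y)

/-- the good part of the family of conics -/
def K0 (X : Mfd 6 3) : Set (Par 6 2) := {f ∈ ratCurves X 2 | MinZ f ∧ hd (f 0) (f 2) ≠ 0}

/-- the family of conics -/
def KK (X : Mfd 6 3) : Set (Par 6 2) :=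
  {f ∈ ratCurves X 2 | ∀ P, (∀ g ∈ K0 X, cev g P = 0) → cev f P = 0}

/-- MODULE D1 (normal form of the conics) -/
def NFS : Prop :=
  ∀ (hs : SmoothS) (hp : PrimesS), ∀ f ∈ ratCurves (X3 hs hp) 2, MinZ f →
    ∃ η θ : V 6, NPair η θ ∧ Rep (par0 η θ) f

/-- MODULE D2 (converse of D1) -/
def NFcS : Prop :=
  ∀ (hs : SmoothS) (hp : PrimesS) (η θ : V 6) (f : Par 6 2), NPair η θ → Rep (par0 η θ) f →
    f ∈ ratCurves (X3 hs hp) 2 ∧ MinZ f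

/-- first vector of the frame of the line with parameters `t1, t2, y1, y2` (entries 0 to 3 of
`w`), multiplied by `(t1 - t2)²` -/
def fr1 (w : Fin 11 → R) : Fin 7 → R :=
  ![(w 0 - w 1) ^ 2 * (w 0 * w 1) ^ 2,
    (w 0 - w 1) ^ 2 * (-2 * (w 0 * w 1) * (w 0 + w 1) + (w 0 + w 1) ^ 3) - (w 2 - w 3) ^ 2,
    (w 0 - w 1) ^ 2, 0, -((w 0 - w 1) ^ 2 * (w 0 * w 1)),
    (w 0 - w 1) * (w 0 * w 3 - w 1 * w 2), 0]

/-- second vector of the frame -/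
def fr2 (w : Fin 11 → R) : Fin 7 → R :=
  ![(w 2 - w 3) ^ 2 - (w 0 - w 1) ^ 2 * (w 0 + w 1) ^ 3, (w 0 - w 1) ^ 2 * (w 0 + w 1) ^ 2, 0,
    (w 0 - w 1) ^ 2, (w 0 - w 1) ^ 2 * (w 0 + w 1), (w 0 - w 1) * (w 2 - w 3), 0]

/-- the parameter space: `t1, t2, y1, y2, X0, Y0, w0` and a `2 × 2` matrix -/
def WS : Set (Fin 11 → ℂ) :=
  {w | w 2 ^ 2 = 1 + w 0 ^ 5 ∧ w 3 ^ 2 = 1 + w 1 ^ 5 ∧
    w 6 ^ 2 = f3 (fun i => w 4 * fr1 w i + w 5 * fr2 w i)}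

/-- MODULE D3 (the parameter space is irreducible) -/
def WIrrS : Prop :=
  ∀ P Q : MvPolynomial (Fin 11) ℂ, (∀ w ∈ WS, eval w P * eval w Q = 0) →
    (∀ w ∈ WS, eval w P = 0) ∨ (∀ w ∈ WS, eval w Q = 0)

/-- MODULE D4 (from D1, D2, D3) -/
def KIrrS : Prop := ∀ (hs : SmoothS) (hp : PrimesS), IrrPar (K0 (X3 hs hp))

/-- the base conic -/
def f00 : Par 6 2 := par0 ![-4, -4, 1, -2, 2, -1, 0] ![-2, -1, 0, -1, 1, -1, 0]

/-- MODULE D5 (deformations of the base conic) -/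
def NakS : Prop :=
  ∀ (hs : SmoothS) (hp : PrimesS) (T : Set (Par 6 2)), T ⊆ ratCurves (X3 hs hp) 2 → IrrPar T →
    f00 ∈ T → ∀ f ∈ T, MinZ f

/-- MODULE D6 (from D4, D5, D2) -/
def CompS : Prop := ∀ (hs : SmoothS) (hp : PrimesS), IsComp (X3 hs hp) 2 (KK (X3 hs hp))

/-! ## The general point -/

/-- forget `w` -/
def pr (x : V 6) : V 6 := Function.update x 6 0

/-- the span of `pr x` and `η` is contained in `f1 = f2 = 0` (for `x` in the cone) -/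
def LineDir (x η : V 6) : Prop := η 6 = 0 ∧ f1 η = 0 ∧ f2 η = 0 ∧ b1 x η = 0 ∧ b2 x η = 0

/-- the point `x` is good: finitely many lines pass through its projection, all good -/
def GoodPt (x : V 6) : Prop :=
  x ∈ Cone ∧ x 6 ≠ 0 ∧ ∃ S : Finset (V 6), S.Nonempty ∧
    (∀ ζ ∈ S, LineDir x ζ ∧ hd x ζ ≠ 0 ∧ b3 (pr x) ζ ^ 2 ≠ 4 * f3 (pr x) * f3 ζ) ∧
    ∀ η, LineDir x η → ∃ ζ ∈ S, η ∈ Submodule.span ℂ {pr x, ζ}

/-- `P` does not involve `w` -/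
def Indep (P : Po 6) : Prop := ∀ x y : V 6, (∀ i, i ≠ 6 → x i = y i) → eval x P = eval y P

/-- MODULE E1 (the general point is good) -/
def GenS : Prop :=
  ∃ P : Po 6, Indep P ∧ (∃ x ∈ Cone, eval x P ≠ 0) ∧
    ∀ x ∈ Cone, eval x P ≠ 0 → x 6 ≠ 0 → GoodPt x

/-- E1 with a homogeneous polynomial (follows from `GenS`, with F1) -/
def GenHS : Prop :=
  ∃ (k : ℕ) (P : Po 6), P.IsHomogeneous k ∧ Indep P ∧ (∃ x ∈ Cone, eval x P ≠ 0) ∧
    ∀ x ∈ Cone, eval x P ≠ 0 → x 6 ≠ 0 → GoodPt x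

/-- the tangent vectors of the conics through `x` -/
def Lc (x : V 6) : Set (V 6) := {v | f1 v = 0 ∧ f2 v = 0 ∧ b1 x v = 0 ∧ b2 x v = 0 ∧ b3 x v = 0}

/-- MODULE E2 (from D1, D2): the variety of minimal rational tangents -/
def VmrtS : Prop :=
  ∀ (hs : SmoothS) (hp : PrimesS), ∀ x ∈ Cone, vmrt (KK (X3 hs hp)) x ⊆ Lc x ∧
    (GoodPt x → vmrt (KK (X3 hs hp)) x = Lc x)

/-- MODULE E3 (from D1, D2): finiteness -/
def FinS : Prop :=
  ∀ (hs : SmoothS) (hp : PrimesS) (x : V 6), GoodPt x → (thr (KK (X3 hs hp)) x).Nonempty ∧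
    Finite (Quot fun f g : thr (KK (X3 hs hp)) x => Rep f.1 g.1)

/-- MODULE E4 (linearity) -/
def LinS : Prop :=
  ∀ (hs : SmoothS) (hp : PrimesS) (x : V 6), GoodPt x →
    (∃ S : Finset (Submodule ℂ (V 6)), Lc x = ⋃ L ∈ S, (L : Set (V 6))) ∧
      Lc x ≠ ((X3 hs hp).tan x : Set (V 6))

/-! ## The local map -/

/-- the automorphism `z4 ↦ -z4` of the ambient space -/
def gx (x : V 6) : V 6 := Function.update x 5 (-(x 5))

/-- MODULE F1 (the local lift) -/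
def LocS : Prop :=
  ∀ (hs : SmoothS) (hp : PrimesS) (k : ℕ) (P : Po 6), P.IsHomogeneous k → Indep P →
    (∃ x ∈ Cone, eval x P ≠ 0) →
    ∃ L : Loc (X3 hs hp), ∀ x ∈ L.U, eval x P ≠ 0 ∧ eval (L.φ x) P ≠ 0 ∧ x 6 ≠ 0 ∧
      L.φ x 6 ≠ 0 ∧ x 2 ≠ 0 ∧ eval x DD ≠ 0 ∧ (∀ i, i ≠ 6 → L.φ x i = gx x i) ∧
      ∃ Φ : V 6 → V 6, IsLift (X3 hs hp) L.φ Φ x ∧ Φ x = L.φ x ∧
        ∀ v : V 6, (∀ i, i ≠ 6 → fderiv ℂ Φ x v i = gx v i) ∧
          2 * L.φ x 6 * fderiv ℂ Φ x v 6 = b3 (gx (pr x)) (gx v)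

/-- MODULE F2: the tangent cones correspond -/
def PresS : Prop :=
  ∀ (x y : V 6) (T : V 6 →ₗ[ℂ] V 6), x ∈ Cone → y ∈ Cone → x 6 ≠ 0 → y 6 ≠ 0 →
    (∀ i, i ≠ 6 → y i = gx x i) → (∀ v i, i ≠ 6 → T v i = gx v i) →
    (∀ v, 2 * y 6 * T v 6 = b3 (gx (pr x)) (gx v)) →
    {w | ∃ v ∈ Lc x, ∃ c : ℂ, w = T v + c • y} = Lc y

/-- MODULE F3 (identity theorem) -/
def IdS : Prop :=
  PrimesS → ∀ (O : Set (V 6)), IsOpen O → ∀ x ∈ O, x ∈ Cone → x 2 ≠ 0 → eval x DD ≠ 0 → x 6 ≠ 0 →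
    ∀ P : Po 6, (∀ y ∈ O, y ∈ Cone → eval y P = 0) → ∀ y ∈ Cone, eval y P = 0

/-- MODULE F4 (from F3): the local map does not extend -/
def ExtS : Prop :=
  ∀ (hs : SmoothS) (hp : PrimesS) (L : Loc (X3 hs hp)),
    (∀ x ∈ L.U, x 2 ≠ 0 ∧ eval x DD ≠ 0 ∧ x 6 ≠ 0 ∧ ∀ i, i ≠ 6 → L.φ x i = gx x i) →
    ¬ Extends (X3 hs hp) L

end Pool.VMR
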