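import Pool.Agent.H30.VMR.Stm

/-!
# Polynomials vanishing on the cone
-/

noncomputable section

namespace Pool.VMR

open MvPolynomial

theorem F1_mem : F1 ∈ I0 := Ideal.subset_span (by simp)
theorem F2_mem : F2 ∈ I0 := Ideal.subset_span (by simp)
theorem F3_mem : F3 ∈ I0 := Ideal.subset_span (by simp)

/-- a member of the ideal vanishes on the cone -/
theorem eval_eq_zero_of_mem {P : Po 6} (hP : P ∈ I0) {x : V 6} (h1 : f1 x = 0) (h2 : f2 x = 0)
    (h3 : f3 x = 0) : eval x P = 0 := by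
  have hle : I0 ≤ RingHom.ker (eval x) := by
    rw [I0, Ideal.span_le]
    intro Q hQ
    simp only [Set.mem_insert_iff, Set.mem_singleton_iff] at hQ
    rcases hQ with rfl | rfl | rfl
    · show eval x F1 = 0
      rw [eval_F1, h1]
    · show eval x F2 = 0
      rw [eval_F2, h2]
    · show eval x F3 = 0
      rw [eval_F3, h3]
  exact hle hP

/-- the test point of the cone -/
def x11 : V 6 := ![1, 0, 1, 0, 1, 1, 1]

theorem x11_mem : x11 ∈ Cone := by
  refine ⟨?_, ?_, ?_, ?_⟩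
  · intro h
    have := congrFun h 0
    simp [x11] at this
  · simp [f1, x11]
  · simp [f2, x11]
  · simp [f3, x11]

theorem X2_notMem : (X 2 : Po 6) ∉ I0 := by
  intro h
  have := eval_eq_zero_of_mem h x11_mem.2.1 x11_mem.2.2.1 x11_mem.2.2.2
  simp [x11] at this

theorem DD_notMem : DD ∉ I0 := by
  intro h
  have := eval_eq_zero_of_mem h x11_mem.2.1 x11_mem.2.2.1 x11_mem.2.2.2
  simp [x11, DD] at this

/-- Nullstellensatz for a prime ideal -/
theorem mem_of_vanish_prime (I : Ideal (Po 6)) (hI : I.IsPrime) (P : Po 6)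
    (h : ∀ x : V 6, (∀ Q ∈ I, eval x Q = 0) → eval x P = 0) : P ∈ I := by
  have key := MvPolynomial.vanishingIdeal_zeroLocus_eq_radical (k := ℂ) (K := ℂ) I
  rw [hI.radical] at key
  rw [← key]
  rw [MvPolynomial.mem_vanishingIdeal_iff]
  intro x hx
  rw [MvPolynomial.mem_zeroLocus_iff] at hx
  have hc : ∀ Q : Po 6, aeval x Q = eval x Q := fun Q => by rw [← coe_aeval_eq_eval]; rfl
  rw [hc]
  exact h x fun Q hQ => by rw [← hc]; exact hx Q hQ

/-- a polynomial vanishing on the cone is in the ideal -/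
theorem mem_of_vanish (hp : PrimesS) {P : Po 6} (h : ∀ x ∈ Cone, eval x P = 0) : P ∈ I0 := by
  have h1 : X 2 * P ∈ I0 := by
    apply mem_of_vanish_prime I0 hp.1
    intro x hx
    rw [map_mul, eval_X]
    by_cases h2 : x 2 = 0
    · rw [h2, zero_mul]
    · rw [h x ⟨?_, ?_, ?_, ?_⟩, mul_zero]
      · rintro rfl
        exact h2 rfl
      · rw [← eval_F1]; exact hx _ F1_mem
      · rw [← eval_F2]; exact hx _ F2_mem
      · rw [← eval_F3]; exact hx _ F3_mem
  exact (hp.1.mem_or_mem h1).resolve_left X2_notMem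

/-- the cone is irreducible -/
theorem cone_irr (hp : PrimesS) {P Q : Po 6} (hP : ∃ x ∈ Cone, eval x P ≠ 0)
    (hQ : ∃ x ∈ Cone, eval x Q ≠ 0) : ∃ x ∈ Cone, eval x P ≠ 0 ∧ eval x Q ≠ 0 := by
  by_contra hcon
  have h : P * Q ∈ I0 := by
    apply mem_of_vanish hp
    intro x hx
    rw [map_mul]
    by_contra h0
    exact hcon ⟨x, hx, left_ne_zero_of_mul h0, right_ne_zero_of_mul h0⟩
  rcases hp.1.mem_or_mem h with h | h
  · obtain ⟨x, hx, h0⟩ := hP
    exact h0 (eval_eq_zero_of_mem h hx.2.1 hx.2.2.1 hx.2.2.2)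
  · obtain ⟨x, hx, h0⟩ := hQ
    exact h0 (eval_eq_zero_of_mem h hx.2.1 hx.2.2.1 hx.2.2.2)

end Pool.VMR
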